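import Pool.Agent.Y750.OM.Main1
import Pool.Agent.H345R2.A2.Four

set_option autoImplicit false

/-! # Statement in terms of finite sums over the zeros -/

namespace Pool.Agent.Y750.OM

open Complex Filter Topology Set MeasureTheory
open H370 (Zf mult mem_Zf good_zeta zset NN NN_eq)

/-- the zeros with ordinate in `(T, 2T]` -/
def BZ (T : ℝ) : Set ℂ :=
  {s : ℂ | (riemannZeta s = 0 ∧ 0 < s.re ∧ s.re < 1) ∧ T < s.im ∧ s.im ≤ 2 * T}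

lemma BZ_eq {T : ℝ} (hT : 1 ≤ T) : BZ T = ↑(Zf riemannZeta T (2 * T)) := by
  ext s
  rw [Finset.mem_coe, mem_Zf good_zeta hT]
  constructor
  · rintro ⟨⟨h1, h2, h3⟩, h4, h5⟩
    exact ⟨h2, h3, h4, h5, h1⟩
  · rintro ⟨h2, h3, h4, h5, h1⟩
    exact ⟨⟨h1, h2, h3⟩, h4, h5⟩

lemma conv_N {T : ℝ} (hT : 1 ≤ T) :
    ∑ᶠ s ∈ BZ T, (analyticOrderNatAt riemannZeta s : ℝ) = NN riemannZeta T (2 * T) := by
  rw [BZ_eq hT, finsum_mem_coe_finset, NN_eq good_zeta hT]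
  push_cast
  rfl

lemma conv_NO {T : ℝ} (hT : 1 ≤ T) :
    ∑ᶠ s ∈ {s : ℂ | s ∈ BZ T ∧ s.re ≠ 1 / 2}, (analyticOrderNatAt riemannZeta s : ℝ) =
      NO T (2 * T) := by
  classical
  have e : {s : ℂ | s ∈ BZ T ∧ s.re ≠ 1 / 2} =
      ↑((Zf riemannZeta T (2 * T)).filter (fun s => s.re ≠ 1 / 2)) := by
    rw [BZ_eq hT]
    ext s
    simp
  rw [e, finsum_mem_coe_finset]
  rfl

lemma conv_P {T : ℝ} (hT : 1 ≤ T) (F : ℝ → ℝ) :
    ∑ᶠ p ∈ {p : ℂ × ℂ | p.1 ∈ BZ T ∧ p.2 ∈ BZ T}, (analyticOrderNatAt riemannZeta p.1 : ℝ) *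
      (analyticOrderNatAt riemannZeta p.2 : ℝ) * F (p.1.im - p.2.im) =
    ∑ s ∈ Zf riemannZeta T (2 * T), ∑ s' ∈ Zf riemannZeta T (2 * T), (mult riemannZeta s : ℝ) *
      (mult riemannZeta s' : ℝ) * F (s.im - s'.im) := by
  classical
  have e : {p : ℂ × ℂ | p.1 ∈ BZ T ∧ p.2 ∈ BZ T} =
      ↑((Zf riemannZeta T (2 * T)) ×ˢ (Zf riemannZeta T (2 * T))) := by
    rw [BZ_eq hT]
    ext p
    simp
  rw [e, finsum_mem_coe_finset, Finset.sum_product]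
  rfl

/-- the bandlimited function with transform `r` -/
noncomputable def bl (r : ℝ → ℝ) (u : ℝ) : ℝ := ∫ α : ℝ, r α * Real.cos (2 * Real.pi * α * u)

lemma bl_eq (r : ℝ → ℝ) (x : ℝ) : bl r (x / (2 * Real.pi)) = rh r x := by
  unfold bl rh
  congr 1
  funext α
  have : 2 * Real.pi * α * (x / (2 * Real.pi)) = α * x := by
    have := Real.pi_pos
    field_simp
  rw [this]

lemma rh_of_bl {r : ℝ → ℝ} {A : ℝ} (h : ∀ u, |bl r u| * (1 + u ^ 2) ≤ A) (x : ℝ) :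
    |rh r x| * (1 + x ^ 2) ≤ (2 * Real.pi) ^ 2 * A := by
  have hpi := Real.pi_gt_three
  rw [← bl_eq]
  have h1 := h (x / (2 * Real.pi))
  have h2 : 1 + x ^ 2 ≤ (2 * Real.pi) ^ 2 * (1 + (x / (2 * Real.pi)) ^ 2) := by
    have e : (2 * Real.pi) ^ 2 * (1 + (x / (2 * Real.pi)) ^ 2) = (2 * Real.pi) ^ 2 + x ^ 2 := by
      field_simp
    rw [e]
    have : 1 ≤ (2 * Real.pi) ^ 2 := one_le_pow₀ (by linarith)
    linarith
  calc |bl r (x / (2 * Real.pi))| * (1 + x ^ 2) ≤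
      |bl r (x / (2 * Real.pi))| * ((2 * Real.pi) ^ 2 * (1 + (x / (2 * Real.pi)) ^ 2)) := by gcongr
    _ = (2 * Real.pi) ^ 2 * (|bl r (x / (2 * Real.pi))| * (1 + (x / (2 * Real.pi)) ^ 2)) := by ring
    _ ≤ _ := by gcongr

/-- the main term, as in the conjecture -/
theorem main_eq {r : ℝ → ℝ} (hr : Continuous r) {A : ℝ} (hA : ∀ u, |bl r u| * (1 + u ^ 2) ≤ A)
    (hz1 : ∀ x, 1 ≤ |x| → r x = 0) :
    bl r 0 + ∫ u : ℝ, bl r u * (1 - Real.sinc (Real.pi * u) ^ 2) =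
      r 0 + ∫ α : ℝ, |α| * r α := by
  have hpi := Real.pi_pos
  have e1 : ∀ u, bl r u = H370.A2.RR r 1 u := by
    intro u
    unfold bl H370.A2.RR
    exact whole_int one_pos fun α hα => by rw [hz1 α hα.le, zero_mul]
  have hC : ∀ x, |H370.A2.RR r 1 x| * x ^ 2 ≤ A := by
    intro x
    rw [← e1]
    refine le_trans ?_ (hA x)
    apply mul_le_mul_of_nonneg_left _ (abs_nonneg _)
    linarith
  have h := H370.A2.main_term hr hz1 le_rfl hC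
  have e2 : ∫ u : ℝ, bl r u * (1 - Real.sinc (Real.pi * u) ^ 2) =
      ∫ x, H370.A2.RR r 1 x * (1 - (Real.sin (Real.pi * x) / (Real.pi * x)) ^ 2) := by
    refine integral_congr_ae ?_
    have h0 : ∀ᵐ x : ℝ, x ≠ 0 := by
      rw [ae_iff]
      simp
    filter_upwards [h0] with x hx
    rw [e1, Real.sinc_of_ne_zero (by positivity)]
  have e3 : ∫ α : ℝ, |α| * r α = ∫ α in (-1 : ℝ)..1, |α| * r α :=
    whole_int one_pos fun α hα => by rw [hz1 α hα.le, mul_zero]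
  rw [e1, e2, e3]
  exact h

theorem lip_cont {r : ℝ → ℝ} {K : ℝ} (hlip : ∀ x y, |r x - r y| ≤ K * |x - y|) :
    Continuous r := by
  have hK : 0 ≤ K := by
    have h1 := hlip 1 0
    have h2 := abs_nonneg (r 1 - r 0)
    simp at h1
    linarith
  have : LipschitzWith K.toNNReal r := by
    refine LipschitzWith.of_dist_le_mul fun x y => ?_
    rw [Real.dist_eq, Real.dist_eq, Real.coe_toNNReal _ hK]
    exact hlip x y
  exact this.continuous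

theorem main_conv {κ0 : ℝ} (h0 : 0 < κ0) (h1 : κ0 < 2 / 3) : ∃ C θ : ℝ, 0 < C ∧ 0 < θ ∧
    ∀ δ : ℝ, 0 < δ → δ ≤ κ0 → ∀ r : ℝ → ℝ, (∃ K : ℝ, ∀ x y, |r x - r y| ≤ K * |x - y|) →
    (∀ α, δ < |α| → r α = 0) → (∃ A : ℝ, ∀ u, |bl r u| * (1 + u ^ 2) ≤ A) →
    ∀ R : ℝ, (∀ α, |r α| ≤ R) → ∀ ε : ℝ, 0 < ε → ∃ T0 : ℝ, ∀ T : ℝ, T0 ≤ T →
    |(∑ᶠ p ∈ {p : ℂ × ℂ | p.1 ∈ BZ T ∧ p.2 ∈ BZ T}, (analyticOrderNatAt riemannZeta p.1 : ℝ) *
      (analyticOrderNatAt riemannZeta p.2 : ℝ) *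
        bl r ((p.1.im - p.2.im) * Real.log T / (2 * Real.pi))) -
      (∑ᶠ s ∈ BZ T, (analyticOrderNatAt riemannZeta s : ℝ)) *
        (bl r 0 + ∫ u : ℝ, bl r u * (1 - Real.sinc (Real.pi * u) ^ 2))| ≤
      (C * R * δ ^ 3 * ((∑ᶠ s ∈ {s : ℂ | s ∈ BZ T ∧ s.re ≠ 1 / 2},
        (analyticOrderNatAt riemannZeta s : ℝ)) /
        (∑ᶠ s ∈ BZ T, (analyticOrderNatAt riemannZeta s : ℝ))) ^ θ + ε) *
        (∑ᶠ s ∈ BZ T, (analyticOrderNatAt riemannZeta s : ℝ)) := by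
  obtain ⟨C, θ, hC, hθ, h⟩ := pair_ord h0 h1
  refine ⟨C, θ, hC, hθ, fun δ hδ hδκ r hK hs hA R hR ε hε => ?_⟩
  obtain ⟨K, hK⟩ := hK
  obtain ⟨A, hA⟩ := hA
  obtain ⟨T0, hT0, h⟩ := h δ hδ hδκ r K hK hs _ (rh_of_bl hA) R hR ε hε
  refine ⟨T0, fun T hT => ?_⟩
  have hT1 : 1 ≤ T := by linarith
  rw [conv_N hT1, conv_NO hT1, main_eq (lip_cont hK) hA (fun x hx => hs x (by linarith)),
    conv_P hT1 (fun x => bl r (x * Real.log T / (2 * Real.pi)))]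
  simp_rw [bl_eq]
  exact h T hT

end Pool.Agent.Y750.OM
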