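import Mathlib

set_option autoImplicit false

/-! # Weighted local counts in terms of the moments of the local counts -/

namespace Pool.Agent.Y750.OM

open Complex Filter Topology Set MeasureTheory

/-- sums over distinct integers -/
theorem int_sum {δ : ℝ} (hδ : 0 < δ) (hδ1 : δ ≤ 1) (J : Finset ℤ) :
    ∑ j ∈ J, 1 / (1 + (δ * (j : ℝ)) ^ 2) ≤ 3 * Real.pi / δ := by
  classical
  set g : ℝ → ℝ := fun v => 3 * (1 + (δ * v) ^ 2)⁻¹ with hg
  have hg0 : ∀ v, 0 ≤ g v := fun v => by simp only [hg]; positivity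
  have hgi : Integrable g := by
    have h1 : Integrable (fun v : ℝ => (fun z : ℝ => (1 + z ^ 2)⁻¹) (δ * v)) :=
      integrable_inv_one_add_sq.comp_mul_left' hδ.ne'
    exact h1.const_mul 3
  have hgI : ∫ v, g v = 3 * Real.pi / δ := by
    simp only [hg]
    rw [integral_const_mul, Measure.integral_comp_mul_left (fun z : ℝ => (1 + z ^ 2)⁻¹) δ,
      integral_univ_inv_one_add_sq, abs_of_pos (by positivity), smul_eq_mul]
    field_simp
  have h1 : ∀ j : ℤ, 1 / (1 + (δ * (j : ℝ)) ^ 2) ≤
      ∫ v, (Set.Ico (j : ℝ) (j + 1)).indicator g v := by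
    intro j
    rw [integral_indicator measurableSet_Ico, integral_Ico_eq_integral_Ioc,
      ← intervalIntegral.integral_of_le (by linarith)]
    have hc : Continuous g := by
      simp only [hg]
      apply continuous_const.mul
      apply Continuous.inv₀ (by fun_prop)
      intro x
      positivity
    calc 1 / (1 + (δ * (j : ℝ)) ^ 2) = ∫ v in (j : ℝ)..(j + 1), 1 / (1 + (δ * (j : ℝ)) ^ 2) := by
          rw [intervalIntegral.integral_const, smul_eq_mul]
          ring
      _ ≤ _ := by
          refine intervalIntegral.integral_mono_on (by linarith)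
            (continuous_const.intervalIntegrable _ _) (hc.intervalIntegrable _ _) fun v hv => ?_
          simp only [hg]
          rw [← div_eq_mul_inv, div_le_div_iff₀ (by positivity) (by positivity)]
          have h2 : (δ * v - δ * j) ^ 2 ≤ 1 := by
            rw [← mul_sub, mul_pow]
            have h3 : (v - j) ^ 2 ≤ 1 := by
              have := hv.1
              have := hv.2
              nlinarith
            have h4 : δ ^ 2 ≤ 1 := by nlinarith
            have h5 : 0 ≤ (v - j) ^ 2 := sq_nonneg _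
            nlinarith
          nlinarith [sq_nonneg (δ * v - 2 * (δ * j))]
  calc ∑ j ∈ J, 1 / (1 + (δ * (j : ℝ)) ^ 2) ≤
      ∑ j ∈ J, ∫ v, (Set.Ico (j : ℝ) (j + 1)).indicator g v := Finset.sum_le_sum fun j _ => h1 j
    _ = ∫ v, ∑ j ∈ J, (Set.Ico (j : ℝ) (j + 1)).indicator g v :=
        (integral_finsetSum _ fun j _ => hgi.indicator measurableSet_Ico).symm
    _ ≤ ∫ v, g v := by
        refine integral_mono (integrable_finsetSum _ fun j _ => hgi.indicator measurableSet_Ico)
          hgi fun v => ?_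
        calc ∑ j ∈ J, (Set.Ico (j : ℝ) (j + 1)).indicator g v ≤
            ∑ j ∈ J, if j = ⌊v⌋ then g v else 0 := by
              refine Finset.sum_le_sum fun j _ => ?_
              by_cases h : v ∈ Set.Ico (j : ℝ) (j + 1)
              · rw [Set.indicator_of_mem h, if_pos]
                exact (Int.floor_eq_iff.2 h).symm
              · rw [Set.indicator_of_notMem h]
                split_ifs
                · exact hg0 v
                · exact le_rfl
          _ ≤ g v := by
              rw [Finset.sum_ite_eq']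
              split_ifs
              · exact le_rfl
              · exact hg0 v
    _ = _ := hgI

/-- Jensen -/
theorem jensen {ι : Type*} (K : Finset ι) (a f : ι → ℝ) (ha : ∀ i, 0 ≤ a i) (hf : ∀ i, 0 ≤ f i)
    (q : ℕ) {A : ℝ} (hA : ∑ i ∈ K, a i ≤ A) :
    (∑ i ∈ K, a i * f i) ^ (q + 1) ≤ A ^ q * ∑ i ∈ K, a i * f i ^ (q + 1) := by
  have hs0 : 0 ≤ ∑ i ∈ K, a i := Finset.sum_nonneg fun i _ => ha i
  have hr0 : 0 ≤ ∑ i ∈ K, a i * f i ^ (q + 1) :=
    Finset.sum_nonneg fun i _ => mul_nonneg (ha i) (pow_nonneg (hf i) _)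
  rcases hs0.eq_or_lt with h0 | h0
  · have h1 : ∀ i ∈ K, a i = 0 := (Finset.sum_eq_zero_iff_of_nonneg fun i _ => ha i).1 h0.symm
    have h2 : ∑ i ∈ K, a i * f i = 0 := Finset.sum_eq_zero fun i hi => by rw [h1 i hi, zero_mul]
    rw [h2, zero_pow (by omega)]
    have : 0 ≤ A := hs0.trans hA
    positivity
  · set s := ∑ i ∈ K, a i with hs
    have h1 := Real.pow_arith_mean_le_arith_mean_pow K (fun i => a i / s) f
      (fun i _ => div_nonneg (ha i) hs0) (by rw [← Finset.sum_div, ← hs, div_self h0.ne'])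
      (fun i _ => hf i) (q + 1)
    have e1 : ∑ i ∈ K, a i / s * f i = (∑ i ∈ K, a i * f i) / s := by
      rw [Finset.sum_div]
      exact Finset.sum_congr rfl fun i _ => by ring
    have e2 : ∑ i ∈ K, a i / s * f i ^ (q + 1) = (∑ i ∈ K, a i * f i ^ (q + 1)) / s := by
      rw [Finset.sum_div]
      exact Finset.sum_congr rfl fun i _ => by ring
    rw [e1, e2, div_pow, div_le_div_iff₀ (by positivity) h0] at h1
    have h2 : (∑ i ∈ K, a i * f i) ^ (q + 1) ≤ s ^ q * ∑ i ∈ K, a i * f i ^ (q + 1) := by
      have h3 : s ^ (q + 1) = s ^ q * s := pow_succ s q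
      rw [h3] at h1
      have h4 : (∑ i ∈ K, a i * f i) ^ (q + 1) * s ≤
          (s ^ q * ∑ i ∈ K, a i * f i ^ (q + 1)) * s := by linarith
      exact le_of_mul_le_mul_right h4 h0
    refine h2.trans ?_
    gcongr

/-- the cell of a zero -/
noncomputable def cell (L : ℝ) (s : ℂ) : ℤ := ⌊s.im * L⌋

/-- moments of the weighted local counts -/
theorem cell_moment (q : ℕ) : ∀ L δ : ℝ, 0 < L → 0 < δ → δ ≤ 1 →
    ∀ (S : Finset ℂ) (m : ℂ → ℝ), (∀ s, 0 ≤ m s) → ∀ M : ℝ, 0 ≤ M →
    ∫⁻ t : ℝ, ENNReal.ofReal ((∑ s ∈ S.filter (fun s => |s.im - t| ≤ 1 / L), m s) ^ (q + 2)) ≤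
      ENNReal.ofReal M →
    ∑ s ∈ S, m s * (δ * ∑ s' ∈ S, m s' * (1 / (1 + (δ * (L * (s.im - s'.im))) ^ 2))) ^ (q + 1) ≤
      2 * (9 * Real.pi) ^ (q + 1) * (L * M) := by
  classical
  intro L δ hL hδ hδ1 S m hm M hM hmom
  set K : Finset ℤ := S.image (cell L) with hK
  set n : ℤ → ℝ := fun k => ∑ s ∈ S.filter (fun s => cell L s = k), m s with hn
  have hn0 : ∀ k, 0 ≤ n k := fun k => Finset.sum_nonneg fun s _ => hm s
  have hmaps : ∀ s ∈ S, cell L s ∈ K := fun s hs => Finset.mem_image_of_mem _ hs
  have hfib : ∀ F : ℤ → ℝ, ∑ s ∈ S, m s * F (cell L s) = ∑ k ∈ K, n k * F k := by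
    intro F
    rw [← Finset.sum_fiberwise_of_maps_to hmaps]
    refine Finset.sum_congr rfl fun k _ => ?_
    simp only [hn]
    rw [Finset.sum_mul]
    refine Finset.sum_congr rfl fun s hs => ?_
    rw [(Finset.mem_filter.1 hs).2]
  -- the sum of the powers of the cell counts
  have hpow : ∑ k ∈ K, n k ^ (q + 2) ≤ L * M := by
    have h1 : ∀ k : ℤ, ∀ t ∈ Set.Ico ((k : ℝ) / L) (((k : ℝ) + 1) / L), n k ≤
        ∑ s ∈ S.filter (fun s => |s.im - t| ≤ 1 / L), m s := by
      intro k t ht
      simp only [hn]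
      apply Finset.sum_le_sum_of_subset_of_nonneg
      · intro s hs
        rw [Finset.mem_filter] at hs ⊢
        refine ⟨hs.1, ?_⟩
        have h2 := hs.2
        unfold cell at h2
        obtain ⟨h3, h4⟩ := Int.floor_eq_iff.1 h2
        have h5 : (k : ℝ) / L ≤ s.im := by rw [div_le_iff₀ hL]; exact h3
        have h6 : s.im < ((k : ℝ) + 1) / L := by rw [lt_div_iff₀ hL]; exact h4
        have h7 : ((k : ℝ) + 1) / L = (k : ℝ) / L + 1 / L := by ring
        have h8 := ht.1
        have h9 := ht.2
        rw [abs_le]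
        constructor <;> linarith
      · intro s _ _
        exact hm s
    have hone : (0 : ℝ) < 1 / L := by positivity
    have h2 : ENNReal.ofReal (∑ k ∈ K, n k ^ (q + 2) * (1 / L)) ≤ ENNReal.ofReal M := by
      calc ENNReal.ofReal (∑ k ∈ K, n k ^ (q + 2) * (1 / L)) =
          ∑ k ∈ K, ENNReal.ofReal (n k ^ (q + 2) * (1 / L)) := by
            rw [ENNReal.ofReal_sum_of_nonneg]
            intro k _
            have := hn0 k
            positivity
        _ = ∑ k ∈ K, ∫⁻ t : ℝ, (Set.Ico ((k : ℝ) / L) (((k : ℝ) + 1) / L)).indicator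
            (fun _ => ENNReal.ofReal (n k ^ (q + 2))) t := by
            refine Finset.sum_congr rfl fun k _ => ?_
            rw [lintegral_indicator measurableSet_Ico, setLIntegral_const, Real.volume_Ico,
              ← ENNReal.ofReal_mul (pow_nonneg (hn0 k) _)]
            congr 2
            ring
        _ = ∫⁻ t : ℝ, ∑ k ∈ K, (Set.Ico ((k : ℝ) / L) (((k : ℝ) + 1) / L)).indicator
            (fun _ => ENNReal.ofReal (n k ^ (q + 2))) t := by
            rw [lintegral_finsetSum]
            intro k _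
            exact measurable_const.indicator measurableSet_Ico
        _ ≤ ∫⁻ t : ℝ, ENNReal.ofReal ((∑ s ∈ S.filter (fun s => |s.im - t| ≤ 1 / L), m s) ^
              (q + 2)) := by
            refine lintegral_mono fun t => ?_
            calc
              ∑ k ∈ K, (Set.Ico ((k : ℝ) / L) (((k : ℝ) + 1) / L)).indicator
                  (fun _ => ENNReal.ofReal (n k ^ (q + 2))) t ≤
                ∑ k ∈ K, if k = ⌊t * L⌋ then ENNReal.ofReal ((∑ s ∈ S.filter
                  (fun s => |s.im - t| ≤ 1 / L), m s) ^ (q + 2)) else 0 := by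
                  refine Finset.sum_le_sum fun k _ => ?_
                  by_cases h : t ∈ Set.Ico ((k : ℝ) / L) (((k : ℝ) + 1) / L)
                  · rw [Set.indicator_of_mem h, if_pos]
                    · exact ENNReal.ofReal_le_ofReal (pow_le_pow_left₀ (hn0 k) (h1 k t h) _)
                    · symm
                      rw [Int.floor_eq_iff]
                      have h3 := h.1
                      have h4 := h.2
                      rw [div_le_iff₀ hL] at h3
                      rw [lt_div_iff₀ hL] at h4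
                      exact ⟨h3, h4⟩
                  · rw [Set.indicator_of_notMem h]
                    exact zero_le
              _ ≤ _ := by
                  rw [Finset.sum_ite_eq']
                  split_ifs
                  · exact le_rfl
                  · exact zero_le
        _ ≤ ENNReal.ofReal M := hmom
    rw [ENNReal.ofReal_le_ofReal_iff hM, ← Finset.sum_mul, mul_one_div, div_le_iff₀ hL] at h2
    linarith
  -- the kernel between cells
  set a : ℤ → ℤ → ℝ := fun k k' => 3 * (1 / (1 + (δ * ((k' - k : ℤ) : ℝ)) ^ 2)) with ha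
  have ha0 : ∀ k k', 0 ≤ a k k' := fun k k' => by simp only [ha]; positivity
  have hasym : ∀ k k', a k k' = a k' k := by
    intro k k'
    simp only [ha]
    push_cast
    have : (δ * ((k' : ℝ) - k)) ^ 2 = (δ * ((k : ℝ) - k')) ^ 2 := by ring
    rw [this]
  have hasum : ∀ k, ∑ k' ∈ K, a k k' ≤ 9 * Real.pi / δ := by
    intro k
    simp only [ha]
    rw [← Finset.mul_sum]
    have h1 : ∑ k' ∈ K, 1 / (1 + (δ * ((k' - k : ℤ) : ℝ)) ^ 2) =
        ∑ j ∈ K.image (fun k' => k' - k), 1 / (1 + (δ * (j : ℝ)) ^ 2) := by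
      symm
      apply Finset.sum_image
      intro x _ y _ hxy
      simpa using hxy
    rw [h1]
    have h2 := int_sum hδ hδ1 (K.image (fun k' => k' - k))
    calc 3 * ∑ j ∈ K.image (fun k' => k' - k), 1 / (1 + (δ * (j : ℝ)) ^ 2) ≤
        3 * (3 * Real.pi / δ) := by gcongr
      _ = _ := by ring
  have hW : ∀ s ∈ S, ∑ s' ∈ S, m s' * (1 / (1 + (δ * (L * (s.im - s'.im))) ^ 2)) ≤
      ∑ k' ∈ K, a (cell L s) k' * n k' := by
    intro s _
    have h1 : ∀ s' ∈ S, m s' * (1 / (1 + (δ * (L * (s.im - s'.im))) ^ 2)) ≤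
        m s' * a (cell L s) (cell L s') := by
      intro s' _
      refine mul_le_mul_of_nonneg_left ?_ (hm s')
      simp only [ha]
      rw [mul_one_div, div_le_div_iff₀ (by positivity) (by positivity)]
      unfold cell
      have h2 := Int.floor_le (s.im * L)
      have h3 := Int.lt_floor_add_one (s.im * L)
      have h4 := Int.floor_le (s'.im * L)
      have h5 := Int.lt_floor_add_one (s'.im * L)
      push_cast
      set k : ℝ := (⌊s.im * L⌋ : ℝ)
      set k' : ℝ := (⌊s'.im * L⌋ : ℝ)
      have h6 : (δ * (k' - k) + δ * (L * (s.im - s'.im))) ^ 2 ≤ 1 := by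
        have e : δ * (k' - k) + δ * (L * (s.im - s'.im)) =
            δ * ((k' - k) + L * (s.im - s'.im)) := by ring
        rw [e, mul_pow]
        have h7 : ((k' - k) + L * (s.im - s'.im)) ^ 2 ≤ 1 := by
          apply sq_le_one_iff_abs_le_one _ |>.2
          rw [abs_le]
          constructor <;> linarith
        have h8 : δ ^ 2 ≤ 1 := by nlinarith
        have h9 : 0 ≤ ((k' - k) + L * (s.im - s'.im)) ^ 2 := sq_nonneg _
        nlinarith
      nlinarith [sq_nonneg (δ * (k' - k) + 2 * (δ * (L * (s.im - s'.im))))]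
    refine (Finset.sum_le_sum h1).trans (le_of_eq ?_)
    rw [hfib (fun k' => a (cell L s) k')]
    exact Finset.sum_congr rfl fun k' _ => mul_comm _ _
  calc ∑ s ∈ S, m s * (δ * ∑ s' ∈ S, m s' * (1 / (1 + (δ * (L * (s.im - s'.im))) ^ 2))) ^ (q + 1)
      ≤ ∑ s ∈ S, m s * (fun k => δ ^ (q + 1) * ((9 * Real.pi / δ) ^ q *
          ∑ k' ∈ K, a k k' * n k' ^ (q + 1))) (cell L s) := by
        refine Finset.sum_le_sum fun s hs => ?_
        refine mul_le_mul_of_nonneg_left ?_ (hm s)
        rw [mul_pow]
        refine mul_le_mul_of_nonneg_left ?_ (by positivity)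
        refine le_trans (pow_le_pow_left₀ (Finset.sum_nonneg fun s' _ =>
          mul_nonneg (hm s') (by positivity)) (hW s hs) _) ?_
        exact jensen K (a (cell L s)) n (ha0 _) hn0 q (hasum _)
    _ = ∑ k ∈ K, n k * (δ ^ (q + 1) * ((9 * Real.pi / δ) ^ q *
          ∑ k' ∈ K, a k k' * n k' ^ (q + 1))) :=
        hfib (fun k => δ ^ (q + 1) * ((9 * Real.pi / δ) ^ q *
          ∑ k' ∈ K, a k k' * n k' ^ (q + 1)))
    _ = δ ^ (q + 1) * (9 * Real.pi / δ) ^ q * ∑ k ∈ K, ∑ k' ∈ K,
          a k k' * (n k * n k' ^ (q + 1)) := by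
        rw [Finset.mul_sum]
        refine Finset.sum_congr rfl fun k _ => ?_
        simp only [Finset.mul_sum]
        refine Finset.sum_congr rfl fun k' _ => ?_
        ring
    _ ≤ δ ^ (q + 1) * (9 * Real.pi / δ) ^ q * ∑ k ∈ K, ∑ k' ∈ K,
          (a k k' * n k ^ (q + 2) + a k k' * n k' ^ (q + 2)) := by
        refine mul_le_mul_of_nonneg_left (Finset.sum_le_sum fun k _ => Finset.sum_le_sum
          fun k' _ => ?_) (by positivity)
        rw [← mul_add]
        refine mul_le_mul_of_nonneg_left ?_ (ha0 _ _)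
        have p1 := hn0 k
        have p2 := hn0 k'
        rcases le_total (n k) (n k') with h | h
        · calc n k * n k' ^ (q + 1) ≤ n k' * n k' ^ (q + 1) := by gcongr
            _ = n k' ^ (q + 2) := by ring
            _ ≤ _ := by have : 0 ≤ n k ^ (q + 2) := by positivity
                        linarith
        · calc n k * n k' ^ (q + 1) ≤ n k * n k ^ (q + 1) := by gcongr
            _ = n k ^ (q + 2) := by ring
            _ ≤ _ := by have : 0 ≤ n k' ^ (q + 2) := by positivity
                        linarith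
    _ = δ ^ (q + 1) * (9 * Real.pi / δ) ^ q * (2 * ∑ k ∈ K, (∑ k' ∈ K, a k k') *
          n k ^ (q + 2)) := by
        congr 1
        simp_rw [Finset.sum_add_distrib]
        rw [Finset.sum_comm (f := fun k k' => a k k' * n k' ^ (q + 2))]
        have e1 : ∑ y ∈ K, ∑ x ∈ K, a x y * n y ^ (q + 2) =
            ∑ k ∈ K, (∑ k' ∈ K, a k k') * n k ^ (q + 2) := by
          refine Finset.sum_congr rfl fun y _ => ?_
          rw [Finset.sum_mul]
          exact Finset.sum_congr rfl fun x _ => by rw [hasym]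
        have e2 : ∑ x ∈ K, ∑ y ∈ K, a x y * n x ^ (q + 2) =
            ∑ k ∈ K, (∑ k' ∈ K, a k k') * n k ^ (q + 2) :=
          Finset.sum_congr rfl fun y _ => by rw [Finset.sum_mul]
        rw [e1, e2]
        ring
    _ ≤ δ ^ (q + 1) * (9 * Real.pi / δ) ^ q * (2 * ∑ k ∈ K, (9 * Real.pi / δ) *
          n k ^ (q + 2)) := by
        refine mul_le_mul_of_nonneg_left ?_ (by positivity)
        refine mul_le_mul_of_nonneg_left (Finset.sum_le_sum fun k _ => ?_) (by norm_num)
        exact mul_le_mul_of_nonneg_right (hasum k) (pow_nonneg (hn0 k) _)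
    _ = 2 * (9 * Real.pi) ^ (q + 1) * ∑ k ∈ K, n k ^ (q + 2) := by
        rw [← Finset.mul_sum]
        have h1 : δ ^ (q + 1) * (9 * Real.pi / δ) ^ q * (9 * Real.pi / δ) = (9 * Real.pi) ^ (q + 1) := by
          rw [mul_assoc, ← pow_succ, ← mul_pow]
          congr 1
          field_simp
        linear_combination (2 * ∑ k ∈ K, n k ^ (q + 2)) * h1
    _ ≤ _ := by gcongr

end Pool.Agent.Y750.OM
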