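import Pool.Agent.Y750.OM.Main6

set_option autoImplicit false

/-! # Statement in terms of finite sums over the zeros, full range -/

namespace Pool.Agent.Y750.OM

open Complex Filter Topology Set MeasureTheory
open H370 (Zf mult mem_Zf good_zeta zset NN NN_eq)

lemma conv_close {T : ℝ} (hT : 2 ≤ T) (a : ℝ) :
    ∑ᶠ p ∈ {p : ℂ × ℂ | p.1 ∈ BZ T ∧ p.2 ∈ BZ T ∧
      |p.1.im - p.2.im| ≤ 2 * Real.pi * a / Real.log T}, (analyticOrderNatAt riemannZeta p.1 : ℝ) *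
      (analyticOrderNatAt riemannZeta p.2 : ℝ) =
    PO (fun x => if |x| ≤ 2 * Real.pi * a then 1 else 0) T (2 * T) (Real.log T) := by
  classical
  have hL : 0 < Real.log T := Real.log_pos (by linarith)
  have e : {p : ℂ × ℂ | p.1 ∈ BZ T ∧ p.2 ∈ BZ T ∧
      |p.1.im - p.2.im| ≤ 2 * Real.pi * a / Real.log T} =
      ↑(((Zf riemannZeta T (2 * T)) ×ˢ (Zf riemannZeta T (2 * T))).filter
        (fun p => |(p.1.im - p.2.im) * Real.log T| ≤ 2 * Real.pi * a)) := by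
    rw [BZ_eq (by linarith)]
    ext p
    simp only [Set.mem_ofPred_eq, Finset.coe_filter, Finset.mem_product, Finset.mem_coe]
    rw [abs_mul, abs_of_pos hL, le_div_iff₀ hL]
    tauto
  rw [e, finsum_mem_coe_finset, Finset.sum_filter, Finset.sum_product]
  unfold PO
  refine Finset.sum_congr rfl fun s _ => Finset.sum_congr rfl fun s' _ => ?_
  show (if |(s.im - s'.im) * Real.log T| ≤ 2 * Real.pi * a then
    (mult riemannZeta s : ℝ) * (mult riemannZeta s' : ℝ) else 0) = (mult riemannZeta s : ℝ) *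
    (mult riemannZeta s' : ℝ) * (if |(s.im - s'.im) * Real.log T| ≤ 2 * Real.pi * a then 1 else 0)
  split_ifs
  · rw [mul_one]
  · rw [mul_zero]

/-- abbreviations -/
noncomputable def Nz (T : ℝ) : ℝ := ∑ᶠ s ∈ BZ T, (analyticOrderNatAt riemannZeta s : ℝ)

noncomputable def Nof (T : ℝ) : ℝ :=
  ∑ᶠ s ∈ {s : ℂ | s ∈ BZ T ∧ s.re ≠ 1 / 2}, (analyticOrderNatAt riemannZeta s : ℝ)

noncomputable def PS (f : ℝ → ℝ) (T : ℝ) : ℝ :=
  ∑ᶠ p ∈ {p : ℂ × ℂ | p.1 ∈ BZ T ∧ p.2 ∈ BZ T}, (analyticOrderNatAt riemannZeta p.1 : ℝ) *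
    (analyticOrderNatAt riemannZeta p.2 : ℝ) * f ((p.1.im - p.2.im) * Real.log T / (2 * Real.pi))

noncomputable def CP (a T : ℝ) : ℝ :=
  ∑ᶠ p ∈ {p : ℂ × ℂ | p.1 ∈ BZ T ∧ p.2 ∈ BZ T ∧
    |p.1.im - p.2.im| ≤ 2 * Real.pi * a / Real.log T}, (analyticOrderNatAt riemannZeta p.1 : ℝ) *
    (analyticOrderNatAt riemannZeta p.2 : ℝ)

lemma PS_eq {T : ℝ} (hT : 1 ≤ T) (r : ℝ → ℝ) :
    PS (bl r) T = PO (rh r) T (2 * T) (Real.log T) := by
  unfold PS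
  rw [conv_P hT (fun x => bl r (x * Real.log T / (2 * Real.pi)))]
  simp_rw [bl_eq]
  rfl

theorem full_conv {κ0 κ1 : ℝ} (h0 : 0 < κ0) (h1 : κ0 < 2 / 3) (h2 : κ0 < κ1) (h3 : κ1 < 1) :
    ∃ θ : ℝ, 0 < θ ∧ ∀ r : ℝ → ℝ, (∃ K : ℝ, ∀ x y, |r x - r y| ≤ K * |x - y|) →
    (∀ α, κ1 < |α| → r α = 0) → (∃ A : ℝ, ∀ u, |bl r u| * (1 + u ^ 2) ≤ A) →
    ∀ ε : ℝ, 0 < ε →
    ((∀ α, κ0 < |α| → 0 ≤ r α) → ∃ C T0 : ℝ, ∀ T : ℝ, T0 ≤ T →
      PS (bl r) T ≤ ((bl r 0 + ∫ u : ℝ, bl r u * (1 - Real.sinc (Real.pi * u) ^ 2)) + ε +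
        C * (Nof T / Nz T) ^ θ) * Nz T) ∧
    ((∀ α, κ0 < |α| → r α ≤ 0) → ∃ C T0 : ℝ, ∀ T : ℝ, T0 ≤ T →
      ((bl r 0 + ∫ u : ℝ, bl r u * (1 - Real.sinc (Real.pi * u) ^ 2)) - ε -
        C * (Nof T / Nz T) ^ θ) * Nz T ≤ PS (bl r) T) := by
  obtain ⟨θ, hθ, h⟩ := mixed_up h0 h1 h2 h3
  refine ⟨θ, hθ, fun r hK hs hA ε hε => ?_⟩
  obtain ⟨K, hK⟩ := hK
  obtain ⟨A, hA⟩ := hA
  have hm := main_eq (lip_cont hK) hA (fun x hx => hs x (by linarith))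
  constructor
  · intro hpos
    obtain ⟨C, T0, -, hT0, h⟩ := h r K hK hs hpos _ (rh_of_bl hA) ε hε
    refine ⟨C, T0, fun T hT => ?_⟩
    have hT1 : 1 ≤ T := by linarith
    rw [PS_eq hT1, hm, Nz, Nof, conv_N hT1, conv_NO hT1]
    exact (h T hT).trans (le_of_eq (mul_comm _ _))
  · intro hneg
    have e1 : ∀ x, rh (fun α => -r α) x = -rh r x := by
      intro x
      unfold rh
      rw [← integral_neg]
      refine integral_congr_ae (Eventually.of_forall fun α => ?_)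
      simp only
      ring
    have e2 : ∫ α : ℝ, |α| * (-r α) = -∫ α : ℝ, |α| * r α := by
      rw [← integral_neg]
      refine integral_congr_ae (Eventually.of_forall fun α => ?_)
      simp only
      ring
    obtain ⟨C, T0, -, hT0, h⟩ := h (fun α => -r α) K (by
      intro x y
      have e : -r x - -r y = -(r x - r y) := by ring
      rw [e, abs_neg]
      exact hK x y) (fun α hα => by
        show -r α = 0
        rw [hs α hα, neg_zero]) (fun α hα => by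
        have := hneg α hα
        show 0 ≤ -r α
        linarith) _ (fun x => by
        rw [e1, abs_neg]
        exact rh_of_bl hA x) ε hε
    refine ⟨C, T0, fun T hT => ?_⟩
    have hT1 : 1 ≤ T := by linarith
    rw [PS_eq hT1, hm, Nz, Nof, conv_N hT1, conv_NO hT1]
    have h5 := h T hT
    rw [PO_neg e1, e2] at h5
    have h6 : ((r 0 + ∫ α : ℝ, |α| * r α) - ε -
        C * (NO T (2 * T) / NN riemannZeta T (2 * T)) ^ θ) * NN riemannZeta T (2 * T) =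
        -(NN riemannZeta T (2 * T) * ((-r 0 + -∫ α : ℝ, |α| * r α) + ε +
        C * (NO T (2 * T) / NN riemannZeta T (2 * T)) ^ θ)) := by ring
    rw [h6]
    linarith

theorem close_conv {a : ℝ} (ha : Real.pi ^ 2 * a ^ 2 < 3) {ε : ℝ} (hε : 0 < ε)
    (ha0 : 0 ≤ a) : ∃ C θ T0 : ℝ, 0 < θ ∧ ∀ T : ℝ, T0 ≤ T →
    CP a T ≤ (4 / (3 - Real.pi ^ 2 * a ^ 2) + ε + C * (Nof T / Nz T) ^ θ) * Nz T := by
  obtain ⟨C, θ, T0, -, hθ, hT0, h⟩ := close_pairs ha0 ha hε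
  refine ⟨C, θ, T0, hθ, fun T hT => ?_⟩
  have hT1 : 2 ≤ T := by linarith
  rw [CP, conv_close hT1, Nz, Nof, conv_N (by linarith), conv_NO (by linarith)]
  exact (h T hT).trans (le_of_eq (mul_comm _ _))

end Pool.Agent.Y750.OM
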