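import Pool.Agent.TH850.UR.ExpMom
import Pool.Agent.Y24.F2

set_option autoImplicit false

/-! # Exponential moments of the distances of the zeros from the line, all exponents below `4/3` -/

namespace Pool.Agent.Y750.OM

open Complex Set
open scoped ComplexConjugate
open Pool.Agent.TH850.UR (ew)
open H370 (Zf mult mem_Zf good_zeta zset mult_refl sum_refl)

/-- zeros of the dyadic block far to the right -/
theorem right_count {c : ℝ} (hc0 : 0 ≤ c) (hc : c < 4 / 3) : ∃ C : ℝ, 0 < C ∧ ∀ T : ℝ, 10 ≤ T →
    ∀ x : ℝ, 0 ≤ x → ∑ s ∈ (Zf riemannZeta T (2 * T)).filter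
      (fun s => x ≤ (s.re - 1 / 2) * Real.log T), (mult riemannZeta s : ℝ) ≤
      C * (T * Real.log T) * Real.exp (-(c * x)) := by
  classical
  obtain ⟨C, hC, h⟩ := Pool.Agent.Y24.density hc
  refine ⟨4 * C, by positivity, fun T hT x hx => ?_⟩
  have hT0 : 0 < T := by linarith
  have hL0 : 0 < Real.log T := Real.log_pos (by linarith)
  set L := Real.log T with hL
  rcases lt_or_ge (L / 2) x with hxL | hxL
  · have he : (Zf riemannZeta T (2 * T)).filter (fun s => x ≤ (s.re - 1 / 2) * L) = ∅ := by
      rw [Finset.filter_eq_empty_iff]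
      intro s hs
      rw [mem_Zf good_zeta (by linarith)] at hs
      obtain ⟨h1, h2, h3, h4, h5⟩ := hs
      rw [not_le]
      have : (s.re - 1 / 2) * L ≤ 1 / 2 * L := by
        apply mul_le_mul_of_nonneg_right _ hL0.le
        linarith
      linarith
    rw [he, Finset.sum_empty]
    positivity
  · set σ := 1 / 2 + x / L with hσ
    have hσ1 : 1 / 2 ≤ σ := by rw [hσ]; have : 0 ≤ x / L := by positivity
                               linarith
    have hσ2 : σ ≤ 1 := by
      rw [hσ]
      have : x / L ≤ 1 / 2 := by rw [div_le_iff₀ hL0]; linarith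
      linarith
    obtain ⟨hfin, hb⟩ := h σ (2 * T) hσ1 hσ2 (by linarith)
    have h1 : ∑ s ∈ (Zf riemannZeta T (2 * T)).filter (fun s => x ≤ (s.re - 1 / 2) * L),
        (mult riemannZeta s : ℝ) ≤
        ∑ᶠ ρ ∈ Pool.Agent.Y24.ZZ σ (2 * T), (analyticOrderNatAt riemannZeta ρ : ℝ) := by
      rw [finsum_mem_eq_finite_toFinset_sum _ hfin]
      apply Finset.sum_le_sum_of_subset_of_nonneg
      · intro s hs
        rw [Finset.mem_filter, mem_Zf good_zeta (by linarith)] at hs
        obtain ⟨⟨h1, h2, h3, h4, h5⟩, h6⟩ := hs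
        rw [Set.Finite.mem_toFinset]
        refine ⟨h5, ?_, by linarith, h4⟩
        rw [hσ]
        have : x / L ≤ s.re - 1 / 2 := by rw [div_le_iff₀ hL0]; exact h6
        linarith
      · intro _ _ _
        exact Nat.cast_nonneg _
    refine h1.trans (hb.trans ?_)
    have e1 : σ - 1 / 2 = x / L := by rw [hσ]; ring
    rw [e1]
    have e2 : (2 * T) ^ (1 - c * (x / L)) ≤ 2 * T * Real.exp (-(c * x)) := by
      rw [sub_eq_add_neg, Real.rpow_add (by linarith), Real.rpow_one]
      apply mul_le_mul_of_nonneg_left _ (by linarith)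
      calc (2 * T) ^ (-(c * (x / L))) ≤ T ^ (-(c * (x / L))) :=
            Real.rpow_le_rpow_of_nonpos hT0 (by linarith) (by
              have : 0 ≤ c * (x / L) := by positivity
              linarith)
        _ = Real.exp (-(c * x)) := by
            rw [Real.rpow_def_of_pos hT0, ← hL]
            congr 1
            field_simp
    have e3 : Real.log (2 * T) ≤ 2 * L := by
      rw [Real.log_mul (by norm_num) hT0.ne', ← hL]
      have : Real.log 2 ≤ L := Real.log_le_log (by norm_num) (by linarith)
      linarith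
    calc C * (2 * T) ^ (1 - c * (x / L)) * Real.log (2 * T) ≤
        C * (2 * T * Real.exp (-(c * x))) * (2 * L) := by
          have : 0 ≤ Real.log (2 * T) := Real.log_nonneg (by linarith)
          gcongr
      _ = _ := by ring

/-- zeros of the dyadic block far from the line -/
theorem far_count {c : ℝ} (hc0 : 0 ≤ c) (hc : c < 4 / 3) : ∃ C : ℝ, 0 < C ∧ ∀ T : ℝ, 10 ≤ T →
    ∀ x : ℝ, 0 ≤ x → ∑ s ∈ (Zf riemannZeta T (2 * T)).filter
      (fun s => x ≤ |s.re - 1 / 2| * Real.log T), (mult riemannZeta s : ℝ) ≤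
      C * (T * Real.log T) * Real.exp (-(c * x)) := by
  classical
  obtain ⟨C, hC, h⟩ := right_count hc0 hc
  refine ⟨2 * C, by positivity, fun T hT x hx => ?_⟩
  have hL0 : 0 < Real.log T := Real.log_pos (by linarith)
  set L := Real.log T with hL
  set f : ℂ → ℝ := fun s => if x ≤ (s.re - 1 / 2) * L then (mult riemannZeta s : ℝ) else 0 with hf
  have h1 : ∑ s ∈ (Zf riemannZeta T (2 * T)).filter (fun s => x ≤ |s.re - 1 / 2| * L),
      (mult riemannZeta s : ℝ) ≤ ∑ s ∈ Zf riemannZeta T (2 * T), (f s + f (1 - conj s)) := by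
    rw [Finset.sum_filter]
    refine Finset.sum_le_sum fun s hs => ?_
    rw [mem_Zf good_zeta (by linarith)] at hs
    obtain ⟨g1, g2, g3, g4, g5⟩ := hs
    have hm := mult_refl good_zeta g1 g2 (by linarith : 1 ≤ s.im)
    have hre : (1 - conj s).re = 1 - s.re := by simp
    have hf0 : ∀ s, 0 ≤ f s := by
      intro s; simp only [hf]; split_ifs
      · exact Nat.cast_nonneg _
      · exact le_rfl
    split_ifs with hcase
    · rcases le_total 0 (s.re - 1 / 2) with h2 | h2
      · rw [abs_of_nonneg h2] at hcase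
        have : f s = (mult riemannZeta s : ℝ) := by simp only [hf]; rw [if_pos hcase]
        linarith [hf0 (1 - conj s)]
      · rw [abs_of_nonpos h2] at hcase
        have : f (1 - conj s) = (mult riemannZeta s : ℝ) := by
          simp only [hf]
          rw [if_pos (by rw [hre]; linarith [hcase, show -(s.re - 1 / 2) * L = (1 - s.re - 1 / 2) * L by ring]),
            hm]
        linarith [hf0 s]
    · linarith [hf0 s, hf0 (1 - conj s)]
  refine h1.trans ?_
  rw [Finset.sum_add_distrib, sum_refl good_zeta (by linarith) f]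
  have h2 := h T hT x hx
  rw [Finset.sum_filter] at h2
  simp only [hf]
  linarith

/-- the exponential moment -/
theorem expm {κ : ℝ} (hκ0 : 0 ≤ κ) (hκ : κ < 4 / 3) : ∃ C : ℝ, 0 < C ∧ ∀ T : ℝ, 10 ≤ T →
    ∑ s ∈ Zf riemannZeta T (2 * T), (mult riemannZeta s : ℝ) * ew κ (Real.log T) s ≤
      C * (T * Real.log T) := by
  classical
  set c := (κ + 4 / 3) / 2 with hc
  obtain ⟨C, hC, h⟩ := far_count (c := c) (by positivity) (by rw [hc]; linarith)
  set d := c - κ with hd
  have hd0 : 0 < d := by rw [hd, hc]; linarith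
  have hq : Real.exp (-d) < 1 := Real.exp_lt_one_iff.2 (by linarith)
  refine ⟨C * Real.exp κ / (1 - Real.exp (-d)), div_pos (by positivity) (by linarith),
    fun T hT => ?_⟩
  have hT0 : 0 < T := by linarith
  have hL0 : 0 < Real.log T := Real.log_pos (by linarith)
  set L := Real.log T with hL
  set nn : ℂ → ℕ := fun s => ⌊|s.re - 1 / 2| * L⌋₊ with hnn
  set S := Zf riemannZeta T (2 * T) with hS
  obtain ⟨N, hN⟩ : ∃ N : ℕ, ∀ s ∈ S, nn s ≤ N := by
    refine ⟨S.sup nn, fun s hs => Finset.le_sup hs⟩
  have hmaps : ∀ s ∈ S, nn s ∈ Finset.range (N + 1) := by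
    intro s hs
    rw [Finset.mem_range, Nat.lt_succ_iff]
    exact hN s hs
  have hw : ∀ s ∈ S, ew κ L s ≤ Real.exp (κ * ((nn s : ℝ) + 1)) := by
    intro s hs
    unfold ew
    apply Real.exp_le_exp.2
    have h7 := Nat.lt_floor_add_one (|s.re - 1 / 2| * L)
    exact mul_le_mul_of_nonneg_left h7.le hκ0
  have hcl : ∀ k ∈ Finset.range (N + 1), ∑ s ∈ S.filter (fun s => nn s = k),
      (mult riemannZeta s : ℝ) ≤ C * (T * L) * Real.exp (-(c * k)) := by
    intro k hk
    refine le_trans ?_ (h T hT k (Nat.cast_nonneg k))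
    apply Finset.sum_le_sum_of_subset_of_nonneg
    · intro s hs
      rw [Finset.mem_filter] at hs ⊢
      refine ⟨hs.1, ?_⟩
      have h8 : (nn s : ℝ) ≤ |s.re - 1 / 2| * L := Nat.floor_le (by positivity)
      rwa [hs.2] at h8
    · intro _ _ _
      exact Nat.cast_nonneg _
  calc ∑ s ∈ S, (mult riemannZeta s : ℝ) * ew κ L s
      = ∑ k ∈ Finset.range (N + 1), ∑ s ∈ S.filter (fun s => nn s = k),
          (mult riemannZeta s : ℝ) * ew κ L s := (Finset.sum_fiberwise_of_maps_to hmaps _).symm
    _ ≤ ∑ k ∈ Finset.range (N + 1), ∑ s ∈ S.filter (fun s => nn s = k),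
          (mult riemannZeta s : ℝ) * Real.exp (κ * ((k : ℝ) + 1)) := by
        refine Finset.sum_le_sum fun k _ => Finset.sum_le_sum fun s hs => ?_
        rw [Finset.mem_filter] at hs
        have := hw s hs.1
        rw [hs.2] at this
        exact mul_le_mul_of_nonneg_left this (Nat.cast_nonneg _)
    _ ≤ ∑ k ∈ Finset.range (N + 1), C * (T * L) * Real.exp κ * Real.exp (-d) ^ k := by
        refine Finset.sum_le_sum fun k hk => ?_
        rw [← Finset.sum_mul]
        calc (∑ s ∈ S.filter (fun s => nn s = k), (mult riemannZeta s : ℝ)) *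
              Real.exp (κ * ((k : ℝ) + 1)) ≤
            (C * (T * L) * Real.exp (-(c * k))) * Real.exp (κ * ((k : ℝ) + 1)) :=
              mul_le_mul_of_nonneg_right (hcl k hk) (Real.exp_pos _).le
          _ = C * (T * L) * Real.exp κ * Real.exp (-d) ^ k := by
              rw [mul_assoc, ← Real.exp_add, mul_assoc (C * (T * L)), ← Real.exp_nat_mul,
                ← Real.exp_add]
              congr 2
              rw [hd]
              ring
    _ = C * (T * L) * Real.exp κ * ∑ k ∈ Finset.range (N + 1), Real.exp (-d) ^ k := by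
        rw [Finset.mul_sum]
    _ ≤ C * (T * L) * Real.exp κ * (1 - Real.exp (-d))⁻¹ := by
        apply mul_le_mul_of_nonneg_left _ (by positivity)
        have h5 := (summable_geometric_of_lt_one (Real.exp_pos _).le hq).sum_le_tsum
          (Finset.range (N + 1)) (fun i _ => pow_nonneg (Real.exp_pos _).le i)
        rwa [tsum_geometric_of_lt_one (Real.exp_pos _).le hq] at h5
    _ = _ := by
        rw [div_eq_mul_inv]
        ring

end Pool.Agent.Y750.OM
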