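import Pool.Agent.Y750.OM.Planch
import Pool.Agent.H370R2.PC1
import Pool.Agent.H345R2.A2.Smooth

set_option autoImplicit false

/-! # Gaussian sums over points, and the decomposition of the zero sum -/

namespace Pool.Agent.Y750.OM

open Complex Filter Topology Set MeasureTheory
open scoped BigOperators ComplexConjugate
open H370

/-- a Gaussian sum -/
noncomputable def GG {ι : Type*} (S : Finset ι) (c z : ι → ℂ) (u t : ℝ) : ℂ :=
  ∑ j ∈ S, c j * (cexp (I * u * z j) * cexp (-(z j - t) ^ 2 / 2))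

theorem GG_sq {ι : Type*} (S : Finset ι) (c z : ι → ℂ) (u : ℝ) :
    Integrable (fun t : ℝ => ‖GG S c z u t‖ ^ 2) ∧
    ((∫ t : ℝ, ‖GG S c z u t‖ ^ 2 : ℝ) : ℂ) = (Real.sqrt Real.pi : ℂ) *
      ∑ j ∈ S, ∑ k ∈ S, c j * conj (c k) *
        (cexp (I * u * (z j - conj (z k))) * cexp (-(z j - conj (z k)) ^ 2 / 4)) := by
  have h1 : ∀ t : ℝ, ((‖GG S c z u t‖ ^ 2 : ℝ) : ℂ) =
      ∑ j ∈ S, ∑ k ∈ S, c j * conj (c k) *
        (cexp (I * u * (z j - conj (z k))) *
        (cexp (-(z j - t) ^ 2 / 2) * cexp (-(conj (z k) - t) ^ 2 / 2))) := by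
    intro t
    unfold GG
    rw [← Complex.normSq_eq_norm_sq, ← Complex.mul_conj, map_sum, Finset.sum_mul_sum]
    refine Finset.sum_congr rfl fun j _ => Finset.sum_congr rfl fun k _ => ?_
    have e1 : conj (c k * (cexp (I * u * z k) * cexp (-(z k - t) ^ 2 / 2))) =
        conj (c k) * (cexp (-(I * u * conj (z k))) * cexp (-(conj (z k) - t) ^ 2 / 2)) := by
      rw [map_mul, map_mul, ← Complex.exp_conj, ← Complex.exp_conj]
      congr 2
      · congr 1; simp
      · congr 1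
        simp only [map_div₀, map_neg, map_pow, map_sub, Complex.conj_ofReal, Complex.conj_ofNat]
    rw [e1]
    have : cexp (I * u * (z j - conj (z k))) =
        cexp (I * u * z j) * cexp (-(I * u * conj (z k))) := by
      rw [← Complex.exp_add]; congr 1; ring
    rw [this]; ring
  have hint : Integrable (fun t : ℝ => ((‖GG S c z u t‖ ^ 2 : ℝ) : ℂ)) := by
    simp_rw [h1]
    refine integrable_finsetSum _ fun s _ => integrable_finsetSum _ fun s' _ => ?_
    exact ((gauss_pair_int _ _).const_mul _).const_mul _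
  constructor
  · have := hint.re
    refine this.congr (Eventually.of_forall fun t => ?_)
    simp only [RCLike.re_to_complex, Complex.ofReal_re]
  · have h0 : ((∫ t : ℝ, ‖GG S c z u t‖ ^ 2 : ℝ) : ℂ) =
        ∫ t : ℝ, ((‖GG S c z u t‖ ^ 2 : ℝ) : ℂ) := integral_ofReal.symm
    rw [h0]
    simp_rw [h1]
    rw [integral_finsetSum]
    swap
    · intro s _
      refine integrable_finsetSum _ fun s' _ => ?_
      exact ((gauss_pair_int _ _).const_mul _).const_mul _
    rw [Finset.mul_sum]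
    refine Finset.sum_congr rfl fun s _ => ?_
    rw [integral_finsetSum]
    swap
    · intro s' _
      exact ((gauss_pair_int _ _).const_mul _).const_mul _
    rw [Finset.mul_sum]
    refine Finset.sum_congr rfl fun s' _ => ?_
    rw [integral_const_mul, integral_const_mul, gauss_pair]
    ring

/-- the mean square of the sum over the ordinates -/
noncomputable def JB (S : Finset ℂ) (m : ℂ → ℝ) (u : ℝ) : ℝ :=
  ∫ t : ℝ, ‖GG S (fun s => (m s : ℂ)) (fun s => (s.im : ℂ)) u t‖ ^ 2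

theorem JB_eq (S : Finset ℂ) (m : ℂ → ℝ) (u : ℝ) : JB S m u = Real.sqrt Real.pi *
    ∑ s ∈ S, ∑ s' ∈ S, m s * m s' *
      (Real.cos (u * (s.im - s'.im)) * Real.exp (-(s.im - s'.im) ^ 2 / 4)) := by
  have h := congrArg Complex.re (GG_sq S (fun s => (m s : ℂ)) (fun s => (s.im : ℂ)) u).2
  rw [Complex.ofReal_re, Complex.re_ofReal_mul, Complex.re_sum] at h
  unfold JB
  rw [h]
  congr 1
  refine Finset.sum_congr rfl fun s _ => ?_
  rw [Complex.re_sum]
  refine Finset.sum_congr rfl fun s' _ => ?_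
  rw [Complex.conj_ofReal, Complex.conj_ofReal]
  have e1 : ((s.im : ℂ) - (s'.im : ℂ)) = ((s.im - s'.im : ℝ) : ℂ) := by push_cast; ring
  have e2 : (m s : ℂ) * (m s' : ℂ) = ((m s * m s' : ℝ) : ℂ) := by push_cast; ring
  rw [e1, e2, Complex.re_ofReal_mul, A2.exp_re_aux]

theorem JB_cont (S : Finset ℂ) (m : ℂ → ℝ) : Continuous (JB S m) := by
  have : JB S m = fun u => Real.sqrt Real.pi *
    ∑ s ∈ S, ∑ s' ∈ S, m s * m s' *
      (Real.cos (u * (s.im - s'.im)) * Real.exp (-(s.im - s'.im) ^ 2 / 4)) :=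
    funext fun u => JB_eq S m u
  rw [this]
  fun_prop

/-- the symmetrised Gaussian wave -/
theorem hh_split (L α t : ℝ) (s : ℂ) :
    hh (α * L) t s + hh (α * L) t (1 - conj s) = 2 * (cexp (I * ((α * L : ℝ) : ℂ) * (s.im : ℂ)) *
      cexp (-((s.im : ℂ) - t) ^ 2 / 2) + (Real.exp (-(s.im - t) ^ 2 / 2) : ℂ) *
      (cfac (s.re - 1 / 2) (s.im - t) L α * cexp (I * (α * (L * s.im) : ℝ)))) := by
  have hz : zz s = (s.im : ℂ) - I * ((s.re - 1 / 2 : ℝ) : ℂ) := by
    apply Complex.ext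
    · rw [zz_re]; simp
    · rw [zz_im]; simp
  have hz' : zz (1 - conj s) = (s.im : ℂ) + I * ((s.re - 1 / 2 : ℝ) : ℂ) := by
    rw [zz_refl, hz]
    simp only [map_sub, map_mul, conj_I, Complex.conj_ofReal]
    ring
  rw [hh_eq, hh_eq, hz, hz']
  set y : ℝ := s.re - 1 / 2 with hy
  set γ : ℝ := s.im with hγ
  unfold cfac
  have e1 : cexp (I * ((α * L : ℝ) : ℂ) * ((γ : ℂ) - I * (y : ℂ))) *
      cexp (-((γ : ℂ) - I * (y : ℂ) - t) ^ 2 / 2) =
      cexp (I * ((α * L : ℝ) : ℂ) * (γ : ℂ)) * cexp (-((γ : ℂ) - t) ^ 2 / 2) *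
        (cexp ((y : ℂ) ^ 2 / 2) * cexp ((y : ℂ) * (α * L + I * ((γ : ℂ) - t)))) := by
    rw [← Complex.exp_add, ← Complex.exp_add, ← Complex.exp_add, ← Complex.exp_add]
    congr 1
    push_cast
    linear_combination (-(((α : ℂ) * L) * y) - (y : ℂ) ^ 2 / 2) * Complex.I_sq
  have e2 : cexp (I * ((α * L : ℝ) : ℂ) * ((γ : ℂ) + I * (y : ℂ))) *
      cexp (-((γ : ℂ) + I * (y : ℂ) - t) ^ 2 / 2) =
      cexp (I * ((α * L : ℝ) : ℂ) * (γ : ℂ)) * cexp (-((γ : ℂ) - t) ^ 2 / 2) *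
        (cexp ((y : ℂ) ^ 2 / 2) * cexp (-((y : ℂ) * (α * L + I * ((γ : ℂ) - t))))) := by
    rw [← Complex.exp_add, ← Complex.exp_add, ← Complex.exp_add, ← Complex.exp_add]
    congr 1
    push_cast
    linear_combination ((((α : ℂ) * L) * y) - (y : ℂ) ^ 2 / 2) * Complex.I_sq
  have e3 : ((Real.exp (-(γ - t) ^ 2 / 2) : ℝ) : ℂ) = cexp (-((γ : ℂ) - t) ^ 2 / 2) := by
    push_cast
    rfl
  have e4 : cexp (I * (α * (L * γ) : ℝ)) = cexp (I * ((α * L : ℝ) : ℂ) * (γ : ℂ)) := by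
    congr 1
    push_cast
    ring
  have e5 : ((Real.exp (y ^ 2 / 2) : ℝ) : ℂ) = cexp ((y : ℂ) ^ 2 / 2) := by
    push_cast
    rfl
  rw [e1, e2, e3, e4]
  simp only [Complex.cosh]
  push_cast
  ring

/-- the decomposition of the zero sum -/
theorem AA_split {A B : ℝ} (hA : 1 ≤ A) (L α t : ℝ) :
    AA riemannZeta A B (α * L) t =
      GG (Zf riemannZeta A B) (fun s => ((mult riemannZeta s : ℝ) : ℂ)) (fun s => (s.im : ℂ))
        (α * L) t +
      DD (Zf riemannZeta A B) (fun s => (mult riemannZeta s : ℝ)) L α t := by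
  rw [AA_eq good_zeta hA]
  have h1 : ∑ s ∈ Zf riemannZeta A B, (mult riemannZeta s : ℂ) * hh (α * L) t (1 - conj s) =
      ∑ s ∈ Zf riemannZeta A B, (mult riemannZeta s : ℂ) * hh (α * L) t s := by
    have h2 := sum_refl good_zeta (U2 := B) hA
      (fun s => (mult riemannZeta s : ℂ) * hh (α * L) t s)
    rw [← h2]
    refine Finset.sum_congr rfl fun s hs => ?_
    rw [mem_Zf good_zeta hA] at hs
    rw [mult_refl good_zeta hs.1 hs.2.1 (by linarith [hs.2.2.1])]
  have h3 : 2 * ∑ s ∈ Zf riemannZeta A B, (mult riemannZeta s : ℂ) * hh (α * L) t s =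
      ∑ s ∈ Zf riemannZeta A B, (mult riemannZeta s : ℂ) *
        (hh (α * L) t s + hh (α * L) t (1 - conj s)) := by
    rw [two_mul]
    nth_rewrite 2 [← h1]
    rw [← Finset.sum_add_distrib]
    exact Finset.sum_congr rfl fun s _ => by ring
  have h4 : 2 * ∑ s ∈ Zf riemannZeta A B, (mult riemannZeta s : ℂ) * hh (α * L) t s =
      2 * (GG (Zf riemannZeta A B) (fun s => ((mult riemannZeta s : ℝ) : ℂ)) (fun s => (s.im : ℂ))
        (α * L) t +
      DD (Zf riemannZeta A B) (fun s => (mult riemannZeta s : ℝ)) L α t) := by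
    rw [h3]
    unfold GG DD
    rw [← Finset.sum_add_distrib, Finset.mul_sum]
    refine Finset.sum_congr rfl fun s _ => ?_
    rw [hh_split]
    push_cast
    ring
  exact mul_left_cancel₀ two_ne_zero h4

/-- the mean square of the off-line part -/
noncomputable def JD (S : Finset ℂ) (m : ℂ → ℝ) (L α : ℝ) : ℝ := ∫ t : ℝ, ‖DD S m L α t‖ ^ 2

lemma JD_nonneg (S : Finset ℂ) (m : ℂ → ℝ) (L α : ℝ) : 0 ≤ JD S m L α :=
  integral_nonneg fun t => by positivity

theorem AA_int {A B : ℝ} (hA : 1 ≤ A) (u : ℝ) :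
    Integrable (fun t : ℝ => ‖AA riemannZeta A B u t‖ ^ 2) := by
  have h := (GG_sq (Zf riemannZeta A B) (fun s => (mult riemannZeta s : ℂ)) zz u).1
  refine h.congr (Eventually.of_forall fun t => ?_)
  show ‖GG _ _ _ u t‖ ^ 2 = ‖AA riemannZeta A B u t‖ ^ 2
  rw [AA_eq good_zeta hA]
  unfold GG
  congr 2
  exact Finset.sum_congr rfl fun s _ => by rw [hh_eq]

lemma DD_cont_t (S : Finset ℂ) (m : ℂ → ℝ) (L α : ℝ) : Continuous (fun t => DD S m L α t) := by
  unfold DD cfac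
  fun_prop

theorem DD_int {A B : ℝ} (hA : 1 ≤ A) (L α : ℝ) :
    Integrable (fun t : ℝ => ‖DD (Zf riemannZeta A B) (fun s => (mult riemannZeta s : ℝ)) L α t‖ ^ 2) := by
  have h1 := AA_int (B := B) hA (α * L)
  have h2 := (GG_sq (Zf riemannZeta A B) (fun s => ((mult riemannZeta s : ℝ) : ℂ))
    (fun s => (s.im : ℂ)) (α * L)).1
  have hc := DD_cont_t (Zf riemannZeta A B) (fun s => (mult riemannZeta s : ℝ)) L α
  refine ((h1.const_mul 2).add (h2.const_mul 2)).mono' (hc.norm.pow 2).aestronglyMeasurable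
    (Eventually.of_forall fun t => ?_)
  rw [Real.norm_of_nonneg (by positivity)]
  have h3 := AA_split (B := B) hA L α t
  have h4 : DD (Zf riemannZeta A B) (fun s => (mult riemannZeta s : ℝ)) L α t =
      AA riemannZeta A B (α * L) t - GG (Zf riemannZeta A B)
        (fun s => ((mult riemannZeta s : ℝ) : ℂ)) (fun s => (s.im : ℂ)) (α * L) t := by
    rw [h3]; ring
  rw [h4]
  have h5 := norm_sub_le (AA riemannZeta A B (α * L) t) (GG (Zf riemannZeta A B)
        (fun s => ((mult riemannZeta s : ℝ) : ℂ)) (fun s => (s.im : ℂ)) (α * L) t)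
  have h6 := norm_nonneg (AA riemannZeta A B (α * L) t - GG (Zf riemannZeta A B)
        (fun s => ((mult riemannZeta s : ℝ) : ℂ)) (fun s => (s.im : ℂ)) (α * L) t)
  simp only [Pi.add_apply]
  nlinarith only [h5, h6, sq_nonneg (‖AA riemannZeta A B (α * L) t‖ - ‖GG (Zf riemannZeta A B)
        (fun s => ((mult riemannZeta s : ℝ) : ℂ)) (fun s => (s.im : ℂ)) (α * L) t‖)]

/-- comparison of the mean squares at one `α` -/
theorem diff_le {A B : ℝ} (hA : 1 ≤ A) (L α c : ℝ) (hc : 0 < c) :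
    |JJ riemannZeta A B (α * L) - JB (Zf riemannZeta A B) (fun s => (mult riemannZeta s : ℝ)) (α * L)| ≤
      c * JJ riemannZeta A B (α * L) +
        (1 + 1 / c) * JD (Zf riemannZeta A B) (fun s => (mult riemannZeta s : ℝ)) L α := by
  have h1 := AA_int (B := B) hA (α * L)
  have h2 := (GG_sq (Zf riemannZeta A B) (fun s => ((mult riemannZeta s : ℝ) : ℂ))
    (fun s => (s.im : ℂ)) (α * L)).1
  have h3 := DD_int (B := B) hA L α
  unfold JJ JB JD
  rw [← integral_sub h1 h2, ← integral_const_mul, ← integral_const_mul,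
    ← integral_add (h1.const_mul _) (h3.const_mul _)]
  refine (abs_integral_le_integral_abs).trans ?_
  refine integral_mono (h1.sub h2).abs ((h1.const_mul _).add (h3.const_mul _)) fun t => ?_
  show |‖AA riemannZeta A B (α * L) t‖ ^ 2 - ‖GG (Zf riemannZeta A B)
        (fun s => ((mult riemannZeta s : ℝ) : ℂ)) (fun s => (s.im : ℂ)) (α * L) t‖ ^ 2| ≤
    c * ‖AA riemannZeta A B (α * L) t‖ ^ 2 + (1 + 1 / c) *
      ‖DD (Zf riemannZeta A B) (fun s => (mult riemannZeta s : ℝ)) L α t‖ ^ 2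
  have h4 := AA_split (B := B) hA L α t
  set a := AA riemannZeta A B (α * L) t
  set g := GG (Zf riemannZeta A B) (fun s => ((mult riemannZeta s : ℝ) : ℂ))
    (fun s => (s.im : ℂ)) (α * L) t
  set d := DD (Zf riemannZeta A B) (fun s => (mult riemannZeta s : ℝ)) L α t
  have h5 : |‖a‖ - ‖g‖| ≤ ‖d‖ := by
    have : d = a - g := by rw [h4]; ring
    rw [this]
    exact abs_norm_sub_norm_le a g
  have h6 : ‖g‖ ≤ ‖a‖ + ‖d‖ := by
    have := (abs_le.1 h5).1
    linarith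
  have e : ‖a‖ ^ 2 - ‖g‖ ^ 2 = (‖a‖ - ‖g‖) * (‖a‖ + ‖g‖) := by ring
  rw [e, abs_mul, abs_of_nonneg (by positivity : 0 ≤ ‖a‖ + ‖g‖)]
  have h7 : |‖a‖ - ‖g‖| * (‖a‖ + ‖g‖) ≤ ‖d‖ * (‖a‖ + (‖a‖ + ‖d‖)) := by gcongr
  refine h7.trans ?_
  have h8 : 2 * (‖a‖ * ‖d‖) ≤ c * ‖a‖ ^ 2 + 1 / c * ‖d‖ ^ 2 := by
    have h9 : 0 ≤ (c * ‖a‖ - ‖d‖) ^ 2 / c := by positivity
    have h10 : (c * ‖a‖ - ‖d‖) ^ 2 / c = c * ‖a‖ ^ 2 + 1 / c * ‖d‖ ^ 2 - 2 * (‖a‖ * ‖d‖) := by
      field_simp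
      ring
    linarith
  nlinarith only [h8]

end Pool.Agent.Y750.OM
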