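import Pool.Agent.H345R2.A2.Lin

set_option autoImplicit false

/-! # The complex pair sum of a full dyadic block against a Lipschitz test function -/

namespace Pool.Agent.Y750.OM

open Complex Filter Topology Set MeasureTheory
open scoped BigOperators ComplexConjugate
open H370 H370.AS H295SI H370.A2
open H613SI (conv_cont conv_le)

theorem conv_full {R : ℝ → ℝ} (hR : Conv R) (μ ε : ℝ) (hμ : 0 < μ) (hμ1 : μ < 1) (hε : 0 < ε) :
    ∃ T0 : ℝ, 10 ≤ T0 ∧ ∀ T : ℝ, T0 ≤ T →
      |(NN riemannZeta (T + 1) (2 * T - 1) : ℝ) - (T - 2) * Real.log T / (2 * Real.pi)| ≤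
        ε * ((T - 2) * Real.log T / (2 * Real.pi)) ∧
      |PS R riemannZeta (T + 1) (2 * T - 1) (μ * Real.log T) -
        ((T - 2) * Real.log T / (2 * Real.pi)) * cR R μ| ≤
        ε * ((T - 2) * Real.log T / (2 * Real.pi)) := by
  set lam : ℝ := (1 + μ) / 2 with hlam
  have hlam0 : 0 < lam := by rw [hlam]; linarith
  have hlam1 : lam < 1 := by rw [hlam]; linarith
  have hμlam : μ < lam := by rw [hlam]; linarith
  set r : ℝ := (1 + lam) / 2 with hr
  have hr0 : 0 < r := by rw [hr]; linarith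
  have hr1 : r < 1 := by rw [hr]; linarith
  have hlr : lam < r := by rw [hr]; linarith
  obtain ⟨κ, hκ, hEE⟩ := EE_small r lam hr0 hr1 hlam0 (by rw [hr]; linarith)
  obtain ⟨T1, hT1, hEE⟩ := hEE κ hκ le_rfl
  obtain ⟨θ, hθ0, hθ1, T2, hT2, hm⟩ := pair_two hR good_zeta lamC_norm
    (fun s hs _ => ld_zeta s hs) (τ := 1 / 2) (by norm_num) r μ lam κ ε hr0 hr1 hμ
    hμlam hlam1.le (by linarith) hκ hε
  have ev1 : ∀ᶠ T : ℝ in atTop, 2 ≤ T ^ (1 - r) :=
    (tendsto_rpow_atTop (by linarith)).eventually_ge_atTop _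
  have ev3 : ∀ᶠ T : ℝ in atTop,
      Real.sqrt 2 * Real.exp (-((θ / 4) ^ 2 * T ^ (2 * κ)) / 4) ≤ θ / (1 + θ) := by
    have h1 : Tendsto (fun T : ℝ => Real.sqrt 2 * Real.exp (-((θ / 4) ^ 2 * T ^ (2 * κ)) / 4))
        atTop (𝓝 (Real.sqrt 2 * 0)) := by
      apply Tendsto.const_mul
      apply Real.tendsto_exp_atBot.comp
      have h2 : Tendsto (fun T : ℝ => (θ / 4) ^ 2 / 4 * T ^ (2 * κ)) atTop atTop :=
        (tendsto_rpow_atTop (by positivity)).const_mul_atTop (by positivity)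
      refine (tendsto_neg_atTop_atBot.comp h2).congr fun T => ?_
      simp only [Function.comp]
      ring
    rw [mul_zero] at h1
    exact h1.eventually (ge_mem_nhds (by positivity))
  have ev4 : ∀ᶠ T : ℝ in atTop, 2 * R 0 ≤ T ^ (2 * κ) :=
    (tendsto_rpow_atTop (by positivity)).eventually_ge_atTop _
  have ev6 : ∀ᶠ T : ℝ in atTop,
      (4 * (lam + κ) + 1) * Real.log T ≤ (θ / 4) ^ 2 / 4 * T ^ (2 * κ) := by
    have hpos : 0 < 4 * (lam + κ) + 1 := by positivity
    have h1 := (isLittleO_log_rpow_atTop (show (0 : ℝ) < 2 * κ by positivity)).bound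
      (show (0 : ℝ) < (θ / 4) ^ 2 / 4 / (4 * (lam + κ) + 1) by positivity)
    filter_upwards [h1, eventually_ge_atTop 1] with T hT hT1
    have hl : 0 ≤ Real.log T := Real.log_nonneg hT1
    rw [Real.norm_of_nonneg hl, Real.norm_of_nonneg (by positivity)] at hT
    calc (4 * (lam + κ) + 1) * Real.log T ≤ (4 * (lam + κ) + 1) *
        ((θ / 4) ^ 2 / 4 / (4 * (lam + κ) + 1) * T ^ (2 * κ)) := by gcongr
      _ = _ := by field_simp
  obtain ⟨T4, hT4⟩ := (((ev1.and ev3).and ev4).and ev6).exists_forall_of_atTop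
  refine ⟨max (max 100 T1) (max T2 T4),
    le_trans (by norm_num) ((le_max_left _ _).trans (le_max_left _ _)),
    fun T hT => ?_⟩
  have hT100 : 100 ≤ T := ((le_max_left _ _).trans (le_max_left _ _)).trans hT
  have hTT1 : T1 ≤ T := ((le_max_right _ _).trans (le_max_left _ _)).trans hT
  have hTT2 : T2 ≤ T := ((le_max_left _ _).trans (le_max_right _ _)).trans hT
  obtain ⟨⟨⟨e1, e3⟩, e4⟩, e6⟩ := hT4 T (((le_max_right _ _).trans (le_max_right _ _)).trans hT)
  have hTpos : 0 < T := by linarith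
  set H : ℝ := T - 2 with hH
  have hHpos : 0 < H := by rw [hH]; linarith
  have hlogT : 0 < Real.log T := Real.log_pos (by linarith)
  set X : ℕ := ⌊T ^ (lam + κ)⌋₊ with hX
  set σ : ℝ := H * T ^ (-κ) with hσ
  have hTκ : 0 < T ^ (-κ) := Real.rpow_pos_of_pos hTpos _
  have hσ0 : 0 < σ := by positivity
  set w : ℝ := θ / 4 * H with hw
  have hw0 : 0 ≤ w := by positivity
  have hw2 : w ≤ H / 4 := by rw [hw]; nlinarith
  have hHr : T ^ r ≤ H := by
    have h1 : T ^ r * T ^ (1 - r) = T := by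
      rw [← Real.rpow_add hTpos]; rw [show r + (1 - r) = 1 by ring, Real.rpow_one]
    have h2 : 0 < T ^ r := Real.rpow_pos_of_pos hTpos _
    have h3 : T ^ r * 2 ≤ T := by
      calc T ^ r * 2 ≤ T ^ r * T ^ (1 - r) := by gcongr
        _ = T := h1
    rw [hH]; linarith
  have hexpo : -w ^ 2 / (4 * σ ^ 2) = -((θ / 4) ^ 2 * T ^ (2 * κ)) / 4 := by
    have h1 : T ^ (2 * κ) * (T ^ (-κ)) ^ 2 = 1 := by
      rw [← Real.rpow_natCast, ← Real.rpow_mul hTpos.le, ← Real.rpow_add hTpos]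
      have : 2 * κ + -κ * ((2 : ℕ) : ℝ) = 0 := by push_cast; ring
      rw [this, Real.rpow_zero]
    rw [hw, hσ, div_eq_div_iff (by positivity) (by norm_num)]
    have h2 : ((θ / 4) ^ 2 * T ^ (2 * κ)) * (4 * (H * T ^ (-κ)) ^ 2) =
        (θ / 4) ^ 2 * 4 * H ^ 2 * (T ^ (2 * κ) * (T ^ (-κ)) ^ 2) := by ring
    linear_combination h2 + (θ / 4) ^ 2 * 4 * H ^ 2 * h1
  have hmass : Real.sqrt 2 * Real.exp (-w ^ 2 / (4 * σ ^ 2)) ≤ θ / (1 + θ) := by
    rw [hexpo]; exact e3
  have hmass2 : (X : ℝ) ^ 4 * (Real.sqrt 2 * Real.exp (-w ^ 2 / (4 * σ ^ 2))) ≤ 1 := by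
    rw [hexpo]
    have h1 : (X : ℝ) ≤ T ^ (lam + κ) := Nat.floor_le (by positivity)
    have h2 : (X : ℝ) ^ 4 ≤ Real.exp (4 * (lam + κ) * Real.log T) := by
      calc (X : ℝ) ^ 4 ≤ (T ^ (lam + κ)) ^ 4 := by gcongr
        _ = Real.exp (4 * (lam + κ) * Real.log T) := by
          rw [Real.rpow_def_of_pos hTpos, ← Real.exp_nat_mul]
          congr 1
          push_cast; ring
    have h3 : Real.sqrt 2 ≤ Real.exp (Real.log T) := by
      rw [Real.exp_log hTpos]
      have : Real.sqrt 2 ≤ 2 := by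
        rw [Real.sqrt_le_left (by norm_num)]; norm_num
      linarith
    calc (X : ℝ) ^ 4 * (Real.sqrt 2 * Real.exp (-((θ / 4) ^ 2 * T ^ (2 * κ)) / 4)) ≤
        Real.exp (4 * (lam + κ) * Real.log T) * (Real.exp (Real.log T) *
          Real.exp (-((θ / 4) ^ 2 * T ^ (2 * κ)) / 4)) := by gcongr
      _ = Real.exp (4 * (lam + κ) * Real.log T + (Real.log T +
          -((θ / 4) ^ 2 * T ^ (2 * κ)) / 4)) := by rw [Real.exp_add, Real.exp_add]
      _ ≤ 1 := by
        rw [Real.exp_le_one_iff]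
        linarith
  have hadd : 2 * T - 1 - (T + 1) = H := by rw [hH]; ring
  have hR0 : 0 ≤ R 0 := hR.nonneg 0
  have h := hm T hTT2 (Real.log T) (by simp) (T + 1) (2 * T - 1) le_rfl le_rfl (by rw [hadd]; exact hHr)
    ?_ σ w X hσ0 hw0 (by rw [hadd]) hmass hmass2 ?_ ?_
  · rw [hadd] at h
    exact h
  · intro s hs _
    have := hs.2.1
    linarith
  · have h1 : T ^ (lam + κ) ≤ (X : ℝ) + 1 := (Nat.lt_floor_add_one _).le
    rw [← Real.log_rpow hTpos]
    exact Real.log_le_log (Real.rpow_pos_of_pos hTpos _) h1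
  · rw [QE_swap hR, hadd]
    have h1 : ∀ α ∈ Set.Icc (0 : ℝ) 1, R α * ∫ x in (T + 1 - w)..(2 * T - 1 + w),
        ‖EE (bb lamC (μ * Real.log T * α)) X σ x‖ ^ 2 ≤ R 0 * T ^ (1 - 2 * κ) := by
      intro α hα
      have h2 := hEE T hTT1 H hHr lamC (fun n => (lamC_norm n).le) (μ * Real.log T * α)
      have h3 := conv_le hR α hα.1
      have h5 : Continuous fun x : ℝ => ‖EE (bb lamC (μ * Real.log T * α)) X σ x‖ ^ 2 :=
        (EE_cont _ _ _).norm.pow 2
      have h4 : ∫ x in (T + 1 - w)..(2 * T - 1 + w),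
          ‖EE (bb lamC (μ * Real.log T * α)) X σ x‖ ^ 2 ≤ ∫ x in (0 : ℝ)..(4 * T),
          ‖EE (bb lamC (μ * Real.log T * α)) X σ x‖ ^ 2 := by
        apply intervalIntegral.integral_mono_interval (by linarith) (by linarith) (by linarith)
        · exact Eventually.of_forall fun x => by positivity
        · exact h5.intervalIntegrable _ _
      have h6 : 0 ≤ ∫ x in (T + 1 - w)..(2 * T - 1 + w),
          ‖EE (bb lamC (μ * Real.log T * α)) X σ x‖ ^ 2 :=
        intervalIntegral.integral_nonneg (by linarith) fun x _ => by positivity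
      have h7 := h4.trans h2
      gcongr
    have h5 : Continuous fun α : ℝ => R α * ∫ x in (T + 1 - w)..(2 * T - 1 + w),
        ‖EE (bb lamC (μ * Real.log T * α)) X σ x‖ ^ 2 := by
      apply (conv_cont hR).mul
      have h6 : Continuous (Function.uncurry fun α x : ℝ =>
          ‖EE (bb lamC (μ * Real.log T * α)) X σ x‖ ^ 2) :=
        (EE_cont2 lamC (μ * Real.log T) X σ).norm.pow 2
      exact intervalIntegral.continuous_parametric_intervalIntegral_of_continuous' h6 _ _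
    have hfin : R 0 * T ^ (1 - 2 * κ) ≤ H := by
      have h8 : T ^ (2 * κ) * T ^ (1 - 2 * κ) = T := by
        rw [← Real.rpow_add hTpos, show 2 * κ + (1 - 2 * κ) = 1 by ring, Real.rpow_one]
      have h9 : 0 < T ^ (1 - 2 * κ) := Real.rpow_pos_of_pos hTpos _
      have h10 : 2 * R 0 * T ^ (1 - 2 * κ) ≤ T := by
        calc 2 * R 0 * T ^ (1 - 2 * κ) ≤ T ^ (2 * κ) * T ^ (1 - 2 * κ) := by gcongr
          _ = T := h8
      rw [hH]; linarith
    calc _ ≤ ∫ α in (0 : ℝ)..1, R 0 * T ^ (1 - 2 * κ) :=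
          intervalIntegral.integral_mono_on zero_le_one (h5.intervalIntegrable _ _)
            (continuous_const.intervalIntegrable _ _) h1
      _ = R 0 * T ^ (1 - 2 * κ) := by simp
      _ ≤ H := hfin

/-- the pair sum over a full dyadic block, against a Lipschitz test function -/
theorem psi_full (μ ε : ℝ) (hμ : 0 < μ) (hμ1 : μ < 1) (hε : 0 < ε) (ψ : ℝ → ℝ) (K : ℝ)
    (hlip : ∀ x y, |ψ x - ψ y| ≤ K * |x - y|) (hz : ∀ x, μ ≤ |x| → ψ x = 0) :
    ∃ T0 : ℝ, 10 ≤ T0 ∧ ∀ T : ℝ, T0 ≤ T →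
      |(NN riemannZeta (T + 1) (2 * T - 1) : ℝ) - (T - 2) * Real.log T / (2 * Real.pi)| ≤
        ε * ((T - 2) * Real.log T / (2 * Real.pi)) ∧
      |(∫ α in (-μ)..μ, ψ α * JN riemannZeta (T + 1) (2 * T - 1) (α * Real.log T)) -
        ((T - 2) * Real.log T / (2 * Real.pi)) * (ψ 0 + ∫ α in (-μ)..μ, |α| * ψ α)| ≤
        ε * ((T - 2) * Real.log T / (2 * Real.pi)) := by
  have hK : 0 ≤ K := by
    have h1 := hlip 1 0
    have h2 := abs_nonneg (ψ 1 - ψ 0)
    simp at h1
    linarith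
  have hψc : Continuous ψ := by
    have : LipschitzWith K.toNNReal ψ := by
      refine LipschitzWith.of_dist_le_mul fun x y => ?_
      rw [Real.dist_eq, Real.dist_eq, Real.coe_toNNReal _ hK]
      exact hlip x y
    exact this.continuous
  set φ : ℝ → ℝ := fun β => μ * ((ψ (μ * β) + ψ (-(μ * β))) / 2) with hφ
  set K2 : ℝ := K * μ ^ 2 + 1 with hK2
  have hK20 : 0 < K2 := by positivity
  have hφlip : ∀ x y, |φ x - φ y| ≤ (K * μ ^ 2) * |x - y| := by
    intro x y
    have h1 := hlip (μ * x) (μ * y)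
    have h2 := hlip (-(μ * x)) (-(μ * y))
    have e1 : |μ * x - μ * y| = μ * |x - y| := by
      rw [← mul_sub, abs_mul, abs_of_pos hμ]
    have e2 : |-(μ * x) - -(μ * y)| = μ * |x - y| := by
      rw [neg_sub_neg, ← mul_sub, abs_mul, abs_of_pos hμ, abs_sub_comm]
    rw [e1] at h1
    rw [e2] at h2
    have e3 : φ x - φ y = μ / 2 * ((ψ (μ * x) - ψ (μ * y)) + (ψ (-(μ * x)) - ψ (-(μ * y)))) := by
      simp only [hφ]; ring
    rw [e3, abs_mul, abs_of_pos (by positivity : 0 < μ / 2)]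
    calc μ / 2 * |(ψ (μ * x) - ψ (μ * y)) + (ψ (-(μ * x)) - ψ (-(μ * y)))| ≤
        μ / 2 * (|ψ (μ * x) - ψ (μ * y)| + |ψ (-(μ * x)) - ψ (-(μ * y))|) := by
          gcongr; exact abs_add_le _ _
      _ ≤ μ / 2 * (K * (μ * |x - y|) + K * (μ * |x - y|)) := by gcongr
      _ = _ := by ring
  have hφe : ∀ x, φ (-x) = φ x := by
    intro x
    simp only [hφ]
    rw [mul_neg, neg_neg]
    ring
  have hφz : ∀ x, 1 ≤ |x| → φ x = 0 := by
    intro x hx
    simp only [hφ]
    have h1 : μ ≤ |μ * x| := by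
      rw [abs_mul, abs_of_pos hμ]
      nlinarith
    rw [hz _ h1, hz (-(μ * x)) (by rw [abs_neg]; exact h1)]
    ring
  have hc1 := conv_add (by positivity) (by rw [hK2]; linarith : K * μ ^ 2 ≤ K2) hK20 hφlip hφe hφz
  have hc2 : Conv (fun β => (fun _ => (0 : ℝ)) β + K2 * hatf β) :=
    conv_add (K := 0) le_rfl hK20.le hK20 (by intro x y; simp) (by intro x; rfl) (by intro x _; rfl)
  set R1 : ℝ → ℝ := fun β => φ β + K2 * hatf β with hR1
  set R2 : ℝ → ℝ := fun β => (fun _ => (0 : ℝ)) β + K2 * hatf β with hR2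
  obtain ⟨T1, hT1, h1⟩ := conv_full hc1 μ (ε / 2) hμ hμ1 (by positivity)
  obtain ⟨T2, hT2, h2⟩ := conv_full hc2 μ (ε / 2) hμ hμ1 (by positivity)
  refine ⟨max T1 T2, hT1.trans (le_max_left _ _), fun T hT => ?_⟩
  have hTT1 : T1 ≤ T := (le_max_left _ _).trans hT
  have hTT2 : T2 ≤ T := (le_max_right _ _).trans hT
  have hT10 : 10 ≤ T := hT1.trans hTT1
  have hTpos : 0 < T := by linarith
  have hLpos : 0 < Real.log T := Real.log_pos (by linarith)
  have hHpos : 0 < T - 2 := by linarith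
  have hM0 : 0 < (T - 2) * Real.log T / (2 * Real.pi) := by positivity
  -- the constants
  have hconst : cR R1 μ - cR R2 μ = ψ 0 + ∫ α in (-μ)..μ, |α| * ψ α := by
    have hφc : Continuous φ := by simp only [hφ]; fun_prop
    have hhc : Continuous hatf := by unfold hatf; fun_prop
    have e1 : ∫ α in (0 : ℝ)..1, α * R1 α = (∫ α in (0 : ℝ)..1, α * φ α) +
        ∫ α in (0 : ℝ)..1, α * (K2 * hatf α) := by
      have q1 : Continuous fun α : ℝ => α * φ α := continuous_id.mul hφc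
      have q2 : Continuous fun α : ℝ => α * (K2 * hatf α) :=
        continuous_id.mul (continuous_const.mul hhc)
      rw [← intervalIntegral.integral_add (q1.intervalIntegrable _ _)
        (q2.intervalIntegrable _ _)]
      refine intervalIntegral.integral_congr fun α _ => ?_
      simp only [hR1]
      ring
    have e2 : ∫ α in (0 : ℝ)..1, α * R2 α = ∫ α in (0 : ℝ)..1, α * (K2 * hatf α) := by
      refine intervalIntegral.integral_congr fun α _ => ?_
      simp only [hR2]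
      ring
    have e3 : ∫ α in (-μ)..μ, |α| * ψ α = 2 * μ * ∫ α in (0 : ℝ)..1, α * φ α := by
      have h3 := int_even hψc continuous_abs (fun x => abs_neg x) μ
      have h4 : ∫ α in (-μ)..μ, |α| * ψ α = ∫ α in (-μ)..μ, ψ α * |α| :=
        intervalIntegral.integral_congr fun α _ => mul_comm _ _
      rw [h4, h3, mul_assoc, ← intervalIntegral.integral_const_mul (μ : ℝ)]
      congr 1
      refine intervalIntegral.integral_congr fun β hβ => ?_
      rw [Set.uIcc_of_le zero_le_one] at hβ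
      simp only [hφ]
      rw [abs_mul, abs_of_pos hμ, abs_of_nonneg hβ.1]
      ring
    have e4 : R1 0 - R2 0 = μ * ψ 0 := by
      simp only [hR1, hR2, hφ]
      rw [mul_zero, neg_zero]
      ring
    unfold cR
    rw [e1, e2, e3]
    have e5 : R1 0 = R2 0 + μ * ψ 0 := by linarith
    rw [e5]
    have e6 : (R2 0 + μ * ψ 0) / μ = R2 0 / μ + ψ 0 := by field_simp
    rw [e6]
    ring
  obtain ⟨g1, g2⟩ := h1 T hTT1
  obtain ⟨-, g3⟩ := h2 T hTT2
  have hU : 1 ≤ T + 1 := by linarith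
  have hJc := JJ_cont good_zeta (U2 := 2 * T - 1) hU
  have hkey : ∫ α in (-μ)..μ, ψ α * JN riemannZeta (T + 1) (2 * T - 1) (α * Real.log T) =
      PS R1 riemannZeta (T + 1) (2 * T - 1) (μ * Real.log T) -
      PS R2 riemannZeta (T + 1) (2 * T - 1) (μ * Real.log T) := by
    have hfc : Continuous fun α : ℝ => JN riemannZeta (T + 1) (2 * T - 1) (α * Real.log T) := by
      unfold JN
      exact (hJc.comp (by fun_prop)).div_const _
    have hfe : ∀ α : ℝ, JN riemannZeta (T + 1) (2 * T - 1) (-α * Real.log T) =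
        JN riemannZeta (T + 1) (2 * T - 1) (α * Real.log T) := by
      intro α
      unfold JN
      rw [neg_mul, JJ_even good_zeta hU]
    rw [int_even hψc hfc hfe μ]
    have hi1 : IntervalIntegrable (fun α : ℝ => R1 α *
        JJ riemannZeta (T + 1) (2 * T - 1) (μ * Real.log T * α)) volume 0 1 :=
      ((H613SI.conv_cont hc1).mul (hJc.comp (by fun_prop))).intervalIntegrable _ _
    have hi2 : IntervalIntegrable (fun α : ℝ => R2 α *
        JJ riemannZeta (T + 1) (2 * T - 1) (μ * Real.log T * α)) volume 0 1 :=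
      ((H613SI.conv_cont hc2).mul (hJc.comp (by fun_prop))).intervalIntegrable _ _
    unfold PS
    rw [← mul_sub, ← intervalIntegral.integral_sub hi1 hi2]
    have h5 : (2 : ℝ) / Real.sqrt Real.pi = 2 * (1 / Real.sqrt Real.pi) := by ring
    rw [h5, mul_assoc, ← intervalIntegral.integral_const_mul (1 / Real.sqrt Real.pi)]
    congr 1
    refine intervalIntegral.integral_congr fun β _ => ?_
    simp only [hR1, hR2, hφ, JN]
    have h6 : μ * Real.log T * β = μ * β * Real.log T := by ring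
    rw [h6]
    ring
  constructor
  · have : 0 ≤ ε / 2 * ((T - 2) * Real.log T / (2 * Real.pi)) := by positivity
    linarith
  · rw [hkey, ← hconst]
    have h7 : PS R1 riemannZeta (T + 1) (2 * T - 1) (μ * Real.log T) -
        PS R2 riemannZeta (T + 1) (2 * T - 1) (μ * Real.log T) -
        ((T - 2) * Real.log T / (2 * Real.pi)) * (cR R1 μ - cR R2 μ) =
        (PS R1 riemannZeta (T + 1) (2 * T - 1) (μ * Real.log T) -
          ((T - 2) * Real.log T / (2 * Real.pi)) * cR R1 μ) -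
        (PS R2 riemannZeta (T + 1) (2 * T - 1) (μ * Real.log T) -
          ((T - 2) * Real.log T / (2 * Real.pi)) * cR R2 μ) := by
      ring
    rw [h7]
    refine (abs_sub_le_add _ _).trans ?_
    linarith

end Pool.Agent.Y750.OM
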