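import Pool.Agent.Y750.OM.Off
import Pool.Agent.Y750.OM.GSum
import Pool.Agent.Y750.OM.Pair

set_option autoImplicit false

/-! # Comparison of the sum over the zeros with the sum over the ordinates -/

namespace Pool.Agent.Y750.OM

open Complex Filter Topology Set MeasureTheory
open H370 (Zf mult mem_Zf good_zeta zset JJ JJ_cont)
open H370.A2 (hatf hatf_nonneg hatf_lip hatf_zero hatf_eq JN)
open Pool.Agent.TH850.UR (ew)

theorem exists_cutoff {rr : ℝ} (hrr : 1 < rr) : ∃ g0 : ℝ → ℝ, ContDiff ℝ (⊤ : ℕ∞) g0 ∧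
    (∀ β, rr < |β| → g0 β = 0) ∧ (∀ β, |β| ≤ 1 → g0 β = 1) := by
  let f : ContDiffBump (0 : ℝ) := ⟨1, rr, one_pos, hrr⟩
  refine ⟨f, f.contDiff, fun β hβ => ?_, fun β hβ => ?_⟩
  · apply f.zero_of_le_dist
    rw [Real.dist_eq, sub_zero]
    exact hβ.le
  · apply f.one_of_mem_closedBall
    rw [Metric.mem_closedBall, Real.dist_eq, sub_zero]
    exact hβ

theorem JD_cut {g0 : ℝ → ℝ} (hg : Continuous g0) {δ : ℝ} (S : Finset ℂ) (m : ℂ → ℝ) (L : ℝ)
    (hint : ∀ α, Integrable (fun t => ‖DD S m L α t‖ ^ 2)) {Bd : ℝ} (hB : 0 ≤ Bd)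
    (h : ∫⁻ α : ℝ, ∫⁻ t : ℝ, ENNReal.ofReal (‖(g0 (α / δ) : ℂ) * DD S m L α t‖ ^ 2) ≤
      ENNReal.ofReal Bd) :
    Integrable (fun α => g0 (α / δ) ^ 2 * JD S m L α) ∧
      ∫ α, g0 (α / δ) ^ 2 * JD S m L α ≤ Bd := by
  have hmeas : Continuous (Function.uncurry fun α t : ℝ => ‖(g0 (α / δ) : ℂ) * DD S m L α t‖ ^ 2) := by
    have h1 := DD_cont S m L
    simp only [Function.uncurry_def] at h1 ⊢
    have h2 : Continuous fun a : ℝ × ℝ => ((g0 (a.1 / δ) : ℝ) : ℂ) := by fun_prop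
    exact (h2.mul h1).norm.pow 2
  have e1 : ∀ α t : ℝ, ‖(g0 (α / δ) : ℂ) * DD S m L α t‖ ^ 2 =
      g0 (α / δ) ^ 2 * ‖DD S m L α t‖ ^ 2 := by
    intro α t
    rw [norm_mul, mul_pow, Complex.norm_real, Real.norm_eq_abs, sq_abs]
  have e2 : ∀ α : ℝ, ∫ t : ℝ, ‖(g0 (α / δ) : ℂ) * DD S m L α t‖ ^ 2 =
      g0 (α / δ) ^ 2 * JD S m L α := by
    intro α
    simp_rw [e1]
    rw [integral_const_mul]
    rfl
  have hsm : StronglyMeasurable (fun α : ℝ => g0 (α / δ) ^ 2 * JD S m L α) := by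
    have h3 := hmeas.stronglyMeasurable.integral_prod_right (ν := (volume : Measure ℝ))
    simp_rw [e2] at h3
    exact h3
  have hnn : ∀ α : ℝ, 0 ≤ g0 (α / δ) ^ 2 * JD S m L α := fun α =>
    mul_nonneg (sq_nonneg _) (JD_nonneg _ _ _ _)
  have h3 : ∫⁻ α : ℝ, ENNReal.ofReal (g0 (α / δ) ^ 2 * JD S m L α) ≤ ENNReal.ofReal Bd := by
    refine le_trans (le_of_eq ?_) h
    refine lintegral_congr fun α => ?_
    rw [← e2, ofReal_integral_eq_lintegral_ofReal]
    · simp_rw [e1]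
      exact (hint α).const_mul _
    · exact Eventually.of_forall fun t => by positivity
  have hi : Integrable (fun α => g0 (α / δ) ^ 2 * JD S m L α) := by
    refine ⟨hsm.aestronglyMeasurable, ?_⟩
    rw [hasFiniteIntegral_iff_ofReal (Eventually.of_forall hnn)]
    exact lt_of_le_of_lt h3 ENNReal.ofReal_lt_top
  refine ⟨hi, ?_⟩
  rw [integral_eq_lintegral_of_nonneg_ae (Eventually.of_forall hnn) hsm.aestronglyMeasurable]
  exact ENNReal.toReal_le_of_le_ofReal hB h3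

/-- the dyadic majorant of `1 / |α|` -/
theorem dyad {g0 : ℝ → ℝ} (h1 : ∀ β, |β| ≤ 1 → g0 β = 1) {δ : ℝ} (hδ : 0 < δ) (α : ℝ)
    (hα : |α| ≤ δ) (J : ℕ) : δ / 2 ^ J < |α| → 1 / |α| ≤
    ∑ j ∈ Finset.range J, 2 ^ (j + 1) / δ * g0 (α / (δ / 2 ^ j)) ^ 2 := by
  induction J with
  | zero =>
    intro h
    simp at h
    linarith
  | succ J ih =>
    intro h
    rw [Finset.sum_range_succ]
    have hnn : ∀ j : ℕ, 0 ≤ (2 : ℝ) ^ (j + 1) / δ * g0 (α / (δ / 2 ^ j)) ^ 2 := fun j => by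
      positivity
    rcases lt_or_ge (δ / 2 ^ J) |α| with h2 | h2
    · have := ih h2
      linarith [hnn J]
    · have h3 : 0 ≤ ∑ j ∈ Finset.range J, 2 ^ (j + 1) / δ * g0 (α / (δ / 2 ^ j)) ^ 2 :=
        Finset.sum_nonneg fun j _ => hnn j
      have h4 : g0 (α / (δ / 2 ^ J)) = 1 := by
        apply h1
        rw [abs_div, abs_of_pos (by positivity : 0 < δ / 2 ^ J), div_le_one (by positivity)]
        exact h2
      rw [h4, one_pow, mul_one]
      have h5 : 0 < δ / 2 ^ (J + 1) := by positivity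
      have h6 : 1 / |α| ≤ 2 ^ (J + 1) / δ := by
        calc 1 / |α| ≤ 1 / (δ / 2 ^ (J + 1)) := by
              apply one_div_le_one_div_of_le h5 h.le
          _ = _ := by field_simp
      linarith

/-- the tent vanishing at the origin -/
noncomputable def tent (δ α : ℝ) : ℝ := max 0 (min |α| (3 * δ - 2 * |α|))

lemma tent_nonneg (δ α : ℝ) : 0 ≤ tent δ α := le_max_left _ _

lemma tent_eq {δ α : ℝ} (h : |α| ≤ δ) : tent δ α = |α| := by
  unfold tent
  rw [min_eq_left (by linarith), max_eq_right (abs_nonneg _)]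

lemma tent_zero {δ α : ℝ} (h : 3 / 2 * δ ≤ |α|) : tent δ α = 0 := by
  unfold tent
  exact max_eq_left ((min_le_right _ _).trans (by linarith))

lemma tent_le {δ : ℝ} (hδ : 0 ≤ δ) (α : ℝ) : tent δ α ≤ δ := by
  unfold tent
  apply max_le hδ
  rcases le_total |α| δ with h | h
  · exact (min_le_left _ _).trans h
  · exact (min_le_right _ _).trans (by linarith)

lemma tent_lip (δ x y : ℝ) : |tent δ x - tent δ y| ≤ 2 * |x - y| := by
  unfold tent
  have h0 := abs_abs_sub_abs_le_abs_sub x y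
  have h1 := abs_max_sub_max_le_abs (min |x| (3 * δ - 2 * |x|)) (min |y| (3 * δ - 2 * |y|)) 0
  rw [max_comm, max_comm 0 (min |y| (3 * δ - 2 * |y|))]
  refine h1.trans ?_
  have h2 := abs_min_sub_min_le_max |x| (3 * δ - 2 * |x|) |y| (3 * δ - 2 * |y|)
  refine h2.trans (max_le (by linarith [abs_nonneg (x - y)]) ?_)
  have e : 3 * δ - 2 * |x| - (3 * δ - 2 * |y|) = -(2 * (|x| - |y|)) := by ring
  rw [e, abs_neg, abs_mul, abs_of_pos (by norm_num : (0 : ℝ) < 2)]
  linarith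

/-- bound for an integral of the pair function against a nonnegative Lipschitz function -/
theorem psi_up (μ e : ℝ) (hμ : 0 < μ) (hμ1 : μ < 1) (he : 0 < e) (ψ : ℝ → ℝ) (K H : ℝ)
    (hlip : ∀ x y, |ψ x - ψ y| ≤ K * |x - y|) (hz : ∀ x, μ ≤ |x| → ψ x = 0)
    (hnn : ∀ x, 0 ≤ ψ x) (hH : ∀ x, ψ x ≤ H) :
    ∃ T0 : ℝ, 10 ≤ T0 ∧ ∀ T : ℝ, T0 ≤ T → ∀ δ : ℝ, 0 ≤ δ →
      ∫ α in Set.Icc (-δ) δ, ψ α * JJ riemannZeta (T + 1) (2 * T - 1) (α * Real.log T) ≤
        (ψ 0 + 2 * μ ^ 2 * H + e) * (T * Real.log T) := by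
  obtain ⟨T0, hT0, h⟩ := psi_full μ e hμ hμ1 he ψ K hlip hz
  have hK : 0 ≤ K := by
    have h1 := hlip 1 0
    have h2 := abs_nonneg (ψ 1 - ψ 0)
    simp at h1
    linarith
  have hψc : Continuous ψ := by
    have : LipschitzWith K.toNNReal ψ := by
      refine LipschitzWith.of_dist_le_mul fun x y => ?_
      rw [Real.dist_eq, Real.dist_eq, Real.coe_toNNReal _ hK]
      exact hlip x y
    exact this.continuous
  refine ⟨T0, hT0, fun T hT δ hδ => ?_⟩
  obtain ⟨-, h1⟩ := h T hT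
  have hT10 : 10 ≤ T := hT0.trans hT
  have hL : 0 < Real.log T := Real.log_pos (by linarith)
  have hpi := Real.pi_pos
  have hpi3 := Real.pi_gt_three
  set M := (T - 2) * Real.log T / (2 * Real.pi) with hM
  have hM0 : 0 ≤ M := by
    rw [hM]
    have : 0 ≤ T - 2 := by linarith
    positivity
  have hJc : Continuous fun α : ℝ => JJ riemannZeta (T + 1) (2 * T - 1) (α * Real.log T) :=
    (JJ_cont good_zeta (U2 := 2 * T - 1) (by linarith : (1 : ℝ) ≤ T + 1)).comp (by fun_prop)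
  have hJ0 : ∀ u, 0 ≤ JJ riemannZeta (T + 1) (2 * T - 1) u := fun u =>
    integral_nonneg fun t => by positivity
  have hfc : Continuous fun α : ℝ => ψ α * JJ riemannZeta (T + 1) (2 * T - 1) (α * Real.log T) :=
    hψc.mul hJc
  have hf0 : ∀ α, 0 ≤ ψ α * JJ riemannZeta (T + 1) (2 * T - 1) (α * Real.log T) := fun α =>
    mul_nonneg (hnn α) (hJ0 _)
  have hcs : HasCompactSupport fun α : ℝ =>
      ψ α * JJ riemannZeta (T + 1) (2 * T - 1) (α * Real.log T) := by
    apply HasCompactSupport.intro (isCompact_Icc (a := -μ) (b := μ))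
    intro x hx
    have : μ ≤ |x| := by
      by_contra hcon
      push Not at hcon
      exact hx (abs_le.1 hcon.le)
    rw [hz x this, zero_mul]
  have hfi := hfc.integrable_of_hasCompactSupport hcs (μ := volume)
  have h2 : ∫ α in Set.Icc (-δ) δ, ψ α * JJ riemannZeta (T + 1) (2 * T - 1) (α * Real.log T) ≤
      ∫ α, ψ α * JJ riemannZeta (T + 1) (2 * T - 1) (α * Real.log T) :=
    setIntegral_le_integral hfi (Eventually.of_forall hf0)
  have h3 : ∫ α, ψ α * JJ riemannZeta (T + 1) (2 * T - 1) (α * Real.log T) =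
      ∫ α in (-μ)..μ, ψ α * JJ riemannZeta (T + 1) (2 * T - 1) (α * Real.log T) := by
    rw [intervalIntegral.integral_of_le (by linarith), setIntegral_eq_integral_of_forall_compl_eq_zero]
    intro x hx
    have : μ ≤ |x| := by
      by_contra hcon
      push Not at hcon
      have := abs_lt.1 hcon
      exact hx ⟨this.1, this.2.le⟩
    rw [hz x this, zero_mul]
  have h4 : ∫ α in (-μ)..μ, ψ α * JJ riemannZeta (T + 1) (2 * T - 1) (α * Real.log T) =
      Real.sqrt Real.pi * ∫ α in (-μ)..μ, ψ α * JN riemannZeta (T + 1) (2 * T - 1)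
        (α * Real.log T) := by
    rw [← intervalIntegral.integral_const_mul]
    refine intervalIntegral.integral_congr fun α _ => ?_
    unfold JN
    have : Real.sqrt Real.pi ≠ 0 := by positivity
    field_simp
  have h5 : ∫ α in (-μ)..μ, |α| * ψ α ≤ 2 * μ ^ 2 * H := by
    calc ∫ α in (-μ)..μ, |α| * ψ α ≤ ∫ α in (-μ)..μ, μ * H := by
          refine intervalIntegral.integral_mono_on (by linarith)
            ((continuous_abs.mul hψc).intervalIntegrable _ _)
            (continuous_const.intervalIntegrable _ _) fun α hα => ?_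
          exact mul_le_mul (abs_le.2 hα) (hH α) (hnn α) hμ.le
      _ = 2 * μ ^ 2 * H := by
          rw [intervalIntegral.integral_const, smul_eq_mul]
          ring
  have h6 := (abs_le.1 h1).2
  have h7 : ∫ α in (-μ)..μ, ψ α * JN riemannZeta (T + 1) (2 * T - 1) (α * Real.log T) ≤
      M * (ψ 0 + 2 * μ ^ 2 * H + e) := by
    have : M * (ψ 0 + ∫ α in (-μ)..μ, |α| * ψ α) ≤ M * (ψ 0 + 2 * μ ^ 2 * H) := by gcongr
    linarith
  have hψ0 : 0 ≤ ψ 0 := hnn 0
  have hH0 : 0 ≤ H := (hnn 0).trans (hH 0)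
  have h8 : Real.sqrt Real.pi * M ≤ T * Real.log T := by
    have h9 : Real.sqrt Real.pi ≤ Real.pi := by
      rw [Real.sqrt_le_left hpi.le]
      nlinarith
    have h10 : Real.pi * M = (T - 2) * Real.log T / 2 := by
      rw [hM]; field_simp
    calc Real.sqrt Real.pi * M ≤ Real.pi * M := by gcongr
      _ = (T - 2) * Real.log T / 2 := h10
      _ ≤ T * Real.log T := by nlinarith
  calc _ ≤ _ := h2
    _ = Real.sqrt Real.pi * ∫ α in (-μ)..μ, ψ α * JN riemannZeta (T + 1) (2 * T - 1)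
        (α * Real.log T) := by rw [h3, h4]
    _ ≤ Real.sqrt Real.pi * (M * (ψ 0 + 2 * μ ^ 2 * H + e)) := by gcongr
    _ = (ψ 0 + 2 * μ ^ 2 * H + e) * (Real.sqrt Real.pi * M) := by ring
    _ ≤ _ := by gcongr

lemma arith_aux (X r e δ η C1 R0 a b c d : ℝ) (hX : 0 ≤ X) (hr : 0 ≤ r) (he : 0 < e) (he1 : e ≤ 1)
    (hδ : 0 < δ) (hδ1 : δ ≤ 1) (hη : 0 < η) (hηe : η ≤ e) (hC1 : 0 < C1) (hrR : r ≤ R0)
    (ha : a ≤ (9 / 2 * δ ^ 3 + e) * X) (hb : b ≤ 3 * C1 * δ ^ 3 * (X * r ^ 2))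
    (hc : c ≤ 7 * X) (hd : d ≤ C1 * η ^ 4 * (X * r ^ 2)) :
    (r + e) * a + (1 + 1 / (r + e)) * b + η * c + (1 + 1 / η) * d ≤
      ((9 / 2 + 3 * C1 * (R0 + 1)) * δ ^ 3 * r + (R0 + 13 + 2 * C1 * R0 ^ 2) * e) * X := by
  have hre : 0 < r + e := by linarith
  have hR0 : 0 ≤ R0 := hr.trans hrR
  have hδ3 : δ ^ 3 ≤ 1 := pow_le_one₀ hδ.le hδ1
  have h1 : (r + e) * a ≤ (9 / 2 * δ ^ 3 * r + (R0 + 6) * e) * X := by
    have h2 : (r + e) * a ≤ (r + e) * ((9 / 2 * δ ^ 3 + e) * X) :=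
      mul_le_mul_of_nonneg_left ha hre.le
    refine h2.trans ?_
    rw [← mul_assoc]
    apply mul_le_mul_of_nonneg_right _ hX
    have h3 : r * e ≤ R0 * e := by gcongr
    have h4 : e * e ≤ e * 1 := by gcongr
    have h5 : e * δ ^ 3 ≤ e * 1 := by gcongr
    nlinarith
  have h2 : (1 + 1 / (r + e)) * b ≤ (3 * C1 * (R0 + 1) * δ ^ 3 * r) * X := by
    have h3 : (1 + 1 / (r + e)) * b ≤ (1 + 1 / (r + e)) * (3 * C1 * δ ^ 3 * (X * r ^ 2)) := by
      gcongr
    refine h3.trans ?_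
    have h4 : r ^ 2 / (r + e) ≤ r := by
      rw [div_le_iff₀ hre]
      nlinarith
    have h5 : r ^ 2 ≤ R0 * r := by rw [sq]; gcongr
    have h6 : (1 + 1 / (r + e)) * r ^ 2 ≤ (R0 + 1) * r := by
      have : (1 + 1 / (r + e)) * r ^ 2 = r ^ 2 + r ^ 2 / (r + e) := by ring
      rw [this]
      linarith
    calc (1 + 1 / (r + e)) * (3 * C1 * δ ^ 3 * (X * r ^ 2)) =
        (3 * C1 * δ ^ 3 * X) * ((1 + 1 / (r + e)) * r ^ 2) := by ring
      _ ≤ (3 * C1 * δ ^ 3 * X) * ((R0 + 1) * r) := by gcongr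
      _ = _ := by ring
  have h3 : η * c ≤ (7 * e) * X := by
    calc η * c ≤ η * (7 * X) := by gcongr
      _ ≤ e * (7 * X) := by gcongr
      _ = _ := by ring
  have h4 : (1 + 1 / η) * d ≤ (2 * C1 * R0 ^ 2 * e) * X := by
    have h5 : (1 + 1 / η) * d ≤ (1 + 1 / η) * (C1 * η ^ 4 * (X * r ^ 2)) := by gcongr
    refine h5.trans ?_
    have h6 : (1 + 1 / η) * η ^ 4 ≤ 2 * e := by
      have e1 : (1 + 1 / η) * η ^ 4 = η ^ 4 + η ^ 3 := by field_simp
      rw [e1]
      have h7 : η ≤ 1 := hηe.trans he1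
      have h8 : η ^ 3 ≤ η := by
        calc η ^ 3 = η * (η * η) := by ring
          _ ≤ η * (1 * 1) := by gcongr
          _ = η := by ring
      have h9 : η ^ 4 ≤ η := by
        calc η ^ 4 = η * η ^ 3 := by ring
          _ ≤ 1 * η := by gcongr
          _ = η := one_mul _
      linarith
    calc (1 + 1 / η) * (C1 * η ^ 4 * (X * r ^ 2)) = ((1 + 1 / η) * η ^ 4) * (C1 * r ^ 2 * X) := by
          ring
      _ ≤ (2 * e) * (C1 * R0 ^ 2 * X) := by gcongr
      _ = _ := by ring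
  nlinarith

lemma int4 {μ : Measure ℝ} {f1 f2 f3 f4 : ℝ → ℝ} (h1 : Integrable f1 μ) (h2 : Integrable f2 μ)
    (h3 : Integrable f3 μ) (h4 : Integrable f4 μ) (a b c d : ℝ) :
    Integrable (fun x => a * f1 x + b * f2 x + c * f3 x + d * f4 x) μ ∧
    ∫ x, (a * f1 x + b * f2 x + c * f3 x + d * f4 x) ∂μ =
      a * (∫ x, f1 x ∂μ) + b * (∫ x, f2 x ∂μ) + c * (∫ x, f3 x ∂μ) + d * (∫ x, f4 x ∂μ) := by
  have i1 : Integrable (fun x => a * f1 x) μ := h1.const_mul a
  have i2 : Integrable (fun x => b * f2 x) μ := h2.const_mul b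
  have i3 : Integrable (fun x => c * f3 x) μ := h3.const_mul c
  have i4 : Integrable (fun x => d * f4 x) μ := h4.const_mul d
  have i12 : Integrable (fun x => a * f1 x + b * f2 x) μ := i1.add i2
  have i123 : Integrable (fun x => a * f1 x + b * f2 x + c * f3 x) μ := i12.add i3
  refine ⟨i123.add i4, ?_⟩
  rw [integral_add i123 i4, integral_add i12 i3, integral_add i1 i2, integral_const_mul,
    integral_const_mul, integral_const_mul, integral_const_mul]

theorem diff_main {κ0 : ℝ} (h0 : 0 < κ0) (h1 : κ0 < 2 / 3) : ∃ C θ : ℝ, 0 < C ∧ 0 < θ ∧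
    ∀ δ : ℝ, 0 < δ → δ ≤ κ0 → ∀ ε : ℝ, 0 < ε → ∃ T0 : ℝ, 10 ≤ T0 ∧ ∀ T : ℝ, T0 ≤ T →
    ∫ α in Set.Icc (-δ) δ, |JJ riemannZeta (T + 1) (2 * T - 1) (α * Real.log T) -
      JB (Zf riemannZeta (T + 1) (2 * T - 1)) (fun s => (mult riemannZeta s : ℝ))
        (α * Real.log T)| ≤
      (C * δ ^ 3 * (NO T (2 * T) / (T * Real.log T)) ^ θ + ε) * (T * Real.log T) := by
  set κ : ℝ := (κ0 + 2 / 3) / 2 with hκ
  have hκ1 : κ < 2 / 3 := by rw [hκ]; linarith
  have hκ0 : 0 < κ := by rw [hκ]; linarith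
  have hκκ : κ0 < κ := by rw [hκ]; linarith
  set rr : ℝ := κ / κ0 with hrr
  have hrr1 : 1 < rr := by rw [hrr, lt_div_iff₀ h0]; linarith
  obtain ⟨g0, hg, hgs, hg1⟩ := exists_cutoff hrr1
  obtain ⟨C1, θ1, T1, hC1, hθ1, hθ1', hT1, hD⟩ := D_bound hg (by linarith) hgs hκ0.le hκ1
  obtain ⟨C0, hC0, hcnt⟩ := expm (κ := 0) le_rfl (by norm_num)
  set R0 : ℝ := C0 ^ (θ1 / 2) with hR0
  have hR00 : 0 < R0 := Real.rpow_pos_of_pos hC0 _
  set K : ℝ := R0 + 13 + 2 * C1 * R0 ^ 2 with hK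
  have hK0 : 0 < K := by positivity
  refine ⟨9 / 2 + 3 * C1 * (R0 + 1), θ1 / 2, by positivity, by positivity, fun δ hδ hδκ ε hε => ?_⟩
  have hδ1 : δ ≤ 1 := by linarith
  set e : ℝ := min 1 (ε / K) with he
  have he0 : 0 < e := lt_min one_pos (by positivity)
  have he1 : e ≤ 1 := min_le_left _ _
  have heK : K * e ≤ ε := by
    have : e ≤ ε / K := min_le_right _ _
    rw [le_div_iff₀ hK0] at this
    linarith
  obtain ⟨J0, hJ0⟩ := exists_pow_lt_of_lt_one he0 (by norm_num : (1 / 2 : ℝ) < 1)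
  set J : ℕ := J0 + 1 with hJ
  set η : ℝ := δ / 2 ^ J with hη
  have hη0 : 0 < η := by positivity
  have hηe : η ≤ e := by
    have h2 : η = δ / 2 * (1 / 2) ^ J0 := by
      rw [hη, hJ, pow_succ, div_pow, one_pow]
      field_simp
    rw [h2]
    have h3 : (0 : ℝ) < (1 / 2) ^ J0 := by positivity
    nlinarith
  have hη13 : η ≤ δ / 2 := by
    rw [hη]
    apply div_le_div_of_nonneg_left hδ.le (by norm_num)
    calc (2 : ℝ) = 2 ^ 1 := by norm_num
      _ ≤ 2 ^ J := pow_le_pow_right₀ (by norm_num) (by omega)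
  -- the two test functions
  obtain ⟨Ta, hTa, hpa⟩ := psi_up (3 / 2 * δ) e (by positivity) (by linarith) he0 (tent δ) 2 δ
    (tent_lip δ) (fun x hx => tent_zero hx) (tent_nonneg δ) (tent_le hδ.le)
  obtain ⟨Tb, hTb, hpb⟩ := psi_up (2 * η) 1 (by positivity) (by linarith) one_pos
    (fun α => 2 * hatf (α / (2 * η))) (1 / η) 2
    (by
      intro x y
      rw [← mul_sub, abs_mul, abs_of_pos (by norm_num : (0 : ℝ) < 2)]
      have h2 := hatf_lip (x / (2 * η)) (y / (2 * η))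
      rw [← sub_div, abs_div, abs_of_pos (by positivity : 0 < 2 * η)] at h2
      calc 2 * |hatf (x / (2 * η)) - hatf (y / (2 * η))| ≤ 2 * (|x - y| / (2 * η)) := by gcongr
        _ = 1 / η * |x - y| := by field_simp)
    (by
      intro x hx
      rw [hatf_zero, mul_zero]
      rw [abs_div, abs_of_pos (by positivity : 0 < 2 * η), le_div_iff₀ (by positivity)]
      linarith)
    (fun x => mul_nonneg (by norm_num) (hatf_nonneg _))
    (by
      intro x
      have : hatf (x / (2 * η)) ≤ 1 := by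
        unfold hatf
        exact max_le (by norm_num) (by linarith [abs_nonneg (x / (2 * η))])
      linarith)
  obtain ⟨Tc, hTc⟩ := (Real.tendsto_log_atTop.eventually_ge_atTop (2 ^ J / δ)).exists_forall_of_atTop
  refine ⟨max (max Ta Tb) (max T1 Tc), (hTa.trans (le_max_left _ _)).trans (le_max_left _ _),
    fun T hT => ?_⟩
  have hTTa : Ta ≤ T := ((le_max_left _ _).trans (le_max_left _ _)).trans hT
  have hTTb : Tb ≤ T := ((le_max_right _ _).trans (le_max_left _ _)).trans hT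
  have hTT1 : T1 ≤ T := ((le_max_left _ _).trans (le_max_right _ _)).trans hT
  have hLJ := hTc T (((le_max_right _ _).trans (le_max_right _ _)).trans hT)
  have hT10 : 10 ≤ T := hTa.trans hTTa
  have hA1 : (1 : ℝ) ≤ T + 1 := by linarith
  set L := Real.log T with hL
  have hL0 : 0 < L := Real.log_pos (by linarith)
  set X := T * L with hX
  have hX0 : 0 < X := by positivity
  set S := Zf riemannZeta (T + 1) (2 * T - 1) with hS
  set m : ℂ → ℝ := fun s => (mult riemannZeta s : ℝ) with hm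
  have hSsub : S ⊆ Zf riemannZeta T (2 * T) := by
    intro s hs
    rw [hS, mem_Zf good_zeta hA1] at hs
    rw [mem_Zf good_zeta (by linarith)]
    obtain ⟨g1, g2, g3, g4, g5⟩ := hs
    exact ⟨g1, g2, by linarith, by linarith, g5⟩
  have hNO0 := NO_nonneg T (2 * T)
  set r : ℝ := (NO T (2 * T) / X) ^ (θ1 / 2) with hr
  have hr0 : 0 ≤ r := Real.rpow_nonneg (by positivity) _
  have hrR : r ≤ R0 := by
    apply Real.rpow_le_rpow (by positivity) _ (by positivity)
    rw [div_le_iff₀ hX0]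
    refine le_trans ?_ (hcnt T hT10)
    unfold NO
    have h2 : ∀ s : ℂ, ew 0 L s = 1 := fun s => by unfold ew; simp
    calc ∑ s ∈ (Zf riemannZeta T (2 * T)).filter (fun s => s.re ≠ 1 / 2), (mult riemannZeta s : ℝ)
        ≤ ∑ s ∈ Zf riemannZeta T (2 * T), (mult riemannZeta s : ℝ) :=
          Finset.sum_le_sum_of_subset_of_nonneg (Finset.filter_subset _ _)
            fun _ _ _ => Nat.cast_nonneg _
      _ = _ := Finset.sum_congr rfl fun s _ => by rw [h2, mul_one]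
  have hXr : NO T (2 * T) ^ θ1 * X ^ (1 - θ1) = X * r ^ 2 := by
    rw [hr, ← Real.rpow_natCast, ← Real.rpow_mul (by positivity)]
    have e1 : θ1 / 2 * ((2 : ℕ) : ℝ) = θ1 := by push_cast; ring
    rw [e1, Real.div_rpow hNO0 hX0.le, Real.rpow_sub hX0, Real.rpow_one]
    ring
  have hDint : ∀ α, Integrable (fun t => ‖DD S m L α t‖ ^ 2) := fun α => DD_int hA1 L α
  have hG : ∀ j : ℕ, j ≤ J → Integrable (fun α => g0 (α / (δ / 2 ^ j)) ^ 2 * JD S m L α) ∧
      ∫ α, g0 (α / (δ / 2 ^ j)) ^ 2 * JD S m L α ≤ C1 * (δ / 2 ^ j) ^ 4 * (X * r ^ 2) := by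
    intro j hj
    have hpow : (2 : ℝ) ^ j ≤ 2 ^ J := pow_le_pow_right₀ (by norm_num) hj
    have hpow1 : (1 : ℝ) ≤ 2 ^ j := one_le_pow₀ (by norm_num)
    have hdj : 0 < δ / 2 ^ j := by positivity
    have hdj1 : δ / 2 ^ j ≤ δ := div_le_self hδ.le hpow1
    apply JD_cut hg.continuous S m L hDint (by positivity)
    rw [← hXr]
    apply hD T hTT1 (δ / 2 ^ j) hdj (hdj1.trans hδ1) _ _ S hSsub
    · calc rr * (δ / 2 ^ j) ≤ rr * κ0 := by
            apply mul_le_mul_of_nonneg_left (hdj1.trans hδκ) (by linarith)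
        _ = κ := by rw [hrr]; field_simp
    · rw [div_le_iff₀ hδ] at hLJ
      rw [div_mul_eq_mul_div, le_div_iff₀ (by positivity)]
      linarith
  -- the pointwise bound
  set JA : ℝ → ℝ := fun α => JJ riemannZeta (T + 1) (2 * T - 1) (α * L) with hJA
  have hJAc : Continuous JA :=
    (JJ_cont good_zeta (U2 := 2 * T - 1) hA1).comp (by fun_prop)
  have hJA0 : ∀ α, 0 ≤ JA α := fun α => integral_nonneg fun t => by positivity
  have hJBc : Continuous fun α : ℝ => JB S m (α * L) := (JB_cont S m).comp (by fun_prop)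
  have hc0 : 0 < r + e := by linarith
  have hpt : ∀ α ∈ Set.Icc (-δ) δ, |JA α - JB S m (α * L)| ≤
      (r + e) * (tent δ α * JA α) + (1 + 1 / (r + e)) * (∑ j ∈ Finset.range J,
        2 ^ (j + 1) / δ * (g0 (α / (δ / 2 ^ j)) ^ 2 * JD S m L α)) +
      η * (2 * hatf (α / (2 * η)) * JA α) +
      (1 + 1 / η) * (g0 (α / (δ / 2 ^ J)) ^ 2 * JD S m L α) := by
    intro α hα
    have hαδ : |α| ≤ δ := abs_le.2 hα
    have hJDn := JD_nonneg S m L α
    have hJAn := hJA0 α
    have p1 : 0 ≤ (r + e) * (tent δ α * JA α) := by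
      have := tent_nonneg δ α
      positivity
    have p2 : 0 ≤ (1 + 1 / (r + e)) * (∑ j ∈ Finset.range J,
        2 ^ (j + 1) / δ * (g0 (α / (δ / 2 ^ j)) ^ 2 * JD S m L α)) := by
      have : 0 ≤ ∑ j ∈ Finset.range J,
        2 ^ (j + 1) / δ * (g0 (α / (δ / 2 ^ j)) ^ 2 * JD S m L α) :=
        Finset.sum_nonneg fun j _ => by positivity
      positivity
    have p3 : 0 ≤ η * (2 * hatf (α / (2 * η)) * JA α) := by
      have := hatf_nonneg (α / (2 * η))
      positivity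
    have p4 : 0 ≤ (1 + 1 / η) * (g0 (α / (δ / 2 ^ J)) ^ 2 * JD S m L α) := by positivity
    rcases le_or_gt |α| η with h2 | h2
    · have h3 := diff_le (A := T + 1) (B := 2 * T - 1) hA1 L α η hη0
      have h4 : JA α ≤ 2 * hatf (α / (2 * η)) * JA α := by
        have h5 : 1 / 2 ≤ hatf (α / (2 * η)) := by
          unfold hatf
          apply le_max_of_le_right
          rw [abs_div, abs_of_pos (by positivity : 0 < 2 * η)]
          have : |α| / (2 * η) ≤ 1 / 2 := by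
            rw [div_le_iff₀ (by positivity)]
            linarith
          linarith
        nlinarith
      have h5 : g0 (α / (δ / 2 ^ J)) = 1 := by
        apply hg1
        rw [abs_div, abs_of_pos (by positivity : 0 < δ / 2 ^ J), div_le_one (by positivity)]
        exact h2
      have h6 : η * JA α ≤ η * (2 * hatf (α / (2 * η)) * JA α) :=
        mul_le_mul_of_nonneg_left h4 hη0.le
      rw [h5, one_pow, one_mul]
      have h7 : |JA α - JB S m (α * L)| ≤ η * JA α + (1 + 1 / η) * JD S m L α := h3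
      linarith
    · have hα0 : 0 < |α| := hη0.trans h2
      have h3 := diff_le (A := T + 1) (B := 2 * T - 1) hA1 L α ((r + e) * |α|) (by positivity)
      have h4 := dyad hg1 hδ α hαδ J h2
      have h5 : 1 + 1 / ((r + e) * |α|) ≤ (1 + 1 / (r + e)) * (1 / |α|) := by
        have h6 : 1 ≤ 1 / |α| := by
          rw [le_div_iff₀ hα0]; linarith
        have h7 : 1 / ((r + e) * |α|) = 1 / (r + e) * (1 / |α|) := by field_simp
        rw [h7]
        linarith
      have h6 : (1 + 1 / ((r + e) * |α|)) * JD S m L α ≤ (1 + 1 / (r + e)) *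
          (∑ j ∈ Finset.range J, 2 ^ (j + 1) / δ * (g0 (α / (δ / 2 ^ j)) ^ 2 * JD S m L α)) := by
        calc (1 + 1 / ((r + e) * |α|)) * JD S m L α ≤
            ((1 + 1 / (r + e)) * (1 / |α|)) * JD S m L α := by gcongr
          _ = (1 + 1 / (r + e)) * ((1 / |α|) * JD S m L α) := by ring
          _ ≤ (1 + 1 / (r + e)) * ((∑ j ∈ Finset.range J, 2 ^ (j + 1) / δ *
              g0 (α / (δ / 2 ^ j)) ^ 2) * JD S m L α) := by gcongr
          _ = _ := by
            rw [Finset.sum_mul]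
            congr 1
            exact Finset.sum_congr rfl fun j _ => by ring
      have h7 : (r + e) * |α| * JA α = (r + e) * (tent δ α * JA α) := by
        rw [tent_eq hαδ]; ring
      have h8 : |JA α - JB S m (α * L)| ≤ (r + e) * |α| * JA α +
        (1 + 1 / ((r + e) * |α|)) * JD S m L α := h3
      rw [h7] at h8
      linarith
  -- integrate
  have htc : Continuous (tent δ) := by unfold tent; fun_prop
  have hhc : Continuous hatf := by unfold hatf; fun_prop
  have hI1 : IntegrableOn (fun α => tent δ α * JA α) (Set.Icc (-δ) δ) :=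
    (htc.mul hJAc).continuousOn.integrableOn_compact isCompact_Icc
  have hI2 : IntegrableOn (fun α => 2 * hatf (α / (2 * η)) * JA α) (Set.Icc (-δ) δ) :=
    (((continuous_const.mul (hhc.comp (by fun_prop : Continuous fun α : ℝ => α / (2 * η))))).mul
      hJAc).continuousOn.integrableOn_compact isCompact_Icc
  have hI3 : ∀ j ≤ J, IntegrableOn (fun α => g0 (α / (δ / 2 ^ j)) ^ 2 * JD S m L α)
      (Set.Icc (-δ) δ) := fun j hj => (hG j hj).1.integrableOn
  have hI4 : IntegrableOn (fun α => ∑ j ∈ Finset.range J,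
        2 ^ (j + 1) / δ * (g0 (α / (δ / 2 ^ j)) ^ 2 * JD S m L α)) (Set.Icc (-δ) δ) :=
    integrable_finsetSum _ fun j hj => (hI3 j (by
      have := Finset.mem_range.1 hj; omega)).const_mul _
  have hI0 : IntegrableOn (fun α => |JA α - JB S m (α * L)|) (Set.Icc (-δ) δ) :=
    ((hJAc.sub hJBc).abs).continuousOn.integrableOn_compact isCompact_Icc
  have hmain : ∫ α in Set.Icc (-δ) δ, |JA α - JB S m (α * L)| ≤
      (r + e) * (∫ α in Set.Icc (-δ) δ, tent δ α * JA α) + (1 + 1 / (r + e)) *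
      (∫ α in Set.Icc (-δ) δ, ∑ j ∈ Finset.range J,
        2 ^ (j + 1) / δ * (g0 (α / (δ / 2 ^ j)) ^ 2 * JD S m L α)) +
      η * (∫ α in Set.Icc (-δ) δ, 2 * hatf (α / (2 * η)) * JA α) +
      (1 + 1 / η) * (∫ α in Set.Icc (-δ) δ, g0 (α / (δ / 2 ^ J)) ^ 2 * JD S m L α) := by
    obtain ⟨q1, q2⟩ := int4 hI1 hI4 hI2 (hI3 J le_rfl) (r + e) (1 + 1 / (r + e)) η (1 + 1 / η)
    rw [← q2]
    exact setIntegral_mono_on hI0 q1 measurableSet_Icc hpt
  have hGset : ∀ j ≤ J, ∫ α in Set.Icc (-δ) δ, g0 (α / (δ / 2 ^ j)) ^ 2 * JD S m L α ≤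
      C1 * (δ / 2 ^ j) ^ 4 * (X * r ^ 2) := by
    intro j hj
    refine le_trans (setIntegral_le_integral (hG j hj).1 (Eventually.of_forall fun α => ?_))
      (hG j hj).2
    have := JD_nonneg S m L α
    show 0 ≤ g0 (α / (δ / 2 ^ j)) ^ 2 * JD S m L α
    positivity
  have hbsum : ∫ α in Set.Icc (-δ) δ, ∑ j ∈ Finset.range J,
        2 ^ (j + 1) / δ * (g0 (α / (δ / 2 ^ j)) ^ 2 * JD S m L α) ≤
      3 * C1 * δ ^ 3 * (X * r ^ 2) := by
    rw [integral_finsetSum _ fun j hj => (hI3 j (by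
      have := Finset.mem_range.1 hj; omega)).const_mul _]
    calc ∑ j ∈ Finset.range J, ∫ α in Set.Icc (-δ) δ,
          2 ^ (j + 1) / δ * (g0 (α / (δ / 2 ^ j)) ^ 2 * JD S m L α) ≤
        ∑ j ∈ Finset.range J, 2 * C1 * δ ^ 3 * (X * r ^ 2) * (1 / 8 : ℝ) ^ j := by
          refine Finset.sum_le_sum fun j hj => ?_
          rw [integral_const_mul]
          have h2 := hGset j (by have := Finset.mem_range.1 hj; omega)
          calc 2 ^ (j + 1) / δ * ∫ α in Set.Icc (-δ) δ, g0 (α / (δ / 2 ^ j)) ^ 2 * JD S m L α ≤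
              2 ^ (j + 1) / δ * (C1 * (δ / 2 ^ j) ^ 4 * (X * r ^ 2)) := by gcongr
            _ = 2 * C1 * δ ^ 3 * (X * r ^ 2) * (1 / 8 : ℝ) ^ j := by
              have h8 : (8 : ℝ) ^ j = (2 ^ j) ^ 3 := by
                rw [← pow_mul, mul_comm, pow_mul]; norm_num
              rw [div_pow, div_pow, one_pow, h8, pow_succ]
              field_simp
      _ = 2 * C1 * δ ^ 3 * (X * r ^ 2) * ∑ j ∈ Finset.range J, (1 / 8 : ℝ) ^ j := by
          rw [Finset.mul_sum]
      _ ≤ 2 * C1 * δ ^ 3 * (X * r ^ 2) * (1 - 1 / 8 : ℝ)⁻¹ := by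
          apply mul_le_mul_of_nonneg_left _ (by positivity)
          have h5 := (summable_geometric_of_lt_one (by norm_num : (0 : ℝ) ≤ 1 / 8)
            (by norm_num)).sum_le_tsum (Finset.range J) (fun i _ => by positivity)
          rwa [tsum_geometric_of_lt_one (by norm_num) (by norm_num)] at h5
      _ ≤ 3 * C1 * δ ^ 3 * (X * r ^ 2) := by
          have h9 : 0 ≤ C1 * δ ^ 3 * (X * r ^ 2) := by positivity
          have h10 : (1 - 1 / 8 : ℝ)⁻¹ = 8 / 7 := by norm_num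
          have e9 : 2 * C1 * δ ^ 3 * (X * r ^ 2) * (8 / 7) =
              16 / 7 * (C1 * δ ^ 3 * (X * r ^ 2)) := by ring
          have e10 : 3 * C1 * δ ^ 3 * (X * r ^ 2) = 3 * (C1 * δ ^ 3 * (X * r ^ 2)) := by ring
          rw [h10, e9, e10]
          linarith
  have ha := hpa T hTTa δ hδ.le
  have hb := hpb T hTTb δ hδ.le
  have ht0 : tent δ 0 = 0 := by rw [tent_eq (by simpa using hδ.le)]; simp
  have hh0 : hatf (0 / (2 * η)) = 1 := by unfold hatf; simp
  simp only [ht0, hh0] at ha hb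
  have hfin := arith_aux X r e δ η C1 R0 (hX := hX0.le) hr0 he0 he1 hδ hδ1 hη0 hηe hC1 hrR
    (a := ∫ α in Set.Icc (-δ) δ, tent δ α * JA α)
    (b := ∫ α in Set.Icc (-δ) δ, ∑ j ∈ Finset.range J,
        2 ^ (j + 1) / δ * (g0 (α / (δ / 2 ^ j)) ^ 2 * JD S m L α))
    (c := ∫ α in Set.Icc (-δ) δ, 2 * hatf (α / (2 * η)) * JA α)
    (d := ∫ α in Set.Icc (-δ) δ, g0 (α / (δ / 2 ^ J)) ^ 2 * JD S m L α)
    (by
      refine ha.trans (le_of_eq ?_)
      ring) hbsum
    (by
      refine hb.trans ?_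
      apply mul_le_mul_of_nonneg_right _ hX0.le
      have : (2 * η) ^ 2 ≤ 1 := by
        apply pow_le_one₀ (by positivity)
        linarith
      nlinarith)
    (hGset J le_rfl)
  refine hmain.trans (hfin.trans ?_)
  apply mul_le_mul_of_nonneg_right _ hX0.le
  rw [← hK]
  linarith

end Pool.Agent.Y750.OM
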