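import Pool.Agent.Y750.OM.Diff

set_option autoImplicit false

/-! # The pair sum over the ordinates -/

namespace Pool.Agent.Y750.OM

open Complex Filter Topology Set MeasureTheory
open H370 (Zf mult mem_Zf good_zeta zset JJ JJ_cont NN NN_eq)
open H370.A2 (JN near_count weight_sum pair_weight weight_free)

/-- the cosine transform -/
noncomputable def rh (r : ℝ → ℝ) (x : ℝ) : ℝ := ∫ α : ℝ, r α * Real.cos (α * x)

lemma rh_bound {r : ℝ → ℝ} (hr : ContDiff ℝ 2 r) {M : ℝ} (hM : 0 ≤ M)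
    (hs : ∀ α, M < |α| → r α = 0) : ∃ C : ℝ, 0 < C ∧ ∀ x, |rh r x| * (1 + x ^ 2) ≤ C := by
  have hcs : ∀ {f : ℝ → ℝ}, Continuous f → ∃ B : ℝ, ∀ β, |β| ≤ M → |f β| ≤ B := by
    intro f hf
    obtain ⟨B, hB⟩ := (isCompact_Icc (a := -M) (b := M)).exists_bound_of_continuousOn
      (f := f) hf.continuousOn
    exact ⟨B, fun β hβ => hB β (abs_le.1 hβ)⟩
  have h2 : ContDiff ℝ (1 + 1) r := hr
  have hr1 : ContDiff ℝ 1 (deriv r) := (contDiff_succ_iff_deriv.1 h2).2.2
  have h3 : ContDiff ℝ (0 + 1) (deriv r) := by simpa using hr1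
  have hr2 : Continuous (deriv (deriv r)) := (contDiff_succ_iff_deriv.1 h3).2.2.continuous
  have hd0 : ∀ β, HasDerivAt r (deriv r β) β := fun β =>
    (h2.differentiable (by norm_num)).differentiableAt.hasDerivAt
  have hd1 : ∀ β, HasDerivAt (deriv r) (deriv (deriv r) β) β := fun β =>
    (hr1.differentiable (by norm_num)).differentiableAt.hasDerivAt
  have hz : ∀ {f : ℝ → ℝ}, (∀ β, M < |β| → f β = 0) → ∀ β, M < |β| → deriv f β = 0 := by
    intro f hf β hβ
    have he : f =ᶠ[𝓝 β] fun _ => 0 := by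
      have : ∀ᶠ x in 𝓝 β, M < |x| := (continuous_abs.continuousAt).eventually (lt_mem_nhds hβ)
      exact this.mono fun x hx => hf x hx
    rw [he.deriv_eq]
    simp
  obtain ⟨B0, hB0⟩ := hcs hr.continuous
  obtain ⟨B2, hB2⟩ := hcs hr2
  refine ⟨|2 * M * (B0 + 1 ^ 2 * B2)| + 1, by positivity, fun x => ?_⟩
  have h4 := decay (k := fun α => (r α : ℂ)) (k1 := fun α => ((deriv r α : ℝ) : ℂ))
    (k2 := fun α => ((deriv (deriv r) α : ℝ) : ℂ)) (fun α => (hd0 α).ofReal_comp)
    (fun α => (hd1 α).ofReal_comp) (Complex.continuous_ofReal.comp hr2) hM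
    (fun α hα => by rw [hs α hα]; simp) (fun α hα => by rw [hz (hz hs) α hα]; simp)
    (B0 := B0) (B2 := B2) (fun α hα => by rw [Complex.norm_real]; exact hB0 α hα)
    (fun α hα => by rw [Complex.norm_real]; exact hB2 α hα) (δ := 1) x
  have h5 : rh r x = (∫ α : ℝ, (r α : ℂ) * cexp (I * (α * x : ℝ))).re := by
    unfold rh
    have hint : Integrable fun α : ℝ => (r α : ℂ) * cexp (I * (α * x : ℝ)) := by
      have hc : Continuous fun α : ℝ => (r α : ℂ) * cexp (I * (α * x : ℝ)) := by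
        have := hr.continuous
        fun_prop
      apply hc.integrable_of_hasCompactSupport
      apply HasCompactSupport.intro (isCompact_Icc (a := -M) (b := M))
      intro α hα
      have : M < |α| := by
        by_contra hcon
        push Not at hcon
        exact hα (abs_le.1 hcon)
      rw [hs _ this]
      simp
    have h6 : (∫ α : ℝ, (r α : ℂ) * cexp (I * (α * x : ℝ))).re =
        ∫ α : ℝ, ((r α : ℂ) * cexp (I * (α * x : ℝ))).re := by
      have := integral_re hint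
      simpa using this.symm
    rw [h6]
    congr 1
    funext α
    rw [Complex.re_ofReal_mul, show I * ((α * x : ℝ) : ℂ) = ((α * x : ℝ) : ℂ) * I by ring,
      Complex.exp_ofReal_mul_I_re]
  rw [h5]
  have h7 := Complex.abs_re_le_norm (∫ α : ℝ, (r α : ℂ) * cexp (I * (α * x : ℝ)))
  calc |(∫ α : ℝ, (r α : ℂ) * cexp (I * (α * x : ℝ))).re| * (1 + x ^ 2) ≤
      ‖∫ α : ℝ, (r α : ℂ) * cexp (I * (α * x : ℝ))‖ * (1 + (1 * x) ^ 2) := by
        rw [one_mul]; gcongr
    _ ≤ 2 * M * (B0 + 1 ^ 2 * B2) := h4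
    _ ≤ |2 * M * (B0 + 1 ^ 2 * B2)| := le_abs_self _
    _ ≤ _ := by linarith

/-- a pair sum over the ordinates of a block -/
noncomputable def PO (f : ℝ → ℝ) (A B L : ℝ) : ℝ :=
  ∑ s ∈ Zf riemannZeta A B, ∑ s' ∈ Zf riemannZeta A B, (mult riemannZeta s : ℝ) *
    (mult riemannZeta s' : ℝ) * f ((s.im - s'.im) * L)

/-- the integral of the mean square against a test function -/
theorem JB_int {r : ℝ → ℝ} (hr : Continuous r) {δ : ℝ} (hδ : 0 ≤ δ) (hs : ∀ α, δ < |α| → r α = 0)
    (S : Finset ℂ) (m : ℂ → ℝ) (L : ℝ) :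
    ∫ α in (-δ)..δ, r α * (JB S m (α * L) / Real.sqrt Real.pi) =
      ∑ s ∈ S, ∑ s' ∈ S, m s * m s' * (rh r ((s.im - s'.im) * L) *
        Real.exp (-(s.im - s'.im) ^ 2 / 4)) := by
  have hpi : Real.sqrt Real.pi ≠ 0 := by positivity
  have e1 : ∀ α : ℝ, r α * (JB S m (α * L) / Real.sqrt Real.pi) =
      ∑ s ∈ S, ∑ s' ∈ S, r α * (m s * m s' *
      (Real.cos (α * L * (s.im - s'.im)) * Real.exp (-(s.im - s'.im) ^ 2 / 4))) := by
    intro α
    rw [JB_eq, mul_div_assoc, mul_comm (Real.sqrt Real.pi), div_mul_cancel₀ _ hpi,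
      Finset.mul_sum]
    refine Finset.sum_congr rfl fun s _ => ?_
    rw [Finset.mul_sum]
  simp_rw [e1]
  have hc : ∀ s s' : ℂ, Continuous fun α : ℝ => r α * (m s * m s' *
      (Real.cos (α * L * (s.im - s'.im)) * Real.exp (-(s.im - s'.im) ^ 2 / 4))) := by
    intro s s'
    fun_prop
  rw [intervalIntegral.integral_finsetSum]
  swap
  · intro s _
    exact (continuous_finsetSum _ fun s' _ => hc s s').intervalIntegrable _ _
  refine Finset.sum_congr rfl fun s _ => ?_
  rw [intervalIntegral.integral_finsetSum]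
  swap
  · intro s' _
    exact (hc s s').intervalIntegrable _ _
  refine Finset.sum_congr rfl fun s' _ => ?_
  have e2 : ∫ α in (-δ)..δ, r α * Real.cos (α * ((s.im - s'.im) * L)) =
      rh r ((s.im - s'.im) * L) := by
    unfold rh
    have hr0 : ∀ α, δ ≤ |α| → r α = 0 := by
      intro α hα
      rcases hα.lt_or_eq with h | h
      · exact hs α h
      · -- by continuity
        have hcl : IsClosed {x : ℝ | r x = 0} := isClosed_eq hr continuous_const
        rcases le_total 0 α with h0 | h0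
        · rw [abs_of_nonneg h0] at h
          have h1 : Set.Ioi δ ⊆ {x : ℝ | r x = 0} := fun x hx => hs x (lt_of_lt_of_le hx (le_abs_self x))
          have h2 := closure_minimal h1 hcl
          rw [closure_Ioi] at h2
          exact h2 (by rw [← h]; exact Set.self_mem_Ici)
        · rw [abs_of_nonpos h0] at h
          have h1 : Set.Iio (-δ) ⊆ {x : ℝ | r x = 0} := fun x hx => hs x (by
            have : x < -δ := hx
            have := neg_abs_le x
            linarith)
          have h2 := closure_minimal h1 hcl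
          rw [closure_Iio] at h2
          exact h2 (by rw [h, neg_neg]; exact Set.self_mem_Iic)
    rw [intervalIntegral.integral_of_le (by linarith), setIntegral_eq_integral_of_forall_compl_eq_zero]
    intro x hx
    have : δ ≤ |x| := by
      by_contra hcon
      push Not at hcon
      have := abs_lt.1 hcon
      exact hx ⟨this.1, this.2.le⟩
    rw [hr0 x this, zero_mul]
  rw [← e2, ← intervalIntegral.integral_mul_const, ← intervalIntegral.integral_const_mul]
  refine intervalIntegral.integral_congr fun α _ => ?_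
  have e3 : α * L * (s.im - s'.im) = α * ((s.im - s'.im) * L) := by ring
  show _ = m s * m s' * (r α * Real.cos (α * ((s.im - s'.im) * L)) *
    Real.exp (-(s.im - s'.im) ^ 2 / 4))
  simp only [e3]
  ring

/-- zeros near the ends of a dyadic block -/
theorem edge_count : ∃ C : ℝ, 0 < C ∧ ∀ T : ℝ, 10 ≤ T →
    ∑ s ∈ Zf riemannZeta T (2 * T) \ Zf riemannZeta (T + 1) (2 * T - 1),
      (mult riemannZeta s : ℝ) ≤ C * Real.log T := by
  classical
  obtain ⟨C, hC, h⟩ := near_count good_zeta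
  refine ⟨2 * C, by positivity, fun T hT => ?_⟩
  have h1 := h T hT T (2 * T) le_rfl (by linarith) T
  have h2 := h T hT T (2 * T) le_rfl (by linarith) (2 * T)
  have hm : ∀ s : ℂ, (0 : ℝ) ≤ (mult riemannZeta s : ℝ) := fun s => Nat.cast_nonneg _
  calc ∑ s ∈ Zf riemannZeta T (2 * T) \ Zf riemannZeta (T + 1) (2 * T - 1),
      (mult riemannZeta s : ℝ) ≤
      ∑ s ∈ ((Zf riemannZeta T (2 * T)).filter (fun s => T - 1 < s.im ∧ s.im ≤ T + 1) ∪
        (Zf riemannZeta T (2 * T)).filter (fun s => 2 * T - 1 < s.im ∧ s.im ≤ 2 * T + 1)),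
        (mult riemannZeta s : ℝ) := by
        apply Finset.sum_le_sum_of_subset_of_nonneg
        · intro s hs
          rw [Finset.mem_sdiff, mem_Zf good_zeta (by linarith : (1 : ℝ) ≤ T + 1)] at hs
          obtain ⟨h3, h4⟩ := hs
          rw [Finset.mem_union, Finset.mem_filter, Finset.mem_filter]
          have h5 := h3
          rw [mem_Zf good_zeta (by linarith)] at h5
          obtain ⟨g1, g2, g3, g4, g5⟩ := h5
          by_cases h6 : s.im ≤ T + 1
          · exact Or.inl ⟨h3, by linarith, h6⟩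
          · right
            refine ⟨h3, ?_, by linarith⟩
            by_contra h7
            push Not at h6 h7
            exact h4 ⟨g1, g2, h6, h7, g5⟩
        · intro s _ _
          exact hm s
    _ ≤ ∑ s ∈ (Zf riemannZeta T (2 * T)).filter (fun s => T - 1 < s.im ∧ s.im ≤ T + 1),
        (mult riemannZeta s : ℝ) +
        ∑ s ∈ (Zf riemannZeta T (2 * T)).filter (fun s => 2 * T - 1 < s.im ∧ s.im ≤ 2 * T + 1),
        (mult riemannZeta s : ℝ) := by
        have h3 := Finset.sum_union_inter (s₁ := (Zf riemannZeta T (2 * T)).filter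
          (fun s => T - 1 < s.im ∧ s.im ≤ T + 1)) (s₂ := (Zf riemannZeta T (2 * T)).filter
          (fun s => 2 * T - 1 < s.im ∧ s.im ≤ 2 * T + 1)) (f := fun s => (mult riemannZeta s : ℝ))
        have h4 : 0 ≤ ∑ s ∈ ((Zf riemannZeta T (2 * T)).filter
          (fun s => T - 1 < s.im ∧ s.im ≤ T + 1) ∩ (Zf riemannZeta T (2 * T)).filter
          (fun s => 2 * T - 1 < s.im ∧ s.im ≤ 2 * T + 1)), (mult riemannZeta s : ℝ) :=
          Finset.sum_nonneg fun s _ => hm s
        linarith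
    _ ≤ 2 * C * Real.log T := by linarith

/-- the edges of a dyadic block are negligible in pair sums -/
theorem edges : ∃ C : ℝ, 0 < C ∧ ∀ T : ℝ, 10 ≤ T → ∀ (f : ℝ → ℝ) (Cf : ℝ), 0 ≤ Cf →
    (∀ x, |f x| * (1 + x ^ 2) ≤ Cf) → |PO f T (2 * T) (Real.log T) -
      PO f (T + 1) (2 * T - 1) (Real.log T)| ≤ C * Cf * Real.log T ^ 2 := by
  classical
  obtain ⟨C1, hC1, h1⟩ := edge_count
  obtain ⟨C2, hC2, h2⟩ := weight_sum good_zeta
  refine ⟨2 * C1 * C2, by positivity, fun T hT f Cf hCf hf => ?_⟩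
  have hL1 : 1 ≤ Real.log T := by
    rw [Real.le_log_iff_exp_le (by linarith)]
    have := Real.exp_one_lt_d9
    linarith
  set L := Real.log T with hL
  set Z := Zf riemannZeta T (2 * T) with hZ
  set S := Zf riemannZeta (T + 1) (2 * T - 1) with hS
  set m : ℂ → ℝ := fun s => (mult riemannZeta s : ℝ) with hm
  have hm0 : ∀ s, 0 ≤ m s := fun s => Nat.cast_nonneg _
  have hSZ : S ⊆ Z := by
    intro s hs
    rw [hS, mem_Zf good_zeta (by linarith)] at hs
    rw [hZ, mem_Zf good_zeta (by linarith)]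
    obtain ⟨g1, g2, g3, g4, g5⟩ := hs
    exact ⟨g1, g2, by linarith, by linarith, g5⟩
  set F : ℂ → ℂ → ℝ := fun s s' => m s * m s' * f ((s.im - s'.im) * L) with hF
  have hFb : ∀ s s', |F s s'| ≤ m s * (Cf * (m s' * (1 / (1 + (s'.im - s.im) ^ 2)))) := by
    intro s s'
    simp only [hF]
    rw [abs_mul, abs_of_nonneg (mul_nonneg (hm0 s) (hm0 s')), mul_assoc]
    apply mul_le_mul_of_nonneg_left _ (hm0 s)
    have h3 := hf ((s.im - s'.im) * L)
    have h4 : |f ((s.im - s'.im) * L)| ≤ Cf * (1 / (1 + (s'.im - s.im) ^ 2)) := by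
      rw [mul_one_div, le_div_iff₀ (by positivity)]
      refine le_trans ?_ h3
      apply mul_le_mul_of_nonneg_left _ (abs_nonneg _)
      have h5 : 1 ≤ L ^ 2 := one_le_pow₀ hL1
      have h6 : 0 ≤ (s'.im - s.im) ^ 2 := sq_nonneg _
      have h7 : ((s.im - s'.im) * L) ^ 2 = (s'.im - s.im) ^ 2 * L ^ 2 := by ring
      rw [h7]
      nlinarith
    calc m s' * |f ((s.im - s'.im) * L)| ≤ m s' * (Cf * (1 / (1 + (s'.im - s.im) ^ 2))) :=
          mul_le_mul_of_nonneg_left h4 (hm0 s')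
      _ = _ := by ring
  have hFs : ∀ s s', |F s s'| ≤ m s' * (Cf * (m s * (1 / (1 + (s.im - s'.im) ^ 2)))) := by
    intro s s'
    refine (hFb s s').trans (le_of_eq ?_)
    have : (s'.im - s.im) ^ 2 = (s.im - s'.im) ^ 2 := by ring
    rw [this]
    ring
  have hE : ∑ s ∈ Z \ S, m s ≤ C1 * L := h1 T hT
  have hE0 : 0 ≤ ∑ s ∈ Z \ S, m s := Finset.sum_nonneg fun s _ => hm0 s
  have hrow : ∀ s, ∑ s' ∈ Z, m s * (Cf * (m s' * (1 / (1 + (s'.im - s.im) ^ 2)))) ≤
      m s * (Cf * (C2 * L)) := by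
    intro s
    rw [← Finset.mul_sum, ← Finset.mul_sum]
    have := h2 T hT T (2 * T) le_rfl (by linarith) s.im
    have := hm0 s
    gcongr
  have hd : PO f T (2 * T) L - PO f (T + 1) (2 * T - 1) L =
      (∑ s ∈ Z \ S, ∑ s' ∈ Z, F s s') + ∑ s ∈ S, ∑ s' ∈ Z \ S, F s s' := by
    have e1 : PO f T (2 * T) L = (∑ s ∈ Z \ S, ∑ s' ∈ Z, F s s') + ∑ s ∈ S, ∑ s' ∈ Z, F s s' :=
      (Finset.sum_sdiff hSZ).symm
    have e2 : ∑ s ∈ S, ∑ s' ∈ Z, F s s' = (∑ s ∈ S, ∑ s' ∈ Z \ S, F s s') +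
        PO f (T + 1) (2 * T - 1) L := by
      unfold PO
      rw [← Finset.sum_add_distrib]
      refine Finset.sum_congr rfl fun s _ => ?_
      exact (Finset.sum_sdiff hSZ).symm
    rw [e1, e2]
    ring
  rw [hd]
  have hp1 : |∑ s ∈ Z \ S, ∑ s' ∈ Z, F s s'| ≤ C1 * L * (Cf * (C2 * L)) := by
    calc |∑ s ∈ Z \ S, ∑ s' ∈ Z, F s s'| ≤ ∑ s ∈ Z \ S, ∑ s' ∈ Z, |F s s'| :=
          (Finset.abs_sum_le_sum_abs _ _).trans (Finset.sum_le_sum fun s _ =>
            Finset.abs_sum_le_sum_abs _ _)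
      _ ≤ ∑ s ∈ Z \ S, m s * (Cf * (C2 * L)) :=
          Finset.sum_le_sum fun s _ => (Finset.sum_le_sum fun s' _ => hFb s s').trans (hrow s)
      _ = (∑ s ∈ Z \ S, m s) * (Cf * (C2 * L)) := by rw [Finset.sum_mul]
      _ ≤ _ := by gcongr
  have hp2 : |∑ s ∈ S, ∑ s' ∈ Z \ S, F s s'| ≤ C1 * L * (Cf * (C2 * L)) := by
    rw [Finset.sum_comm]
    calc |∑ s' ∈ Z \ S, ∑ s ∈ S, F s s'| ≤ ∑ s' ∈ Z \ S, ∑ s ∈ S, |F s s'| :=
          (Finset.abs_sum_le_sum_abs _ _).trans (Finset.sum_le_sum fun s _ =>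
            Finset.abs_sum_le_sum_abs _ _)
      _ ≤ ∑ s' ∈ Z \ S, ∑ s ∈ Z, |F s s'| := by
          refine Finset.sum_le_sum fun s' _ => ?_
          exact Finset.sum_le_sum_of_subset_of_nonneg hSZ fun _ _ _ => abs_nonneg _
      _ ≤ ∑ s' ∈ Z \ S, m s' * (Cf * (C2 * L)) :=
          Finset.sum_le_sum fun s' _ => (Finset.sum_le_sum fun s _ => hFs s s').trans (hrow s')
      _ = (∑ s ∈ Z \ S, m s) * (Cf * (C2 * L)) := by rw [Finset.sum_mul]
      _ ≤ _ := by gcongr
  refine (abs_add_le _ _).trans ((add_le_add hp1 hp2).trans (le_of_eq ?_))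
  ring

/-- removing the Gaussian weight -/
theorem degauss : ∃ C : ℝ, 0 < C ∧ ∀ T : ℝ, 10 ≤ T → ∀ (f : ℝ → ℝ) (Cf : ℝ), 0 ≤ Cf →
    (∀ x, |f x| * (1 + x ^ 2) ≤ Cf) →
    |(∑ s ∈ Zf riemannZeta (T + 1) (2 * T - 1), ∑ s' ∈ Zf riemannZeta (T + 1) (2 * T - 1),
      (mult riemannZeta s : ℝ) * (mult riemannZeta s' : ℝ) * (f ((s.im - s'.im) * Real.log T) *
        Real.exp (-(s.im - s'.im) ^ 2 / 4))) - PO f (T + 1) (2 * T - 1) (Real.log T)| ≤
      C * Cf / Real.log T * NN riemannZeta (T + 1) (2 * T - 1) := by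
  obtain ⟨Cw, hCw, hw⟩ := pair_weight good_zeta
  refine ⟨50 * Cw, by positivity, fun T hT f Cf hCf hf => ?_⟩
  have hL : 0 < Real.log T := Real.log_pos (by linarith)
  set L := Real.log T with hLdef
  have h1 := hw T hT (T + 1) (2 * T - 1) (by linarith) (by linarith)
  unfold PO
  rw [← Finset.sum_sub_distrib]
  simp_rw [← Finset.sum_sub_distrib]
  calc _ ≤ ∑ s ∈ Zf riemannZeta (T + 1) (2 * T - 1), ∑ s' ∈ Zf riemannZeta (T + 1) (2 * T - 1),
        |(mult riemannZeta s : ℝ) * (mult riemannZeta s' : ℝ) *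
        (f ((s.im - s'.im) * L) * Real.exp (-(s.im - s'.im) ^ 2 / 4)) -
        (mult riemannZeta s : ℝ) * (mult riemannZeta s' : ℝ) *
        f ((s.im - s'.im) * L)| :=
          (Finset.abs_sum_le_sum_abs _ _).trans (Finset.sum_le_sum fun s _ =>
            Finset.abs_sum_le_sum_abs _ _)
    _ ≤ ∑ s ∈ Zf riemannZeta (T + 1) (2 * T - 1), ∑ s' ∈ Zf riemannZeta (T + 1) (2 * T - 1),
          50 * Cf / L ^ 2 * ((mult riemannZeta s : ℝ) * (mult riemannZeta s' : ℝ) *
          (1 / (1 + (s.im - s'.im) ^ 2))) := by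
          refine Finset.sum_le_sum fun s _ => Finset.sum_le_sum fun s' _ => ?_
          rw [← mul_sub, abs_mul, abs_of_nonneg (by positivity : (0 : ℝ) ≤
            (mult riemannZeta s : ℝ) * (mult riemannZeta s' : ℝ))]
          have h2 := weight_free L (s.im - s'.im) Cf (f ((s.im - s'.im) * L)) hL hCf (by
            refine le_trans ?_ (hf ((s.im - s'.im) * L))
            apply mul_le_mul_of_nonneg_left _ (abs_nonneg _)
            rw [div_pow]
            have h3 : 0 ≤ ((s.im - s'.im) * L) ^ 2 := sq_nonneg _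
            have h4 : 1 ≤ (2 * Real.pi) ^ 2 := by
              have := Real.pi_gt_three
              apply one_le_pow₀
              linarith
            have h5 : ((s.im - s'.im) * L) ^ 2 / (2 * Real.pi) ^ 2 ≤ ((s.im - s'.im) * L) ^ 2 :=
              div_le_self h3 h4
            linarith)
          calc _ ≤ (mult riemannZeta s : ℝ) * (mult riemannZeta s' : ℝ) *
              (50 * Cf / L ^ 2 * (1 / (1 + (s.im - s'.im) ^ 2))) := by gcongr
            _ = _ := by ring
    _ = 50 * Cf / L ^ 2 * ∑ s ∈ Zf riemannZeta (T + 1) (2 * T - 1),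
          ∑ s' ∈ Zf riemannZeta (T + 1) (2 * T - 1),
          ((mult riemannZeta s : ℝ) * (mult riemannZeta s' : ℝ) *
          (1 / (1 + (s.im - s'.im) ^ 2))) := by
          rw [Finset.mul_sum]
          exact Finset.sum_congr rfl fun s _ => by rw [Finset.mul_sum]
    _ ≤ 50 * Cf / L ^ 2 * (Cw * L * NN riemannZeta (T + 1) (2 * T - 1)) := by gcongr
    _ = _ := by field_simp

end Pool.Agent.Y750.OM
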