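import Mathlib

set_option autoImplicit false

/-! # Decay of Fourier transforms of compactly supported functions with an exponential factor -/

namespace Pool.Agent.Y750.OM

open Complex Set MeasureTheory Filter Topology

/-- two integrations by parts -/
theorem ibp2 {k k1 k2 : ℝ → ℂ} (h1 : ∀ α, HasDerivAt k (k1 α) α) (h2 : ∀ α, HasDerivAt k1 (k2 α) α)
    (hk2 : Continuous k2) {M : ℝ} (hs : ∀ α, M < |α| → k α = 0) (X : ℝ) :
    (X : ℂ) ^ 2 * ∫ α : ℝ, k α * cexp (I * (α * X : ℝ)) =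
      -∫ α : ℝ, k2 α * cexp (I * (α * X : ℝ)) := by
  have hkc : Continuous k := continuous_iff_continuousAt.2 fun α => (h1 α).continuousAt
  have hk1c : Continuous k1 := continuous_iff_continuousAt.2 fun α => (h2 α).continuousAt
  have hs1 : ∀ α, M < |α| → k1 α = 0 := by
    intro α hα
    have he : k =ᶠ[𝓝 α] fun _ => 0 := by
      have : ∀ᶠ β in 𝓝 α, M < |β| := (continuous_abs.continuousAt).eventually (lt_mem_nhds hα)
      exact this.mono fun β hβ => hs β hβ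
    have h3 := (h1 α).congr_of_eventuallyEq he.symm
    exact h3.unique (hasDerivAt_const α (0 : ℂ))
  have hs2 : ∀ α, M < |α| → k2 α = 0 := by
    intro α hα
    have he : k1 =ᶠ[𝓝 α] fun _ => 0 := by
      have : ∀ᶠ β in 𝓝 α, M < |β| := (continuous_abs.continuousAt).eventually (lt_mem_nhds hα)
      exact this.mono fun β hβ => hs1 β hβ
    have h3 := (h2 α).congr_of_eventuallyEq he.symm
    exact h3.unique (hasDerivAt_const α (0 : ℂ))
  have hcs : ∀ {f : ℝ → ℂ}, (∀ α, M < |α| → f α = 0) → HasCompactSupport f := by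
    intro f hf
    apply HasCompactSupport.intro (isCompact_Icc (a := -M) (b := M))
    intro x hx
    apply hf
    by_contra hcon
    push Not at hcon
    exact hx (abs_le.1 hcon)
  have he : ∀ α : ℝ, HasDerivAt (fun α : ℝ => cexp (I * (α * X : ℝ)))
      (I * X * cexp (I * (α * X : ℝ))) α := by
    intro α
    have h3 : HasDerivAt (fun α : ℝ => I * ((α * X : ℝ) : ℂ)) (I * X) α := by
      have h4 : HasDerivAt (fun α : ℝ => ((α * X : ℝ) : ℂ)) ((1 * X : ℝ) : ℂ) α :=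
        ((hasDerivAt_id α).mul_const X).ofReal_comp
      have h5 := h4.const_mul I
      simpa using h5
    have h4 := h3.cexp
    rw [mul_comm (cexp _)] at h4
    exact h4
  have hec : Continuous fun α : ℝ => cexp (I * (α * X : ℝ)) := by fun_prop
  have hint : ∀ {f : ℝ → ℂ}, Continuous f → (∀ α, M < |α| → f α = 0) →
      Integrable (fun α : ℝ => f α * cexp (I * (α * X : ℝ))) := by
    intro f hf hf0
    apply (hf.mul hec).integrable_of_hasCompactSupport
    exact (hcs hf0).mul_right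
  have ibp : ∀ {f f1 : ℝ → ℂ}, (∀ α, HasDerivAt f (f1 α) α) → Continuous f → Continuous f1 →
      (∀ α, M < |α| → f α = 0) → (∀ α, M < |α| → f1 α = 0) →
      (I * X) * ∫ α : ℝ, f α * cexp (I * (α * X : ℝ)) =
        -∫ α : ℝ, f1 α * cexp (I * (α * X : ℝ)) := by
    intro f f1 hf hfc hf1c hf0 hf10
    have h3 := integral_mul_deriv_eq_deriv_mul_of_integrable (u := f)
      (v := fun α : ℝ => cexp (I * (α * X : ℝ))) (u' := f1)
      (v' := fun α : ℝ => I * X * cexp (I * (α * X : ℝ))) (fun x _ => hf x) (fun x _ => he x)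
      (by
        have h4 := (hint hfc hf0).const_mul (I * X)
        refine h4.congr (Eventually.of_forall fun α => ?_)
        simp only [Pi.mul_apply]
        ring)
      (by
        have h4 := hint hf1c hf10
        refine h4.congr (Eventually.of_forall fun α => ?_)
        simp only [Pi.mul_apply])
      (by
        have h4 := hint hfc hf0
        refine h4.congr (Eventually.of_forall fun α => ?_)
        simp only [Pi.mul_apply])
    rw [← h3, ← integral_const_mul]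
    congr 1
    funext α
    ring
  have a1 := ibp h1 hkc hk1c hs hs1
  have a2 := ibp h2 hk1c hk2 hs1 hs2
  have e1 : (X : ℂ) ^ 2 * ∫ α : ℝ, k α * cexp (I * (α * X : ℝ)) =
      -((I * X) * ((I * X) * ∫ α : ℝ, k α * cexp (I * (α * X : ℝ)))) := by
    have : I * I = -1 := I_mul_I
    linear_combination ((X : ℂ) ^ 2 * ∫ α : ℝ, k α * cexp (I * (α * X : ℝ))) * this
  rw [e1, a1]
  have e2 : -(I * X * -∫ α : ℝ, k1 α * cexp (I * (α * X : ℝ))) =
      (I * X) * ∫ α : ℝ, k1 α * cexp (I * (α * X : ℝ)) := by ring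
  rw [e2, a2]

/-- the integral of a bounded function supported in `[-M, M]` -/
theorem int_le {f : ℝ → ℂ} {M B : ℝ} (hM : 0 ≤ M) (hs : ∀ α, M < |α| → f α = 0)
    (hb : ∀ α, |α| ≤ M → ‖f α‖ ≤ B) (X : ℝ) :
    ‖∫ α : ℝ, f α * cexp (I * (α * X : ℝ))‖ ≤ 2 * M * B := by
  have e : ∫ α : ℝ, f α * cexp (I * (α * X : ℝ)) =
      ∫ α in Icc (-M) M, f α * cexp (I * (α * X : ℝ)) := by
    rw [← integral_indicator measurableSet_Icc]
    congr 1
    funext α
    by_cases h : α ∈ Icc (-M) M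
    · rw [indicator_of_mem h]
    · rw [indicator_of_notMem h, hs α, zero_mul]
      by_contra hcon
      push Not at hcon
      exact h (abs_le.1 hcon)
  rw [e]
  have h := norm_setIntegral_le_of_norm_le_const (μ := volume) (s := Icc (-M) M)
    (f := fun α : ℝ => f α * cexp (I * (α * X : ℝ))) (C := B)
    (by rw [Real.volume_Icc]; exact ENNReal.ofReal_lt_top) (by
    intro α hα
    rw [norm_mul, show I * ((α * X : ℝ) : ℂ) = ((α * X : ℝ) : ℂ) * I by ring,
      Complex.norm_exp_ofReal_mul_I, mul_one]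
    exact hb α (abs_le.2 hα))
  refine h.trans (le_of_eq ?_)
  rw [measureReal_def, Real.volume_Icc, ENNReal.toReal_ofReal (by linarith)]
  ring

/-- the decay of the transform -/
theorem decay {k k1 k2 : ℝ → ℂ} (h1 : ∀ α, HasDerivAt k (k1 α) α)
    (h2 : ∀ α, HasDerivAt k1 (k2 α) α) (hk2 : Continuous k2) {M B0 B2 δ : ℝ} (hM : 0 ≤ M)
    (hs : ∀ α, M < |α| → k α = 0) (hs2 : ∀ α, M < |α| → k2 α = 0)
    (hb0 : ∀ α, |α| ≤ M → ‖k α‖ ≤ B0) (hb2 : ∀ α, |α| ≤ M → ‖k2 α‖ ≤ B2) (X : ℝ) :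
    ‖∫ α : ℝ, k α * cexp (I * (α * X : ℝ))‖ * (1 + (δ * X) ^ 2) ≤ 2 * M * (B0 + δ ^ 2 * B2) := by
  have e0 := int_le hM hs hb0 X
  have e2 := int_le hM hs2 hb2 X
  have e3 := congrArg norm (ibp2 h1 h2 hk2 hs X)
  rw [norm_mul, norm_neg, norm_pow, Complex.norm_real, Real.norm_eq_abs, sq_abs] at e3
  set A := ‖∫ α : ℝ, k α * cexp (I * (α * X : ℝ))‖ with hA
  have e4 : X ^ 2 * A ≤ 2 * M * B2 := by rw [e3]; exact e2
  have e5 : δ ^ 2 * (X ^ 2 * A) ≤ δ ^ 2 * (2 * M * B2) := mul_le_mul_of_nonneg_left e4 (sq_nonneg _)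
  calc A * (1 + (δ * X) ^ 2) = A + δ ^ 2 * (X ^ 2 * A) := by ring
    _ ≤ 2 * M * B0 + δ ^ 2 * (2 * M * B2) := add_le_add e0 e5
    _ = _ := by ring

/-! ### the factor attached to a zero -/

/-- the factor -/
noncomputable def cfac (y x L α : ℝ) : ℂ :=
  (Real.exp (y ^ 2 / 2) : ℂ) * Complex.cosh ((y : ℂ) * (α * L + I * x)) - 1

noncomputable def cfac1 (y x L α : ℝ) : ℂ :=
  (Real.exp (y ^ 2 / 2) : ℂ) * ((y * L : ℝ) * Complex.sinh ((y : ℂ) * (α * L + I * x)))

noncomputable def cfac2 (y x L α : ℝ) : ℂ :=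
  (Real.exp (y ^ 2 / 2) : ℂ) * ((y * L : ℝ) * ((y * L : ℝ) *
    Complex.cosh ((y : ℂ) * (α * L + I * x))))

theorem arg_deriv (y x L α : ℝ) :
    HasDerivAt (fun α : ℝ => (y : ℂ) * (α * L + I * x)) ((y * L : ℝ) : ℂ) α := by
  have h1 : HasDerivAt (fun α : ℝ => ((α * L : ℝ) : ℂ)) ((1 * L : ℝ) : ℂ) α :=
    ((hasDerivAt_id α).mul_const L).ofReal_comp
  have h2 := (h1.add_const (I * x)).const_mul (y : ℂ)
  refine (h2.congr_of_eventuallyEq (Eventually.of_forall fun β => ?_)).congr_deriv ?_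
  · show (y : ℂ) * (β * L + I * x) = (y : ℂ) * (((β * L : ℝ) : ℂ) + I * x)
    push_cast; ring
  · push_cast; ring

theorem cfac_deriv (y x L α : ℝ) : HasDerivAt (cfac y x L) (cfac1 y x L α) α := by
  have h := (((Complex.hasDerivAt_cosh _).comp α (arg_deriv y x L α)).const_mul
    (Real.exp (y ^ 2 / 2) : ℂ)).sub_const 1
  refine h.congr_deriv ?_
  unfold cfac1
  ring

theorem cfac1_deriv (y x L α : ℝ) : HasDerivAt (cfac1 y x L) (cfac2 y x L α) α := by
  have h := ((((Complex.hasDerivAt_sinh _).comp α (arg_deriv y x L α)).const_mul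
    ((y * L : ℝ) : ℂ))).const_mul (Real.exp (y ^ 2 / 2) : ℂ)
  refine h.congr_deriv ?_
  unfold cfac2
  ring

theorem cfac2_cont (y x L : ℝ) : Continuous (cfac2 y x L) := by
  unfold cfac2
  fun_prop

theorem norm_cosh_le (z : ℂ) : ‖Complex.cosh z‖ ≤ Real.exp |z.re| := by
  unfold Complex.cosh
  rw [norm_div]
  have h1 : ‖cexp z‖ ≤ Real.exp |z.re| := by
    rw [Complex.norm_exp]; exact Real.exp_le_exp.2 (le_abs_self _)
  have h2 : ‖cexp (-z)‖ ≤ Real.exp |z.re| := by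
    rw [Complex.norm_exp, Complex.neg_re]; exact Real.exp_le_exp.2 (neg_le_abs _)
  have h3 : ‖(2 : ℂ)‖ = 2 := by simp
  rw [h3, div_le_iff₀ (by norm_num)]
  refine (norm_add_le _ _).trans ?_
  linarith

theorem norm_sinh_le (z : ℂ) : ‖Complex.sinh z‖ ≤ ‖z‖ * Real.exp |z.re| := by
  have h1 : ∀ s ∈ Icc (0 : ℝ) 1, HasDerivWithinAt (fun s : ℝ => Complex.sinh ((s : ℂ) * z))
      (Complex.cosh ((s : ℂ) * z) * z) (Icc 0 1) s := by
    intro s _
    have h2 : HasDerivAt (fun s : ℝ => (s : ℂ) * z) z s := by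
      have := ((hasDerivAt_id s).ofReal_comp).mul_const z
      simpa using this
    exact ((Complex.hasDerivAt_sinh _).comp s h2).hasDerivWithinAt
  have h3 := norm_image_sub_le_of_norm_deriv_le_segment_01' (f := fun s : ℝ => Complex.sinh ((s : ℂ) * z))
    (f' := fun s : ℝ => Complex.cosh ((s : ℂ) * z) * z) (C := ‖z‖ * Real.exp |z.re|) h1 (by
      intro s hs
      rw [norm_mul, mul_comm]
      apply mul_le_mul_of_nonneg_left _ (norm_nonneg _)
      refine (norm_cosh_le _).trans (Real.exp_le_exp.2 ?_)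
      rw [Complex.re_ofReal_mul, abs_mul, abs_of_nonneg hs.1]
      exact mul_le_of_le_one_left (abs_nonneg _) hs.2.le)
  simpa using h3

theorem norm_cosh_sub_le (z : ℂ) : ‖Complex.cosh z - 1‖ ≤ ‖z‖ ^ 2 * Real.exp |z.re| := by
  have h1 : ∀ s ∈ Icc (0 : ℝ) 1, HasDerivWithinAt (fun s : ℝ => Complex.cosh ((s : ℂ) * z))
      (Complex.sinh ((s : ℂ) * z) * z) (Icc 0 1) s := by
    intro s _
    have h2 : HasDerivAt (fun s : ℝ => (s : ℂ) * z) z s := by
      have := ((hasDerivAt_id s).ofReal_comp).mul_const z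
      simpa using this
    exact ((Complex.hasDerivAt_cosh _).comp s h2).hasDerivWithinAt
  have h3 := norm_image_sub_le_of_norm_deriv_le_segment_01' (f := fun s : ℝ => Complex.cosh ((s : ℂ) * z))
    (f' := fun s : ℝ => Complex.sinh ((s : ℂ) * z) * z) (C := ‖z‖ ^ 2 * Real.exp |z.re|) h1 (by
      intro s hs
      rw [norm_mul]
      have h4 := norm_sinh_le ((s : ℂ) * z)
      have hs1 : |s| ≤ 1 := by rw [abs_of_nonneg hs.1]; exact hs.2.le
      have h5 : ‖(s : ℂ) * z‖ ≤ ‖z‖ := by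
        rw [norm_mul, Complex.norm_real, Real.norm_eq_abs]
        exact mul_le_of_le_one_left (norm_nonneg _) hs1
      have h6 : |((s : ℂ) * z).re| ≤ |z.re| := by
        rw [Complex.re_ofReal_mul, abs_mul]
        exact mul_le_of_le_one_left (abs_nonneg _) hs1
      calc ‖Complex.sinh ((s : ℂ) * z)‖ * ‖z‖ ≤ (‖z‖ * Real.exp |z.re|) * ‖z‖ := by
            apply mul_le_mul_of_nonneg_right _ (norm_nonneg _)
            refine h4.trans ?_
            gcongr
        _ = _ := by ring)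
  simpa using h3

theorem arg_re (y x L α : ℝ) : ((y : ℂ) * (α * L + I * x)).re = y * (α * L) := by
  simp

theorem arg_norm (y x L α : ℝ) : ‖(y : ℂ) * (α * L + I * x)‖ ^ 2 = y ^ 2 * ((α * L) ^ 2 + x ^ 2) := by
  rw [← Complex.normSq_eq_norm_sq, Complex.normSq_apply]
  simp
  ring

/-- the bounds for the factor: `Y = y L`, `|α| ≤ M`, `|y| ≤ 1/2`, `L ≥ 1/δ` -/
theorem cosh_bd {y x L α M : ℝ} (hL : 0 < L) (hα : |α| ≤ M) :
    |((y : ℂ) * (α * L + I * x)).re| ≤ M * |y * L| := by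
  rw [arg_re, show y * (α * L) = α * (y * L) by ring, abs_mul]
  exact mul_le_mul_of_nonneg_right hα (abs_nonneg _)

theorem exp_y {y : ℝ} (hy : |y| ≤ 1 / 2) : Real.exp (y ^ 2 / 2) ≤ 2 ∧
    |Real.exp (y ^ 2 / 2) - 1| ≤ y ^ 2 := by
  have h1 : y ^ 2 ≤ 1 / 4 := by
    have := sq_abs y
    nlinarith [abs_nonneg y]
  have h2 : |y ^ 2 / 2| ≤ 1 := by rw [abs_of_nonneg (by positivity)]; linarith
  have h3 := Real.abs_exp_sub_one_le h2
  rw [abs_of_nonneg (by positivity : 0 ≤ y ^ 2 / 2)] at h3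
  have h4 : |Real.exp (y ^ 2 / 2) - 1| ≤ y ^ 2 := by linarith
  have h5 := (abs_le.1 h4).2
  exact ⟨by linarith, h4⟩

theorem cfac_bound {y x L α M δ : ℝ} (hy : |y| ≤ 1 / 2) (hL : 0 < L) (hδ : 0 < δ)
    (hδL : 1 ≤ δ * L) (hα : |α| ≤ M) :
    ‖cfac y x L α‖ ≤ (δ ^ 2 + M ^ 2) * ((y * L) ^ 2 * (1 + x ^ 2) * Real.exp (M * |y * L|)) := by
  have hM : 0 ≤ M := (abs_nonneg _).trans hα
  obtain ⟨e1, e2⟩ := exp_y hy
  set z : ℂ := (y : ℂ) * (α * L + I * x) with hz
  have hre := cosh_bd (y := y) (x := x) hL hα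
  rw [← hz] at hre
  have h1 : ‖Complex.cosh z‖ ≤ Real.exp (M * |y * L|) :=
    (norm_cosh_le z).trans (Real.exp_le_exp.2 hre)
  have h2 : ‖Complex.cosh z - 1‖ ≤ ‖z‖ ^ 2 * Real.exp (M * |y * L|) :=
    (norm_cosh_sub_le z).trans (mul_le_mul_of_nonneg_left (Real.exp_le_exp.2 hre) (sq_nonneg _))
  have h3 : cfac y x L α = ((Real.exp (y ^ 2 / 2) - 1 : ℝ) : ℂ) * Complex.cosh z +
      (Complex.cosh z - 1) := by
    unfold cfac
    rw [← hz]
    push_cast
    ring
  have hE : 0 < Real.exp (M * |y * L|) := Real.exp_pos _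
  have hyL : y ^ 2 ≤ (δ ^ 2) * (y * L) ^ 2 := by
    have : 1 ≤ (δ * L) ^ 2 := one_le_pow₀ hδL
    calc y ^ 2 ≤ y ^ 2 * (δ * L) ^ 2 := le_mul_of_one_le_right (sq_nonneg _) this
      _ = _ := by ring
  have hα2 : α ^ 2 ≤ M ^ 2 := by
    rw [← sq_abs α]
    exact pow_le_pow_left₀ (abs_nonneg _) hα 2
  rw [h3]
  refine (norm_add_le _ _).trans ?_
  rw [norm_mul, Complex.norm_real, Real.norm_eq_abs]
  calc |Real.exp (y ^ 2 / 2) - 1| * ‖Complex.cosh z‖ + ‖Complex.cosh z - 1‖ ≤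
      y ^ 2 * Real.exp (M * |y * L|) + ‖z‖ ^ 2 * Real.exp (M * |y * L|) := by gcongr
    _ = (y ^ 2 + (y ^ 2 * ((α * L) ^ 2 + x ^ 2))) * Real.exp (M * |y * L|) := by
        rw [hz, arg_norm]; ring
    _ ≤ ((δ ^ 2 + M ^ 2) * ((y * L) ^ 2 * (1 + x ^ 2))) * Real.exp (M * |y * L|) := by
        apply mul_le_mul_of_nonneg_right _ hE.le
        have f1 : y ^ 2 * x ^ 2 ≤ (δ ^ 2) * (y * L) ^ 2 * x ^ 2 :=
          mul_le_mul_of_nonneg_right hyL (sq_nonneg _)
        have f2 : y ^ 2 * (α * L) ^ 2 ≤ M ^ 2 * (y * L) ^ 2 := by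
          calc y ^ 2 * (α * L) ^ 2 = α ^ 2 * (y * L) ^ 2 := by ring
            _ ≤ _ := mul_le_mul_of_nonneg_right hα2 (sq_nonneg _)
        have f3 : 0 ≤ M ^ 2 * (y * L) ^ 2 * x ^ 2 := by positivity
        calc y ^ 2 + (y ^ 2 * ((α * L) ^ 2 + x ^ 2)) = y ^ 2 + y ^ 2 * (α * L) ^ 2 +
              y ^ 2 * x ^ 2 := by ring
          _ ≤ δ ^ 2 * (y * L) ^ 2 + M ^ 2 * (y * L) ^ 2 + (δ ^ 2) * (y * L) ^ 2 * x ^ 2 := by
              linarith
          _ ≤ δ ^ 2 * (y * L) ^ 2 + M ^ 2 * (y * L) ^ 2 + (δ ^ 2) * (y * L) ^ 2 * x ^ 2 +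
              M ^ 2 * (y * L) ^ 2 * x ^ 2 := by linarith
          _ = _ := by ring
    _ = _ := by ring

theorem cfac1_bound {y x L α M δ : ℝ} (hy : |y| ≤ 1 / 2) (hL : 0 < L) (hδ : 0 < δ)
    (hδL : 1 ≤ δ * L) (hα : |α| ≤ M) :
    ‖cfac1 y x L α‖ ≤ 2 * (δ + M) * ((y * L) ^ 2 * (1 + x ^ 2) * Real.exp (M * |y * L|)) := by
  have hM : 0 ≤ M := (abs_nonneg _).trans hα
  obtain ⟨e1, e2⟩ := exp_y hy
  set z : ℂ := (y : ℂ) * (α * L + I * x) with hz
  have hre := cosh_bd (y := y) (x := x) hL hα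
  rw [← hz] at hre
  have h1 : ‖Complex.sinh z‖ ≤ ‖z‖ * Real.exp (M * |y * L|) :=
    (norm_sinh_le z).trans (mul_le_mul_of_nonneg_left (Real.exp_le_exp.2 hre) (norm_nonneg _))
  have hyd : |y| ≤ δ * |y * L| := by
    rw [abs_mul, abs_of_pos hL]
    calc |y| ≤ |y| * (δ * L) := le_mul_of_one_le_right (abs_nonneg _) hδL
      _ = _ := by ring
  have hz1 : ‖z‖ ≤ (δ + M) * (|y * L| * (1 + x ^ 2)) := by
    rw [hz, norm_mul, Complex.norm_real, Real.norm_eq_abs]
    have h2 : ‖((α : ℂ) * L + I * x)‖ ≤ |α| * L + |x| := by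
      refine (norm_add_le _ _).trans ?_
      rw [norm_mul, norm_mul, Complex.norm_I, one_mul, Complex.norm_real, Complex.norm_real,
        Complex.norm_real, Real.norm_eq_abs, Real.norm_eq_abs, Real.norm_eq_abs, abs_of_pos hL]
    have h3 : |x| ≤ 1 + x ^ 2 := by
      have := sq_abs x
      nlinarith [sq_nonneg (|x| - 1), abs_nonneg x]
    calc |y| * ‖((α : ℂ) * L + I * x)‖ ≤ |y| * (|α| * L + |x|) := by gcongr
      _ = |α| * (|y| * L) + |y| * |x| := by ring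
      _ ≤ M * (|y| * L) + δ * |y * L| * |x| := by gcongr
      _ = M * |y * L| * 1 + δ * |y * L| * |x| := by rw [abs_mul, abs_of_pos hL]; ring
      _ ≤ M * |y * L| * (1 + x ^ 2) + δ * |y * L| * (1 + x ^ 2) := by
          have : (1 : ℝ) ≤ 1 + x ^ 2 := by linarith [sq_nonneg x]
          gcongr
      _ = _ := by ring
  unfold cfac1
  rw [norm_mul, norm_mul, Complex.norm_real, Complex.norm_real, Real.norm_eq_abs, Real.norm_eq_abs,
    abs_of_pos (Real.exp_pos _)]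
  calc Real.exp (y ^ 2 / 2) * (|y * L| * ‖Complex.sinh z‖) ≤
      2 * (|y * L| * (((δ + M) * (|y * L| * (1 + x ^ 2))) * Real.exp (M * |y * L|))) := by
        have h5 : ‖Complex.sinh z‖ ≤
            ((δ + M) * (|y * L| * (1 + x ^ 2))) * Real.exp (M * |y * L|) :=
          h1.trans (mul_le_mul_of_nonneg_right hz1 (Real.exp_pos _).le)
        gcongr
    _ = 2 * (δ + M) * (|y * L| ^ 2 * (1 + x ^ 2) * Real.exp (M * |y * L|)) := by ring
    _ = _ := by rw [sq_abs]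

theorem cfac2_bound {y x L α M : ℝ} (hy : |y| ≤ 1 / 2) (hL : 0 < L) (hα : |α| ≤ M) :
    ‖cfac2 y x L α‖ ≤ 2 * ((y * L) ^ 2 * (1 + x ^ 2) * Real.exp (M * |y * L|)) := by
  obtain ⟨e1, e2⟩ := exp_y hy
  set z : ℂ := (y : ℂ) * (α * L + I * x) with hz
  have hre := cosh_bd (y := y) (x := x) hL hα
  rw [← hz] at hre
  have h1 : ‖Complex.cosh z‖ ≤ Real.exp (M * |y * L|) :=
    (norm_cosh_le z).trans (Real.exp_le_exp.2 hre)
  unfold cfac2
  rw [norm_mul, norm_mul, norm_mul, Complex.norm_real, Complex.norm_real, Real.norm_eq_abs,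
    Real.norm_eq_abs, abs_of_pos (Real.exp_pos _)]
  calc Real.exp (y ^ 2 / 2) * (|y * L| * (|y * L| * ‖Complex.cosh z‖)) ≤
      2 * (|y * L| * (|y * L| * Real.exp (M * |y * L|))) := by gcongr
    _ = 2 * (|y * L| ^ 2 * 1 * Real.exp (M * |y * L|)) := by ring
    _ ≤ 2 * (|y * L| ^ 2 * (1 + x ^ 2) * Real.exp (M * |y * L|)) := by
        have : (1 : ℝ) ≤ 1 + x ^ 2 := by linarith [sq_nonneg x]
        gcongr
    _ = _ := by rw [sq_abs]

/-- the decay of the transform of the factor, cut off -/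
theorem kern {g0 : ℝ → ℝ} (hg : ContDiff ℝ (⊤ : ℕ∞) g0) {rr : ℝ} (hrr : 0 < rr)
    (hs : ∀ β, rr < |β| → g0 β = 0) : ∃ C : ℝ, 0 < C ∧ ∀ δ L : ℝ, 0 < δ → 1 ≤ δ * L →
    ∀ y x X : ℝ, |y| ≤ 1 / 2 →
    ‖∫ α : ℝ, ((g0 (α / δ) : ℂ) * cfac y x L α) * cexp (I * (α * X : ℝ))‖ * (1 + (δ * X) ^ 2) ≤
      C * δ ^ 3 * ((y * L) ^ 2 * (1 + x ^ 2) * Real.exp (rr * δ * |y * L|)) := by
  have hcs : ∀ {f : ℝ → ℝ}, Continuous f → (∀ β, rr < |β| → f β = 0) → ∃ B : ℝ, 0 ≤ B ∧
      ∀ β, |f β| ≤ B := by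
    intro f hf hf0
    have hc : HasCompactSupport f := by
      apply HasCompactSupport.intro (isCompact_Icc (a := -rr) (b := rr))
      intro x hx
      apply hf0
      by_contra hcon
      push Not at hcon
      exact hx (abs_le.1 hcon)
    obtain ⟨B, hB⟩ := hc.exists_bound_of_continuous hf
    exact ⟨B, (norm_nonneg _).trans (hB 0), hB⟩
  have hd0 : ∀ β, HasDerivAt g0 (deriv g0 β) β := fun β =>
    (hg.differentiable (by simp)).differentiableAt.hasDerivAt
  have hg1 : ContDiff ℝ (⊤ : ℕ∞) (deriv g0) := by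
    have := (contDiff_infty_iff_deriv.1 hg).2
    exact this
  have hd1 : ∀ β, HasDerivAt (deriv g0) (deriv (deriv g0) β) β := fun β =>
    (hg1.differentiable (by simp)).differentiableAt.hasDerivAt
  have hg2 : ContDiff ℝ (⊤ : ℕ∞) (deriv (deriv g0)) := (contDiff_infty_iff_deriv.1 hg1).2
  have hz : ∀ {f : ℝ → ℝ}, (∀ β, rr < |β| → f β = 0) → ∀ β, rr < |β| → deriv f β = 0 := by
    intro f hf β hβ
    have he : f =ᶠ[𝓝 β] fun _ => 0 := by
      have : ∀ᶠ x in 𝓝 β, rr < |x| := (continuous_abs.continuousAt).eventually (lt_mem_nhds hβ)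
      exact this.mono fun x hx => hf x hx
    rw [he.deriv_eq]
    simp
  have hs1 := hz hs
  have hs2 := hz hs1
  obtain ⟨G0, hG0, hb0⟩ := hcs hg.continuous hs
  obtain ⟨G1, hG1, hb1⟩ := hcs hg1.continuous hs1
  obtain ⟨G2, hG2, hb2⟩ := hcs hg2.continuous hs2
  refine ⟨2 * rr * (G0 * (1 + rr ^ 2) + (G2 * (1 + rr ^ 2) + 2 * G1 * (2 * (1 + rr)) + G0 * 2)) + 1,
    by positivity, fun δ L hδ hδL y x X hy => ?_⟩
  have hL : 0 < L := by
    by_contra h
    push Not at h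
    have : δ * L ≤ 0 := mul_nonpos_of_nonneg_of_nonpos hδ.le h
    linarith
  -- the cut-off and its derivatives
  set g : ℝ → ℂ := fun α => (g0 (α / δ) : ℂ) with hgd
  set g1 : ℝ → ℂ := fun α => ((deriv g0 (α / δ) / δ : ℝ) : ℂ) with hg1d
  set g2 : ℝ → ℂ := fun α => ((deriv (deriv g0) (α / δ) / δ / δ : ℝ) : ℂ) with hg2d
  have hscale : ∀ {f f' : ℝ → ℝ}, (∀ β, HasDerivAt f (f' β) β) → ∀ α,
      HasDerivAt (fun α : ℝ => f (α / δ)) (f' (α / δ) / δ) α := by
    intro f f' hf α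
    have h1 : HasDerivAt (fun α : ℝ => α / δ) (1 / δ) α := (hasDerivAt_id α).div_const δ
    have h2 := (hf (α / δ)).comp α h1
    refine h2.congr_deriv ?_
    ring
  have hdg : ∀ α, HasDerivAt g (g1 α) α := fun α => (hscale hd0 α).ofReal_comp
  have hdg1 : ∀ α, HasDerivAt g1 (g2 α) α := by
    intro α
    have h2 := ((hscale hd1 α).div_const δ).ofReal_comp
    exact h2
  have hsc : ∀ α, rr * δ < |α| → rr < |α / δ| := by
    intro α hα
    rw [abs_div, abs_of_pos hδ, lt_div_iff₀ hδ]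
    exact hα
  -- the product
  set k : ℝ → ℂ := fun α => g α * cfac y x L α with hk
  set k1 : ℝ → ℂ := fun α => g1 α * cfac y x L α + g α * cfac1 y x L α with hk1
  set k2 : ℝ → ℂ := fun α => (g2 α * cfac y x L α + g1 α * cfac1 y x L α) +
    (g1 α * cfac1 y x L α + g α * cfac2 y x L α) with hk2
  have hdk : ∀ α, HasDerivAt k (k1 α) α := fun α => (hdg α).mul (cfac_deriv y x L α)
  have hdk1 : ∀ α, HasDerivAt k1 (k2 α) α := fun α =>
    ((hdg1 α).mul (cfac_deriv y x L α)).add ((hdg α).mul (cfac1_deriv y x L α))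
  have hcg : Continuous g := continuous_iff_continuousAt.2 fun α => (hdg α).continuousAt
  have hcg1 : Continuous g1 := continuous_iff_continuousAt.2 fun α => (hdg1 α).continuousAt
  have hcg2 : Continuous g2 := by
    simp only [hg2d]
    have : Continuous (deriv (deriv g0)) := hg2.continuous
    fun_prop
  have hcc : Continuous (cfac y x L) :=
    continuous_iff_continuousAt.2 fun α => (cfac_deriv y x L α).continuousAt
  have hcc1 : Continuous (cfac1 y x L) :=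
    continuous_iff_continuousAt.2 fun α => (cfac1_deriv y x L α).continuousAt
  have hck2 : Continuous k2 := by
    simp only [hk2]
    exact ((hcg2.mul hcc).add (hcg1.mul hcc1)).add ((hcg1.mul hcc1).add
      (hcg.mul (cfac2_cont y x L)))
  have hks : ∀ α, rr * δ < |α| → k α = 0 := by
    intro α hα
    simp only [hk, hgd]
    rw [hs _ (hsc α hα)]
    simp
  have hks2 : ∀ α, rr * δ < |α| → k2 α = 0 := by
    intro α hα
    simp only [hk2, hgd, hg1d, hg2d]
    rw [hs _ (hsc α hα), hs1 _ (hsc α hα), hs2 _ (hsc α hα)]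
    simp
  set Z := (y * L) ^ 2 * (1 + x ^ 2) * Real.exp (rr * δ * |y * L|) with hZ
  have hZ0 : 0 ≤ Z := by positivity
  have ng : ∀ α, ‖g α‖ ≤ G0 := by
    intro α
    simp only [hgd]
    rw [Complex.norm_real]
    exact hb0 _
  have ng1 : ∀ α, ‖g1 α‖ ≤ G1 / δ := by
    intro α
    simp only [hg1d]
    rw [Complex.norm_real, Real.norm_eq_abs, abs_div, abs_of_pos hδ]
    exact div_le_div_of_nonneg_right (hb1 _) hδ.le
  have ng2 : ∀ α, ‖g2 α‖ ≤ G2 / δ / δ := by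
    intro α
    simp only [hg2d]
    rw [Complex.norm_real, Real.norm_eq_abs, abs_div, abs_div, abs_of_pos hδ]
    exact div_le_div_of_nonneg_right (div_le_div_of_nonneg_right (hb2 _) hδ.le) hδ.le
  have hdec := decay hdk hdk1 hck2 (M := rr * δ) (B0 := G0 * ((δ ^ 2 + (rr * δ) ^ 2) * Z))
    (B2 := (G2 / δ / δ * ((δ ^ 2 + (rr * δ) ^ 2) * Z) + G1 / δ * (2 * (δ + rr * δ) * Z)) +
      (G1 / δ * (2 * (δ + rr * δ) * Z) + G0 * (2 * Z))) (δ := δ) (by positivity) hks hks2 (by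
      intro α hα
      simp only [hk]
      rw [norm_mul]
      exact mul_le_mul (ng α) (cfac_bound hy hL hδ hδL hα) (norm_nonneg _) hG0) (by
      intro α hα
      have f0 := cfac_bound (x := x) hy hL hδ hδL hα
      have f1 := cfac1_bound (x := x) hy hL hδ hδL hα
      have f2 := cfac2_bound (x := x) hy hL hα
      have q1 : 0 ≤ G1 / δ := by positivity
      have q2 : 0 ≤ G2 / δ / δ := by positivity
      simp only [hk2]
      refine (norm_add_le _ _).trans (add_le_add ((norm_add_le _ _).trans (add_le_add ?_ ?_))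
        ((norm_add_le _ _).trans (add_le_add ?_ ?_)))
      · rw [norm_mul]; exact mul_le_mul (ng2 α) f0 (norm_nonneg _) q2
      · rw [norm_mul]; exact mul_le_mul (ng1 α) f1 (norm_nonneg _) q1
      · rw [norm_mul]; exact mul_le_mul (ng1 α) f1 (norm_nonneg _) q1
      · rw [norm_mul]; exact mul_le_mul (ng α) f2 (norm_nonneg _) hG0) X
  refine hdec.trans ?_
  have e : 2 * (rr * δ) * (G0 * ((δ ^ 2 + (rr * δ) ^ 2) * Z) +
      δ ^ 2 * ((G2 / δ / δ * ((δ ^ 2 + (rr * δ) ^ 2) * Z) + G1 / δ * (2 * (δ + rr * δ) * Z)) +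
      (G1 / δ * (2 * (δ + rr * δ) * Z) + G0 * (2 * Z)))) =
      (2 * rr * (G0 * (1 + rr ^ 2) + (G2 * (1 + rr ^ 2) + 2 * G1 * (2 * (1 + rr)) + G0 * 2))) *
        δ ^ 3 * Z := by
    field_simp
    ring
  rw [e]
  have : 0 ≤ δ ^ 3 * Z := by positivity
  nlinarith only [this]

end Pool.Agent.Y750.OM
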