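import Pool.Agent.Y750.OM.Up
import Pool.Agent.Y750.OM.Diff

set_option autoImplicit false

/-! # The one-sided inequality in the full range, integrated over `t` -/

namespace Pool.Agent.Y750.OM

open Complex Filter Topology Set MeasureTheory FourierTransform
open H370
open H370.A2 (JN)

/-- Tonelli -/
theorem fub {g0 : ℝ → ℝ} (hg : Continuous g0) {rr : ℝ} (hs : ∀ β, rr < |β| → g0 β = 0)
    {h : ℝ → ℝ → ℂ} (hh : Continuous (Function.uncurry h))
    (hi : ∀ α, Integrable (fun t : ℝ => ‖h α t‖ ^ 2))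
    (hJ : Continuous (fun α : ℝ => ∫ t : ℝ, ‖h α t‖ ^ 2)) :
    ∫⁻ t : ℝ, ENNReal.ofReal (∫ α : ℝ, ‖(g0 α : ℂ) * h α t‖ ^ 2) =
      ENNReal.ofReal (∫ α : ℝ, g0 α ^ 2 * ∫ t : ℝ, ‖h α t‖ ^ 2) := by
  have hcs : ∀ {E : Type} [NormedAddCommGroup E] (f : ℝ → E), (∀ β, rr < |β| → f β = 0) →
      HasCompactSupport f := by
    intro E _ f hf
    apply HasCompactSupport.intro (isCompact_Icc (a := -rr) (b := rr))
    intro α hα
    apply hf
    by_contra hcon
    push Not at hcon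
    exact hα (abs_le.1 hcon)
  have h1 : ∀ t : ℝ, ENNReal.ofReal (∫ α : ℝ, ‖(g0 α : ℂ) * h α t‖ ^ 2) =
      ∫⁻ α : ℝ, ENNReal.ofReal (‖(g0 α : ℂ) * h α t‖ ^ 2) := by
    intro t
    have hc : Continuous fun α : ℝ => ‖(g0 α : ℂ) * h α t‖ ^ 2 := by
      have : Continuous fun α : ℝ => h α t := hh.comp (by fun_prop : Continuous fun α : ℝ => (α, t))
      fun_prop
    refine ofReal_integral_eq_lintegral_ofReal (hc.integrable_of_hasCompactSupport (hcs _ ?_))
      (Eventually.of_forall fun α => by positivity)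
    intro β hβ
    simp [hs β hβ]
  simp_rw [h1]
  rw [lintegral_lintegral_swap]
  · have h2 : ∀ α : ℝ, ∫⁻ t : ℝ, ENNReal.ofReal (‖(g0 α : ℂ) * h α t‖ ^ 2) =
        ENNReal.ofReal (g0 α ^ 2 * ∫ t : ℝ, ‖h α t‖ ^ 2) := by
      intro α
      have e : ∀ t : ℝ, ‖(g0 α : ℂ) * h α t‖ ^ 2 = g0 α ^ 2 * ‖h α t‖ ^ 2 := by
        intro t
        rw [norm_mul, mul_pow, Complex.norm_real, Real.norm_eq_abs, sq_abs]
      simp_rw [e]
      rw [← ofReal_integral_eq_lintegral_ofReal ((hi α).const_mul _)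
        (Eventually.of_forall fun t => by positivity), integral_const_mul]
    simp_rw [h2]
    refine (ofReal_integral_eq_lintegral_ofReal ?_ (Eventually.of_forall fun α => ?_)).symm
    · apply ((hg.pow 2).mul hJ).integrable_of_hasCompactSupport (hcs _ ?_)
      intro β hβ
      simp [hs β hβ]
    · exact mul_nonneg (sq_nonneg _) (integral_nonneg fun t => by positivity)
  · apply Continuous.aemeasurable
    apply ENNReal.continuous_ofReal.comp
    have h3 : Continuous fun p : ℝ × ℝ => h p.2 p.1 :=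
      hh.comp (by fun_prop : Continuous fun p : ℝ × ℝ => (p.2, p.1))
    have h4 : Continuous fun p : ℝ × ℝ => (g0 p.2 : ℂ) := by fun_prop
    exact ((h4.mul h3).norm).pow 2

lemma om_le_one (δ L ξ : ℝ) (s : ℂ) : om δ L ξ s ≤ 1 := by
  unfold om
  apply inv_le_one_of_one_le₀
  nlinarith [sq_nonneg (δ * (L * s.im - 2 * Real.pi * ξ))]

lemma om_cont (δ L : ℝ) (s : ℂ) : Continuous (fun ξ => om δ L ξ s) := by
  unfold om
  apply Continuous.inv₀ (by fun_prop)
  intro x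
  positivity

/-- the inequality integrated over `t` -/
theorem up_int {g0 : ℝ → ℝ} (hg : ContDiff ℝ (⊤ : ℕ∞) g0) {rr : ℝ} (hrr : 0 < rr)
    (hs : ∀ β, rr < |β| → g0 β = 0) : ∃ C : ℝ, 0 < C ∧ ∀ L : ℝ, 1 ≤ L →
    ∀ A B : ℝ, 1 ≤ A → ∀ η : ℝ, 0 < η →
    ∫ α : ℝ, g0 α ^ 2 * JB (Zf riemannZeta A B) (fun s => (mult riemannZeta s : ℝ)) (α * L) ≤
      (1 + η) * (∫ α : ℝ, g0 α ^ 2 * JJ riemannZeta A B (α * L)) +
      C * (1 + 2 / η) * ∑ s ∈ Zf riemannZeta A B, (mult riemannZeta s : ℝ) * bw rr L s +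
      C * η * ∫ ξ : ℝ, (∑ s ∈ Zf riemannZeta A B, (mult riemannZeta s : ℝ) * om 1 L ξ s) ^ 4 := by
  obtain ⟨C, hC, hup⟩ := up_t hg hrr hs
  refine ⟨4 * C, by positivity, fun L hL A B hA η hη => ?_⟩
  have hL0 : 0 < L := by linarith
  set S := Zf riemannZeta A B with hS
  set m : ℂ → ℝ := fun s => (mult riemannZeta s : ℝ) with hm
  have hm0 : ∀ s, 0 ≤ m s := fun s => Nat.cast_nonneg _
  have hom0 : ∀ ξ s, 0 ≤ om 1 L ξ s := fun ξ s => (om_pos _ _ _ _).le
  set Om : ℝ → ℝ := fun ξ => ∑ s ∈ S, m s * om 1 L ξ s with hOm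
  have hOm0 : ∀ ξ, 0 ≤ Om ξ := fun ξ => Finset.sum_nonneg fun s _ => mul_nonneg (hm0 s) (hom0 _ _)
  have hOmc : Continuous Om := continuous_finsetSum _ fun s _ => continuous_const.mul (om_cont _ _ _)
  have hOmb : ∀ ξ, Om ξ ≤ ∑ s ∈ S, m s := fun ξ => Finset.sum_le_sum fun s _ =>
    mul_le_of_le_one_right (hm0 s) (om_le_one _ _ _ _)
  have hfi : ∀ s, Integrable (fun ξ : ℝ => m s * om 1 L ξ s * Om ξ ^ 3) := by
    intro s
    have h1 : Integrable (fun ξ : ℝ => (m s * (∑ s ∈ S, m s) ^ 3) * om 1 L ξ s) :=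
      (om_int (L := L) one_pos s).1.const_mul _
    refine h1.mono' ((continuous_const.mul (om_cont _ _ _)).mul (hOmc.pow 3)).aestronglyMeasurable
      (Eventually.of_forall fun ξ => ?_)
    have h2 := hOm0 ξ
    have h3 := hom0 ξ s
    have h4 := hm0 s
    rw [Real.norm_of_nonneg (by positivity)]
    have h5 : Om ξ ^ 3 ≤ (∑ s ∈ S, m s) ^ 3 := pow_le_pow_left₀ h2 (hOmb ξ) 3
    calc m s * om 1 L ξ s * Om ξ ^ 3 ≤ m s * om 1 L ξ s * (∑ s ∈ S, m s) ^ 3 := by gcongr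
      _ = _ := by ring
  set c : ℂ → ℝ := fun s => C * (1 + 2 / η) * (m s * bw rr L s) +
      C * η * ∫ ξ : ℝ, m s * om 1 L ξ s * Om ξ ^ 3 with hc
  have hc0 : ∀ s, 0 ≤ c s := by
    intro s
    have h1 : 0 ≤ ∫ ξ : ℝ, m s * om 1 L ξ s * Om ξ ^ 3 :=
      integral_nonneg fun ξ => mul_nonneg (mul_nonneg (hm0 s) (hom0 _ _)) (pow_nonneg (hOm0 ξ) 3)
    have h2 := bw_nonneg rr L s
    have h3 := hm0 s
    simp only [hc]
    positivity
  set a : ℝ → ℝ := fun t => ∫ α : ℝ, ‖(g0 α : ℂ) * AA riemannZeta A B (α * L) t‖ ^ 2 with ha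
  set R : ℝ → ℝ := fun t => ∑ s ∈ S, c s * Real.exp (-(s.im - t) ^ 2 / 4) with hR
  have hRc : Continuous R := by fun_prop
  have hR0 : ∀ t, 0 ≤ R t := fun t => Finset.sum_nonneg fun s _ =>
    mul_nonneg (hc0 s) (Real.exp_pos _).le
  have hRi : Integrable R := integrable_finsetSum _ fun s _ => (q_int s).1.const_mul _
  have hsq : Real.sqrt (Real.pi / (1 / 4)) ≤ 4 := by
    rw [Real.sqrt_le_left (by norm_num)]
    have := Real.pi_lt_d4
    linarith
  have hRint : ∫ t, R t ≤ 4 * ∑ s ∈ S, c s := by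
    simp only [hR]
    rw [integral_finsetSum _ fun s _ => (q_int s).1.const_mul _, Finset.mul_sum]
    refine Finset.sum_le_sum fun s _ => ?_
    rw [integral_const_mul, (q_int s).2, mul_comm]
    exact mul_le_mul_of_nonneg_right hsq (hc0 s)
  have hcs : ∑ s ∈ S, c s = C * (1 + 2 / η) * ∑ s ∈ S, m s * bw rr L s +
      C * η * ∫ ξ : ℝ, Om ξ ^ 4 := by
    simp only [hc]
    have e0 : ∫ ξ : ℝ, Om ξ ^ 4 = ∑ s ∈ S, ∫ ξ : ℝ, m s * om 1 L ξ s * Om ξ ^ 3 := by
      rw [← integral_finsetSum _ fun s _ => hfi s]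
      refine integral_congr_ae (Eventually.of_forall fun ξ => ?_)
      simp only
      rw [← Finset.sum_mul, pow_succ' (Om ξ) 3]
    rw [Finset.sum_add_distrib, ← Finset.mul_sum, ← Finset.mul_sum, e0]
  -- the two Tonelli identities
  have hBcont : Continuous (fun α : ℝ => ∫ t : ℝ, ‖GG S (fun s => ((mult riemannZeta s : ℝ) : ℂ))
      (fun s => (s.im : ℂ)) (α * L) t‖ ^ 2) := by
    have : Continuous fun α : ℝ => JB S m (α * L) := (JB_cont S m).comp (by fun_prop)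
    exact this
  have hAcont : Continuous (fun α : ℝ => ∫ t : ℝ, ‖AA riemannZeta A B (α * L) t‖ ^ 2) := by
    have : Continuous fun α : ℝ => JJ riemannZeta A B (α * L) :=
      (JJ_cont good_zeta (U2 := B) hA).comp (by fun_prop)
    exact this
  have hAc2 : Continuous (Function.uncurry fun α t : ℝ => AA riemannZeta A B (α * L) t) := by
    have : (Function.uncurry fun α t : ℝ => AA riemannZeta A B (α * L) t) =
        Function.uncurry fun α t : ℝ => GG S (fun s => (mult riemannZeta s : ℂ)) zz (α * L) t := by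
      funext p
      simp only [Function.uncurry]
      rw [AA_eq good_zeta hA]
      unfold GG
      exact Finset.sum_congr rfl fun s _ => by rw [hh_eq]
    rw [this]
    exact GG_cont2 S _ _ L
  have fB := fub hg.continuous hs (GG_cont2 S (fun s => ((mult riemannZeta s : ℝ) : ℂ))
    (fun s => (s.im : ℂ)) L) (fun α => (GG_sq S (fun s => ((mult riemannZeta s : ℝ) : ℂ))
    (fun s => (s.im : ℂ)) (α * L)).1) hBcont
  have fA := fub hg.continuous hs hAc2 (fun α => AA_int (B := B) hA (α * L)) hAcont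
  have hA0 : 0 ≤ ∫ α : ℝ, g0 α ^ 2 * ∫ t : ℝ, ‖AA riemannZeta A B (α * L) t‖ ^ 2 :=
    integral_nonneg fun α => mul_nonneg (sq_nonneg _) (integral_nonneg fun t => by positivity)
  have hchain : ENNReal.ofReal (∫ α : ℝ, g0 α ^ 2 * ∫ t : ℝ,
      ‖GG S (fun s => ((mult riemannZeta s : ℝ) : ℂ)) (fun s => (s.im : ℂ)) (α * L) t‖ ^ 2) ≤
      ENNReal.ofReal ((1 + η) * (∫ α : ℝ, g0 α ^ 2 * ∫ t : ℝ,
        ‖AA riemannZeta A B (α * L) t‖ ^ 2) + 4 * ∑ s ∈ S, c s) := by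
    rw [← fB]
    calc ∫⁻ t : ℝ, ENNReal.ofReal (∫ α : ℝ, ‖(g0 α : ℂ) * GG S
          (fun s => ((mult riemannZeta s : ℝ) : ℂ)) (fun s => (s.im : ℂ)) (α * L) t‖ ^ 2) ≤
        ∫⁻ t : ℝ, (ENNReal.ofReal (1 + η) * ENNReal.ofReal (a t) + ENNReal.ofReal (R t)) := by
          refine lintegral_mono fun t => ?_
          rw [← ENNReal.ofReal_mul (by positivity)]
          exact (ENNReal.ofReal_le_ofReal (hup L hL A B hA η hη t)).trans ENNReal.ofReal_add_le
      _ = (ENNReal.ofReal (1 + η) * ∫⁻ t : ℝ, ENNReal.ofReal (a t)) +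
          ∫⁻ t : ℝ, ENNReal.ofReal (R t) := by
          rw [lintegral_add_right _ hRc.measurable.ennreal_ofReal, lintegral_const_mul' _ _
            ENNReal.ofReal_ne_top]
      _ = ENNReal.ofReal ((1 + η) * (∫ α : ℝ, g0 α ^ 2 * ∫ t : ℝ,
            ‖AA riemannZeta A B (α * L) t‖ ^ 2)) + ENNReal.ofReal (∫ t, R t) := by
          rw [fA, ← ENNReal.ofReal_mul (by positivity),
            ofReal_integral_eq_lintegral_ofReal hRi (Eventually.of_forall hR0)]
      _ ≤ ENNReal.ofReal ((1 + η) * (∫ α : ℝ, g0 α ^ 2 * ∫ t : ℝ,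
            ‖AA riemannZeta A B (α * L) t‖ ^ 2)) + ENNReal.ofReal (4 * ∑ s ∈ S, c s) := by
          gcongr
      _ = _ := by
          rw [← ENNReal.ofReal_add (by positivity)]
          have := Finset.sum_nonneg fun s (_ : s ∈ S) => hc0 s
          positivity
  have hc0' := Finset.sum_nonneg fun s (_ : s ∈ S) => hc0 s
  rw [ENNReal.ofReal_le_ofReal_iff (by positivity), hcs] at hchain
  have e1 : ∫ α : ℝ, g0 α ^ 2 * JB S m (α * L) = ∫ α : ℝ, g0 α ^ 2 * ∫ t : ℝ,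
      ‖GG S (fun s => ((mult riemannZeta s : ℝ) : ℂ)) (fun s => (s.im : ℂ)) (α * L) t‖ ^ 2 := rfl
  have e2 : ∫ α : ℝ, g0 α ^ 2 * JJ riemannZeta A B (α * L) = ∫ α : ℝ, g0 α ^ 2 * ∫ t : ℝ,
      ‖AA riemannZeta A B (α * L) t‖ ^ 2 := rfl
  rw [e1, e2]
  refine hchain.trans (le_of_eq ?_)
  ring

end Pool.Agent.Y750.OM
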