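import Pool.Agent.Y750.OM.Off

set_option autoImplicit false

/-! # Moments of the smoothed counts, and the first moment of the off-line weights -/

namespace Pool.Agent.Y750.OM

open Complex Filter Topology Set MeasureTheory
open H370 (Zf mult mem_Zf good_zeta zset)
open Pool.Agent.TH850.UR (ew)

/-- the sum of the powers of the cell counts -/
theorem cell_pow (p : ℕ) {L : ℝ} (hL : 0 < L) (S : Finset ℂ) (m : ℂ → ℝ) (hm : ∀ s, 0 ≤ m s)
    {M : ℝ} (hM : 0 ≤ M)
    (hmom : ∫⁻ t : ℝ, ENNReal.ofReal ((∑ s ∈ S.filter (fun s => |s.im - t| ≤ 1 / L), m s) ^ p) ≤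
      ENNReal.ofReal M) (K : Finset ℤ) :
    ∑ k ∈ K, (∑ s ∈ S.filter (fun s => cell L s = k), m s) ^ p ≤ L * M := by
  classical
  set n : ℤ → ℝ := fun k => ∑ s ∈ S.filter (fun s => cell L s = k), m s with hn
  have hn0 : ∀ k, 0 ≤ n k := fun k => Finset.sum_nonneg fun s _ => hm s
  have h1 : ∀ k : ℤ, ∀ t ∈ Set.Ico ((k : ℝ) / L) (((k : ℝ) + 1) / L), n k ≤
      ∑ s ∈ S.filter (fun s => |s.im - t| ≤ 1 / L), m s := by
    intro k t ht
    simp only [hn]
    apply Finset.sum_le_sum_of_subset_of_nonneg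
    · intro s hs
      rw [Finset.mem_filter] at hs ⊢
      refine ⟨hs.1, ?_⟩
      have h2 := hs.2
      unfold cell at h2
      obtain ⟨h3, h4⟩ := Int.floor_eq_iff.1 h2
      have h5 : (k : ℝ) / L ≤ s.im := by rw [div_le_iff₀ hL]; exact h3
      have h6 : s.im < ((k : ℝ) + 1) / L := by rw [lt_div_iff₀ hL]; exact h4
      have h7 : ((k : ℝ) + 1) / L = (k : ℝ) / L + 1 / L := by ring
      have h8 := ht.1
      have h9 := ht.2
      rw [abs_le]
      constructor <;> linarith
    · intro s _ _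
      exact hm s
  have hone : (0 : ℝ) < 1 / L := by positivity
  have h2 : ENNReal.ofReal (∑ k ∈ K, n k ^ p * (1 / L)) ≤ ENNReal.ofReal M := by
    calc ENNReal.ofReal (∑ k ∈ K, n k ^ p * (1 / L)) =
        ∑ k ∈ K, ENNReal.ofReal (n k ^ p * (1 / L)) := by
          rw [ENNReal.ofReal_sum_of_nonneg]
          intro k _
          have := hn0 k
          positivity
      _ = ∑ k ∈ K, ∫⁻ t : ℝ, (Set.Ico ((k : ℝ) / L) (((k : ℝ) + 1) / L)).indicator
          (fun _ => ENNReal.ofReal (n k ^ p)) t := by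
          refine Finset.sum_congr rfl fun k _ => ?_
          rw [lintegral_indicator measurableSet_Ico, setLIntegral_const, Real.volume_Ico,
            ← ENNReal.ofReal_mul (pow_nonneg (hn0 k) _)]
          congr 2
          ring
      _ = ∫⁻ t : ℝ, ∑ k ∈ K, (Set.Ico ((k : ℝ) / L) (((k : ℝ) + 1) / L)).indicator
          (fun _ => ENNReal.ofReal (n k ^ p)) t := by
          rw [lintegral_finsetSum]
          intro k _
          exact measurable_const.indicator measurableSet_Ico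
      _ ≤ ∫⁻ t : ℝ, ENNReal.ofReal ((∑ s ∈ S.filter (fun s => |s.im - t| ≤ 1 / L), m s) ^ p) := by
          refine lintegral_mono fun t => ?_
          calc
            ∑ k ∈ K, (Set.Ico ((k : ℝ) / L) (((k : ℝ) + 1) / L)).indicator
                (fun _ => ENNReal.ofReal (n k ^ p)) t ≤
              ∑ k ∈ K, if k = ⌊t * L⌋ then ENNReal.ofReal ((∑ s ∈ S.filter
                (fun s => |s.im - t| ≤ 1 / L), m s) ^ p) else 0 := by
                refine Finset.sum_le_sum fun k _ => ?_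
                by_cases h : t ∈ Set.Ico ((k : ℝ) / L) (((k : ℝ) + 1) / L)
                · rw [Set.indicator_of_mem h, if_pos]
                  · exact ENNReal.ofReal_le_ofReal (pow_le_pow_left₀ (hn0 k) (h1 k t h) _)
                  · symm
                    rw [Int.floor_eq_iff]
                    have h3 := h.1
                    have h4 := h.2
                    rw [div_le_iff₀ hL] at h3
                    rw [lt_div_iff₀ hL] at h4
                    exact ⟨h3, h4⟩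
                · rw [Set.indicator_of_notMem h]
                  exact zero_le
            _ ≤ _ := by
                rw [Finset.sum_ite_eq']
                split_ifs
                · exact le_rfl
                · exact zero_le
      _ ≤ ENNReal.ofReal M := hmom
  rw [ENNReal.ofReal_le_ofReal_iff hM, ← Finset.sum_mul, mul_one_div, div_le_iff₀ hL] at h2
  linarith

/-- moments of the smoothed counts -/
theorem omega_moment (q : ℕ) {L : ℝ} (hL : 0 < L) (S : Finset ℂ) (m : ℂ → ℝ) (hm : ∀ s, 0 ≤ m s)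
    {M : ℝ} (hM : 0 ≤ M)
    (hmom : ∫⁻ t : ℝ, ENNReal.ofReal ((∑ s ∈ S.filter (fun s => |s.im - t| ≤ 1 / L), m s) ^ (q + 1)) ≤
      ENNReal.ofReal M) :
    ∫ ξ : ℝ, (∑ s ∈ S, m s * om 1 L ξ s) ^ (q + 1) ≤ (9 * Real.pi) ^ q * (9 / 2) * (L * M) := by
  classical
  set K : Finset ℤ := S.image (cell L) with hK
  set n : ℤ → ℝ := fun k => ∑ s ∈ S.filter (fun s => cell L s = k), m s with hn
  have hn0 : ∀ k, 0 ≤ n k := fun k => Finset.sum_nonneg fun s _ => hm s
  have hmaps : ∀ s ∈ S, cell L s ∈ K := fun s hs => Finset.mem_image_of_mem _ hs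
  have hfib : ∀ F : ℤ → ℝ, ∑ s ∈ S, m s * F (cell L s) = ∑ k ∈ K, n k * F k := by
    intro F
    rw [← Finset.sum_fiberwise_of_maps_to hmaps]
    refine Finset.sum_congr rfl fun k _ => ?_
    simp only [hn]
    rw [Finset.sum_mul]
    refine Finset.sum_congr rfl fun s hs => ?_
    rw [(Finset.mem_filter.1 hs).2]
  have hpow := cell_pow (q + 1) hL S m hm hM hmom K
  set b : ℤ → ℝ → ℝ := fun k ξ => 9 * (1 + ((k : ℝ) - 2 * Real.pi * ξ) ^ 2)⁻¹ with hb
  have hbi : ∀ k, Integrable (b k) ∧ ∫ ξ, b k ξ = 9 / 2 := by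
    intro k
    have hpi := Real.pi_pos
    have e : ∀ ξ, b k ξ = 9 * (fun z : ℝ => (1 + z ^ 2)⁻¹) ((2 * Real.pi) * ξ - k) := by
      intro ξ
      simp only [hb]
      congr 2
      ring
    have hk : 2 * Real.pi ≠ 0 := by positivity
    have h1 : Integrable (fun z : ℝ => (fun z : ℝ => (1 + z ^ 2)⁻¹) (z - k)) :=
      integrable_inv_one_add_sq.comp_sub_right _
    constructor
    · have h2 : Integrable (fun ξ : ℝ => (fun z : ℝ => (fun z : ℝ => (1 + z ^ 2)⁻¹) (z - k))
        ((2 * Real.pi) * ξ)) := h1.comp_mul_left' hk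
      exact (h2.const_mul 9).congr (Eventually.of_forall fun ξ => (e ξ).symm)
    · simp_rw [e]
      rw [integral_const_mul,
        Measure.integral_comp_mul_left (fun z : ℝ => (fun z : ℝ => (1 + z ^ 2)⁻¹) (z - k)),
        integral_sub_right_eq_self (fun z : ℝ => (1 + z ^ 2)⁻¹), integral_univ_inv_one_add_sq,
        abs_of_pos (by positivity), smul_eq_mul]
      field_simp
  have hpt : ∀ ξ : ℝ, (∑ s ∈ S, m s * om 1 L ξ s) ^ (q + 1) ≤
      (9 * Real.pi) ^ q * ∑ k ∈ K, b k ξ * n k ^ (q + 1) := by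
    intro ξ
    set j : ℤ := ⌊2 * Real.pi * ξ⌋ with hj
    have hj1 := Int.floor_le (2 * Real.pi * ξ)
    have hj2 := Int.lt_floor_add_one (2 * Real.pi * ξ)
    set a : ℤ → ℝ := fun k => 3 * (1 / (1 + (1 * ((k - j : ℤ) : ℝ)) ^ 2)) with ha
    have ha0 : ∀ k, 0 ≤ a k := fun k => by simp only [ha]; positivity
    have h1 : ∑ s ∈ S, m s * om 1 L ξ s ≤ ∑ k ∈ K, a k * n k := by
      have h2 : ∀ s ∈ S, m s * om 1 L ξ s ≤ m s * a (cell L s) := by
        intro s _
        refine mul_le_mul_of_nonneg_left ?_ (hm s)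
        simp only [ha, om]
        rw [mul_one_div, inv_eq_one_div, div_le_div_iff₀ (by positivity) (by positivity)]
        unfold cell
        have h3 := Int.floor_le (s.im * L)
        have h4 := Int.lt_floor_add_one (s.im * L)
        push_cast
        set k : ℝ := (⌊s.im * L⌋ : ℝ)
        have h5 : ((k - j) - (L * s.im - 2 * Real.pi * ξ)) ^ 2 ≤ 1 := by
          apply sq_le_one_iff_abs_le_one _ |>.2
          rw [abs_le]
          constructor <;> linarith
        nlinarith [sq_nonneg ((k - j) - 2 * (L * s.im - 2 * Real.pi * ξ))]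
      refine (Finset.sum_le_sum h2).trans (le_of_eq ?_)
      rw [hfib a]
      exact Finset.sum_congr rfl fun k _ => mul_comm _ _
    have h2 : ∑ k ∈ K, a k ≤ 9 * Real.pi := by
      simp only [ha]
      rw [← Finset.mul_sum]
      have h3 : ∑ k ∈ K, 1 / (1 + (1 * ((k - j : ℤ) : ℝ)) ^ 2) =
          ∑ i ∈ K.image (fun k => k - j), 1 / (1 + (1 * (i : ℝ)) ^ 2) := by
        symm
        apply Finset.sum_image
        intro x _ y _ hxy
        simpa using hxy
      rw [h3]
      have h4 := int_sum (δ := 1) one_pos le_rfl (K.image (fun k => k - j))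
      calc 3 * ∑ i ∈ K.image (fun k => k - j), 1 / (1 + (1 * (i : ℝ)) ^ 2) ≤
          3 * (3 * Real.pi / 1) := by gcongr
        _ = _ := by ring
    have h3 : (∑ s ∈ S, m s * om 1 L ξ s) ^ (q + 1) ≤ (∑ k ∈ K, a k * n k) ^ (q + 1) :=
      pow_le_pow_left₀ (Finset.sum_nonneg fun s _ => mul_nonneg (hm s) (om_pos _ _ _ _).le) h1 _
    refine h3.trans ((jensen K a n ha0 hn0 q h2).trans ?_)
    refine mul_le_mul_of_nonneg_left (Finset.sum_le_sum fun k _ => ?_) (by positivity)
    refine mul_le_mul_of_nonneg_right ?_ (pow_nonneg (hn0 k) _)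
    simp only [ha, hb]
    rw [← div_eq_mul_inv, mul_one_div, div_le_div_iff₀ (by positivity) (by positivity)]
    push_cast
    have h5 : ((2 * Real.pi * ξ) - j) ^ 2 ≤ 1 := by
      apply sq_le_one_iff_abs_le_one _ |>.2
      rw [abs_le]
      constructor <;> linarith
    nlinarith [sq_nonneg ((2 * Real.pi * ξ - j) + (k - j))]
  have hint : Integrable (fun ξ => (9 * Real.pi) ^ q * ∑ k ∈ K, b k ξ * n k ^ (q + 1)) :=
    (integrable_finsetSum _ fun k _ => (hbi k).1.mul_const _).const_mul _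
  calc ∫ ξ : ℝ, (∑ s ∈ S, m s * om 1 L ξ s) ^ (q + 1) ≤
      ∫ ξ, (9 * Real.pi) ^ q * ∑ k ∈ K, b k ξ * n k ^ (q + 1) := by
        refine integral_mono_of_nonneg (Eventually.of_forall fun ξ => ?_) hint
          (Eventually.of_forall hpt)
        exact pow_nonneg (Finset.sum_nonneg fun s _ => mul_nonneg (hm s) (om_pos _ _ _ _).le) _
    _ = (9 * Real.pi) ^ q * ∑ k ∈ K, 9 / 2 * n k ^ (q + 1) := by
        rw [integral_const_mul, integral_finsetSum _ fun k _ => (hbi k).1.mul_const _]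
        congr 1
        refine Finset.sum_congr rfl fun k _ => ?_
        rw [integral_mul_const, (hbi k).2]
    _ = (9 * Real.pi) ^ q * (9 / 2) * ∑ k ∈ K, n k ^ (q + 1) := by
        rw [← Finset.mul_sum]; ring
    _ ≤ _ := by gcongr

/-- the first moment of the off-line weights -/
theorem off_first {κ : ℝ} (hκ0 : 0 ≤ κ) (hκ : κ < 1) : ∃ C θ T0 : ℝ, 0 < C ∧ 0 < θ ∧ θ < 1 ∧
    10 ≤ T0 ∧ ∀ T : ℝ, T0 ≤ T → ∀ S : Finset ℂ, S ⊆ Zf riemannZeta T (2 * T) →
    ∑ s ∈ S, (mult riemannZeta s : ℝ) * bw κ (Real.log T) s ≤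
      C * (NO T (2 * T) ^ θ * (T * Real.log T) ^ (1 - θ)) := by
  classical
  set κ2 : ℝ := (κ + 4 / 3) / 2 with hκ2
  have hκ20 : 0 < κ2 := by rw [hκ2]; linarith
  have hκ21 : κ2 < 4 / 3 := by rw [hκ2]; linarith
  set τ : ℝ := (κ2 - κ) / 2 with hτ
  have hτ0 : 0 < τ := by rw [hτ, hκ2]; linarith
  have hb0 : 0 < κ + τ := by linarith
  have hb1 : κ + τ < κ2 := by rw [hτ]; linarith
  set p : ℝ := κ2 / (κ + τ) with hp
  have hp1 : 1 < p := by rw [hp, lt_div_iff₀ hb0]; linarith
  have hp0 : 0 < p := by linarith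
  have hpe : (κ + τ) * p = κ2 := by rw [hp]; field_simp
  set cτ : ℝ := 2 / τ ^ 2 with hcτ
  have hcτ0 : 0 < cτ := by positivity
  obtain ⟨C1, hC1, hexp⟩ := expm hκ20.le hκ21
  set Ctot : ℝ := cτ ^ p * C1 with hCtot
  have hCtot0 : 0 < Ctot := by
    have := Real.rpow_pos_of_pos hcτ0 p
    positivity
  refine ⟨Ctot ^ p⁻¹, 1 - p⁻¹, 10, Real.rpow_pos_of_pos hCtot0 _, ?_, ?_, le_rfl,
    fun T hT10 S hS => ?_⟩
  · have := inv_lt_one_of_one_lt₀ hp1
    linarith
  · have := inv_pos.2 hp0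
    linarith
  have hT0 : 0 < T := by linarith
  set L := Real.log T with hL
  have hL0 : 0 < L := Real.log_pos (by linarith)
  set m : ℂ → ℝ := fun s => (mult riemannZeta s : ℝ) with hm
  have hm0 : ∀ s, 0 ≤ m s := fun s => Nat.cast_nonneg _
  set z : ℂ → ℝ := fun s => bw κ L s with hz
  have hz0 : ∀ s, 0 ≤ z s := fun s => bw_nonneg _ _ _
  set So := S.filter (fun s => s.re ≠ 1 / 2) with hSo
  have step2 : ∑ s ∈ S, m s * z s = ∑ s ∈ So, m s * z s := by
    rw [hSo, Finset.sum_filter]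
    refine Finset.sum_congr rfl fun s _ => ?_
    split_ifs with h
    · rfl
    · push Not at h
      simp only [hz, bw]
      rw [h]
      simp
  have step3 := Real.inner_le_weight_mul_Lp_of_nonneg So hp1.le m z hm0 hz0
  have hNO : ∑ s ∈ So, m s ≤ NO T (2 * T) := by
    unfold NO
    apply Finset.sum_le_sum_of_subset_of_nonneg
    · exact Finset.filter_subset_filter _ hS
    · intro s _ _
      exact hm0 s
  have hpt : ∀ s ∈ S, z s ^ p ≤ cτ ^ p * ew κ2 L s := by
    intro s _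
    set Y := |s.re - 1 / 2| * L with hY
    have hY0 : 0 ≤ Y := by positivity
    have hYe : |(s.re - 1 / 2) * L| = Y := by rw [abs_mul, abs_of_pos hL0]
    have hx : z s ≤ cτ * Real.exp ((κ + τ) * Y) := by
      have e1 : z s = Y ^ 2 * Real.exp (κ * Y) := by
        simp only [hz, bw]
        rw [hYe, ← sq_abs ((s.re - 1 / 2) * L), hYe]
      have e2 := Real.pow_div_factorial_le_exp (τ * Y) (by positivity) 2
      have e3 : Y ^ 2 ≤ cτ * Real.exp (τ * Y) := by
        rw [div_le_iff₀ (by positivity)] at e2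
        rw [hcτ, div_mul_eq_mul_div, le_div_iff₀ (by positivity)]
        have : (Nat.factorial 2 : ℝ) = 2 := by norm_num [Nat.factorial]
        rw [this] at e2
        calc Y ^ 2 * τ ^ 2 = (τ * Y) ^ 2 := by ring
          _ ≤ _ := by linarith
      rw [e1]
      calc Y ^ 2 * Real.exp (κ * Y) ≤ cτ * Real.exp (τ * Y) * Real.exp (κ * Y) := by gcongr
        _ = cτ * Real.exp ((κ + τ) * Y) := by
            rw [mul_assoc, ← Real.exp_add]
            congr 2
            ring
    calc z s ^ p ≤ (cτ * Real.exp ((κ + τ) * Y)) ^ p := Real.rpow_le_rpow (hz0 s) hx hp0.le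
      _ = cτ ^ p * ew κ2 L s := by
          rw [Real.mul_rpow hcτ0.le (Real.exp_pos _).le, ← Real.exp_mul]
          unfold ew
          congr 2
          rw [← hpe]
          ring
  have step4 : ∑ s ∈ So, m s * z s ^ p ≤ Ctot * (T * L) := by
    calc ∑ s ∈ So, m s * z s ^ p ≤ ∑ s ∈ S, m s * z s ^ p := by
          apply Finset.sum_le_sum_of_subset_of_nonneg (Finset.filter_subset _ _)
          intro s _ _
          exact mul_nonneg (hm0 s) (Real.rpow_nonneg (hz0 s) _)
      _ ≤ ∑ s ∈ S, cτ ^ p * (m s * ew κ2 L s) := by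
          refine Finset.sum_le_sum fun s hs => ?_
          have h1 := mul_le_mul_of_nonneg_left (hpt s hs) (hm0 s)
          refine h1.trans (le_of_eq ?_)
          ring
      _ = cτ ^ p * ∑ s ∈ S, m s * ew κ2 L s := by rw [Finset.mul_sum]
      _ ≤ cτ ^ p * (C1 * (T * L)) := by
          have hsub : ∑ s ∈ S, m s * ew κ2 L s ≤
              ∑ s ∈ Zf riemannZeta T (2 * T), m s * ew κ2 L s := by
            apply Finset.sum_le_sum_of_subset_of_nonneg hS
            intro s _ _
            exact mul_nonneg (hm0 s) (Real.exp_pos _).le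
          have h1 := hsub.trans (hexp T hT10)
          have h4 : 0 ≤ cτ ^ p := Real.rpow_nonneg hcτ0.le _
          gcongr
      _ = Ctot * (T * L) := by rw [hCtot]; ring
  have hTL : 0 < T * L := by positivity
  have hso0 : 0 ≤ ∑ s ∈ So, m s := Finset.sum_nonneg fun s _ => hm0 s
  have hpinv : 0 ≤ 1 - p⁻¹ := by
    have := inv_lt_one_of_one_lt₀ hp1
    linarith
  calc ∑ s ∈ S, m s * z s = ∑ s ∈ So, m s * z s := step2
    _ ≤ (∑ s ∈ So, m s) ^ (1 - p⁻¹) * (∑ s ∈ So, m s * z s ^ p) ^ p⁻¹ := step3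
    _ ≤ NO T (2 * T) ^ (1 - p⁻¹) * (Ctot * (T * L)) ^ p⁻¹ := by
        have h1 : (∑ s ∈ So, m s) ^ (1 - p⁻¹) ≤ NO T (2 * T) ^ (1 - p⁻¹) :=
          Real.rpow_le_rpow hso0 hNO hpinv
        have h2 : (∑ s ∈ So, m s * z s ^ p) ^ p⁻¹ ≤ (Ctot * (T * L)) ^ p⁻¹ :=
          Real.rpow_le_rpow (Finset.sum_nonneg fun s _ => mul_nonneg (hm0 s)
            (Real.rpow_nonneg (hz0 s) _)) step4 (by positivity)
        have h3 : 0 ≤ (∑ s ∈ So, m s * z s ^ p) ^ p⁻¹ := Real.rpow_nonneg
          (Finset.sum_nonneg fun s _ => mul_nonneg (hm0 s) (Real.rpow_nonneg (hz0 s) _)) _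
        have h4 : 0 ≤ NO T (2 * T) ^ (1 - p⁻¹) := Real.rpow_nonneg (NO_nonneg _ _) _
        gcongr
    _ = Ctot ^ p⁻¹ * (NO T (2 * T) ^ (1 - p⁻¹) * (T * L) ^ (1 - (1 - p⁻¹))) := by
        rw [Real.mul_rpow hCtot0.le hTL.le, sub_sub_cancel]
        ring

end Pool.Agent.Y750.OM
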