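import Pool.Agent.Y750.OM.Main2
import Pool.Agent.Y750.OM.Mom4
import Pool.Agent.Y750.OM.Main1

set_option autoImplicit false

/-! # The one-sided inequality in the full range -/

namespace Pool.Agent.Y750.OM

open Complex Filter Topology Set MeasureTheory FourierTransform
open H370
open H370.A2 (JN)
open Pool.Agent.TH850.UR (ew)

theorem up_main {κ : ℝ} (h0 : 0 < κ) (h1 : κ < 1) : ∃ θ : ℝ, 0 < θ ∧
    ∀ g0 : ℝ → ℝ, ContDiff ℝ (⊤ : ℕ∞) g0 → (∀ β, κ < |β| → g0 β = 0) →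
    ∃ C : ℝ, 0 < C ∧ ∀ ε : ℝ, 0 < ε → ∃ T0 : ℝ, 10 ≤ T0 ∧ ∀ T : ℝ, T0 ≤ T →
    ∫ α : ℝ, g0 α ^ 2 * JB (Zf riemannZeta (T + 1) (2 * T - 1))
        (fun s => (mult riemannZeta s : ℝ)) (α * Real.log T) ≤
      (∫ α : ℝ, g0 α ^ 2 * JJ riemannZeta (T + 1) (2 * T - 1) (α * Real.log T)) +
      (C * (NO T (2 * T) / (T * Real.log T)) ^ θ + ε) * (T * Real.log T) := by
  obtain ⟨C1, θ1, T1, hC1, hθ1, hθ1', hT1, hoff⟩ := off_first h0.le h1
  obtain ⟨C0, hC0, hcnt⟩ := expm (κ := 0) le_rfl (by norm_num)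
  obtain ⟨C4, T4, hC4, hT4, hmom⟩ := cntmom 4 (by norm_num)
  set R0 : ℝ := C0 ^ (θ1 / 2) with hR0
  have hR00 : 0 < R0 := Real.rpow_pos_of_pos hC0 _
  refine ⟨θ1 / 2, by positivity, fun g0 hg hs => ?_⟩
  have hcs : HasCompactSupport (fun α => g0 α ^ 2) := by
    apply HasCompactSupport.intro (isCompact_Icc (a := -κ) (b := κ))
    intro α hα
    have : g0 α = 0 := by
      apply hs
      by_contra hcon
      push Not at hcon
      exact hα (abs_le.1 hcon)
    rw [this]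
    norm_num
  obtain ⟨K, hK⟩ := (hg.pow 2).lipschitzWith_of_hasCompactSupport hcs (by simp)
  obtain ⟨H, hH⟩ := hcs.exists_bound_of_continuous (hg.pow 2).continuous
  obtain ⟨C2, hC2, hup⟩ := up_int hg h0 hs
  have hH0 : 0 ≤ H := (norm_nonneg _).trans (hH 0)
  set C5 : ℝ := g0 0 ^ 2 + 2 * ((κ + 1) / 2) ^ 2 * H + 1 with hC5
  have hC50 : 0 < C5 := by positivity
  set C6 : ℝ := C2 * ((9 * Real.pi) ^ 3 * (9 / 2) * C4) with hC6
  have hC60 : 0 < C6 := by positivity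
  refine ⟨C5 + C6 + C2 * C1 * (R0 + 2), by positivity, fun ε hε => ?_⟩
  obtain ⟨T5, hT5, hpsi⟩ := psi_up ((κ + 1) / 2) 1 (by positivity) (by linarith) one_pos
    (fun α => g0 α ^ 2) K H
    (by
      intro x y
      have := hK.dist_le_mul x y
      rwa [Real.dist_eq, Real.dist_eq] at this)
    (by
      intro x hx
      rw [hs x (by linarith)]
      norm_num)
    (fun x => sq_nonneg _)
    (fun x => (le_abs_self _).trans (hH x))
  set e : ℝ := ε / (C5 + C6) with he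
  have he0 : 0 < e := by positivity
  refine ⟨max (max T1 T4) T5, (hT1.trans (le_max_left _ _)).trans (le_max_left _ _),
    fun T hT => ?_⟩
  have hTT1 : T1 ≤ T := ((le_max_left _ _).trans (le_max_left _ _)).trans hT
  have hTT4 : T4 ≤ T := ((le_max_right _ _).trans (le_max_left _ _)).trans hT
  have hTT5 : T5 ≤ T := (le_max_right _ _).trans hT
  have hT10 : 10 ≤ T := hT1.trans hTT1
  have hA1 : (1 : ℝ) ≤ T + 1 := by linarith
  have hL1 : 1 ≤ Real.log T := by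
    rw [Real.le_log_iff_exp_le (by linarith)]
    have := Real.exp_one_lt_d9
    linarith
  have hL0 : 0 < Real.log T := by linarith
  have hup' := hup (Real.log T) hL1 (T + 1) (2 * T - 1) hA1
  have hpsi' := hpsi T hTT5 κ h0.le
  have hmom' := hmom T hTT4
  have hcnt' := hcnt T hT10
  have hoff' := hoff T hTT1 (Zf riemannZeta (T + 1) (2 * T - 1))
  set L := Real.log T with hL
  set X := T * L with hX
  have hX0 : 0 < X := by positivity
  set S := Zf riemannZeta (T + 1) (2 * T - 1) with hS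
  set m : ℂ → ℝ := fun s => (mult riemannZeta s : ℝ) with hm
  have hm0 : ∀ s, 0 ≤ m s := fun s => Nat.cast_nonneg _
  have hSsub : S ⊆ Zf riemannZeta T (2 * T) := by
    intro s hs
    rw [hS, mem_Zf good_zeta hA1] at hs
    rw [mem_Zf good_zeta (by linarith)]
    obtain ⟨g1, g2, g3, g4, g5⟩ := hs
    exact ⟨g1, g2, by linarith, by linarith, g5⟩
  have hNO0 := NO_nonneg T (2 * T)
  set r : ℝ := (NO T (2 * T) / X) ^ (θ1 / 2) with hr
  have hr0 : 0 ≤ r := Real.rpow_nonneg (by positivity) _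
  have hrR : r ≤ R0 := by
    apply Real.rpow_le_rpow (by positivity) _ (by positivity)
    rw [div_le_iff₀ hX0]
    refine le_trans ?_ hcnt'
    unfold NO
    have h2 : ∀ s : ℂ, ew 0 L s = 1 := fun s => by unfold ew; simp
    calc ∑ s ∈ (Zf riemannZeta T (2 * T)).filter (fun s => s.re ≠ 1 / 2), (mult riemannZeta s : ℝ)
        ≤ ∑ s ∈ Zf riemannZeta T (2 * T), (mult riemannZeta s : ℝ) :=
          Finset.sum_le_sum_of_subset_of_nonneg (Finset.filter_subset _ _)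
            fun _ _ _ => Nat.cast_nonneg _
      _ = _ := Finset.sum_congr rfl fun s _ => by rw [h2, mul_one]
  have hXr : NO T (2 * T) ^ θ1 * X ^ (1 - θ1) = X * r ^ 2 := by
    rw [hr, ← Real.rpow_natCast, ← Real.rpow_mul (by positivity)]
    have e1 : θ1 / 2 * ((2 : ℕ) : ℝ) = θ1 := by push_cast; ring
    rw [e1, Real.div_rpow hNO0 hX0.le, Real.rpow_sub hX0, Real.rpow_one]
    ring
  have hB1 : ∑ s ∈ S, m s * bw κ L s ≤ C1 * (X * r ^ 2) := by
    rw [← hXr]
    exact hoff' hSsub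
  have hB2 : ∫ ξ : ℝ, (∑ s ∈ S, m s * om 1 L ξ s) ^ 4 ≤ (9 * Real.pi) ^ 3 * (9 / 2) * (C4 * X) := by
    have h2 : ∫⁻ t : ℝ, ENNReal.ofReal ((∑ s ∈ S.filter (fun s => |s.im - t| ≤ 1 / L), m s) ^ (3 + 1))
        ≤ ENNReal.ofReal (C4 * T) := by
      refine le_trans (lintegral_mono fun t => ENNReal.ofReal_le_ofReal ?_) hmom'
      apply pow_le_pow_left₀ (Finset.sum_nonneg fun s _ => hm0 s)
      exact Finset.sum_le_sum_of_subset_of_nonneg (Finset.filter_subset_filter _ hSsub)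
        fun s _ _ => hm0 s
    have h3 := omega_moment 3 hL0 S m hm0 (by positivity) h2
    refine h3.trans (le_of_eq ?_)
    rw [hX]
    ring
  have hA : ∫ α : ℝ, g0 α ^ 2 * JJ riemannZeta (T + 1) (2 * T - 1) (α * L) ≤ C5 * X := by
    have h2 : ∫ α : ℝ, g0 α ^ 2 * JJ riemannZeta (T + 1) (2 * T - 1) (α * L) =
        ∫ α in Set.Icc (-κ) κ, g0 α ^ 2 * JJ riemannZeta (T + 1) (2 * T - 1) (α * L) := by
      rw [whole_int h0 (fun α hα => by rw [hs α hα]; ring), integral_Icc_eq_integral_Ioc,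
        ← intervalIntegral.integral_of_le (by linarith)]
    rw [h2]
    exact hpsi'
  have hA0 : 0 ≤ ∫ α : ℝ, g0 α ^ 2 * JJ riemannZeta (T + 1) (2 * T - 1) (α * L) :=
    integral_nonneg fun α => mul_nonneg (sq_nonneg _) (integral_nonneg fun t => by positivity)
  have hη : 0 < r + e := by linarith
  have hmain := hup' (r + e) hη
  set IA := ∫ α : ℝ, g0 α ^ 2 * JJ riemannZeta (T + 1) (2 * T - 1) (α * L) with hIA
  set IB := ∫ α : ℝ, g0 α ^ 2 * JB S m (α * L) with hIB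
  have q1 : (r + e) * IA ≤ (r + e) * (C5 * X) := by gcongr
  have q2 : C2 * (1 + 2 / (r + e)) * ∑ s ∈ S, m s * bw κ L s ≤ C2 * C1 * (R0 + 2) * r * X := by
    have h2 : (1 + 2 / (r + e)) * r ^ 2 ≤ (R0 + 2) * r := by
      have h3 : 2 / (r + e) * r ^ 2 ≤ 2 * r := by
        rw [div_mul_eq_mul_div, div_le_iff₀ hη]
        nlinarith
      nlinarith
    calc C2 * (1 + 2 / (r + e)) * ∑ s ∈ S, m s * bw κ L s ≤
        C2 * (1 + 2 / (r + e)) * (C1 * (X * r ^ 2)) := by gcongr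
      _ = C2 * C1 * X * ((1 + 2 / (r + e)) * r ^ 2) := by ring
      _ ≤ C2 * C1 * X * ((R0 + 2) * r) := by gcongr
      _ = _ := by ring
  have q3 : C2 * (r + e) * ∫ ξ : ℝ, (∑ s ∈ S, m s * om 1 L ξ s) ^ 4 ≤ (r + e) * (C6 * X) := by
    calc C2 * (r + e) * ∫ ξ : ℝ, (∑ s ∈ S, m s * om 1 L ξ s) ^ 4 ≤
        C2 * (r + e) * ((9 * Real.pi) ^ 3 * (9 / 2) * (C4 * X)) := by gcongr
      _ = _ := by rw [hC6]; ring
  have q4 : e * (C5 + C6) = ε := by rw [he]; field_simp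
  have q5 : (1 + (r + e)) * IA = IA + (r + e) * IA := by ring
  rw [q5] at hmain
  calc IB ≤ IA + ((r + e) * (C5 * X) + C2 * C1 * (R0 + 2) * r * X + (r + e) * (C6 * X)) := by
        linarith
    _ = IA + ((C5 + C6 + C2 * C1 * (R0 + 2)) * r + e * (C5 + C6)) * X := by ring
    _ = _ := by rw [q4]

end Pool.Agent.Y750.OM
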