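import Mathlib

set_option autoImplicit false

/-! # Smooth squares above a nonnegative function -/

namespace Pool.Agent.Y750.OM

open Filter Topology Set MeasureTheory

theorem sq_approx {κ κ' : ℝ} (h0 : 0 < κ) (h1 : κ < κ') {r : ℝ → ℝ} (hr : Continuous r)
    (hr0 : ∀ α, 0 ≤ r α) (hs : ∀ α, κ < |α| → r α = 0) {e : ℝ} (he : 0 < e) :
    ∃ g : ℝ → ℝ, ContDiff ℝ (⊤ : ℕ∞) g ∧ (∀ β, κ' < |β| → g β = 0) ∧
      ∀ α, r α ≤ g α ^ 2 ∧ g α ^ 2 ≤ r α + e := by
  set d : ℝ := e / 4 with hd
  have hd0 : 0 < d := by positivity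
  set f : ℝ → ℝ := fun α => Real.sqrt (r α + 2 * d) with hf
  have hfc : Continuous f := by fun_prop
  have hf2 : ∀ α, f α ^ 2 = r α + 2 * d := fun α => Real.sq_sqrt (by
    have := hr0 α
    positivity)
  have hf0 : ∀ α, 0 ≤ f α := fun α => Real.sqrt_nonneg _
  obtain ⟨F, hF⟩ := (isCompact_Icc (a := -κ') (b := κ')).exists_bound_of_continuousOn
    hfc.continuousOn
  set e1 : ℝ := min (Real.sqrt d) (d / (2 * (|F| + 1))) with he1
  have he10 : 0 < e1 := lt_min (Real.sqrt_pos.2 hd0) (by positivity)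
  have he1a : e1 ^ 2 ≤ d := by
    calc e1 ^ 2 ≤ Real.sqrt d ^ 2 := pow_le_pow_left₀ he10.le (min_le_left _ _) 2
      _ = d := Real.sq_sqrt hd0.le
  have he1b : 2 * e1 * (|F| + 1) ≤ d := by
    have : e1 ≤ d / (2 * (|F| + 1)) := min_le_right _ _
    rw [le_div_iff₀ (by positivity)] at this
    linarith
  obtain ⟨P, hP⟩ := exists_polynomial_near_of_continuousOn (-κ') κ' f hfc.continuousOn e1 he10
  let χ : ContDiffBump (0 : ℝ) := ⟨κ, κ', h0, h1⟩
  refine ⟨fun α => χ α * P.eval α, ?_, ?_, ?_⟩
  · have h := Polynomial.contDiff_aeval (𝕜 := ℝ) P (⊤ : ℕ∞)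
    simp only [Polynomial.coe_aeval_eq_eval] at h
    exact χ.contDiff.mul h
  · intro β hβ
    have : χ β = 0 := by
      apply χ.zero_of_le_dist
      rw [Real.dist_eq, sub_zero]
      exact hβ.le
    simp only
    rw [this, zero_mul]
  · intro α
    simp only
    by_cases hα : |α| ≤ κ'
    · have hαI : α ∈ Set.Icc (-κ') κ' := abs_le.1 hα
      have h2 := hP α hαI
      have h3 := hF α hαI
      rw [Real.norm_of_nonneg (hf0 α)] at h3
      have h4 : f α ≤ |F| + 1 := by linarith [le_abs_self F]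
      obtain ⟨h5, h6⟩ := abs_lt.1 h2
      have h7 := hf2 α
      have h8 := hf0 α
      have hPu : P.eval α ^ 2 ≤ r α + e := by
        have h9 : |P.eval α| ≤ f α + e1 := by
          rw [abs_le]
          constructor <;> linarith
        have h10 : P.eval α ^ 2 ≤ (f α + e1) ^ 2 := by
          rw [← sq_abs (P.eval α)]
          exact pow_le_pow_left₀ (abs_nonneg _) h9 2
        have h11 : 2 * e1 * f α ≤ d := by
          calc 2 * e1 * f α ≤ 2 * e1 * (|F| + 1) := by gcongr
            _ ≤ d := he1b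
        nlinarith
      have hχ1 : 0 ≤ χ α := χ.nonneg
      have hχ2 : χ α ≤ 1 := χ.le_one
      have hupper : (χ α * P.eval α) ^ 2 ≤ r α + e := by
        rw [mul_pow]
        have : χ α ^ 2 ≤ 1 := pow_le_one₀ hχ1 hχ2
        have h9 := sq_nonneg (P.eval α)
        nlinarith
      refine ⟨?_, hupper⟩
      by_cases hακ : |α| ≤ κ
      · have hχ : χ α = 1 := by
          apply χ.one_of_mem_closedBall
          rw [Metric.mem_closedBall, Real.dist_eq, sub_zero]
          exact hακ
        rw [hχ, one_mul]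
        have h11 : 2 * e1 * f α ≤ d := by
          calc 2 * e1 * f α ≤ 2 * e1 * (|F| + 1) := by gcongr
            _ ≤ d := he1b
        rcases le_or_gt e1 (f α) with h12 | h12
        · have h10 : (f α - e1) ^ 2 ≤ P.eval α ^ 2 :=
            pow_le_pow_left₀ (by linarith) (by linarith) 2
          nlinarith
        · have h13 : f α ^ 2 ≤ e1 ^ 2 := pow_le_pow_left₀ h8 h12.le 2
          have h14 := hr0 α
          exfalso
          linarith
      · rw [hs α (not_le.1 hακ)]
        positivity
    · push Not at hα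
      have : χ α = 0 := by
        apply χ.zero_of_le_dist
        rw [Real.dist_eq, sub_zero]
        exact hα.le
      rw [this, hs α (by linarith)]
      norm_num
      exact he.le

end Pool.Agent.Y750.OM
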