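import Pool.Agent.Y750.OM.Main3
import Pool.Agent.Y750.OM.Sq

set_option autoImplicit false

/-! # The upper bound for pair sums in the full range -/

namespace Pool.Agent.Y750.OM

open Complex Filter Topology Set MeasureTheory
open H370 (Zf mult mem_Zf good_zeta zset JJ JJ_cont NN NN_eq)
open H370.A2 (JN)

theorem pair_up {κ : ℝ} (h0 : 0 < κ) (h1 : κ < 1) : ∃ θ : ℝ, 0 < θ ∧
    ∀ (r : ℝ → ℝ) (K : ℝ), (∀ x y, |r x - r y| ≤ K * |x - y|) →
    (∀ α, κ < |α| → r α = 0) → (∀ α, 0 ≤ r α) → ∀ Cf0 : ℝ, (∀ x, |rh r x| * (1 + x ^ 2) ≤ Cf0) →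
    ∀ ε : ℝ, 0 < ε → ∃ C T0 : ℝ, 0 < C ∧ 10 ≤ T0 ∧ ∀ T : ℝ, T0 ≤ T →
    PO (rh r) T (2 * T) (Real.log T) ≤ NN riemannZeta T (2 * T) * ((r 0 + ∫ α : ℝ, |α| * r α) + ε +
      C * (NO T (2 * T) / NN riemannZeta T (2 * T)) ^ θ) := by
  classical
  set κ1 : ℝ := (κ + 1) / 2 with hκ1
  have hκ10 : 0 < κ1 := by rw [hκ1]; linarith
  have hκ11 : κ1 < 1 := by rw [hκ1]; linarith
  have hκκ1 : κ < κ1 := by rw [hκ1]; linarith
  set κ2 : ℝ := (κ1 + 1) / 2 with hκ2
  have hκ20 : 0 < κ2 := by rw [hκ2]; linarith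
  have hκ21 : κ2 < 1 := by rw [hκ2]; linarith
  have hκκ2 : κ1 < κ2 := by rw [hκ2]; linarith
  obtain ⟨θ, hθ, hupm⟩ := up_main hκ10 hκ11
  obtain ⟨Ce, hCe, hedge⟩ := edges
  obtain ⟨Cg, hCg, hgauss⟩ := degauss
  obtain ⟨Cn, hCn, hcnt⟩ := edge_count
  refine ⟨θ, hθ, fun r K hlip hs hr0 Cf0 hf0 ε hε => ?_⟩
  have hrc : Continuous r := by
    have hK : 0 ≤ K := by
      have h1 := hlip 1 0
      have h2 := abs_nonneg (r 1 - r 0)
      simp at h1
      linarith
    have : LipschitzWith K.toNNReal r := by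
      refine LipschitzWith.of_dist_le_mul fun x y => ?_
      rw [Real.dist_eq, Real.dist_eq, Real.coe_toNNReal _ hK]
      exact hlip x y
    exact this.continuous
  set c : ℝ := r 0 + ∫ α : ℝ, |α| * r α with hc
  have hcI : ∫ α : ℝ, |α| * r α = ∫ α in (-κ1)..κ1, |α| * r α :=
    whole_int hκ10 fun α hα => by rw [hs α (by linarith), mul_zero]
  obtain ⟨Cf, hCf, hf⟩ : ∃ Cf : ℝ, 0 < Cf ∧ ∀ x, |rh r x| * (1 + x ^ 2) ≤ Cf :=
    ⟨|Cf0| + 1, by positivity, fun x => (hf0 x).trans (by linarith [le_abs_self Cf0])⟩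
  -- the smooth square
  obtain ⟨g, hg, hgs, hgr⟩ := sq_approx h0 hκκ1 hrc hr0 hs (e := ε / 40) (by positivity)
  obtain ⟨C, hC, hup⟩ := hupm g hg hgs
  have hgcs : HasCompactSupport (fun α => g α ^ 2) := by
    apply HasCompactSupport.intro (isCompact_Icc (a := -κ1) (b := κ1))
    intro α hα
    have : g α = 0 := by
      apply hgs
      by_contra hcon
      push Not at hcon
      exact hα (abs_le.1 hcon)
    rw [this]
    norm_num
  obtain ⟨Kg, hKg⟩ := (hg.pow 2).lipschitzWith_of_hasCompactSupport hgcs (by simp)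
  set cg : ℝ := g 0 ^ 2 + ∫ α in (-κ2)..κ2, |α| * g α ^ 2 with hcg
  have hr1 : ∫ α in (-κ2)..κ2, |α| * r α = ∫ α : ℝ, |α| * r α :=
    (whole_int hκ20 fun α hα => by rw [hs α (by linarith), mul_zero]).symm
  have hcg1 : cg ≤ c + ε / 10 := by
    have h2 : ∫ α in (-κ2)..κ2, |α| * g α ^ 2 ≤ ∫ α in (-κ2)..κ2, (|α| * r α + ε / 40) := by
      refine intervalIntegral.integral_mono_on (by linarith) ?_ ?_ fun α hα => ?_
      · exact (continuous_abs.mul (hg.continuous.pow 2)).intervalIntegrable _ _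
      · exact ((continuous_abs.mul hrc).add continuous_const).intervalIntegrable _ _
      · have h3 := (hgr α).2
        have h4 : |α| ≤ 1 := by
          rw [abs_le]
          constructor
          · linarith [hα.1]
          · linarith [hα.2]
        have h5 := abs_nonneg α
        have h6 : |α| * g α ^ 2 ≤ |α| * (r α + ε / 40) := by gcongr
        nlinarith
    have h3 : ∫ α in (-κ2)..κ2, (|α| * r α + ε / 40) =
        (∫ α in (-κ2)..κ2, |α| * r α) + 2 * κ2 * (ε / 40) := by
      have e1 : IntervalIntegrable (fun α : ℝ => |α| * r α) volume (-κ2) κ2 :=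
        (continuous_abs.mul hrc).intervalIntegrable _ _
      have e2 : IntervalIntegrable (fun _ : ℝ => ε / 40) volume (-κ2) κ2 :=
        continuous_const.intervalIntegrable _ _
      rw [intervalIntegral.integral_add e1 e2, intervalIntegral.integral_const, smul_eq_mul]
      ring
    have h4 := (hgr 0).2
    rw [h3, hr1] at h2
    have h5 : 2 * κ2 * (ε / 40) ≤ 2 * 1 * (ε / 40) := by gcongr
    rw [hcg, hc]
    linarith
  have hcg0 : 0 ≤ cg := by
    have h2 : 0 ≤ ∫ α in (-κ2)..κ2, |α| * g α ^ 2 :=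
      intervalIntegral.integral_nonneg (by linarith) fun α _ =>
        mul_nonneg (abs_nonneg _) (sq_nonneg _)
    have h3 := sq_nonneg (g 0)
    linarith
  set ε1 : ℝ := min (1 / 100) (ε / (80 * (cg + 1))) with hε1
  have hε10 : 0 < ε1 := lt_min (by norm_num) (by positivity)
  have hε1a : ε1 ≤ 1 / 100 := min_le_left _ _
  have hε1b : ε1 * (cg + 1) ≤ ε / 80 := by
    have : ε1 ≤ ε / (80 * (cg + 1)) := min_le_right _ _
    rw [le_div_iff₀ (by positivity)] at this
    linarith
  obtain ⟨Ta, hTa, hpsi⟩ := psi_full κ2 ε1 hκ20 hκ21 hε10 (fun α => g α ^ 2) Kg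
    (by
      intro x y
      have := hKg.dist_le_mul x y
      rwa [Real.dist_eq, Real.dist_eq] at this)
    (by
      intro x hx
      rw [hgs x (by linarith)]
      norm_num)
  obtain ⟨Tb, hTb, hup⟩ := hup (ε / 140) (by positivity)
  have ev1 : ∀ᶠ T : ℝ in atTop, Real.log T ≤ min (ε / (56 * Ce * Cf)) (1 / 100) * T := by
    have h := Real.isLittleO_log_id_atTop.bound
      (show 0 < min (ε / (56 * Ce * Cf)) (1 / 100) from lt_min (by positivity) (by norm_num))
    filter_upwards [h, eventually_ge_atTop 1] with T hT hT1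
    rw [Real.norm_of_nonneg (Real.log_nonneg hT1), id, Real.norm_of_nonneg (by linarith)] at hT
    exact hT
  have ev2 : ∀ᶠ T : ℝ in atTop, 8 * Cg * Cf / ε + 1 ≤ Real.log T :=
    Real.tendsto_log_atTop.eventually_ge_atTop _
  obtain ⟨Tc, hTc⟩ := ((ev1.and ev2).and (eventually_ge_atTop
    (max (56 * cg * Cn / ε) (max (100 * Cn) 100)))).exists_forall_of_atTop
  refine ⟨7 * C, max Ta (max Tb Tc), by positivity, hTa.trans (le_max_left _ _), fun T hT => ?_⟩
  have hTTa : Ta ≤ T := (le_max_left _ _).trans hT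
  have hTTb : Tb ≤ T := ((le_max_left _ _).trans (le_max_right _ _)).trans hT
  obtain ⟨⟨e1, e2⟩, e3⟩ := hTc T (((le_max_right _ _).trans (le_max_right _ _)).trans hT)
  have e3a : 56 * cg * Cn / ε ≤ T := (le_max_left _ _).trans e3
  have e3b : 100 * Cn ≤ T := ((le_max_left _ _).trans (le_max_right _ _)).trans e3
  have hT100 : 100 ≤ T := ((le_max_right _ _).trans (le_max_right _ _)).trans e3
  have e1a : Real.log T ≤ ε / (56 * Ce * Cf) * T :=
    e1.trans (mul_le_mul_of_nonneg_right (min_le_left _ _) (by linarith))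
  obtain ⟨p1, p2⟩ := hpsi T hTTa
  have p3 := hup T hTTb
  have p4 := hedge T (by linarith) (rh r) Cf hCf.le hf
  have p5 := hgauss T (by linarith) (rh r) Cf hCf.le hf
  have p6 := hcnt T (by linarith)
  set L := Real.log T with hL
  have hL0 : 0 < L := Real.log_pos (by linarith)
  have hpi := Real.pi_pos
  have hpi3 := Real.pi_gt_three
  have hpi4 := Real.pi_lt_d4
  set N : ℝ := (NN riemannZeta T (2 * T) : ℝ) with hN
  set N1 : ℝ := (NN riemannZeta (T + 1) (2 * T - 1) : ℝ) with hN1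
  set S := Zf riemannZeta (T + 1) (2 * T - 1) with hS
  set Z := Zf riemannZeta T (2 * T) with hZ
  set m : ℂ → ℝ := fun s => (mult riemannZeta s : ℝ) with hm
  have hm0 : ∀ s, 0 ≤ m s := fun s => Nat.cast_nonneg _
  have hSZ : S ⊆ Z := by
    intro s hs
    rw [hS, mem_Zf good_zeta (by linarith)] at hs
    rw [hZ, mem_Zf good_zeta (by linarith)]
    obtain ⟨g1, g2, g3, g4, g5⟩ := hs
    exact ⟨g1, g2, by linarith, by linarith, g5⟩
  have hNe : N = ∑ s ∈ Z, m s := by
    rw [hN, NN_eq good_zeta (by linarith)]; push_cast; rfl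
  have hN1e : N1 = ∑ s ∈ S, m s := by
    rw [hN1, NN_eq good_zeta (by linarith)]; push_cast; rfl
  have hNN1 : N = ∑ s ∈ Z \ S, m s + N1 := by
    rw [hNe, hN1e, Finset.sum_sdiff hSZ]
  have hE0 : 0 ≤ ∑ s ∈ Z \ S, m s := Finset.sum_nonneg fun s _ => hm0 s
  set E : ℝ := ∑ s ∈ Z \ S, m s with hE
  have hEL : E ≤ Cn * L := p6
  set M : ℝ := (T - 2) * L / (2 * Real.pi) with hM
  have hM0 : 0 < M := by
    rw [hM]
    have : 0 < T - 2 := by linarith
    positivity
  set X : ℝ := T * L with hX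
  have hX0 : 0 < X := by positivity
  have hMX : 6 * M ≤ X := by
    have h2 : M * (2 * Real.pi) = (T - 2) * L := by rw [hM]; field_simp
    have h3 : 6 * M ≤ M * (2 * Real.pi) := by nlinarith only [hM0, hpi3]
    rw [hX]
    linarith only [h2, h3, hL0]
  have hMX2 : (T - 2) * L ≤ 6.2832 * M := by
    have h2 : M * (2 * Real.pi) = (T - 2) * L := by rw [hM]; field_simp
    nlinarith only [h2, hM0, hpi4]
  obtain ⟨p1a, p1b⟩ := abs_le.1 p1
  have hε1M : ε1 * M ≤ 1 / 100 * M := by gcongr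
  have hXN1 : X ≤ 7 * N1 := by
    have h2 : 99 / 100 * M ≤ N1 := by linarith only [p1a, hε1M]
    have h3 : T * L ≤ 1.03 * ((T - 2) * L) := by
      rw [← mul_assoc]
      apply mul_le_mul_of_nonneg_right _ hL0.le
      linarith only [hT100]
    have h4 : X ≤ 1.03 * (6.2832 * M) := by
      rw [hX]; linarith only [h3, hMX2]
    linarith only [h2, h4, hM0]
  have hN1N : N1 ≤ N := by linarith only [hNN1, hE0]
  have hXN : X ≤ 7 * N := by linarith only [hXN1, hN1N]
  have hN0 : 0 < N := by linarith only [hXN, hX0]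
  have hN10 : 0 < N1 := by linarith only [hXN1, hX0]
  have hEX : E ≤ 1 / 100 * X := by
    have : Cn * L ≤ 1 / 100 * (T * L) := by nlinarith only [e3b, hL0]
    rw [hX]
    linarith only [this, hEL]
  have hNX : N ≤ X := by
    have : N1 ≤ 101 / 100 * M := by linarith only [p1b, hε1M]
    linarith only [this, hEX, hMX, hNN1, hX0]
  have hMN : M ≤ 2 * N := by
    have : 99 / 100 * M ≤ N1 := by linarith only [p1a, hε1M]
    linarith only [this, hN1N, hN0]
  -- the chain
  set P := PO (rh r) T (2 * T) L with hP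
  set P1 := PO (rh r) (T + 1) (2 * T - 1) L with hP1
  set G := ∫ α in (-κ1)..κ1, r α * (JB S m (α * L) / Real.sqrt Real.pi) with hG
  set A := ∫ α in (-κ2)..κ2, g α ^ 2 * JN riemannZeta (T + 1) (2 * T - 1) (α * L) with hA
  have q1 : |P - P1| ≤ ε / 8 * N := by
    refine p4.trans ?_
    have h2 : Ce * Cf * L ^ 2 ≤ ε / 56 * X := by
      have h3 : L * (56 * Ce * Cf) ≤ ε * T := by
        rw [div_mul_eq_mul_div, le_div_iff₀ (by positivity)] at e1a
        exact e1a
      have h4 : L * (56 * Ce * Cf) * L ≤ ε * T * L := by gcongr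
      rw [hX]
      nlinarith only [h4]
    calc Ce * Cf * L ^ 2 ≤ ε / 56 * X := h2
      _ ≤ ε / 56 * (7 * N) := by gcongr
      _ = ε / 8 * N := by ring
  have q2 : |G - P1| ≤ ε / 8 * N := by
    rw [hG, JB_int hrc hκ10.le (fun α hα => hs α (by linarith))]
    refine p5.trans ?_
    have h2 : Cg * Cf / L ≤ ε / 8 := by
      rw [div_le_iff₀ hL0]
      have h3 : 8 * Cg * Cf / ε ≤ L := by linarith only [e2]
      rw [div_le_iff₀ hε] at h3
      linarith only [h3]
    exact mul_le_mul h2 hN1N hN10.le (by positivity)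
  have hspi : 1 ≤ Real.sqrt Real.pi := by rw [Real.one_le_sqrt]; linarith only [hpi3]
  have hspi0 : 0 < Real.sqrt Real.pi := by linarith only [hspi]
  have hBc : Continuous fun α : ℝ => JB S m (α * L) := (JB_cont S m).comp (by fun_prop)
  have hB0 : ∀ α, 0 ≤ JB S m (α * L) := fun α => integral_nonneg fun t => by positivity
  have q3 : G ≤ A + (C * (NO T (2 * T) / X) ^ θ + ε / 140) * X := by
    have h2 : G ≤ (∫ α : ℝ, g α ^ 2 * JB S m (α * L)) / Real.sqrt Real.pi := by
      rw [whole_int hκ10 (fun α hα => by rw [hgs α hα]; ring), ← intervalIntegral.integral_div, hG]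
      refine intervalIntegral.integral_mono_on (by linarith) ?_ ?_ fun α _ => ?_
      · exact (hrc.mul (hBc.div_const _)).intervalIntegrable _ _
      · exact (((hg.continuous.pow 2).mul hBc).div_const _).intervalIntegrable _ _
      · rw [mul_div_assoc]
        exact mul_le_mul_of_nonneg_right (hgr α).1 (div_nonneg (hB0 α) hspi0.le)
    have h3 : A = (∫ α : ℝ, g α ^ 2 * JJ riemannZeta (T + 1) (2 * T - 1) (α * L)) /
        Real.sqrt Real.pi := by
      rw [whole_int hκ20 (fun α hα => by rw [hgs α (by linarith)]; ring),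
        ← intervalIntegral.integral_div, hA]
      refine intervalIntegral.integral_congr fun α _ => ?_
      simp only [JN]
      ring
    have h4 : 0 ≤ (C * (NO T (2 * T) / X) ^ θ + ε / 140) * X := by
      have : 0 ≤ (NO T (2 * T) / X) ^ θ :=
        Real.rpow_nonneg (div_nonneg (NO_nonneg _ _) hX0.le) _
      positivity
    calc G ≤ (∫ α : ℝ, g α ^ 2 * JB S m (α * L)) / Real.sqrt Real.pi := h2
      _ ≤ ((∫ α : ℝ, g α ^ 2 * JJ riemannZeta (T + 1) (2 * T - 1) (α * L)) +
          (C * (NO T (2 * T) / X) ^ θ + ε / 140) * X) / Real.sqrt Real.pi := by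
          gcongr
      _ = A + (C * (NO T (2 * T) / X) ^ θ + ε / 140) * X / Real.sqrt Real.pi := by
          rw [add_div, ← h3]
      _ ≤ _ := by
          have := div_le_self h4 hspi
          linarith only [this]
  have q3b : (C * (NO T (2 * T) / X) ^ θ + ε / 140) * X ≤
      (7 * C * (NO T (2 * T) / N) ^ θ + ε / 20) * N := by
    have h4 : (NO T (2 * T) / X) ^ θ ≤ (NO T (2 * T) / N) ^ θ := by
      apply Real.rpow_le_rpow (div_nonneg (NO_nonneg _ _) hX0.le) _ hθ.le
      exact div_le_div_of_nonneg_left (NO_nonneg _ _) hN0 hNX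
    have h5 : 0 ≤ (NO T (2 * T) / X) ^ θ :=
      Real.rpow_nonneg (div_nonneg (NO_nonneg _ _) hX0.le) _
    have h6 : 0 ≤ (NO T (2 * T) / N) ^ θ := h5.trans h4
    calc (C * (NO T (2 * T) / X) ^ θ + ε / 140) * X ≤
        (C * (NO T (2 * T) / N) ^ θ + ε / 140) * (7 * N) := by gcongr
      _ = _ := by ring
  have q4 : A ≤ M * cg + ε1 * M := by
    have h2 := (abs_le.1 p2).2
    linarith only [h2]
  have q5 : M * cg ≤ N * cg + (ε / 8 + ε / 40) * N := by
    have h2 : M - N ≤ ε1 * M + Cn * L := by linarith only [p1a, hN1N, mul_pos hCn hL0]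
    have h3 : cg * (Cn * L) ≤ ε / 8 * N := by
      rw [div_le_iff₀ hε] at e3a
      have h4 : 56 * cg * Cn * L ≤ T * ε * L := by gcongr
      have h5 : cg * (Cn * L) ≤ ε / 56 * X := by
        rw [hX]
        nlinarith only [h4]
      calc cg * (Cn * L) ≤ ε / 56 * X := h5
        _ ≤ ε / 56 * (7 * N) := by gcongr
        _ = ε / 8 * N := by ring
    have h4 : cg * (ε1 * M) ≤ ε / 40 * N := by
      calc cg * (ε1 * M) = (cg * ε1) * M := by ring
        _ ≤ ε / 80 * (2 * N) := by
            have h6 : 0 ≤ cg * ε1 := by positivity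
            have h7 : cg * ε1 ≤ ε / 80 := by linarith only [hε1b, hε10]
            gcongr
        _ = _ := by ring
    have h5 : (M - N) * cg ≤ (ε1 * M + Cn * L) * cg := by gcongr
    nlinarith only [h3, h4, h5]
  have q6 : ε1 * M ≤ ε / 40 * N := by
    have h6 : ε1 ≤ ε / 80 := by nlinarith only [hε1b, hε10, hcg0]
    calc ε1 * M ≤ ε / 80 * (2 * N) := by gcongr
      _ = _ := by ring
  have q7 : N * cg ≤ N * (c + ε / 10) := by gcongr
  have q1' := (abs_le.1 q1).2
  have q2' := (abs_le.1 q2).1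
  have hεN : 0 ≤ ε * N := by positivity
  have e9 : N * (c + ε + 7 * C * (NO T (2 * T) / N) ^ θ) =
      N * (c + ε / 10) + (7 * C * (NO T (2 * T) / N) ^ θ + ε / 20) * N + 17 / 20 * (ε * N) := by ring
  rw [e9]
  linarith only [q1', q2', q3, q3b, q4, q5, q6, q7, hεN]

end Pool.Agent.Y750.OM
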