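import Pool.Agent.Y750.OM.Conv1

set_option autoImplicit false

/-! # Multiplication by a smooth function preserves the decay of the transform -/

namespace Pool.Agent.Y750.OM

open Complex Filter Topology Set MeasureTheory
open H370.A2 (RR evp evp_int RR_inv RR_cont RR_integrable)

lemma RR_rh {r : ℝ → ℝ} (hs : ∀ α, 1 ≤ |α| → r α = 0) (u : ℝ) :
    RR r 1 u = rh r (2 * Real.pi * u) := by
  unfold RR rh
  rw [whole_int one_pos (fun α hα => by rw [hs α hα.le, zero_mul])]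
  refine intervalIntegral.integral_congr fun α _ => ?_
  rw [show 2 * Real.pi * α * u = α * (2 * Real.pi * u) by ring]

lemma two_inv (x u : ℝ) : (1 + u ^ 2)⁻¹ * (1 + (x - 2 * Real.pi * u) ^ 2)⁻¹ ≤
    80 * (1 + x ^ 2)⁻¹ * ((1 + u ^ 2)⁻¹ + (1 + (x - 2 * Real.pi * u) ^ 2)⁻¹) := by
  have hpi := Real.pi_lt_d4
  have hpi0 := Real.pi_pos
  set y := x - 2 * Real.pi * u with hy
  have hx : x = 2 * Real.pi * u + y := by rw [hy]; ring
  have h1 : x ^ 2 ≤ 80 * u ^ 2 + 2 * y ^ 2 := by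
    rw [hx]
    have h2 : (2 * Real.pi * u) ^ 2 ≤ 40 * u ^ 2 := by
      rw [mul_pow]
      apply mul_le_mul_of_nonneg_right _ (sq_nonneg u)
      nlinarith
    nlinarith [sq_nonneg (2 * Real.pi * u - y)]
  have e : 80 * (1 + x ^ 2)⁻¹ * ((1 + u ^ 2)⁻¹ + (1 + y ^ 2)⁻¹) =
      (80 * ((1 + y ^ 2) + (1 + u ^ 2)) / (1 + x ^ 2)) * ((1 + u ^ 2)⁻¹ * (1 + y ^ 2)⁻¹) := by
    field_simp
  rw [e]
  apply le_mul_of_one_le_left (by positivity)
  rw [le_div_iff₀ (by positivity)]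
  nlinarith [sq_nonneg y, sq_nonneg u]

theorem mul_decay {r : ℝ → ℝ} (hr : Continuous r) (hs : ∀ α, 1 ≤ |α| → r α = 0) {A : ℝ}
    (hA : ∀ x, |rh r x| * (1 + x ^ 2) ≤ A) {χ : ℝ → ℝ} (hχ : ContDiff ℝ 2 χ)
    (he : ∀ α, χ (-α) = χ α) (hχs : ∀ α, 1 < |α| → χ α = 0) :
    ∃ A' : ℝ, ∀ x, |rh (fun α => χ α * r α) x| * (1 + x ^ 2) ≤ A' := by
  have hpi := Real.pi_pos
  have hpi3 := Real.pi_gt_three
  obtain ⟨Cχ, hCχ, hχd⟩ := rh_bound hχ zero_le_one hχs
  have hA0 : 0 ≤ A := le_trans (by positivity) (hA 0)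
  set ρ : ℝ → ℝ := RR r 1 with hρ
  have hρA : ∀ u, |ρ u| * (1 + u ^ 2) ≤ A := by
    intro u
    rw [hρ, RR_rh hs]
    refine le_trans ?_ (hA (2 * Real.pi * u))
    apply mul_le_mul_of_nonneg_left _ (abs_nonneg _)
    have : u ^ 2 ≤ (2 * Real.pi * u) ^ 2 := by
      rw [mul_pow]
      apply le_mul_of_one_le_left (sq_nonneg u)
      nlinarith
    linarith
  have hρC : ∀ x, |RR r 1 x| * x ^ 2 ≤ A := by
    intro x
    refine le_trans ?_ (hρA x)
    apply mul_le_mul_of_nonneg_left _ (abs_nonneg _)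
    linarith
  have hρi : Integrable ρ := RR_integrable hr hs hρC
  have hρc : Continuous ρ := RR_cont hr
  have hχc : Continuous χ := hχ.continuous
  have hinner : ∀ x u : ℝ, ∫ α in (-1 : ℝ)..1, Real.cos (2 * Real.pi * u * α) *
      (χ α * Real.cos (α * x)) = (rh χ (x - 2 * Real.pi * u) + rh χ (x + 2 * Real.pi * u)) / 2 := by
    intro x u
    unfold rh
    rw [whole_int one_pos (fun α hα => by rw [hχs α hα, zero_mul]),
      whole_int one_pos (fun α hα => by rw [hχs α hα, zero_mul]), ← intervalIntegral.integral_add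
      (Continuous.intervalIntegrable (by fun_prop) _ _)
      (Continuous.intervalIntegrable (by fun_prop) _ _), ← intervalIntegral.integral_div]
    refine intervalIntegral.integral_congr fun α _ => ?_
    have e1 : α * (x - 2 * Real.pi * u) = α * x - 2 * Real.pi * u * α := by ring
    have e2 : α * (x + 2 * Real.pi * u) = α * x + 2 * Real.pi * u * α := by ring
    rw [e1, e2, Real.cos_sub, Real.cos_add]
    ring
  have hmain : ∀ x : ℝ, rh (fun α => χ α * r α) x =
      ∫ u : ℝ, ρ u * ((rh χ (x - 2 * Real.pi * u) + rh χ (x + 2 * Real.pi * u)) / 2) := by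
    intro x
    have h1 : rh (fun α => χ α * r α) x = ∫ α in (-1 : ℝ)..1, r α * (χ α * Real.cos (α * x)) := by
      unfold rh
      rw [whole_int one_pos (fun α hα => by
        show χ α * r α * Real.cos (α * x) = 0
        rw [hχs α hα, zero_mul, zero_mul])]
      refine intervalIntegral.integral_congr fun α _ => ?_
      ring
    rw [h1, evp_int hr (c := fun α => χ α * Real.cos (α * x)) (by fun_prop) (by
      intro y
      rw [he, neg_mul, Real.cos_neg])]
    have h2 : ∫ α in (-1 : ℝ)..1, evp r α * (χ α * Real.cos (α * x)) =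
        ∫ α in Set.Ioc (-1 : ℝ) 1, ∫ u : ℝ, ρ u * (Real.cos (2 * Real.pi * u * α) *
          (χ α * Real.cos (α * x))) := by
      rw [intervalIntegral.integral_of_le (by norm_num)]
      refine integral_congr_ae (Eventually.of_forall fun α => ?_)
      simp only
      rw [← RR_inv hr hs hρC α, ← integral_mul_const]
      refine integral_congr_ae (Eventually.of_forall fun u => ?_)
      simp only
      rw [← hρ]
      ring
    rw [h2, integral_integral_swap]
    · refine integral_congr_ae (Eventually.of_forall fun u => ?_)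
      simp only
      rw [integral_const_mul, ← intervalIntegral.integral_of_le (by norm_num), hinner]
    · obtain ⟨B, hB⟩ := (isCompact_Icc (a := -1) (b := (1 : ℝ))).exists_bound_of_continuousOn
        (f := χ) hχc.continuousOn
      have hB0 : 0 ≤ B := (norm_nonneg _).trans (hB 0 (by norm_num))
      have hi1 : Integrable (fun _ : ℝ => B) (volume.restrict (Set.Ioc (-1 : ℝ) 1)) :=
        integrable_const _
      have hp : Integrable (fun p : ℝ × ℝ => B * ρ p.2)
          ((volume.restrict (Set.Ioc (-1 : ℝ) 1)).prod volume) := hi1.mul_prod hρi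
      refine hp.mono (Continuous.aestronglyMeasurable ?_) ?_
      · show Continuous (fun p : ℝ × ℝ => ρ p.2 * (Real.cos (2 * Real.pi * p.2 * p.1) *
          (χ p.1 * Real.cos (p.1 * x))))
        have h3 : Continuous fun p : ℝ × ℝ => ρ p.2 := hρc.comp continuous_snd
        have h4 : Continuous fun p : ℝ × ℝ => χ p.1 := hχc.comp continuous_fst
        fun_prop
      · have hae : ∀ᵐ p : ℝ × ℝ ∂((volume.restrict (Set.Ioc (-1 : ℝ) 1)).prod volume),
            p.1 ∈ Set.Ioc (-1 : ℝ) 1 := by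
          have h5 : ∀ᵐ α : ℝ ∂(volume.restrict (Set.Ioc (-1 : ℝ) 1)), α ∈ Set.Ioc (-1 : ℝ) 1 :=
            ae_restrict_mem measurableSet_Ioc
          exact Measure.quasiMeasurePreserving_fst.ae h5
        filter_upwards [hae] with p hp1
        show ‖ρ p.2 * (Real.cos (2 * Real.pi * p.2 * p.1) * (χ p.1 * Real.cos (p.1 * x)))‖ ≤
          ‖B * ρ p.2‖
        rw [norm_mul, norm_mul, norm_mul, norm_mul, mul_comm ‖B‖]
        apply mul_le_mul_of_nonneg_left _ (norm_nonneg _)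
        have h6 := hB p.1 ⟨hp1.1.le, hp1.2⟩
        have h7 : ‖Real.cos (2 * Real.pi * p.2 * p.1)‖ ≤ 1 := Real.abs_cos_le_one _
        have h8 : ‖Real.cos (p.1 * x)‖ ≤ 1 := Real.abs_cos_le_one _
        rw [Real.norm_of_nonneg hB0]
        calc ‖Real.cos (2 * Real.pi * p.2 * p.1)‖ * (‖χ p.1‖ * ‖Real.cos (p.1 * x)‖) ≤
            1 * (B * 1) := by gcongr
          _ = B := by ring
  -- the bound
  have hinv : ∀ x : ℝ, Integrable (fun u : ℝ => (1 + (x - 2 * Real.pi * u) ^ 2)⁻¹) ∧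
      ∫ u : ℝ, (1 + (x - 2 * Real.pi * u) ^ 2)⁻¹ = 1 / 2 := by
    intro x
    have hk : 2 * Real.pi ≠ 0 := by positivity
    have e : ∀ u : ℝ, (1 + (x - 2 * Real.pi * u) ^ 2)⁻¹ =
        (fun z : ℝ => (1 + z ^ 2)⁻¹) ((2 * Real.pi) * u - x) := by
      intro u
      simp only
      congr 2
      ring
    have h1 : Integrable (fun z : ℝ => (fun z : ℝ => (1 + z ^ 2)⁻¹) (z - x)) :=
      integrable_inv_one_add_sq.comp_sub_right _
    constructor
    · have h2 : Integrable (fun ξ : ℝ => (fun z : ℝ => (fun z : ℝ => (1 + z ^ 2)⁻¹) (z - x))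
        ((2 * Real.pi) * ξ)) := h1.comp_mul_left' hk
      exact h2.congr (Eventually.of_forall fun ξ => (e ξ).symm)
    · simp_rw [e]
      rw [Measure.integral_comp_mul_left (fun z : ℝ => (fun z : ℝ => (1 + z ^ 2)⁻¹) (z - x)),
        integral_sub_right_eq_self (fun z : ℝ => (1 + z ^ 2)⁻¹), integral_univ_inv_one_add_sq,
        abs_of_pos (by positivity), smul_eq_mul]
      field_simp
  have hpart : ∀ x σ : ℝ, σ ^ 2 = 1 → ∀ u : ℝ, |ρ u * rh χ (x + σ * (2 * Real.pi * u))| ≤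
      A * Cχ * (80 * (1 + x ^ 2)⁻¹ * ((1 + u ^ 2)⁻¹ + (1 + (-σ * x - 2 * Real.pi * u) ^ 2)⁻¹)) := by
    intro x σ hσ u
    have h1 : |ρ u| ≤ A * (1 + u ^ 2)⁻¹ := by
      rw [← div_eq_mul_inv, le_div_iff₀ (by positivity)]
      exact hρA u
    have h2 : |rh χ (x + σ * (2 * Real.pi * u))| ≤ Cχ * (1 + (-σ * x - 2 * Real.pi * u) ^ 2)⁻¹ := by
      rw [← div_eq_mul_inv, le_div_iff₀ (by positivity)]
      have h3 := hχd (x + σ * (2 * Real.pi * u))
      have e : (x + σ * (2 * Real.pi * u)) ^ 2 = (-σ * x - 2 * Real.pi * u) ^ 2 := by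
        have : (-σ * x - 2 * Real.pi * u) ^ 2 = σ ^ 2 * x ^ 2 + 2 * σ * x * (2 * Real.pi * u) +
            (2 * Real.pi * u) ^ 2 := by ring
        rw [this]
        have : (x + σ * (2 * Real.pi * u)) ^ 2 = x ^ 2 + 2 * σ * x * (2 * Real.pi * u) +
            σ ^ 2 * (2 * Real.pi * u) ^ 2 := by ring
        rw [this, hσ]
        ring
      rw [e] at h3
      exact h3
    have h4 := two_inv (-σ * x) u
    have h5 : (-σ * x) ^ 2 = x ^ 2 := by
      have : (-σ * x) ^ 2 = σ ^ 2 * x ^ 2 := by ring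
      rw [this, hσ, one_mul]
    rw [h5] at h4
    rw [abs_mul]
    calc |ρ u| * |rh χ (x + σ * (2 * Real.pi * u))| ≤
        (A * (1 + u ^ 2)⁻¹) * (Cχ * (1 + (-σ * x - 2 * Real.pi * u) ^ 2)⁻¹) := by gcongr
      _ = A * Cχ * ((1 + u ^ 2)⁻¹ * (1 + (-σ * x - 2 * Real.pi * u) ^ 2)⁻¹) := by ring
      _ ≤ _ := by gcongr
  refine ⟨A * Cχ * 80 * (Real.pi + 1 / 2), fun x => ?_⟩
  set g : ℝ → ℝ := fun u => A * Cχ * (80 * (1 + x ^ 2)⁻¹) * (((1 + u ^ 2)⁻¹ +
    (1 + (x - 2 * Real.pi * u) ^ 2)⁻¹ + ((1 + u ^ 2)⁻¹ +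
    (1 + (-x - 2 * Real.pi * u) ^ 2)⁻¹)) / 2) with hg
  have i1 := integrable_inv_one_add_sq
  have i2 := (hinv x).1
  have i3 := (hinv (-x)).1
  have hgi : Integrable g := (((i1.add i2).add (i1.add i3)).div_const 2).const_mul _
  have hgint : ∫ u, g u = A * Cχ * (80 * (1 + x ^ 2)⁻¹) * (Real.pi + 1 / 2) := by
    simp only [hg]
    have s1 : ∫ u : ℝ, ((1 + u ^ 2)⁻¹ + (1 + (x - 2 * Real.pi * u) ^ 2)⁻¹) = Real.pi + 1 / 2 := by
      rw [integral_add i1 i2, (hinv x).2, integral_univ_inv_one_add_sq]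
    have s2 : ∫ u : ℝ, ((1 + u ^ 2)⁻¹ + (1 + (-x - 2 * Real.pi * u) ^ 2)⁻¹) = Real.pi + 1 / 2 := by
      rw [integral_add i1 i3, (hinv (-x)).2, integral_univ_inv_one_add_sq]
    have s3 : ∫ u : ℝ, ((1 + u ^ 2)⁻¹ + (1 + (x - 2 * Real.pi * u) ^ 2)⁻¹ + ((1 + u ^ 2)⁻¹ +
        (1 + (-x - 2 * Real.pi * u) ^ 2)⁻¹)) = (Real.pi + 1 / 2) + (Real.pi + 1 / 2) := by
      have i12 : Integrable (fun u : ℝ => (1 + u ^ 2)⁻¹ + (1 + (x - 2 * Real.pi * u) ^ 2)⁻¹) :=
        i1.add i2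
      have i13 : Integrable (fun u : ℝ => (1 + u ^ 2)⁻¹ + (1 + (-x - 2 * Real.pi * u) ^ 2)⁻¹) :=
        i1.add i3
      rw [integral_add i12 i13, s1, s2]
    rw [integral_const_mul, integral_div, s3]
    ring
  have hbd : |rh (fun α => χ α * r α) x| ≤ ∫ u, g u := by
    rw [hmain x, ← Real.norm_eq_abs]
    refine norm_integral_le_of_norm_le hgi (Eventually.of_forall fun u => ?_)
    have h1 := hpart x (-1) (by norm_num) u
    have h2 := hpart x 1 (by norm_num) u
    have e1 : x + -1 * (2 * Real.pi * u) = x - 2 * Real.pi * u := by ring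
    have e2 : - -1 * x - 2 * Real.pi * u = x - 2 * Real.pi * u := by ring
    have e3 : x + 1 * (2 * Real.pi * u) = x + 2 * Real.pi * u := by ring
    have e4 : -1 * x - 2 * Real.pi * u = -x - 2 * Real.pi * u := by ring
    rw [e1, e2] at h1
    rw [e3, e4] at h2
    rw [Real.norm_eq_abs]
    have e5 : ρ u * ((rh χ (x - 2 * Real.pi * u) + rh χ (x + 2 * Real.pi * u)) / 2) =
        (ρ u * rh χ (x - 2 * Real.pi * u) + ρ u * rh χ (x + 2 * Real.pi * u)) / 2 := by ring
    rw [e5, abs_div, abs_of_pos (by norm_num : (0 : ℝ) < 2), div_le_iff₀ (by norm_num)]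
    refine (abs_add_le _ _).trans ((add_le_add h1 h2).trans (le_of_eq ?_))
    simp only [hg]
    ring
  calc |rh (fun α => χ α * r α) x| * (1 + x ^ 2) ≤ (∫ u, g u) * (1 + x ^ 2) := by gcongr
    _ = A * Cχ * 80 * (Real.pi + 1 / 2) := by
        rw [hgint]
        field_simp
    _ ≤ _ := le_rfl

end Pool.Agent.Y750.OM
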