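import Pool.Agent.Y750.OM.Main4
import Pool.Agent.Y750.OM.MulDecay

set_option autoImplicit false

/-! # Mixed signs: both theorems together -/

namespace Pool.Agent.Y750.OM

open Complex Filter Topology Set MeasureTheory
open H370 (Zf mult mem_Zf good_zeta zset JJ JJ_cont NN NN_eq)

lemma NO_le {T : ℝ} (hT : 1 ≤ T) : NO T (2 * T) ≤ NN riemannZeta T (2 * T) := by
  classical
  rw [NN_eq good_zeta hT]
  push_cast
  unfold NO
  exact Finset.sum_le_sum_of_subset_of_nonneg (Finset.filter_subset _ _)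
    fun _ _ _ => Nat.cast_nonneg _

lemma PO_add {f g h : ℝ → ℝ} (hf : ∀ x, f x = g x + h x) (A B L : ℝ) :
    PO f A B L = PO g A B L + PO h A B L := by
  unfold PO
  rw [← Finset.sum_add_distrib]
  refine Finset.sum_congr rfl fun s _ => ?_
  rw [← Finset.sum_add_distrib]
  refine Finset.sum_congr rfl fun s' _ => ?_
  rw [hf]
  ring

lemma PO_neg {f g : ℝ → ℝ} (hf : ∀ x, f x = -g x) (A B L : ℝ) :
    PO f A B L = -PO g A B L := by
  unfold PO
  rw [← Finset.sum_neg_distrib]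
  refine Finset.sum_congr rfl fun s _ => ?_
  rw [← Finset.sum_neg_distrib]
  refine Finset.sum_congr rfl fun s' _ => ?_
  rw [hf]
  ring

theorem mixed_up {κ0 κ1 : ℝ} (h0 : 0 < κ0) (h1 : κ0 < 2 / 3) (h2 : κ0 < κ1) (h3 : κ1 < 1) :
    ∃ θ : ℝ, 0 < θ ∧
    ∀ (r : ℝ → ℝ) (K : ℝ), (∀ x y, |r x - r y| ≤ K * |x - y|) →
    (∀ α, κ1 < |α| → r α = 0) → (∀ α, κ0 < |α| → 0 ≤ r α) →
    ∀ Cf0 : ℝ, (∀ x, |rh r x| * (1 + x ^ 2) ≤ Cf0) →
    ∀ ε : ℝ, 0 < ε → ∃ C T0 : ℝ, 0 < C ∧ 10 ≤ T0 ∧ ∀ T : ℝ, T0 ≤ T →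
    PO (rh r) T (2 * T) (Real.log T) ≤ NN riemannZeta T (2 * T) * ((r 0 + ∫ α : ℝ, |α| * r α) + ε +
      C * (NO T (2 * T) / NN riemannZeta T (2 * T)) ^ θ) := by
  classical
  set κ' : ℝ := (κ0 + 2 / 3) / 2 with hκ'
  have hκ'0 : 0 < κ' := by rw [hκ']; linarith
  have hκ'1 : κ' < 2 / 3 := by rw [hκ']; linarith
  have hκκ' : κ0 < κ' := by rw [hκ']; linarith
  obtain ⟨C1, θ1, hC1, hθ1, hord⟩ := pair_ord hκ'0 hκ'1
  obtain ⟨θ2, hθ2, hupp⟩ := pair_up (h0.trans h2) h3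
  refine ⟨min θ1 θ2, lt_min hθ1 hθ2, fun r K hlip hs hpos Cf0 hf0 ε hε => ?_⟩
  have hK : 0 ≤ K := by
    have h1 := hlip 1 0
    have h2 := abs_nonneg (r 1 - r 0)
    simp at h1
    linarith
  have hrc : Continuous r := lip_cont hlip
  have hs1 : ∀ α, 1 ≤ |α| → r α = 0 := fun α hα => hs α (by linarith)
  obtain ⟨R, hR⟩ : ∃ R : ℝ, ∀ α, |r α| ≤ R := by
    have hcs : HasCompactSupport r := by
      apply HasCompactSupport.intro (isCompact_Icc (a := -κ1) (b := κ1))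
      intro α hα
      apply hs
      by_contra hcon
      push Not at hcon
      exact hα (abs_le.1 hcon)
    obtain ⟨R, hR⟩ := hcs.exists_bound_of_continuous hrc
    exact ⟨R, hR⟩
  have hR0 : 0 ≤ R := (abs_nonneg _).trans (hR 0)
  let χ : ContDiffBump (0 : ℝ) := ⟨κ0, κ', h0, hκκ'⟩
  have hχ1 : ∀ α, 0 ≤ χ α := fun α => χ.nonneg
  have hχ2 : ∀ α, χ α ≤ 1 := fun α => χ.le_one
  have hχin : ∀ α, |α| ≤ κ0 → χ α = 1 := by
    intro α hα
    apply χ.one_of_mem_closedBall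
    rw [Metric.mem_closedBall, Real.dist_eq, sub_zero]
    exact hα
  have hχout : ∀ α, κ' < |α| → χ α = 0 := by
    intro α hα
    apply χ.zero_of_le_dist
    rw [Real.dist_eq, sub_zero]
    exact hα.le
  have hχeven : ∀ α, χ (-α) = χ α := fun α => χ.neg α
  obtain ⟨Kχ, hKχ⟩ := (χ.contDiff (n := (⊤ : ℕ∞))).lipschitzWith_of_hasCompactSupport
    χ.hasCompactSupport (by simp)
  have hKχ' : ∀ x y, |χ x - χ y| ≤ Kχ * |x - y| := by
    intro x y
    have := hKχ.dist_le_mul x y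
    rwa [Real.dist_eq, Real.dist_eq] at this
  set r1 : ℝ → ℝ := fun α => χ α * r α with hr1
  set r2 : ℝ → ℝ := fun α => r α - χ α * r α with hr2
  have hlip1 : ∀ x y, |r1 x - r1 y| ≤ (K + R * Kχ) * |x - y| := by
    intro x y
    have e : r1 x - r1 y = χ x * (r x - r y) + r y * (χ x - χ y) := by
      simp only [hr1]; ring
    rw [e]
    have a1 := hlip x y
    have a2 := hKχ' x y
    have a3 := hR y
    have a4 : |χ x| ≤ 1 := by rw [abs_of_nonneg (hχ1 x)]; exact hχ2 x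
    calc |χ x * (r x - r y) + r y * (χ x - χ y)| ≤ |χ x * (r x - r y)| + |r y * (χ x - χ y)| :=
          abs_add_le _ _
      _ = |χ x| * |r x - r y| + |r y| * |χ x - χ y| := by rw [abs_mul, abs_mul]
      _ ≤ 1 * (K * |x - y|) + R * (Kχ * |x - y|) := by gcongr
      _ = _ := by ring
  have hlip2 : ∀ x y, |r2 x - r2 y| ≤ (K + (K + R * Kχ)) * |x - y| := by
    intro x y
    have e : r2 x - r2 y = (r x - r y) + -(r1 x - r1 y) := by
      simp only [hr1, hr2]; ring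
    rw [e]
    calc |(r x - r y) + -(r1 x - r1 y)| ≤ |r x - r y| + |-(r1 x - r1 y)| := abs_add_le _ _
      _ = |r x - r y| + |r1 x - r1 y| := by rw [abs_neg]
      _ ≤ K * |x - y| + (K + R * Kχ) * |x - y| := add_le_add (hlip x y) (hlip1 x y)
      _ = _ := by ring
  have hs1' : ∀ α, κ' < |α| → r1 α = 0 := fun α hα => by
    simp only [hr1]; rw [hχout α hα, zero_mul]
  have hs2' : ∀ α, κ1 < |α| → r2 α = 0 := fun α hα => by
    simp only [hr2]; rw [hs α hα, mul_zero, sub_zero]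
  have hR1 : ∀ α, |r1 α| ≤ R := by
    intro α
    simp only [hr1]
    rw [abs_mul, abs_of_nonneg (hχ1 α)]
    exact (mul_le_of_le_one_left (abs_nonneg _) (hχ2 α)).trans (hR α)
  have hr2pos : ∀ α, 0 ≤ r2 α := by
    intro α
    simp only [hr2]
    by_cases hα : |α| ≤ κ0
    · rw [hχin α hα]; linarith
    · have a1 := hpos α (not_le.1 hα)
      have a2 := hχ2 α
      nlinarith
  obtain ⟨A1, hA1⟩ := mul_decay hrc hs1 hf0 (χ.contDiff (n := 2)) hχeven
    (fun α hα => hχout α (by linarith))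
  have hint : ∀ {f : ℝ → ℝ}, Continuous f → (∀ α, κ1 < |α| → f α = 0) → ∀ x : ℝ,
      Integrable fun α : ℝ => f α * Real.cos (α * x) := by
    intro f hf hf0 x
    apply (hf.mul (by fun_prop)).integrable_of_hasCompactSupport
    apply HasCompactSupport.intro (isCompact_Icc (a := -κ1) (b := κ1))
    intro α hα
    have : f α = 0 := by
      apply hf0
      by_contra hcon
      push Not at hcon
      exact hα (abs_le.1 hcon)
    simp only [Pi.mul_apply]
    rw [this, zero_mul]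
  have hr1c : Continuous r1 := lip_cont hlip1
  have hr2c : Continuous r2 := lip_cont hlip2
  have hs1'' : ∀ α, κ1 < |α| → r1 α = 0 := fun α hα => by
    simp only [hr1]; rw [hs α hα, mul_zero]
  have hsplit : ∀ x, rh r x = rh r1 x + rh r2 x := by
    intro x
    unfold rh
    rw [← integral_add (hint hr1c hs1'' x) (hint hr2c hs2' x)]
    refine integral_congr_ae (Eventually.of_forall fun α => ?_)
    simp only [hr1, hr2]
    ring
  have hA2 : ∀ x, |rh r2 x| * (1 + x ^ 2) ≤ Cf0 + A1 := by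
    intro x
    have e : rh r2 x = rh r x + -rh r1 x := by rw [hsplit x]; ring
    have a1 : |rh r2 x| ≤ |rh r x| + |rh r1 x| := by
      rw [e]
      refine (abs_add_le _ _).trans ?_
      rw [abs_neg]
    calc |rh r2 x| * (1 + x ^ 2) ≤ (|rh r x| + |rh r1 x|) * (1 + x ^ 2) := by gcongr
      _ = |rh r x| * (1 + x ^ 2) + |rh r1 x| * (1 + x ^ 2) := by ring
      _ ≤ _ := add_le_add (hf0 x) (hA1 x)
  obtain ⟨Ta, hTa, ha⟩ := hord κ' hκ'0 le_rfl r1 _ hlip1 hs1' A1 hA1 R hR1 (ε / 2) (by positivity)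
  obtain ⟨C2, Tb, hC2, hTb, hb⟩ := hupp r2 _ hlip2 hs2' hr2pos _ hA2 (ε / 2) (by positivity)
  refine ⟨C1 * R * κ' ^ 3 + C2, max Ta Tb, by positivity, hTa.trans (le_max_left _ _),
    fun T hT => ?_⟩
  have a1 := ha T ((le_max_left _ _).trans hT)
  have a2 := hb T ((le_max_right _ _).trans hT)
  have hT10 : 10 ≤ T := hTa.trans ((le_max_left _ _).trans hT)
  rw [PO_add hsplit]
  set N : ℝ := (NN riemannZeta T (2 * T) : ℝ) with hN
  have hN0 : 0 ≤ N := Nat.cast_nonneg _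
  set q : ℝ := NO T (2 * T) / N with hq
  have hq0 : 0 ≤ q := div_nonneg (NO_nonneg _ _) hN0
  have hq1 : q ≤ 1 := div_le_one_of_le₀ (NO_le (by linarith)) hN0
  have b1 : q ^ θ1 ≤ q ^ min θ1 θ2 :=
    Real.rpow_le_rpow_of_exponent_ge' hq0 hq1 (le_min hθ1.le hθ2.le) (min_le_left _ _)
  have b2 : q ^ θ2 ≤ q ^ min θ1 θ2 :=
    Real.rpow_le_rpow_of_exponent_ge' hq0 hq1 (le_min hθ1.le hθ2.le) (min_le_right _ _)
  have hmainterm : r 0 + ∫ α : ℝ, |α| * r α = (r1 0 + ∫ α : ℝ, |α| * r1 α) +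
      (r2 0 + ∫ α : ℝ, |α| * r2 α) := by
    have hint' : ∀ {f : ℝ → ℝ}, Continuous f → (∀ α, κ1 < |α| → f α = 0) →
        Integrable fun α : ℝ => |α| * f α := by
      intro f hf hf0
      apply (continuous_abs.mul hf).integrable_of_hasCompactSupport
      apply HasCompactSupport.intro (isCompact_Icc (a := -κ1) (b := κ1))
      intro α hα
      have : f α = 0 := by
        apply hf0
        by_contra hcon
        push Not at hcon
        exact hα (abs_le.1 hcon)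
      simp only [Pi.mul_apply]
      rw [this, mul_zero]
    have e : ∫ α : ℝ, |α| * r α = (∫ α : ℝ, |α| * r1 α) + ∫ α : ℝ, |α| * r2 α := by
      rw [← integral_add (hint' hr1c hs1'') (hint' hr2c hs2')]
      refine integral_congr_ae (Eventually.of_forall fun α => ?_)
      simp only [hr1, hr2]
      ring
    rw [e]
    simp only [hr1, hr2]
    ring
  rw [hmainterm]
  have a1' := (abs_le.1 a1).2
  have c1 : (C1 * R * κ' ^ 3 * q ^ θ1 + ε / 2) * N ≤
      (C1 * R * κ' ^ 3 * q ^ min θ1 θ2 + ε / 2) * N := by gcongr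
  have c2 : N * ((r2 0 + ∫ α : ℝ, |α| * r2 α) + ε / 2 + C2 * q ^ θ2) ≤
      N * ((r2 0 + ∫ α : ℝ, |α| * r2 α) + ε / 2 + C2 * q ^ min θ1 θ2) := by gcongr
  have e9 : N * ((r1 0 + ∫ α : ℝ, |α| * r1 α) + (r2 0 + ∫ α : ℝ, |α| * r2 α) + ε +
      (C1 * R * κ' ^ 3 + C2) * q ^ min θ1 θ2) =
      N * (r1 0 + ∫ α : ℝ, |α| * r1 α) + (C1 * R * κ' ^ 3 * q ^ min θ1 θ2 + ε / 2) * N +
      N * ((r2 0 + ∫ α : ℝ, |α| * r2 α) + ε / 2 + C2 * q ^ min θ1 θ2) := by ring
  rw [e9]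
  linarith only [a1', a2, c1, c2]

end Pool.Agent.Y750.OM
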