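import Pool.Agent.Y750.OM.Main5

set_option autoImplicit false

/-! # Final forms: sums over the zeros, close pairs -/

namespace Pool.Agent.Y750.OM

open Complex Filter Topology Set MeasureTheory
open H370 (Zf mult mem_Zf good_zeta zset JJ JJ_cont NN NN_eq)

/-- the triangle -/
noncomputable def tri (κ : ℝ) (α : ℝ) : ℝ := max 0 (1 - |α| / κ)

lemma tri_nonneg (κ α : ℝ) : 0 ≤ tri κ α := le_max_left _ _

lemma tri_zero (κ : ℝ) : tri κ 0 = 1 := by
  unfold tri
  simp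

lemma tri_supp {κ : ℝ} (hκ : 0 < κ) {α : ℝ} (h : κ < |α|) : tri κ α = 0 := by
  unfold tri
  apply max_eq_left
  have : 1 ≤ |α| / κ := by rw [le_div_iff₀ hκ]; linarith
  linarith

lemma tri_lip {κ : ℝ} (hκ : 0 < κ) (x y : ℝ) : |tri κ x - tri κ y| ≤ 1 / κ * |x - y| := by
  unfold tri
  refine (abs_max_sub_max_le_max _ _ _ _).trans ?_
  rw [sub_self, abs_zero]
  apply max_le (by positivity)
  have e : 1 - |x| / κ - (1 - |y| / κ) = (1 / κ) * (|y| - |x|) := by ring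
  rw [e, abs_mul, abs_of_pos (by positivity : 0 < 1 / κ)]
  apply mul_le_mul_of_nonneg_left _ (by positivity)
  rw [abs_sub_comm x y]
  exact abs_abs_sub_abs_le_abs_sub y x

lemma tri_eq {κ : ℝ} (hκ : 0 < κ) {α : ℝ} (h0 : 0 ≤ α) (h : α ≤ κ) : tri κ α = 1 - α / κ := by
  unfold tri
  rw [abs_of_nonneg h0]
  apply max_eq_right
  have : α / κ ≤ 1 := by rw [div_le_one hκ]; exact h
  linarith

/-- integrals of the triangle against even functions -/
lemma tri_int {κ : ℝ} (hκ : 0 < κ) {c : ℝ → ℝ} (hc : Continuous c) (hce : ∀ x, c (-x) = c x) :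
    ∫ α : ℝ, tri κ α * c α = 2 * ∫ α in (0 : ℝ)..κ, (1 - α / κ) * c α := by
  have htc : Continuous (tri κ) := by unfold tri; fun_prop
  rw [whole_int hκ (fun α hα => by rw [tri_supp hκ hα, zero_mul]),
    H370.A2.int_sym (fun α => tri κ α * c α) (htc.mul hc) κ,
    ← intervalIntegral.integral_const_mul]
  refine intervalIntegral.integral_congr fun α hα => ?_
  rw [Set.uIcc_of_le hκ.le] at hα
  have e1 : tri κ (-α) = tri κ α := by unfold tri; rw [abs_neg]
  rw [e1, hce, tri_eq hκ hα.1 hα.2]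
  ring

lemma tri_abs {κ : ℝ} (hκ : 0 < κ) : ∫ α : ℝ, |α| * tri κ α = κ ^ 2 / 3 := by
  have e : ∫ α : ℝ, |α| * tri κ α = ∫ α : ℝ, tri κ α * |α| := by
    refine integral_congr_ae (Eventually.of_forall fun α => ?_)
    simp only
    ring
  rw [e, tri_int hκ continuous_abs (fun x => abs_neg x)]
  have h1 : ∀ x ∈ Set.uIcc (0 : ℝ) κ, HasDerivAt (fun α : ℝ => α ^ 2 / 2 - α ^ 3 / (3 * κ))
      ((1 - x / κ) * |x|) x := by
    intro x hx
    rw [Set.uIcc_of_le hκ.le] at hx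
    have h2 := ((hasDerivAt_pow 2 x).div_const 2).sub ((hasDerivAt_pow 3 x).div_const (3 * κ))
    refine h2.congr_deriv ?_
    rw [abs_of_nonneg hx.1]
    field_simp
    push_cast
    ring
  rw [intervalIntegral.integral_eq_sub_of_hasDerivAt h1
    (Continuous.intervalIntegrable (by fun_prop) _ _)]
  field_simp
  ring

lemma tri_mass {κ : ℝ} (hκ : 0 < κ) : ∫ α : ℝ, tri κ α * 1 = κ := by
  rw [tri_int hκ continuous_const (fun x => rfl)]
  have h1 : ∀ x ∈ Set.uIcc (0 : ℝ) κ, HasDerivAt (fun α : ℝ => α - α ^ 2 / (2 * κ))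
      ((1 - x / κ) * 1) x := by
    intro x hx
    have h2 := (hasDerivAt_id x).sub ((hasDerivAt_pow 2 x).div_const (2 * κ))
    refine h2.congr_deriv ?_
    field_simp
    push_cast
    ring
  rw [intervalIntegral.integral_eq_sub_of_hasDerivAt h1
    (Continuous.intervalIntegrable (by fun_prop) _ _)]
  field_simp
  ring

lemma tri_sq {κ : ℝ} (hκ : 0 < κ) : ∫ α : ℝ, tri κ α * α ^ 2 = κ ^ 3 / 6 := by
  rw [tri_int hκ (by fun_prop) (fun x => by ring)]
  have h1 : ∀ x ∈ Set.uIcc (0 : ℝ) κ, HasDerivAt (fun α : ℝ => α ^ 3 / 3 - α ^ 4 / (4 * κ))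
      ((1 - x / κ) * x ^ 2) x := by
    intro x hx
    have h2 := ((hasDerivAt_pow 3 x).div_const 3).sub ((hasDerivAt_pow 4 x).div_const (4 * κ))
    refine h2.congr_deriv ?_
    field_simp
    push_cast
    ring
  rw [intervalIntegral.integral_eq_sub_of_hasDerivAt h1
    (Continuous.intervalIntegrable (by fun_prop) _ _)]
  field_simp
  ring

lemma tri_integrable {κ : ℝ} (hκ : 0 < κ) {c : ℝ → ℝ} (hc : Continuous c) :
    Integrable fun α : ℝ => tri κ α * c α := by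
  have htc : Continuous (tri κ) := by unfold tri; fun_prop
  apply (htc.mul hc).integrable_of_hasCompactSupport
  apply HasCompactSupport.intro (isCompact_Icc (a := -κ) (b := κ))
  intro α hα
  have : tri κ α = 0 := by
    apply tri_supp hκ
    by_contra hcon
    push Not at hcon
    exact hα (abs_le.1 hcon)
  simp only [Pi.mul_apply]
  rw [this, zero_mul]

/-- the transform of the triangle -/
lemma tri_rh {κ : ℝ} (hκ : 0 < κ) {x : ℝ} (hx : x ≠ 0) :
    rh (tri κ) x = 2 * (1 - Real.cos (κ * x)) / (κ * x ^ 2) := by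
  unfold rh
  rw [tri_int hκ (c := fun α => Real.cos (α * x)) (by fun_prop) (fun y => by
    rw [neg_mul, Real.cos_neg])]
  have h2 : ∀ β ∈ Set.uIcc (0 : ℝ) κ, HasDerivAt (fun β : ℝ => (1 - β / κ) * Real.sin (β * x) / x -
      Real.cos (β * x) / (κ * x ^ 2)) ((1 - β / κ) * Real.cos (β * x)) β := by
    intro β _
    have h3 : HasDerivAt (fun β : ℝ => β * x) x β := by
      simpa using (hasDerivAt_id β).mul_const x
    have h4 := h3.sin
    have h5 := h3.cos
    have h6 : HasDerivAt (fun β : ℝ => 1 - β / κ) (-(1 / κ)) β := by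
      simpa using ((hasDerivAt_id β).div_const κ).const_sub 1
    have h7 := ((h6.mul h4).div_const x).sub (h5.div_const (κ * x ^ 2))
    refine h7.congr_deriv ?_
    field_simp
    ring
  rw [intervalIntegral.integral_eq_sub_of_hasDerivAt h2
    (Continuous.intervalIntegrable (by fun_prop) _ _)]
  have e1 : 1 - κ / κ = 0 := by rw [div_self hκ.ne']; ring
  rw [e1]
  simp only [zero_mul, Real.sin_zero, Real.cos_zero, mul_zero, zero_div, zero_sub]
  ring

lemma tri_rh_zero {κ : ℝ} (hκ : 0 < κ) : rh (tri κ) 0 = κ := by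
  unfold rh
  simp only [mul_zero, Real.cos_zero]
  exact tri_mass hκ

lemma tri_rh_nonneg {κ : ℝ} (hκ : 0 < κ) (x : ℝ) : 0 ≤ rh (tri κ) x := by
  rcases eq_or_ne x 0 with h | h
  · rw [h, tri_rh_zero hκ]; exact hκ.le
  · rw [tri_rh hκ h]
    have := Real.cos_le_one (κ * x)
    have h2 : 0 ≤ 1 - Real.cos (κ * x) := by linarith
    positivity

lemma tri_rh_le {κ : ℝ} (hκ : 0 < κ) (x : ℝ) : rh (tri κ) x ≤ κ := by
  unfold rh
  calc ∫ α : ℝ, tri κ α * Real.cos (α * x) ≤ ∫ α : ℝ, tri κ α * 1 := by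
        refine integral_mono (tri_integrable hκ (by fun_prop)) (tri_integrable hκ continuous_const)
          fun α => ?_
        exact mul_le_mul_of_nonneg_left (Real.cos_le_one _) (tri_nonneg _ _)
    _ = κ := tri_mass hκ

lemma tri_rh_decay {κ : ℝ} (hκ : 0 < κ) (x : ℝ) : |rh (tri κ) x| * (1 + x ^ 2) ≤ κ + 4 / κ := by
  rw [abs_of_nonneg (tri_rh_nonneg hκ x)]
  have h1 := tri_rh_le hκ x
  have h2 : rh (tri κ) x * x ^ 2 ≤ 4 / κ := by
    rcases eq_or_ne x 0 with h | h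
    · rw [h]; norm_num; positivity
    · rw [tri_rh hκ h]
      have h3 := Real.neg_one_le_cos (κ * x)
      have e : 2 * (1 - Real.cos (κ * x)) / (κ * x ^ 2) * x ^ 2 =
          2 * (1 - Real.cos (κ * x)) / κ := by field_simp
      rw [e]
      apply div_le_div_of_nonneg_right _ hκ.le
      linarith
  linarith

/-- lower bound near the origin -/
lemma tri_rh_lower {κ : ℝ} (hκ : 0 < κ) (x : ℝ) : κ - κ ^ 3 * x ^ 2 / 12 ≤ rh (tri κ) x := by
  have i1 := tri_integrable hκ (c := fun _ => (1 : ℝ)) continuous_const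
  have i2 : Integrable fun α : ℝ => tri κ α * α ^ 2 * (x ^ 2 / 2) :=
    (tri_integrable hκ (c := fun α => α ^ 2) (by fun_prop)).mul_const _
  have e : κ - κ ^ 3 * x ^ 2 / 12 = ∫ α : ℝ, (tri κ α * 1 - tri κ α * α ^ 2 * (x ^ 2 / 2)) := by
    rw [integral_sub i1 i2, tri_mass hκ, integral_mul_const, tri_sq hκ]
    ring
  rw [e]
  unfold rh
  refine integral_mono (i1.sub i2) (tri_integrable hκ (by fun_prop)) fun α => ?_
  have h1 := Real.one_sub_sq_div_two_le_cos (x := α * x)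
  have h2 := tri_nonneg κ α
  show tri κ α * 1 - tri κ α * α ^ 2 * (x ^ 2 / 2) ≤ tri κ α * Real.cos (α * x)
  nlinarith

/-- pairs of ordinates at distance at most `2πa / log T` -/
theorem close_pairs {a : ℝ} (ha0 : 0 ≤ a) (ha : Real.pi ^ 2 * a ^ 2 < 3) {ε : ℝ} (hε : 0 < ε) :
    ∃ C θ T0 : ℝ, 0 < C ∧ 0 < θ ∧ 10 ≤ T0 ∧ ∀ T : ℝ, T0 ≤ T →
    PO (fun x => if |x| ≤ 2 * Real.pi * a then 1 else 0) T (2 * T) (Real.log T) ≤
      NN riemannZeta T (2 * T) * (4 / (3 - Real.pi ^ 2 * a ^ 2) + ε +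
        C * (NO T (2 * T) / NN riemannZeta T (2 * T)) ^ θ) := by
  classical
  set b : ℝ := Real.pi ^ 2 * a ^ 2 with hb
  have hb0 : 0 ≤ b := by positivity
  -- choice of the band
  obtain ⟨κ, hκ0, hκ1, hκ⟩ : ∃ κ : ℝ, 1 / 2 < κ ∧ κ < 1 ∧
      (1 + κ ^ 2 / 3) / (κ - κ ^ 3 * b / 3) < 4 / (3 - b) + ε / 2 := by
    have hc : ContinuousAt (fun κ : ℝ => (1 + κ ^ 2 / 3) / (κ - κ ^ 3 * b / 3)) 1 := by
      apply ContinuousAt.div
      · fun_prop
      · fun_prop
      · have : (1 : ℝ) - 1 ^ 3 * b / 3 = 1 - b / 3 := by ring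
        rw [this]
        have : 0 < 1 - b / 3 := by linarith
        exact this.ne'
    have h1 : (1 + (1 : ℝ) ^ 2 / 3) / (1 - 1 ^ 3 * b / 3) = 4 / (3 - b) := by
      have : 3 - b ≠ 0 := by
        have : 0 < 3 - b := by linarith
        exact this.ne'
      have h3 : (1 : ℝ) - 1 ^ 3 * b / 3 = (3 - b) / 3 := by ring
      rw [h3]
      field_simp
      norm_num
    have h2 : ∀ᶠ κ in 𝓝 (1 : ℝ), (1 + κ ^ 2 / 3) / (κ - κ ^ 3 * b / 3) < 4 / (3 - b) + ε / 2 := by
      apply hc.tendsto.eventually_lt_const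
      rw [h1]
      linarith
    have h3 : ∀ᶠ κ in 𝓝 (1 : ℝ), 1 / 2 < κ := eventually_gt_nhds (by norm_num)
    have h4 : ∀ᶠ κ in 𝓝[<] (1 : ℝ), κ < 1 := eventually_mem_nhdsWithin
    have h5 : ∀ᶠ κ in 𝓝[<] (1 : ℝ), (1 + κ ^ 2 / 3) / (κ - κ ^ 3 * b / 3) < 4 / (3 - b) + ε / 2 ∧
        1 / 2 < κ := (h2.and h3).filter_mono nhdsWithin_le_nhds
    obtain ⟨κ, ⟨k1, k2⟩, k3⟩ := (h5.and h4).exists
    exact ⟨κ, k2, k3, k1⟩
  have hκp : 0 < κ := by linarith
  set d : ℝ := κ - κ ^ 3 * b / 3 with hd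
  have hd0 : 0 < d := by
    have h1 : κ ^ 3 ≤ κ := by
      have : κ ^ 2 ≤ 1 := pow_le_one₀ hκp.le hκ1.le
      calc κ ^ 3 = κ * κ ^ 2 := by ring
        _ ≤ κ * 1 := by gcongr
        _ = κ := by ring
    have h2 : κ ^ 3 * b ≤ κ * b := by gcongr
    have h3 : κ * b < κ * 3 := by
      apply mul_lt_mul_of_pos_left ha hκp
    rw [hd]
    linarith
  obtain ⟨θ, hθ, h⟩ := mixed_up (κ0 := 1 / 4) (κ1 := κ) (by norm_num) (by norm_num) (by linarith) hκ1
  obtain ⟨C, T0, hC, hT0, h⟩ := h (tri κ) (1 / κ) (tri_lip hκp) (fun α hα => tri_supp hκp hα)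
    (fun α _ => tri_nonneg κ α) (κ + 4 / κ) (tri_rh_decay hκp) (ε / 2 * d) (by positivity)
  refine ⟨C / d, θ, T0, by positivity, hθ, hT0, fun T hT => ?_⟩
  have h5 := h T hT
  rw [tri_zero, tri_abs hκp] at h5
  set N : ℝ := (NN riemannZeta T (2 * T) : ℝ) with hN
  have hN0 : 0 ≤ N := Nat.cast_nonneg _
  set q : ℝ := (NO T (2 * T) / N) ^ θ with hq
  have hq0 : 0 ≤ q := Real.rpow_nonneg (div_nonneg (NO_nonneg _ _) hN0) _
  have h6 : d * PO (fun x => if |x| ≤ 2 * Real.pi * a then 1 else 0) T (2 * T) (Real.log T) ≤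
      PO (rh (tri κ)) T (2 * T) (Real.log T) := by
    unfold PO
    rw [Finset.mul_sum]
    refine Finset.sum_le_sum fun s _ => ?_
    rw [Finset.mul_sum]
    refine Finset.sum_le_sum fun s' _ => ?_
    have hm : (0 : ℝ) ≤ (mult riemannZeta s : ℝ) * (mult riemannZeta s' : ℝ) := by positivity
    rw [mul_left_comm]
    apply mul_le_mul_of_nonneg_left _ hm
    set x := (s.im - s'.im) * Real.log T
    show d * (if |x| ≤ 2 * Real.pi * a then 1 else 0) ≤ rh (tri κ) x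
    split_ifs with hx
    · rw [mul_one]
      refine le_trans ?_ (tri_rh_lower hκp x)
      have h7 : x ^ 2 ≤ (2 * Real.pi * a) ^ 2 := by
        rw [← sq_abs x]
        exact pow_le_pow_left₀ (abs_nonneg _) hx 2
      have h8 : κ ^ 3 * x ^ 2 / 12 ≤ κ ^ 3 * (2 * Real.pi * a) ^ 2 / 12 := by gcongr
      have h9 : κ ^ 3 * (2 * Real.pi * a) ^ 2 / 12 = κ ^ 3 * b / 3 := by rw [hb]; ring
      rw [hd]
      linarith
    · rw [mul_zero]
      exact tri_rh_nonneg hκp x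
  have h7 : d * PO (fun x => if |x| ≤ 2 * Real.pi * a then 1 else 0) T (2 * T) (Real.log T) ≤
      d * (N * (4 / (3 - b) + ε + C / d * q)) := by
    have e1 : (1 + κ ^ 2 / 3) ≤ (4 / (3 - b) + ε / 2) * d := ((div_lt_iff₀ hd0).1 hκ).le
    calc d * PO (fun x => if |x| ≤ 2 * Real.pi * a then 1 else 0) T (2 * T) (Real.log T) ≤
        N * (1 + κ ^ 2 / 3 + ε / 2 * d + C * q) := h6.trans h5
      _ ≤ N * ((4 / (3 - b) + ε / 2) * d + ε / 2 * d + C * q) := by gcongr
      _ = _ := by field_simp; ring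
  exact le_of_mul_le_mul_left h7 hd0

end Pool.Agent.Y750.OM
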