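import Pool.Agent.Y750.OM.Kern

set_option autoImplicit false

/-! # Plancherel in the variable `α` for the off-line part -/

namespace Pool.Agent.Y750.OM

open Complex Filter Topology Set MeasureTheory
open scoped FourierTransform

/-- the off-line part of the Gaussian sum -/
noncomputable def DD (S : Finset ℂ) (m : ℂ → ℝ) (L α t : ℝ) : ℂ :=
  ∑ s ∈ S, (m s : ℂ) * ((Real.exp (-(s.im - t) ^ 2 / 2) : ℂ) *
    (cfac (s.re - 1 / 2) (s.im - t) L α * cexp (I * (α * (L * s.im) : ℝ))))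

lemma cfac_cd (y x L : ℝ) : ContDiff ℝ (⊤ : ℕ∞) (cfac y x L) := by
  unfold cfac
  have h1 : ContDiff ℝ (⊤ : ℕ∞) (fun α : ℝ => (y : ℂ) * (α * L + I * x)) :=
    contDiff_const.mul ((Complex.ofRealCLM.contDiff.mul contDiff_const).add contDiff_const)
  have h2 : ContDiff ℝ (⊤ : ℕ∞) (fun α : ℝ => Complex.cosh ((y : ℂ) * (α * L + I * x))) := by
    simp only [Complex.cosh]
    exact (h1.cexp.add h1.neg.cexp).div_const 2
  exact (contDiff_const.mul h2).sub contDiff_const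

lemma DD_cd (S : Finset ℂ) (m : ℂ → ℝ) (L t : ℝ) : ContDiff ℝ (⊤ : ℕ∞) (fun α => DD S m L α t) := by
  unfold DD
  apply ContDiff.sum
  intro s _
  apply contDiff_const.mul
  apply contDiff_const.mul
  apply (cfac_cd _ _ _).mul
  have h1 : ContDiff ℝ (⊤ : ℕ∞) (fun α : ℝ => ((α * (L * s.im) : ℝ) : ℂ)) :=
    Complex.ofRealCLM.contDiff.comp (contDiff_id.mul contDiff_const)
  exact (contDiff_const.mul h1).cexp

lemma DD_cont (S : Finset ℂ) (m : ℂ → ℝ) (L : ℝ) :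
    Continuous (Function.uncurry fun α t => DD S m L α t) := by
  simp only [Function.uncurry_def]
  unfold DD cfac
  fun_prop

/-- the shape of the transform -/
noncomputable def om (δ L ξ : ℝ) (s : ℂ) : ℝ := (1 + (δ * (L * s.im - 2 * Real.pi * ξ)) ^ 2)⁻¹

lemma om_pos (δ L ξ : ℝ) (s : ℂ) : 0 < om δ L ξ s := by unfold om; positivity

lemma om_int {δ L : ℝ} (hδ : 0 < δ) (s : ℂ) :
    Integrable (fun ξ => om δ L ξ s) ∧ ∫ ξ, om δ L ξ s = 1 / (2 * δ) := by
  have hpi := Real.pi_pos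
  have e : ∀ ξ, om δ L ξ s = (fun z : ℝ => (1 + z ^ 2)⁻¹) ((2 * Real.pi * δ) * ξ - δ * L * s.im) := by
    intro ξ
    unfold om
    simp only
    congr 2
    ring
  have hk : 2 * Real.pi * δ ≠ 0 := by positivity
  constructor
  · simp_rw [e]
    have h1 : Integrable (fun z : ℝ => (fun z : ℝ => (1 + z ^ 2)⁻¹) (z - δ * L * s.im)) :=
      integrable_inv_one_add_sq.comp_sub_right _
    exact h1.comp_mul_left' hk
  · simp_rw [e]
    rw [Measure.integral_comp_mul_left (fun z : ℝ => (fun z : ℝ => (1 + z ^ 2)⁻¹) (z - δ * L * s.im)),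
      integral_sub_right_eq_self (fun z : ℝ => (1 + z ^ 2)⁻¹), integral_univ_inv_one_add_sq,
      abs_of_pos (by positivity), smul_eq_mul]
    field_simp

lemma om_mul {δ L : ℝ} (ξ : ℝ) (s s' : ℂ) : om δ L ξ s * om δ L ξ s' ≤
    2 / (1 + (δ * (L * (s.im - s'.im))) ^ 2) * (om δ L ξ s + om δ L ξ s') := by
  unfold om
  set a := δ * (L * s.im - 2 * Real.pi * ξ) with ha
  set b := δ * (L * s'.im - 2 * Real.pi * ξ) with hb
  have h1 : δ * (L * (s.im - s'.im)) = a - b := by rw [ha, hb]; ring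
  rw [h1, inv_eq_one_div, inv_eq_one_div, div_mul_div_comm, div_add_div _ _ (by positivity) (by positivity),
    div_mul_div_comm, div_le_div_iff₀ (by positivity) (by positivity)]
  have h2 : 1 + (a - b) ^ 2 ≤ 2 * (1 * (1 + b ^ 2) + (1 + a ^ 2) * 1) := by nlinarith [sq_nonneg (a + b)]
  have h3 : 0 < (1 + a ^ 2) * (1 + b ^ 2) := by positivity
  calc 1 * 1 * ((1 + (a - b) ^ 2) * ((1 + a ^ 2) * (1 + b ^ 2))) =
      (1 + (a - b) ^ 2) * ((1 + a ^ 2) * (1 + b ^ 2)) := by ring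
    _ ≤ _ := mul_le_mul_of_nonneg_right h2 h3.le

lemma om_mul_int {δ L : ℝ} (hδ : 0 < δ) (s s' : ℂ) :
    Integrable (fun ξ => om δ L ξ s * om δ L ξ s') ∧
    ∫ ξ, om δ L ξ s * om δ L ξ s' ≤ 2 / δ * (1 / (1 + (δ * (L * (s.im - s'.im))) ^ 2)) := by
  obtain ⟨h1, h2⟩ := om_int (L := L) hδ s
  obtain ⟨h3, h4⟩ := om_int (L := L) hδ s'
  have hg : Integrable (fun ξ => 2 / (1 + (δ * (L * (s.im - s'.im))) ^ 2) *
      (om δ L ξ s + om δ L ξ s')) := (h1.add h3).const_mul _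
  have hc : ∀ w : ℂ, Continuous (fun ξ => om δ L ξ w) := by
    intro w
    unfold om
    apply Continuous.inv₀ (by fun_prop)
    intro x
    positivity
  have hi : Integrable (fun ξ => om δ L ξ s * om δ L ξ s') := by
    refine hg.mono' ((hc s).mul (hc s')).aestronglyMeasurable (Eventually.of_forall fun ξ => ?_)
    rw [Real.norm_of_nonneg (mul_pos (om_pos _ _ _ _) (om_pos _ _ _ _)).le]
    exact om_mul ξ s s'
  refine ⟨hi, ?_⟩
  calc ∫ ξ, om δ L ξ s * om δ L ξ s' ≤ ∫ ξ, 2 / (1 + (δ * (L * (s.im - s'.im))) ^ 2) *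
      (om δ L ξ s + om δ L ξ s') := integral_mono hi hg fun ξ => om_mul ξ s s'
    _ = 2 / δ * (1 / (1 + (δ * (L * (s.im - s'.im))) ^ 2)) := by
        rw [integral_const_mul, integral_add h1 h3, h2, h4]
        field_simp
        ring

/-- the Gaussian weight in `t` -/
lemma v_le (x : ℝ) : (1 + x ^ 2) * Real.exp (-x ^ 2 / 2) ≤ 4 * Real.exp (-x ^ 2 / 4) := by
  have h1 : 1 + x ^ 2 ≤ 4 * Real.exp (x ^ 2 / 4) := by
    have := Real.add_one_le_exp (x ^ 2 / 4)
    nlinarith [sq_nonneg x]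
  calc (1 + x ^ 2) * Real.exp (-x ^ 2 / 2) ≤ 4 * Real.exp (x ^ 2 / 4) * Real.exp (-x ^ 2 / 2) :=
        mul_le_mul_of_nonneg_right h1 (Real.exp_pos _).le
    _ = 4 * Real.exp (-x ^ 2 / 4) := by
        rw [mul_assoc, ← Real.exp_add]
        congr 2
        ring

/-- the transform of the cut-off off-line part -/
theorem four_bound {g0 : ℝ → ℝ} (hg : ContDiff ℝ (⊤ : ℕ∞) g0) {rr : ℝ} (hrr : 0 < rr)
    (hs : ∀ β, rr < |β| → g0 β = 0) : ∃ C : ℝ, 0 < C ∧ ∀ δ L : ℝ, 0 < δ → 1 ≤ δ * L →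
    ∀ (S : Finset ℂ) (m : ℂ → ℝ), (∀ s, 0 ≤ m s) → (∀ s ∈ S, |s.re - 1 / 2| ≤ 1 / 2) →
    ∀ t ξ : ℝ, ‖𝓕 (fun α : ℝ => (g0 (α / δ) : ℂ) * DD S m L α t) ξ‖ ≤
      ∑ s ∈ S, m s * (C * δ ^ 3 * (((s.re - 1 / 2) * L) ^ 2 *
        Real.exp (rr * δ * |(s.re - 1 / 2) * L|))) * om δ L ξ s * Real.exp (-(s.im - t) ^ 2 / 4) := by
  obtain ⟨C, hC, hk⟩ := kern hg hrr hs
  refine ⟨4 * C, by positivity, fun δ L hδ hδL S m hm hS t ξ => ?_⟩
  rw [Real.fourier_real_eq_integral_exp_smul]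
  have hcd : ∀ s : ℂ, Continuous (cfac (s.re - 1 / 2) (s.im - t) L) := fun s =>
    (cfac_cd _ _ _).continuous
  have hgc : Continuous g0 := hg.continuous
  set f : ℂ → ℝ → ℂ := fun s α => ((g0 (α / δ) : ℂ) * cfac (s.re - 1 / 2) (s.im - t) L α) *
    cexp (I * (α * (L * s.im - 2 * Real.pi * ξ) : ℝ)) with hf
  have hfc : ∀ s, Continuous (f s) := by
    intro s
    have := hcd s
    simp only [hf]
    fun_prop
  have hfi : ∀ s, Integrable (f s) := by
    intro s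
    apply (hfc s).integrable_of_hasCompactSupport
    apply HasCompactSupport.intro (isCompact_Icc (a := -(rr * δ)) (b := rr * δ))
    intro α hα
    have : rr < |α / δ| := by
      rw [abs_div, abs_of_pos hδ, lt_div_iff₀ hδ]
      by_contra hcon
      push Not at hcon
      exact hα (abs_le.1 hcon)
    simp only [hf]
    rw [hs _ this]
    simp
  have e1 : ∀ v : ℝ, cexp (((-2 * Real.pi * v * ξ : ℝ) : ℂ) * I) • ((g0 (v / δ) : ℂ) * DD S m L v t) =
      ∑ s ∈ S, ((m s * Real.exp (-(s.im - t) ^ 2 / 2) : ℝ) : ℂ) * f s v := by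
    intro v
    unfold DD
    rw [smul_eq_mul, Finset.mul_sum, Finset.mul_sum]
    refine Finset.sum_congr rfl fun s _ => ?_
    simp only [hf]
    have e2 : cexp (I * (v * (L * s.im - 2 * Real.pi * ξ) : ℝ)) =
        cexp (((-2 * Real.pi * v * ξ : ℝ) : ℂ) * I) * cexp (I * (v * (L * s.im) : ℝ)) := by
      rw [← Complex.exp_add]
      congr 1
      push_cast
      ring
    rw [e2]
    push_cast
    ring
  simp_rw [e1]
  rw [integral_finsetSum _ fun s _ => (hfi s).const_mul _]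
  refine (norm_sum_le _ _).trans (Finset.sum_le_sum fun s hsS => ?_)
  rw [integral_const_mul, norm_mul, Complex.norm_real, Real.norm_of_nonneg
    (mul_nonneg (hm s) (Real.exp_pos _).le)]
  have h1 := hk δ L hδ hδL (s.re - 1 / 2) (s.im - t) (L * s.im - 2 * Real.pi * ξ) (hS s hsS)
  have h2 : ‖∫ α : ℝ, f s α‖ ≤ C * δ ^ 3 * (((s.re - 1 / 2) * L) ^ 2 * (1 + (s.im - t) ^ 2) *
      Real.exp (rr * δ * |(s.re - 1 / 2) * L|)) * om δ L ξ s := by
    unfold om
    rw [← div_eq_mul_inv, le_div_iff₀ (by positivity)]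
    exact h1
  have h3 := v_le (s.im - t)
  have hms := hm s
  have hom := om_pos δ L ξ s
  calc m s * Real.exp (-(s.im - t) ^ 2 / 2) * ‖∫ α : ℝ, f s α‖ ≤
      m s * Real.exp (-(s.im - t) ^ 2 / 2) * (C * δ ^ 3 * (((s.re - 1 / 2) * L) ^ 2 *
        (1 + (s.im - t) ^ 2) * Real.exp (rr * δ * |(s.re - 1 / 2) * L|)) * om δ L ξ s) := by
        gcongr
    _ = (m s * (C * δ ^ 3 * (((s.re - 1 / 2) * L) ^ 2 *
        Real.exp (rr * δ * |(s.re - 1 / 2) * L|))) * om δ L ξ s) *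
        ((1 + (s.im - t) ^ 2) * Real.exp (-(s.im - t) ^ 2 / 2)) := by ring
    _ ≤ (m s * (C * δ ^ 3 * (((s.re - 1 / 2) * L) ^ 2 *
        Real.exp (rr * δ * |(s.re - 1 / 2) * L|))) * om δ L ξ s) *
        (4 * Real.exp (-(s.im - t) ^ 2 / 4)) := by gcongr
    _ = _ := by ring

/-- Plancherel for one `t` -/
theorem planch_t {g0 : ℝ → ℝ} (hg : ContDiff ℝ (⊤ : ℕ∞) g0) {rr : ℝ}
    (hs : ∀ β, rr < |β| → g0 β = 0) {δ : ℝ} (hδ : 0 < δ) (S : Finset ℂ) (m : ℂ → ℝ) (L t : ℝ) :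
    Integrable (fun α : ℝ => ‖(g0 (α / δ) : ℂ) * DD S m L α t‖ ^ 2) ∧
    ∫ α : ℝ, ‖(g0 (α / δ) : ℂ) * DD S m L α t‖ ^ 2 =
      ∫ ξ : ℝ, ‖𝓕 (fun α : ℝ => (g0 (α / δ) : ℂ) * DD S m L α t) ξ‖ ^ 2 := by
  have hcd : ContDiff ℝ (⊤ : ℕ∞) (fun α : ℝ => (g0 (α / δ) : ℂ) * DD S m L α t) := by
    apply ContDiff.mul _ (DD_cd S m L t)
    exact Complex.ofRealCLM.contDiff.comp (hg.comp (contDiff_id.div_const δ))
  have hcs : HasCompactSupport (fun α : ℝ => (g0 (α / δ) : ℂ) * DD S m L α t) := by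
    apply HasCompactSupport.intro (isCompact_Icc (a := -(rr * δ)) (b := rr * δ))
    intro α hα
    have : rr < |α / δ| := by
      rw [abs_div, abs_of_pos hδ, lt_div_iff₀ hδ]
      by_contra hcon
      push Not at hcon
      exact hα (abs_le.1 hcon)
    rw [hs _ this]
    simp
  constructor
  · have h1 := hcs.norm.comp_left (g := fun x : ℝ => x ^ 2) (by simp)
    exact (hcd.continuous.norm.pow 2).integrable_of_hasCompactSupport h1
  · have h := SchwartzMap.integral_norm_sq_fourier (hcs.toSchwartzMap hcd)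
    rw [SchwartzMap.fourier_coe] at h
    exact h.symm

/-- the mean square over `α` and `t` of the cut-off off-line part -/
theorem planch {g0 : ℝ → ℝ} (hg : ContDiff ℝ (⊤ : ℕ∞) g0) {rr : ℝ} (hrr : 0 < rr)
    (hs : ∀ β, rr < |β| → g0 β = 0) : ∃ C : ℝ, 0 < C ∧ ∀ δ L : ℝ, 0 < δ → 1 ≤ δ * L →
    ∀ (S : Finset ℂ) (m : ℂ → ℝ), (∀ s, 0 ≤ m s) → (∀ s ∈ S, |s.re - 1 / 2| ≤ 1 / 2) →
    ∫⁻ α : ℝ, ∫⁻ t : ℝ, ENNReal.ofReal (‖(g0 (α / δ) : ℂ) * DD S m L α t‖ ^ 2) ≤
      ENNReal.ofReal (C * δ ^ 5 * ∑ s ∈ S, ∑ s' ∈ S, (m s * (((s.re - 1 / 2) * L) ^ 2 *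
        Real.exp (rr * δ * |(s.re - 1 / 2) * L|))) * (m s' * (((s'.re - 1 / 2) * L) ^ 2 *
        Real.exp (rr * δ * |(s'.re - 1 / 2) * L|))) *
        (1 / (1 + (δ * (L * (s.im - s'.im))) ^ 2))) := by
  obtain ⟨C, hC, hF⟩ := four_bound hg hrr hs
  refine ⟨C ^ 2 * 2 * Real.sqrt (Real.pi / (1 / 4)), by positivity, fun δ L hδ hδL S m hm hS => ?_⟩
  set b : ℂ → ℝ := fun s => m s * (((s.re - 1 / 2) * L) ^ 2 *
        Real.exp (rr * δ * |(s.re - 1 / 2) * L|)) with hb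
  have hb0 : ∀ s, 0 ≤ b s := fun s => by simp only [hb]; have := hm s; positivity
  have hmeas : Continuous (Function.uncurry fun α t : ℝ => ‖(g0 (α / δ) : ℂ) * DD S m L α t‖ ^ 2) := by
    have h1 := DD_cont S m L
    have hgc : Continuous g0 := hg.continuous
    simp only [Function.uncurry_def] at h1 ⊢
    have h2 : Continuous fun a : ℝ × ℝ => ((g0 (a.1 / δ) : ℝ) : ℂ) := by fun_prop
    exact (h2.mul h1).norm.pow 2
  rw [lintegral_lintegral_swap hmeas.measurable.ennreal_ofReal.aemeasurable]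
  have hgt : ∀ t : ℝ, ∫⁻ α : ℝ, ENNReal.ofReal (‖(g0 (α / δ) : ℂ) * DD S m L α t‖ ^ 2) ≤
      ENNReal.ofReal (∑ s ∈ S, (∑ s' ∈ S, (C ^ 2 * 2 * δ ^ 5) * (b s * b s' *
        (1 / (1 + (δ * (L * (s.im - s'.im))) ^ 2)))) * Real.exp (-(s.im - t) ^ 2 / 4)) := by
    intro t
    obtain ⟨h1, h2⟩ := planch_t hg hs hδ S m L t
    rw [← ofReal_integral_eq_lintegral_ofReal h1 (Eventually.of_forall fun α => by positivity), h2]
    apply ENNReal.ofReal_le_ofReal
    set q : ℂ → ℝ := fun s => Real.exp (-(s.im - t) ^ 2 / 4) with hq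
    have hq0 : ∀ s, 0 < q s := fun s => Real.exp_pos _
    have hq1 : ∀ s, q s ≤ 1 := fun s => by
      simp only [hq]
      rw [Real.exp_le_one_iff]
      have := sq_nonneg (s.im - t)
      linarith
    have h3 : ∀ ξ : ℝ, ‖𝓕 (fun α : ℝ => (g0 (α / δ) : ℂ) * DD S m L α t) ξ‖ ^ 2 ≤
        ∑ s ∈ S, ∑ s' ∈ S, (C ^ 2 * δ ^ 6 * (b s * b s') * q s) * (om δ L ξ s * om δ L ξ s') := by
      intro ξ
      have h4 := hF δ L hδ hδL S m hm hS t ξ
      have h5 := pow_le_pow_left₀ (norm_nonneg _) h4 2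
      refine h5.trans ?_
      rw [sq, Finset.sum_mul_sum]
      refine Finset.sum_le_sum fun s _ => Finset.sum_le_sum fun s' _ => ?_
      have e0 : ∀ w : ℂ, m w * (C * δ ^ 3 * (((w.re - 1 / 2) * L) ^ 2 *
          Real.exp (rr * δ * |(w.re - 1 / 2) * L|))) * om δ L ξ w * Real.exp (-(w.im - t) ^ 2 / 4) =
          C * δ ^ 3 * b w * om δ L ξ w * q w := by
        intro w; simp only [hb, hq]; ring
      rw [e0, e0]
      have p1 := hb0 s
      have p2 := hb0 s'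
      have p3 := (om_pos δ L ξ s).le
      have p4 := (om_pos δ L ξ s').le
      calc C * δ ^ 3 * b s * om δ L ξ s * q s * (C * δ ^ 3 * b s' * om δ L ξ s' * q s') =
          (C ^ 2 * δ ^ 6 * (b s * b s') * q s) * (om δ L ξ s * om δ L ξ s') * q s' := by ring
        _ ≤ (C ^ 2 * δ ^ 6 * (b s * b s') * q s) * (om δ L ξ s * om δ L ξ s') * 1 := by
            have := hq1 s'
            have := (hq0 s).le
            gcongr
        _ = _ := mul_one _
    have hint : Integrable (fun ξ : ℝ => ∑ s ∈ S, ∑ s' ∈ S, (C ^ 2 * δ ^ 6 * (b s * b s') * q s) *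
        (om δ L ξ s * om δ L ξ s')) :=
      integrable_finsetSum _ fun s _ => integrable_finsetSum _ fun s' _ =>
        ((om_mul_int hδ s s').1.const_mul _)
    refine (integral_mono_of_nonneg (Eventually.of_forall fun ξ => by positivity) hint
      (Eventually.of_forall h3)).trans ?_
    rw [integral_finsetSum _ fun s _ => integrable_finsetSum _ fun s' _ =>
        ((om_mul_int hδ s s').1.const_mul _)]
    refine Finset.sum_le_sum fun s _ => ?_
    rw [integral_finsetSum _ fun s' _ => ((om_mul_int hδ s s').1.const_mul _), Finset.sum_mul]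
    refine Finset.sum_le_sum fun s' _ => ?_
    rw [integral_const_mul]
    have p1 := hb0 s
    have p2 := hb0 s'
    have p3 := (hq0 s).le
    calc C ^ 2 * δ ^ 6 * (b s * b s') * q s * ∫ ξ, om δ L ξ s * om δ L ξ s' ≤
        C ^ 2 * δ ^ 6 * (b s * b s') * q s *
          (2 / δ * (1 / (1 + (δ * (L * (s.im - s'.im))) ^ 2))) := by
          have := (om_mul_int (L := L) hδ s s').2
          gcongr
      _ = _ := by
          simp only [hq]
          field_simp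
  refine (lintegral_mono hgt).trans ?_
  have hgi : ∀ s : ℂ, Integrable (fun t : ℝ => Real.exp (-(s.im - t) ^ 2 / 4)) ∧
      ∫ t : ℝ, Real.exp (-(s.im - t) ^ 2 / 4) = Real.sqrt (Real.pi / (1 / 4)) := by
    intro s
    have e : ∀ t : ℝ, Real.exp (-(s.im - t) ^ 2 / 4) =
        (fun x : ℝ => Real.exp (-(1 / 4) * x ^ 2)) (s.im - t) := by
      intro t
      simp only
      congr 1
      ring
    constructor
    · simp_rw [e]
      exact (integrable_exp_neg_mul_sq (by norm_num)).comp_sub_left _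
    · simp_rw [e]
      rw [integral_sub_left_eq_self (fun x : ℝ => Real.exp (-(1 / 4) * x ^ 2)), integral_gaussian]
  have hnn : ∀ s s' : ℂ, 0 ≤ (C ^ 2 * 2 * δ ^ 5) * (b s * b s' *
        (1 / (1 + (δ * (L * (s.im - s'.im))) ^ 2))) := by
    intro s s'
    have p1 := hb0 s
    have p2 := hb0 s'
    positivity
  rw [← ofReal_integral_eq_lintegral_ofReal]
  · apply ENNReal.ofReal_le_ofReal
    rw [integral_finsetSum _ fun s _ => (hgi s).1.const_mul _]
    refine le_of_eq ?_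
    simp_rw [integral_const_mul, (hgi _).2, Finset.mul_sum, Finset.sum_mul]
    refine Finset.sum_congr rfl fun s _ => Finset.sum_congr rfl fun s' _ => ?_
    ring
  · exact integrable_finsetSum _ fun s _ => (hgi s).1.const_mul _
  · exact Eventually.of_forall fun t => Finset.sum_nonneg fun s _ =>
      mul_nonneg (Finset.sum_nonneg fun s' _ => hnn s s') (Real.exp_pos _).le

end Pool.Agent.Y750.OM
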