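import Pool.Agent.Y750.OM.Cells
import Pool.Agent.Y750.OM.Cnt
import Pool.Agent.Y750.OM.Dens
import Pool.Agent.Y750.OM.Planch

set_option autoImplicit false

/-! # The contribution of the zeros off the line -/

namespace Pool.Agent.Y750.OM

open Complex Filter Topology Set MeasureTheory
open H370 (Zf mult mem_Zf good_zeta zset)
open Pool.Agent.TH850.UR (ew)

/-- number of zeros off the line in a block, with multiplicity -/
noncomputable def NO (A B : ℝ) : ℝ :=
  ∑ s ∈ (Zf riemannZeta A B).filter (fun s => s.re ≠ 1 / 2), (mult riemannZeta s : ℝ)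

lemma NO_nonneg (A B : ℝ) : 0 ≤ NO A B := Finset.sum_nonneg fun _ _ => Nat.cast_nonneg _

/-- the weight of an off-line zero -/
noncomputable def bw (κ L : ℝ) (s : ℂ) : ℝ :=
  ((s.re - 1 / 2) * L) ^ 2 * Real.exp (κ * |(s.re - 1 / 2) * L|)

lemma bw_nonneg (κ L : ℝ) (s : ℂ) : 0 ≤ bw κ L s := by unfold bw; positivity

theorem off_bound {κ : ℝ} (hκ0 : 0 ≤ κ) (hκ : κ < 2 / 3) : ∃ C θ T0 : ℝ, 0 < C ∧ 0 < θ ∧ θ < 1 ∧
    10 ≤ T0 ∧ ∀ T : ℝ, T0 ≤ T → ∀ δ : ℝ, 0 < δ → δ ≤ 1 →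
    ∀ S : Finset ℂ, S ⊆ Zf riemannZeta T (2 * T) → ∀ κ' : ℝ, 0 ≤ κ' → κ' ≤ κ →
    ∑ s ∈ S, ∑ s' ∈ S, ((mult riemannZeta s : ℝ) * bw κ' (Real.log T) s) *
      ((mult riemannZeta s' : ℝ) * bw κ' (Real.log T) s') *
      (1 / (1 + (δ * (Real.log T * (s.im - s'.im))) ^ 2)) ≤
      C / δ * (NO T (2 * T) ^ θ * (T * Real.log T) ^ (1 - θ)) := by
  classical
  -- exponents
  set κ2 : ℝ := κ + 2 / 3 with hκ2
  have hκ20 : 0 < κ2 := by rw [hκ2]; linarith
  have hκ21 : κ2 < 4 / 3 := by rw [hκ2]; linarith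
  set τ : ℝ := (κ2 - 2 * κ) / 2 with hτ
  have hτ0 : 0 < τ := by rw [hτ, hκ2]; linarith
  have hb0 : 0 < 2 * κ + τ := by linarith
  have hb1 : 2 * κ + τ < κ2 := by rw [hτ, hκ2]; linarith
  set p : ℝ := Real.sqrt (κ2 / (2 * κ + τ)) with hp
  have hp2 : p * p = κ2 / (2 * κ + τ) := Real.mul_self_sqrt (by positivity)
  have hp1 : 1 < p := by
    rw [hp]
    apply Real.lt_sqrt_of_sq_lt
    rw [one_pow, lt_div_iff₀ hb0]
    linarith
  have hp0 : 0 < p := by linarith
  have hpe : (2 * κ + τ) * (p * p) = κ2 := by rw [hp2]; field_simp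
  set p' : ℝ := p / (p - 1) with hp'
  have hp'0 : 0 < p' := div_pos hp0 (by linarith)
  have hconj : p.HolderConjugate p' := Real.HolderConjugate.conjExponent hp1
  obtain ⟨q, hq⟩ : ∃ q : ℕ, p * p' ≤ q := exists_nat_ge _
  have hp'1 : 1 ≤ p' := hconj.symm.lt.le
  set cτ : ℝ := 24 / τ ^ 4 with hcτ
  have hcτ0 : 0 < cτ := by positivity
  obtain ⟨C1, hC1, hexp⟩ := expm hκ20.le hκ21
  obtain ⟨C0, hC0, hcnt⟩ := expm (κ := 0) le_rfl (by norm_num)
  obtain ⟨C2, T2, hC2, hT2, hmom⟩ := cntmom (q + 2) (by omega)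
  set Ctot : ℝ := cτ ^ (p * p) * C1 + C0 + 2 * (9 * Real.pi) ^ (q + 1) * C2 with hCtot
  have hCtot0 : 0 < Ctot := by
    have := Real.rpow_pos_of_pos hcτ0 (p * p)
    positivity
  refine ⟨Ctot ^ p⁻¹, 1 - p⁻¹, T2, Real.rpow_pos_of_pos hCtot0 _, ?_, ?_, hT2,
    fun T hT δ hδ hδ1 S hS κ' hκ'0 hκ' => ?_⟩
  · have := inv_lt_one_of_one_lt₀ hp1
    linarith
  · have := inv_pos.2 hp0
    linarith
  have hT10 : 10 ≤ T := hT2.trans hT
  have hT0 : 0 < T := by linarith
  set L := Real.log T with hL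
  have hL0 : 0 < L := Real.log_pos (by linarith)
  set m : ℂ → ℝ := fun s => (mult riemannZeta s : ℝ) with hm
  have hm0 : ∀ s, 0 ≤ m s := fun s => Nat.cast_nonneg _
  set b : ℂ → ℝ := fun s => bw κ' L s with hb
  have hbnn : ∀ s, 0 ≤ b s := fun s => bw_nonneg _ _ _
  set k : ℂ → ℂ → ℝ := fun s s' => 1 / (1 + (δ * (L * (s.im - s'.im))) ^ 2) with hk
  have hk0 : ∀ s s', 0 ≤ k s s' := fun s s' => by simp only [hk]; positivity
  have hks : ∀ s s', k s s' = k s' s := by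
    intro s s'
    simp only [hk]
    have : (δ * (L * (s.im - s'.im))) ^ 2 = (δ * (L * (s'.im - s.im))) ^ 2 := by ring
    rw [this]
  set W : ℂ → ℝ := fun s => ∑ s' ∈ S, m s' * k s s' with hW
  have hW0 : ∀ s, 0 ≤ W s := fun s => Finset.sum_nonneg fun s' _ => mul_nonneg (hm0 s') (hk0 _ _)
  set z : ℂ → ℝ := fun s => b s ^ 2 * (δ * W s) with hz
  have hz0 : ∀ s, 0 ≤ z s := fun s => by
    simp only [hz]
    have := hW0 s
    positivity
  -- symmetrisation
  have step1 : ∑ s ∈ S, ∑ s' ∈ S, (m s * b s) * (m s' * b s') * k s s' ≤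
      1 / δ * ∑ s ∈ S, m s * z s := by
    have h1 : ∑ s ∈ S, ∑ s' ∈ S, (m s * b s) * (m s' * b s') * k s s' ≤
        ∑ s ∈ S, ∑ s' ∈ S, (1 / 2 * (m s * b s ^ 2 * (m s' * k s s')) +
          1 / 2 * (m s' * b s' ^ 2 * (m s * k s' s))) := by
      refine Finset.sum_le_sum fun s _ => Finset.sum_le_sum fun s' _ => ?_
      rw [hks s' s]
      have h2 : b s * b s' ≤ (b s ^ 2 + b s' ^ 2) / 2 := by nlinarith [sq_nonneg (b s - b s')]
      have h3 : 0 ≤ m s * m s' * k s s' := mul_nonneg (mul_nonneg (hm0 _) (hm0 _)) (hk0 _ _)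
      calc m s * b s * (m s' * b s') * k s s' = (m s * m s' * k s s') * (b s * b s') := by ring
        _ ≤ (m s * m s' * k s s') * ((b s ^ 2 + b s' ^ 2) / 2) :=
            mul_le_mul_of_nonneg_left h2 h3
        _ = _ := by ring
    refine h1.trans (le_of_eq ?_)
    simp_rw [Finset.sum_add_distrib]
    rw [Finset.sum_comm (f := fun s s' => 1 / 2 * (m s' * b s' ^ 2 * (m s * k s' s)))]
    have h4 : ∑ s ∈ S, ∑ s' ∈ S, 1 / 2 * (m s * b s ^ 2 * (m s' * k s s')) =
        1 / 2 * ∑ s ∈ S, m s * b s ^ 2 * W s := by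
      rw [Finset.mul_sum]
      refine Finset.sum_congr rfl fun s _ => ?_
      simp only [hW, Finset.mul_sum]
    have h5 : 1 / δ * ∑ s ∈ S, m s * z s = ∑ s ∈ S, m s * b s ^ 2 * W s := by
      rw [Finset.mul_sum]
      refine Finset.sum_congr rfl fun s _ => ?_
      simp only [hz]
      field_simp
    rw [h4, h5]
    ring
  -- Hölder on the zeros off the line
  set So := S.filter (fun s => s.re ≠ 1 / 2) with hSo
  have step2 : ∑ s ∈ S, m s * z s = ∑ s ∈ So, m s * z s := by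
    rw [hSo, Finset.sum_filter]
    refine Finset.sum_congr rfl fun s _ => ?_
    split_ifs with h
    · rfl
    · push Not at h
      simp only [hz, hb, bw]
      rw [h]
      simp
  have step3 := Real.inner_le_weight_mul_Lp_of_nonneg So hp1.le m z hm0 hz0
  have hNO : ∑ s ∈ So, m s ≤ NO T (2 * T) := by
    unfold NO
    apply Finset.sum_le_sum_of_subset_of_nonneg
    · exact Finset.filter_subset_filter _ hS
    · intro s _ _
      exact hm0 s
  have hpt : ∀ s ∈ S, z s ^ p ≤ cτ ^ (p * p) * ew κ2 L s + (ew 0 L s + (δ * W s) ^ (q + 1)) := by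
    intro s _
    have hδW : 0 ≤ δ * W s := mul_nonneg hδ.le (hW0 s)
    have hx0 : 0 ≤ b s ^ 2 := by positivity
    set Y := |s.re - 1 / 2| * L with hY
    have hY0 : 0 ≤ Y := by positivity
    have hYe : |(s.re - 1 / 2) * L| = Y := by rw [abs_mul, abs_of_pos hL0]
    have hx : b s ^ 2 ≤ cτ * Real.exp ((2 * κ + τ) * Y) := by
      have e1 : b s ^ 2 = Y ^ 4 * Real.exp (2 * κ' * Y) := by
        simp only [hb, bw]
        rw [hYe, ← sq_abs ((s.re - 1 / 2) * L), hYe, mul_pow, ← pow_mul, ← Real.exp_nat_mul]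
        congr 2
        push_cast
        ring
      have e2 := Real.pow_div_factorial_le_exp (τ * Y) (by positivity) 4
      have e3 : Y ^ 4 ≤ cτ * Real.exp (τ * Y) := by
        rw [div_le_iff₀ (by positivity)] at e2
        rw [hcτ, div_mul_eq_mul_div, le_div_iff₀ (by positivity)]
        have : (Nat.factorial 4 : ℝ) = 24 := by norm_num [Nat.factorial]
        rw [this] at e2
        calc Y ^ 4 * τ ^ 4 = (τ * Y) ^ 4 := by ring
          _ ≤ _ := by linarith
      rw [e1]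
      calc Y ^ 4 * Real.exp (2 * κ' * Y) ≤ cτ * Real.exp (τ * Y) * Real.exp (2 * κ * Y) := by
            gcongr
        _ = cτ * Real.exp ((2 * κ + τ) * Y) := by
            rw [mul_assoc, ← Real.exp_add]
            congr 2
            ring
    have e4 : z s ^ p = (b s ^ 2) ^ p * (δ * W s) ^ p := Real.mul_rpow hx0 hδW
    have e5 := Real.young_inequality_of_nonneg (Real.rpow_nonneg hx0 p) (Real.rpow_nonneg hδW p) hconj
    rw [← Real.rpow_mul hx0, ← Real.rpow_mul hδW] at e5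
    rw [e4]
    refine e5.trans ?_
    have e6 : (b s ^ 2) ^ (p * p) / p ≤ cτ ^ (p * p) * ew κ2 L s := by
      calc (b s ^ 2) ^ (p * p) / p ≤ (b s ^ 2) ^ (p * p) := by
            apply div_le_self (Real.rpow_nonneg hx0 _) hp1.le
        _ ≤ (cτ * Real.exp ((2 * κ + τ) * Y)) ^ (p * p) :=
            Real.rpow_le_rpow hx0 hx (by positivity)
        _ = cτ ^ (p * p) * ew κ2 L s := by
            rw [Real.mul_rpow hcτ0.le (Real.exp_pos _).le, ← Real.exp_mul]
            unfold ew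
            congr 2
            rw [← hpe]
            ring
    have e7 : (δ * W s) ^ (p * p') / p' ≤ ew 0 L s + (δ * W s) ^ (q + 1) := by
      have h1 : (δ * W s) ^ (p * p') / p' ≤ (δ * W s) ^ (p * p') :=
        div_le_self (Real.rpow_nonneg hδW _) hp'1
      have h2 : ew 0 L s = 1 := by unfold ew; simp
      rw [h2]
      refine h1.trans ?_
      rcases le_total (δ * W s) 1 with h | h
      · have : (δ * W s) ^ (p * p') ≤ 1 := Real.rpow_le_one hδW h (by positivity)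
        have : 0 ≤ (δ * W s) ^ (q + 1) := by positivity
        linarith
      · have h3 : (δ * W s) ^ (p * p') ≤ (δ * W s) ^ ((q + 1 : ℕ) : ℝ) :=
          Real.rpow_le_rpow_of_exponent_le h (by push_cast; linarith)
        rw [Real.rpow_natCast] at h3
        linarith
    linarith
  have step4 : ∑ s ∈ So, m s * z s ^ p ≤ Ctot * (T * L) := by
    calc ∑ s ∈ So, m s * z s ^ p ≤ ∑ s ∈ S, m s * z s ^ p := by
          apply Finset.sum_le_sum_of_subset_of_nonneg (Finset.filter_subset _ _)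
          intro s _ _
          exact mul_nonneg (hm0 s) (Real.rpow_nonneg (hz0 s) _)
      _ ≤ ∑ s ∈ S, (cτ ^ (p * p) * (m s * ew κ2 L s) + (m s * ew 0 L s +
            m s * (δ * W s) ^ (q + 1))) := by
          refine Finset.sum_le_sum fun s hs => ?_
          have h1 := mul_le_mul_of_nonneg_left (hpt s hs) (hm0 s)
          refine h1.trans (le_of_eq ?_)
          ring
      _ = cτ ^ (p * p) * ∑ s ∈ S, m s * ew κ2 L s + (∑ s ∈ S, m s * ew 0 L s +
            ∑ s ∈ S, m s * (δ * W s) ^ (q + 1)) := by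
          rw [Finset.sum_add_distrib, Finset.sum_add_distrib, Finset.mul_sum]
      _ ≤ cτ ^ (p * p) * (C1 * (T * L)) + (C0 * (T * L) +
            2 * (9 * Real.pi) ^ (q + 1) * (L * (C2 * T))) := by
          have hsub : ∀ c : ℝ, ∑ s ∈ S, m s * ew c L s ≤
              ∑ s ∈ Zf riemannZeta T (2 * T), m s * ew c L s := by
            intro c
            apply Finset.sum_le_sum_of_subset_of_nonneg hS
            intro s _ _
            exact mul_nonneg (hm0 s) (Real.exp_pos _).le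
          have h1 := (hsub κ2).trans (hexp T hT10)
          have h2 := (hsub 0).trans (hcnt T hT10)
          have h3 := cell_moment q L δ hL0 hδ hδ1 S m hm0 (C2 * T) (by positivity) (by
            refine le_trans (lintegral_mono fun t => ?_) (hmom T hT)
            apply ENNReal.ofReal_le_ofReal
            apply pow_le_pow_left₀ (Finset.sum_nonneg fun s _ => hm0 s)
            apply Finset.sum_le_sum_of_subset_of_nonneg
            · exact Finset.filter_subset_filter _ hS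
            · intro s _ _
              exact hm0 s)
          have h4 : 0 ≤ cτ ^ (p * p) := Real.rpow_nonneg hcτ0.le _
          gcongr
      _ = Ctot * (T * L) := by rw [hCtot]; ring
  have hTL : 0 < T * L := by positivity
  have hso0 : 0 ≤ ∑ s ∈ So, m s := Finset.sum_nonneg fun s _ => hm0 s
  have hpinv : 0 ≤ 1 - p⁻¹ := by
    have := inv_lt_one_of_one_lt₀ hp1
    linarith
  calc ∑ s ∈ S, ∑ s' ∈ S, (m s * b s) * (m s' * b s') * k s s' ≤
      1 / δ * ∑ s ∈ S, m s * z s := step1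
    _ = 1 / δ * ∑ s ∈ So, m s * z s := by rw [step2]
    _ ≤ 1 / δ * ((∑ s ∈ So, m s) ^ (1 - p⁻¹) * (∑ s ∈ So, m s * z s ^ p) ^ p⁻¹) := by gcongr
    _ ≤ 1 / δ * (NO T (2 * T) ^ (1 - p⁻¹) * (Ctot * (T * L)) ^ p⁻¹) := by
        have h1 : (∑ s ∈ So, m s) ^ (1 - p⁻¹) ≤ NO T (2 * T) ^ (1 - p⁻¹) :=
          Real.rpow_le_rpow hso0 hNO hpinv
        have h2 : (∑ s ∈ So, m s * z s ^ p) ^ p⁻¹ ≤ (Ctot * (T * L)) ^ p⁻¹ :=
          Real.rpow_le_rpow (Finset.sum_nonneg fun s _ => mul_nonneg (hm0 s)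
            (Real.rpow_nonneg (hz0 s) _)) step4 (by positivity)
        have h3 : 0 ≤ (∑ s ∈ So, m s * z s ^ p) ^ p⁻¹ := Real.rpow_nonneg
          (Finset.sum_nonneg fun s _ => mul_nonneg (hm0 s) (Real.rpow_nonneg (hz0 s) _)) _
        have h4 : 0 ≤ NO T (2 * T) ^ (1 - p⁻¹) := Real.rpow_nonneg (NO_nonneg _ _) _
        gcongr
    _ = Ctot ^ p⁻¹ / δ * (NO T (2 * T) ^ (1 - p⁻¹) * (T * L) ^ (1 - (1 - p⁻¹))) := by
        rw [Real.mul_rpow hCtot0.le hTL.le, sub_sub_cancel]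
        ring

/-- the mean square of the cut-off off-line part -/
theorem D_bound {g0 : ℝ → ℝ} (hg : ContDiff ℝ (⊤ : ℕ∞) g0) {rr : ℝ} (hrr : 0 < rr)
    (hs : ∀ β, rr < |β| → g0 β = 0) {κ : ℝ} (hκ0 : 0 ≤ κ) (hκ : κ < 2 / 3) :
    ∃ C θ T0 : ℝ, 0 < C ∧ 0 < θ ∧ θ < 1 ∧
    10 ≤ T0 ∧ ∀ T : ℝ, T0 ≤ T → ∀ δ : ℝ, 0 < δ → δ ≤ 1 → rr * δ ≤ κ → 1 ≤ δ * Real.log T →
    ∀ S : Finset ℂ, S ⊆ Zf riemannZeta T (2 * T) →
    ∫⁻ α : ℝ, ∫⁻ t : ℝ, ENNReal.ofReal (‖(g0 (α / δ) : ℂ) *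
        DD S (fun s => (mult riemannZeta s : ℝ)) (Real.log T) α t‖ ^ 2) ≤
      ENNReal.ofReal (C * δ ^ 4 * (NO T (2 * T) ^ θ * (T * Real.log T) ^ (1 - θ))) := by
  obtain ⟨C, hC, hP⟩ := planch hg hrr hs
  obtain ⟨C', θ, T0, hC', hθ, hθ1, hT0, hO⟩ := off_bound hκ0 hκ
  refine ⟨C * C', θ, T0, by positivity, hθ, hθ1, hT0, fun T hT δ hδ hδ1 hδκ hδL S hS => ?_⟩
  have hT10 : 10 ≤ T := hT0.trans hT
  have h1 := hP δ (Real.log T) hδ hδL S (fun s => (mult riemannZeta s : ℝ))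
    (fun s => Nat.cast_nonneg _) (by
      intro s hsS
      have h2 := hS hsS
      rw [mem_Zf good_zeta (by linarith)] at h2
      rw [abs_le]
      constructor <;> linarith [h2.1, h2.2.1])
  refine h1.trans (ENNReal.ofReal_le_ofReal ?_)
  have h2 := hO T hT δ hδ hδ1 S hS (rr * δ) (by positivity) hδκ
  unfold bw at h2
  calc C * δ ^ 5 * ∑ s ∈ S, ∑ s' ∈ S, _ ≤ C * δ ^ 5 * (C' / δ * (NO T (2 * T) ^ θ *
      (T * Real.log T) ^ (1 - θ))) := by
        refine mul_le_mul_of_nonneg_left h2 (by positivity)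
    _ = _ := by field_simp

end Pool.Agent.Y750.OM
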