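import Pool.Agent.Y750.OM.Mom4
import Pool.Agent.Y750.OM.GSum
import Pool.Agent.Y750.OM.Fin

set_option autoImplicit false

/-! # The upper bound in the full range -/

namespace Pool.Agent.Y750.OM

open Complex Filter Topology Set MeasureTheory
open scoped FourierTransform BigOperators ComplexConjugate
open H370 (Zf mult mem_Zf good_zeta zset JJ JJ_cont NN NN_eq AA zz)
open H370.A2 (JN)

lemma GG_cd {ι : Type*} (S : Finset ι) (c z : ι → ℂ) (L t : ℝ) :
    ContDiff ℝ (⊤ : ℕ∞) (fun α : ℝ => GG S c z (α * L) t) := by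
  unfold GG
  apply ContDiff.sum
  intro s _
  apply contDiff_const.mul
  apply ContDiff.mul _ contDiff_const
  have h1 : ContDiff ℝ (⊤ : ℕ∞) (fun α : ℝ => ((α * L : ℝ) : ℂ)) :=
    Complex.ofRealCLM.contDiff.comp (contDiff_id.mul contDiff_const)
  exact ((contDiff_const.mul h1).mul contDiff_const).cexp

lemma GG_cont2 {ι : Type*} (S : Finset ι) (c z : ι → ℂ) (L : ℝ) :
    Continuous (Function.uncurry fun α t : ℝ => GG S c z (α * L) t) := by
  simp only [Function.uncurry_def]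
  unfold GG
  fun_prop

/-- Plancherel for a cut-off smooth function -/
theorem planch_gen {g0 : ℝ → ℝ} (hg : ContDiff ℝ (⊤ : ℕ∞) g0) {rr : ℝ}
    (hs : ∀ β, rr < |β| → g0 β = 0) {h : ℝ → ℂ} (hh : ContDiff ℝ (⊤ : ℕ∞) h) :
    Integrable (fun α : ℝ => ‖(g0 α : ℂ) * h α‖ ^ 2) ∧
    Integrable (fun ξ : ℝ => ‖𝓕 (fun α : ℝ => (g0 α : ℂ) * h α) ξ‖ ^ 2) ∧
    ∫ α : ℝ, ‖(g0 α : ℂ) * h α‖ ^ 2 =
      ∫ ξ : ℝ, ‖𝓕 (fun α : ℝ => (g0 α : ℂ) * h α) ξ‖ ^ 2 := by
  have hcd : ContDiff ℝ (⊤ : ℕ∞) (fun α : ℝ => (g0 α : ℂ) * h α) :=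
    (Complex.ofRealCLM.contDiff.comp hg).mul hh
  have hcs : HasCompactSupport (fun α : ℝ => (g0 α : ℂ) * h α) := by
    apply HasCompactSupport.intro (isCompact_Icc (a := -rr) (b := rr))
    intro α hα
    have : rr < |α| := by
      by_contra hcon
      push Not at hcon
      exact hα (abs_le.1 hcon)
    rw [hs _ this]
    simp
  refine ⟨?_, ?_, ?_⟩
  · have h1 := hcs.norm.comp_left (g := fun x : ℝ => x ^ 2) (by simp)
    exact (hcd.continuous.norm.pow 2).integrable_of_hasCompactSupport h1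
  · have h1 := (SchwartzMap.memLp (𝓕 (hcs.toSchwartzMap hcd)) 2 (volume : Measure ℝ)).integrable_norm_pow
      (by norm_num)
    rw [SchwartzMap.fourier_coe] at h1
    exact h1
  · have h := SchwartzMap.integral_norm_sq_fourier (hcs.toSchwartzMap hcd)
    rw [SchwartzMap.fourier_coe] at h
    exact h.symm

/-- the transform is additive -/
theorem four_sub {g0 : ℝ → ℝ} (hg : Continuous g0) {rr : ℝ}
    (hs : ∀ β, rr < |β| → g0 β = 0) {f1 f2 f3 : ℝ → ℂ} (h1 : Continuous f1) (h2 : Continuous f2)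
    (h3 : ∀ α, f3 α = f1 α - f2 α) (ξ : ℝ) :
    𝓕 (fun α : ℝ => (g0 α : ℂ) * f3 α) ξ = 𝓕 (fun α : ℝ => (g0 α : ℂ) * f1 α) ξ -
      𝓕 (fun α : ℝ => (g0 α : ℂ) * f2 α) ξ := by
  rw [Real.fourier_real_eq_integral_exp_smul, Real.fourier_real_eq_integral_exp_smul,
    Real.fourier_real_eq_integral_exp_smul]
  have hi : ∀ f : ℝ → ℂ, Continuous f → Integrable fun v : ℝ =>
      cexp (((-2 * Real.pi * v * ξ : ℝ) : ℂ) * I) • ((g0 v : ℂ) * f v) := by
    intro f hf
    have hc : Continuous fun v : ℝ =>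
        cexp (((-2 * Real.pi * v * ξ : ℝ) : ℂ) * I) • ((g0 v : ℂ) * f v) := by fun_prop
    apply hc.integrable_of_hasCompactSupport
    apply HasCompactSupport.intro (isCompact_Icc (a := -rr) (b := rr))
    intro α hα
    have : rr < |α| := by
      by_contra hcon
      push Not at hcon
      exact hα (abs_le.1 hcon)
    rw [hs _ this]
    simp
  rw [← integral_sub (hi f1 h1) (hi f2 h2)]
  congr 1
  funext v
  rw [h3]
  simp only [smul_eq_mul]
  ring

/-- the transform of the cut-off sum over the ordinates -/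
theorem four_ord {g0 : ℝ → ℝ} (hg : ContDiff ℝ (⊤ : ℕ∞) g0) {rr : ℝ} (hrr : 0 < rr)
    (hs : ∀ β, rr < |β| → g0 β = 0) : ∃ C : ℝ, 0 < C ∧ ∀ (L : ℝ) (S : Finset ℂ) (m : ℂ → ℝ),
    (∀ s, 0 ≤ m s) → ∀ t ξ : ℝ,
    ‖𝓕 (fun α : ℝ => (g0 α : ℂ) * GG S (fun s => (m s : ℂ)) (fun s => (s.im : ℂ)) (α * L) t) ξ‖ ≤
      C * ∑ s ∈ S, m s * om 1 L ξ s * Real.exp (-(s.im - t) ^ 2 / 4) := by
  have hcs : ∀ {f : ℝ → ℝ}, Continuous f → (∀ β, rr < |β| → f β = 0) → ∃ B : ℝ, 0 ≤ B ∧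
      ∀ β, |f β| ≤ B := by
    intro f hf hf0
    have hc : HasCompactSupport f := by
      apply HasCompactSupport.intro (isCompact_Icc (a := -rr) (b := rr))
      intro x hx
      apply hf0
      by_contra hcon
      push Not at hcon
      exact hx (abs_le.1 hcon)
    obtain ⟨B, hB⟩ := hc.exists_bound_of_continuous hf
    exact ⟨B, (norm_nonneg _).trans (hB 0), hB⟩
  have hd0 : ∀ β, HasDerivAt g0 (deriv g0 β) β := fun β =>
    (hg.differentiable (by simp)).differentiableAt.hasDerivAt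
  have hg1 : ContDiff ℝ (⊤ : ℕ∞) (deriv g0) := (contDiff_infty_iff_deriv.1 hg).2
  have hd1 : ∀ β, HasDerivAt (deriv g0) (deriv (deriv g0) β) β := fun β =>
    (hg1.differentiable (by simp)).differentiableAt.hasDerivAt
  have hg2 : ContDiff ℝ (⊤ : ℕ∞) (deriv (deriv g0)) := (contDiff_infty_iff_deriv.1 hg1).2
  have hz : ∀ {f : ℝ → ℝ}, (∀ β, rr < |β| → f β = 0) → ∀ β, rr < |β| → deriv f β = 0 := by
    intro f hf β hβ
    have he : f =ᶠ[𝓝 β] fun _ => 0 := by
      have : ∀ᶠ x in 𝓝 β, rr < |x| := (continuous_abs.continuousAt).eventually (lt_mem_nhds hβ)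
      exact this.mono fun x hx => hf x hx
    rw [he.deriv_eq]
    simp
  obtain ⟨G0, hG0, hb0⟩ := hcs hg.continuous hs
  obtain ⟨G2, hG2, hb2⟩ := hcs hg2.continuous (hz (hz hs))
  refine ⟨2 * rr * (G0 + 1 ^ 2 * G2) + 1, by positivity, fun L S m hm t ξ => ?_⟩
  set C := 2 * rr * (G0 + 1 ^ 2 * G2) + 1 with hC
  rw [Real.fourier_real_eq_integral_exp_smul]
  set f : ℂ → ℝ → ℂ := fun s α => (g0 α : ℂ) *
    cexp (I * (α * (L * s.im - 2 * Real.pi * ξ) : ℝ)) with hf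
  have hgc : Continuous g0 := hg.continuous
  have hfi : ∀ s, Integrable (f s) := by
    intro s
    have hfc : Continuous (f s) := by
      simp only [hf]
      fun_prop
    apply hfc.integrable_of_hasCompactSupport
    apply HasCompactSupport.intro (isCompact_Icc (a := -rr) (b := rr))
    intro α hα
    have : rr < |α| := by
      by_contra hcon
      push Not at hcon
      exact hα (abs_le.1 hcon)
    simp only [hf]
    rw [hs _ this]
    simp
  have e1 : ∀ v : ℝ, cexp (((-2 * Real.pi * v * ξ : ℝ) : ℂ) * I) • ((g0 v : ℂ) *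
      GG S (fun s => (m s : ℂ)) (fun s => (s.im : ℂ)) (v * L) t) =
      ∑ s ∈ S, ((m s * Real.exp (-(s.im - t) ^ 2 / 2) : ℝ) : ℂ) * f s v := by
    intro v
    unfold GG
    rw [smul_eq_mul, Finset.mul_sum, Finset.mul_sum]
    refine Finset.sum_congr rfl fun s _ => ?_
    simp only [hf]
    have e2 : cexp (I * (v * (L * s.im - 2 * Real.pi * ξ) : ℝ)) =
        cexp (((-2 * Real.pi * v * ξ : ℝ) : ℂ) * I) * cexp (I * ((v * L : ℝ) : ℂ) * (s.im : ℂ)) := by
      rw [← Complex.exp_add]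
      congr 1
      push_cast
      ring
    have e3 : ((Real.exp (-(s.im - t) ^ 2 / 2) : ℝ) : ℂ) = cexp (-((s.im : ℂ) - t) ^ 2 / 2) := by
      push_cast
      rfl
    rw [e2, ← e3, Complex.ofReal_mul (m s)]
    ring
  simp_rw [e1]
  rw [integral_finsetSum _ fun s _ => (hfi s).const_mul _, Finset.mul_sum]
  refine (norm_sum_le _ _).trans (Finset.sum_le_sum fun s hsS => ?_)
  rw [integral_const_mul, norm_mul, Complex.norm_real, Real.norm_of_nonneg
    (mul_nonneg (hm s) (Real.exp_pos _).le)]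
  have h1 := decay (k := fun α => (g0 α : ℂ)) (k1 := fun α => ((deriv g0 α : ℝ) : ℂ))
    (k2 := fun α => ((deriv (deriv g0) α : ℝ) : ℂ)) (fun α => (hd0 α).ofReal_comp)
    (fun α => (hd1 α).ofReal_comp) (Complex.continuous_ofReal.comp hg2.continuous) hrr.le
    (fun α hα => by rw [hs α hα]; simp) (fun α hα => by rw [hz (hz hs) α hα]; simp)
    (B0 := G0) (B2 := G2) (fun α _ => by rw [Complex.norm_real]; exact hb0 α)
    (fun α _ => by rw [Complex.norm_real]; exact hb2 α) (δ := 1) (L * s.im - 2 * Real.pi * ξ)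
  have h2 : ‖∫ α : ℝ, f s α‖ ≤ C * om 1 L ξ s := by
    unfold om
    rw [← div_eq_mul_inv, le_div_iff₀ (by positivity)]
    exact h1.trans (by rw [hC]; linarith)
  have h3 : Real.exp (-(s.im - t) ^ 2 / 2) ≤ Real.exp (-(s.im - t) ^ 2 / 4) := by
    apply Real.exp_le_exp.2
    have := sq_nonneg (s.im - t)
    linarith
  have hms := hm s
  have hom := om_pos 1 L ξ s
  have hC0 : 0 < C := by positivity
  calc m s * Real.exp (-(s.im - t) ^ 2 / 2) * ‖∫ α : ℝ, f s α‖ ≤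
      m s * Real.exp (-(s.im - t) ^ 2 / 4) * (C * om 1 L ξ s) := by gcongr
    _ = _ := by ring

/-- the weight in `t` -/
lemma q_int (s : ℂ) : Integrable (fun t : ℝ => Real.exp (-(s.im - t) ^ 2 / 4)) ∧
    ∫ t : ℝ, Real.exp (-(s.im - t) ^ 2 / 4) = Real.sqrt (Real.pi / (1 / 4)) := by
  have e : ∀ t : ℝ, Real.exp (-(s.im - t) ^ 2 / 4) =
      (fun x : ℝ => Real.exp (-(1 / 4) * x ^ 2)) (s.im - t) := by
    intro t
    simp only
    congr 1
    ring
  constructor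
  · simp_rw [e]
    exact (integrable_exp_neg_mul_sq (by norm_num)).comp_sub_left _
  · simp_rw [e]
    rw [integral_sub_left_eq_self (fun x : ℝ => Real.exp (-(1 / 4) * x ^ 2)), integral_gaussian]

lemma pt_ineq (F G E e h η : ℝ) (hη : 0 < η) (hF : 0 ≤ F) (hG : 0 ≤ G) (hE : 0 ≤ E)
    (hGFE : G ≤ F + E) (hEe : E ≤ e) (hGh : G ≤ h) :
    G ^ 2 ≤ (1 + η) * F ^ 2 + (1 + 2 / η) * e + η * h ^ 4 := by
  have he : 0 ≤ e := hE.trans hEe
  have hh : 0 ≤ h := hG.trans hGh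
  rcases le_total e 1 with h1 | h1
  · have h2 : G ^ 2 ≤ (1 + η) * F ^ 2 + (1 + 1 / η) * E ^ 2 := by
      have h3 : G ^ 2 ≤ (F + E) ^ 2 := pow_le_pow_left₀ hG hGFE 2
      have h4 : 0 ≤ (η * F - E) ^ 2 / η := by positivity
      have h5 : (η * F - E) ^ 2 / η = η * F ^ 2 + 1 / η * E ^ 2 - 2 * F * E := by
        field_simp; ring
      nlinarith only [h3, h4, h5]
    have h3 : E ^ 2 ≤ e := by
      calc E ^ 2 ≤ e ^ 2 := pow_le_pow_left₀ hE hEe 2
        _ ≤ e := by nlinarith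
    have h4 : (1 + 1 / η) * E ^ 2 ≤ (1 + 2 / η) * e := by
      have : 1 / η ≤ 2 / η := by gcongr; norm_num
      gcongr
    have h5 : 0 ≤ η * h ^ 4 := by positivity
    linarith
  · have h2 : G ^ 2 ≤ h ^ 2 := pow_le_pow_left₀ hG hGh 2
    have h3 : h ^ 2 ≤ 1 / η * e + η * h ^ 4 := by
      have h4 : 0 ≤ (η * h ^ 2 - 1) ^ 2 / η := by positivity
      have h5 : (η * h ^ 2 - 1) ^ 2 / η = η * h ^ 4 - 2 * h ^ 2 + 1 / η := by
        field_simp; ring
      have h6 : 1 / η ≤ 1 / η * e := by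
        have : 0 < 1 / η := by positivity
        nlinarith
      have h7 : 0 ≤ h ^ 2 := sq_nonneg h
      linarith
    have h4 : 0 ≤ (1 + η) * F ^ 2 := by positivity
    have h5 : 1 / η * e ≤ (1 + 2 / η) * e := by
      have : 1 / η ≤ 1 + 2 / η := by
        have : 1 / η ≤ 2 / η := by gcongr; norm_num
        linarith
      gcongr
    linarith

/-- the comparison at one `t` -/
theorem up_t {g0 : ℝ → ℝ} (hg : ContDiff ℝ (⊤ : ℕ∞) g0) {rr : ℝ} (hrr : 0 < rr)
    (hs : ∀ β, rr < |β| → g0 β = 0) : ∃ C : ℝ, 0 < C ∧ ∀ L : ℝ, 1 ≤ L →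
    ∀ A B : ℝ, 1 ≤ A → ∀ η : ℝ, 0 < η → ∀ t : ℝ,
    ∫ α : ℝ, ‖(g0 α : ℂ) * GG (Zf riemannZeta A B) (fun s => ((mult riemannZeta s : ℝ) : ℂ))
      (fun s => (s.im : ℂ)) (α * L) t‖ ^ 2 ≤
    (1 + η) * (∫ α : ℝ, ‖(g0 α : ℂ) * AA riemannZeta A B (α * L) t‖ ^ 2) +
    ∑ s ∈ Zf riemannZeta A B, (C * (1 + 2 / η) * ((mult riemannZeta s : ℝ) * bw rr L s) +
      C * η * ∫ ξ : ℝ, (mult riemannZeta s : ℝ) * om 1 L ξ s *
        (∑ s' ∈ Zf riemannZeta A B, (mult riemannZeta s' : ℝ) * om 1 L ξ s') ^ 3) *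
      Real.exp (-(s.im - t) ^ 2 / 4) := by
  obtain ⟨C1, hC1, hFB⟩ := four_bound hg hrr hs
  obtain ⟨C2, hC2, hFO⟩ := four_ord hg hrr hs
  refine ⟨C1 + C2 ^ 4, by positivity, fun L hL A B hA η hη t => ?_⟩
  have hL0 : 0 < L := by linarith
  set S := Zf riemannZeta A B with hS
  set m : ℂ → ℝ := fun s => (mult riemannZeta s : ℝ) with hm
  have hm0 : ∀ s, 0 ≤ m s := fun s => Nat.cast_nonneg _
  set q : ℂ → ℝ := fun s => Real.exp (-(s.im - t) ^ 2 / 4) with hq
  have hq0 : ∀ s, 0 < q s := fun s => Real.exp_pos _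
  have hq1 : ∀ s, q s ≤ 1 := fun s => by
    simp only [hq]
    rw [Real.exp_le_one_iff]
    have := sq_nonneg (s.im - t)
    linarith
  have hAG : ∀ u : ℝ, AA riemannZeta A B u t = GG S (fun s => (mult riemannZeta s : ℂ)) zz u t := by
    intro u
    rw [H370.AA_eq good_zeta hA]
    unfold GG
    exact Finset.sum_congr rfl fun s _ => by rw [H370.hh_eq]
  have hcdG := GG_cd S (fun s => (m s : ℂ)) (fun s => (s.im : ℂ)) L t
  have hcdA : ContDiff ℝ (⊤ : ℕ∞) (fun α : ℝ => AA riemannZeta A B (α * L) t) := by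
    simp_rw [hAG]
    exact GG_cd S _ _ L t
  have hcdD := DD_cd S m L t
  obtain ⟨-, i1, e1⟩ := planch_gen hg hs hcdG
  obtain ⟨-, i2, e2⟩ := planch_gen hg hs hcdA
  set Fh : ℝ → ℂ := 𝓕 (fun α : ℝ => (g0 α : ℂ) * AA riemannZeta A B (α * L) t) with hFh
  set Gh : ℝ → ℂ := 𝓕 (fun α : ℝ => (g0 α : ℂ) *
    GG S (fun s => (m s : ℂ)) (fun s => (s.im : ℂ)) (α * L) t) with hGh
  set Eh : ℝ → ℂ := 𝓕 (fun α : ℝ => (g0 α : ℂ) * DD S m L α t) with hEh
  have hGFE : ∀ ξ, Gh ξ = Fh ξ - Eh ξ := by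
    intro ξ
    exact four_sub hg.continuous hs hcdA.continuous hcdD.continuous (fun α => by
      rw [AA_split (B := B) hA L α t]; ring) ξ
  set Om : ℝ → ℝ := fun ξ => ∑ s' ∈ S, m s' * om 1 L ξ s' with hOm
  have hOm0 : ∀ ξ, 0 ≤ Om ξ := fun ξ => Finset.sum_nonneg fun s _ =>
    mul_nonneg (hm0 s) (om_pos _ _ _ _).le
  have homc : ∀ w : ℂ, Continuous (fun ξ => om 1 L ξ w) := by
    intro w
    unfold om
    apply Continuous.inv₀ (by fun_prop)
    intro x
    positivity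
  have hOmc : Continuous Om := continuous_finsetSum _ fun s _ => continuous_const.mul (homc s)
  have hom1 : ∀ ξ w, om 1 L ξ w ≤ 1 := by
    intro ξ w
    unfold om
    apply inv_le_one_of_one_le₀
    have := sq_nonneg (1 * (L * w.im - 2 * Real.pi * ξ))
    linarith
  have hOmb : ∀ ξ, Om ξ ≤ ∑ s' ∈ S, m s' := by
    intro ξ
    refine Finset.sum_le_sum fun s _ => ?_
    have := mul_le_mul_of_nonneg_left (hom1 ξ s) (hm0 s)
    simpa using this
  set Mt := ∑ s' ∈ S, m s' with hMt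
  have hMt0 : 0 ≤ Mt := Finset.sum_nonneg fun s _ => hm0 s
  have hwi : ∀ s, Integrable (fun ξ => m s * om 1 L ξ s * Om ξ ^ 3) := by
    intro s
    have h1 : Integrable (fun ξ => m s * Mt ^ 3 * om 1 L ξ s) :=
      (om_int one_pos s).1.const_mul _
    refine h1.mono' ((continuous_const.mul (homc s)).mul (hOmc.pow 3)).aestronglyMeasurable
      (Eventually.of_forall fun ξ => ?_)
    have p1 := hm0 s
    have p2 := (om_pos 1 L ξ s).le
    have p3 := hOm0 ξ
    rw [Real.norm_of_nonneg (by positivity)]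
    calc m s * om 1 L ξ s * Om ξ ^ 3 ≤ m s * om 1 L ξ s * Mt ^ 3 := by
          have := hOmb ξ
          gcongr
      _ = _ := by ring
  -- the pointwise inequality
  have hpt : ∀ ξ, ‖Gh ξ‖ ^ 2 ≤ (1 + η) * ‖Fh ξ‖ ^ 2 +
      ∑ s ∈ S, ((C1 * (1 + 2 / η) * (m s * bw rr L s)) * q s * om 1 L ξ s +
        C2 ^ 4 * η * q s * (m s * om 1 L ξ s * Om ξ ^ 3)) := by
    intro ξ
    have h1 : ‖Gh ξ‖ ≤ ‖Fh ξ‖ + ‖Eh ξ‖ := by rw [hGFE]; exact norm_sub_le _ _
    have h2 := hFB 1 L one_pos (by linarith) S m hm0 (by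
      intro s hsS
      rw [hS, mem_Zf good_zeta hA] at hsS
      rw [abs_le]
      constructor <;> linarith [hsS.1, hsS.2.1]) t ξ
    have h2' : ‖Eh ξ‖ ≤ ∑ s ∈ S, C1 * (m s * bw rr L s) * om 1 L ξ s * q s := by
      have e3 : (fun α : ℝ => (g0 (α / 1) : ℂ) * DD S m L α t) =
          fun α : ℝ => (g0 α : ℂ) * DD S m L α t := by
        funext α; rw [div_one]
      rw [e3] at h2
      refine h2.trans (le_of_eq ?_)
      refine Finset.sum_congr rfl fun s _ => ?_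
      simp only [bw, hq]
      ring_nf
    have h3 := hFO L S m hm0 t ξ
    have h4 := pt_ineq ‖Fh ξ‖ ‖Gh ξ‖ ‖Eh ξ‖ _ _ η hη (norm_nonneg _) (norm_nonneg _)
      (norm_nonneg _) h1 h2' h3
    refine h4.trans ?_
    rw [add_assoc]
    refine add_le_add le_rfl ?_
    rw [Finset.sum_add_distrib]
    apply add_le_add
    · rw [Finset.mul_sum]
      refine le_of_eq (Finset.sum_congr rfl fun s _ => ?_)
      ring
    · have h5 : (∑ s ∈ S, m s * om 1 L ξ s * q s) ^ 4 ≤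
          ∑ s ∈ S, q s * (m s * om 1 L ξ s * Om ξ ^ 3) := by
        have h6 : ∑ s ∈ S, m s * om 1 L ξ s * q s ≤ Om ξ := by
          refine Finset.sum_le_sum fun s _ => ?_
          have := mul_le_mul_of_nonneg_left (hq1 s) (mul_nonneg (hm0 s) (om_pos 1 L ξ s).le)
          simpa using this
        have h7 : 0 ≤ ∑ s ∈ S, m s * om 1 L ξ s * q s := Finset.sum_nonneg fun s _ =>
          mul_nonneg (mul_nonneg (hm0 s) (om_pos 1 L ξ s).le) (hq0 s).le
        calc (∑ s ∈ S, m s * om 1 L ξ s * q s) ^ 4 =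
            (∑ s ∈ S, m s * om 1 L ξ s * q s) * (∑ s ∈ S, m s * om 1 L ξ s * q s) ^ 3 := by ring
          _ ≤ (∑ s ∈ S, m s * om 1 L ξ s * q s) * Om ξ ^ 3 := by gcongr
          _ = _ := by
            rw [Finset.sum_mul]
            exact Finset.sum_congr rfl fun s _ => by ring
      calc η * (C2 * ∑ s ∈ S, m s * om 1 L ξ s * q s) ^ 4 =
          C2 ^ 4 * η * (∑ s ∈ S, m s * om 1 L ξ s * q s) ^ 4 := by ring
        _ ≤ C2 ^ 4 * η * ∑ s ∈ S, q s * (m s * om 1 L ξ s * Om ξ ^ 3) := by gcongr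
        _ = _ := by
          rw [Finset.mul_sum]
          exact Finset.sum_congr rfl fun s _ => by ring
  have hterm : ∀ s, Integrable (fun ξ => (C1 * (1 + 2 / η) * (m s * bw rr L s)) * q s * om 1 L ξ s +
        C2 ^ 4 * η * q s * (m s * om 1 L ξ s * Om ξ ^ 3)) := fun s =>
    ((om_int one_pos s).1.const_mul _).add ((hwi s).const_mul _)
  have i2' : Integrable (fun ξ => (1 + η) * ‖Fh ξ‖ ^ 2) := i2.const_mul _
  have i3 : Integrable (fun ξ => ∑ s ∈ S, ((C1 * (1 + 2 / η) * (m s * bw rr L s)) * q s * om 1 L ξ s +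
        C2 ^ 4 * η * q s * (m s * om 1 L ξ s * Om ξ ^ 3))) :=
    integrable_finsetSum _ fun s _ => hterm s
  calc ∫ α : ℝ, ‖(g0 α : ℂ) * GG S (fun s => (m s : ℂ)) (fun s => (s.im : ℂ)) (α * L) t‖ ^ 2 =
      ∫ ξ, ‖Gh ξ‖ ^ 2 := e1
    _ ≤ ∫ ξ, ((1 + η) * ‖Fh ξ‖ ^ 2 +
      ∑ s ∈ S, ((C1 * (1 + 2 / η) * (m s * bw rr L s)) * q s * om 1 L ξ s +
        C2 ^ 4 * η * q s * (m s * om 1 L ξ s * Om ξ ^ 3))) := integral_mono i1 (i2'.add i3) hpt
    _ = (1 + η) * (∫ ξ, ‖Fh ξ‖ ^ 2) + ∑ s ∈ S, ((C1 * (1 + 2 / η) * (m s * bw rr L s)) * q s *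
          (1 / (2 * 1)) + C2 ^ 4 * η * q s * ∫ ξ, m s * om 1 L ξ s * Om ξ ^ 3) := by
        rw [integral_add i2' i3, integral_const_mul, integral_finsetSum _ fun s _ => hterm s]
        congr 1
        refine Finset.sum_congr rfl fun s _ => ?_
        rw [integral_add ((om_int one_pos s).1.const_mul _) ((hwi s).const_mul _),
          integral_const_mul, integral_const_mul, (om_int one_pos s).2]
    _ ≤ _ := by
        rw [← e2]
        refine add_le_add le_rfl (Finset.sum_le_sum fun s _ => ?_)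
        have p1 := hm0 s
        have p2 := bw_nonneg rr L s
        have p3 := (hq0 s).le
        have p4 : 0 ≤ ∫ ξ, m s * om 1 L ξ s * Om ξ ^ 3 := integral_nonneg fun ξ => by
          have := (om_pos 1 L ξ s).le
          have := hOm0 ξ
          show 0 ≤ m s * om 1 L ξ s * Om ξ ^ 3
          positivity
        have h1 : (C1 * (1 + 2 / η) * (m s * bw rr L s)) * q s * (1 / (2 * 1)) ≤
            (C1 + C2 ^ 4) * (1 + 2 / η) * (m s * bw rr L s) * q s := by
          have h2 : (C1 * (1 + 2 / η) * (m s * bw rr L s)) * q s * (1 / (2 * 1)) ≤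
              (C1 * (1 + 2 / η) * (m s * bw rr L s)) * q s * 1 := by
            gcongr
            norm_num
          refine h2.trans ?_
          rw [mul_one]
          have : C1 ≤ C1 + C2 ^ 4 := by
            have : 0 < C2 ^ 4 := by positivity
            linarith
          gcongr
        have h2 : C2 ^ 4 * η * q s * (∫ ξ, m s * om 1 L ξ s * Om ξ ^ 3) ≤
            (C1 + C2 ^ 4) * η * (∫ ξ, m s * om 1 L ξ s * Om ξ ^ 3) * q s := by
          have : C2 ^ 4 ≤ C1 + C2 ^ 4 := by linarith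
          calc C2 ^ 4 * η * q s * (∫ ξ, m s * om 1 L ξ s * Om ξ ^ 3) =
              C2 ^ 4 * η * (∫ ξ, m s * om 1 L ξ s * Om ξ ^ 3) * q s := by ring
            _ ≤ _ := by gcongr
        calc _ ≤ (C1 + C2 ^ 4) * (1 + 2 / η) * (m s * bw rr L s) * q s +
            (C1 + C2 ^ 4) * η * (∫ ξ, m s * om 1 L ξ s * Om ξ ^ 3) * q s := add_le_add h1 h2
          _ = _ := by ring

end Pool.Agent.Y750.OM
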